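import Mathlib
import Pool.Agent.Lib.MP_e52354_ntP.Back1
import Pool.Agent.Lib.MP_e52354_ntP.Back3
import Pool.Agent.Lib.MP_e52354_ntP.Back7
import Pool.Agent.Lib.MP_e52354_ntP.Back8
import Pool.Agent.Lib.MP_e52354_ntP.Back10
import Pool.Agent.Lib.MP_e52354_ntP.Hilb

/-!
A hypersurface with independent coefficients, a further derivation killing the coefficients, and a
point of a bounded plane: the abstract situation.
-/

set_option linter.unusedSectionVars false

namespace Pool.Agent.Lib.MP_44a246_ntH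

open Pool.Agent.Lib.MP_e52354_nt
open Pool.Agent.Lib.MP_e52354_ntP
open MvPolynomial

universe u

/-- weights: a filtration by additive subgroups, with the properties of the weights of scalars -/
structure Wts {M : Type u} [Field M] (K : Subfield M) {s : ℕ} (p : Fin s → M)
    (G : ℕ → AddSubgroup M) : Prop where
  alg : ∀ y : M, IsAlgebraic K y → y ∈ K
  KG : ∀ y ∈ K, y ∈ G 0
  GK : ∀ y ∈ G 0, y ∈ K
  mul : ∀ (w w' : ℕ) (y z : M), y ∈ G w → z ∈ G w' → y * z ∈ G (w + w')
  coord : ∀ i, p i ∈ G 1
  down : ∀ (w v : ℕ) (y : M), (∀ l, p l ≠ 0 → y * p l ^ w ∈ G (w + v)) → y ∈ G v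
  nb : ∀ (w : ℕ) (y : M), (∀ l, p l ≠ 0 → y * p l ^ (w + 1) ∈ G w) → y = 0

/-- a hypersurface `∑ A J x^J = 0` over `K` with derivations dual to its coefficients, a derivation
`E` killing them, and a point with weights -/
structure HCtx {M : Type u} [Field M] (K : Subfield M) {s : ℕ} (d : ℕ)
    (D : (Fin s →₀ ℕ) → Derivation ℤ M M) (E : Derivation ℤ M M) (A : (Fin s →₀ ℕ) → K)
    (p : Fin s → M) (G : ℕ → AddSubgroup M) : Prop where
  W : Wts K p G
  DK : ∀ J, ∀ y ∈ K, D J y ∈ K
  EK : ∀ y ∈ K, E y ∈ K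
  DA : ∀ I ∈ expo (Fin s) d, ∀ J ∈ expo (Fin s) d, D I (A J : M) = if I = J then 1 else 0
  EA : ∀ J, E (A J : M) = 0
  F0 : Fval d (fun J => (A J : M)) p = 0
  Ep : ∃ k, E (p k) ≠ 0
  wD : ∀ J ∈ expo (Fin s) d, ∀ i j, p i * D J (p j) - p j * D J (p i) ∈ G 2
  wE : ∀ i j, p i * E (p j) - p j * E (p i) ∈ G 2
  wDE : ∀ J ∈ expo (Fin s) d, ∀ i j, E (p i) * D J (p j) - E (p j) * D J (p i) ∈ G 3

section WtsLemmas

variable {M : Type u} [Field M] {K : Subfield M} {s : ℕ} {p : Fin s → M} {G : ℕ → AddSubgroup M}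

theorem Wts.smul (h : Wts K p G) {w : ℕ} {c y : M} (hc : c ∈ K) (hy : y ∈ G w) :
    c * y ∈ G w := by
  have := h.mul 0 w c y (h.KG c hc) hy
  rwa [zero_add] at this

theorem Wts.pow (h : Wts K p G) {w : ℕ} {y : M} (hy : y ∈ G w) (n : ℕ) : y ^ n ∈ G (w * n) := by
  induction n with
  | zero =>
    rw [pow_zero, mul_zero]
    exact h.KG _ (one_mem _)
  | succ n ih =>
    rw [pow_succ, Nat.mul_succ]
    exact h.mul _ _ _ _ ih hy

theorem Wts.mon (h : Wts K p G) (J : Fin s →₀ ℕ) : mon p J ∈ G J.degree := by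
  unfold Pool.Agent.Lib.MP_e52354_nt.mon
  rw [Finsupp.degree_eq_sum]
  have : ∀ S : Finset (Fin s), ∏ k ∈ S, p k ^ J k ∈ G (∑ k ∈ S, J k) := by
    intro S
    induction S using Finset.induction_on with
    | empty => rw [Finset.prod_empty]; exact h.KG _ (one_mem _)
    | insert i S hi ih =>
      rw [Finset.prod_insert hi, Finset.sum_insert hi]
      refine h.mul _ _ _ _ ?_ ih
      have := h.pow (h.coord i) (J i)
      rwa [one_mul] at this
  exact this _

theorem Wts.mem_K (h : Wts K p G) {w : ℕ} {y : M} (hy : ∀ l, p l ≠ 0 → y * p l ^ w ∈ G w) :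
    y ∈ K := h.GK _ (h.down w 0 y (fun l hl => by rw [add_zero]; exact hy l hl))

/-- multiplication by a coordinate which is one -/
theorem Wts.succ (h : Wts K p G) {l : Fin s} (hpl : p l = 1) {w : ℕ} {y : M} (hy : y ∈ G w)
    (n : ℕ) : y ∈ G (w + n) := by
  have h1 := h.mul _ _ _ _ hy (h.pow (h.coord l) n)
  rwa [hpl, one_pow, mul_one, one_mul] at h1

end WtsLemmas

section Defs

variable {M : Type u} [Field M] {K : Subfield M} {s : ℕ}

/-- the restriction of the equation to the plane -/
noncomputable def fH (d : ℕ) (A : (Fin s →₀ ℕ) → K) (al be ga : Fin s → K) :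
    MvPolynomial (Fin 2) K := ∑ J ∈ expo (Fin s) d, A J • mf al be ga J

/-- the restriction of a partial derivative to the plane -/
noncomputable def PH (d : ℕ) (A : (Fin s →₀ ℕ) → K) (al be ga : Fin s → K) (i : Fin s) :
    MvPolynomial (Fin 2) K :=
  ∑ J ∈ expo (Fin s) d, (A J * (J i : K)) • mf al be ga (J - Finsupp.single i 1)

variable {d : ℕ} {A : (Fin s →₀ ℕ) → K} {al be ga : Fin s → K}

theorem fH_mem : fH d A al be ga ∈ WW K d := by
  unfold fH
  refine Submodule.sum_mem _ fun m hm => Submodule.smul_mem _ _ ?_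
  have := mf_mem (al := al) (be := be) (ga := ga) m
  rwa [mem_expo.mp hm] at this

theorem degree_subH {J : Fin s →₀ ℕ} {e : ℕ} (he : e + 1 = d) (hJ : J ∈ expo (Fin s) d)
    {i : Fin s} (hi : J i ≠ 0) : (J - Finsupp.single i 1).degree = e := by
  have h1 := sub_add_single hi
  have h2 := congrArg Finsupp.degree h1
  rw [map_add, Finsupp.degree_single, mem_expo.mp hJ] at h2
  omega

theorem PH_mem {e : ℕ} (he : e + 1 = d) (i : Fin s) : PH d A al be ga i ∈ WW K e := by
  unfold PH
  refine Submodule.sum_mem _ fun J hJ => ?_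
  by_cases hi : J i = 0
  · rw [hi, Nat.cast_zero, mul_zero, zero_smul]
    exact zero_mem _
  · refine Submodule.smul_mem _ _ ?_
    have := mf_mem (al := al) (be := be) (ga := ga) (J - Finsupp.single i 1)
    rwa [degree_subH he hJ hi] at this

variable {D : (Fin s →₀ ℕ) → Derivation ℤ M M} {E : Derivation ℤ M M} {p : Fin s → M}
  {G : ℕ → AddSubgroup M} {l a b : Fin s}

theorem evp_fH (P : Pln D d p l a b al be ga) :
    evp K (p a) (p b) (fH d A al be ga) = Fval d (fun J => (A J : M)) p := by
  unfold fH Fval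
  rw [map_sum]
  refine Finset.sum_congr rfl fun J _ => ?_
  rw [map_smul, evp_mf P.hp]
  rfl

theorem evp_PH (P : Pln D d p l a b al be ga) (i : Fin s) :
    evp K (p a) (p b) (PH d A al be ga i) = grad d (fun J => (A J : M)) p i := by
  unfold PH grad
  rw [map_sum]
  refine Finset.sum_congr rfl fun J _ => ?_
  rw [map_smul, evp_mf P.hp, smul_eq']
  push_cast
  rfl

theorem evp_X_vec (i : Fin 2) : evp K (p a) (p b) (X i) = p (![a, b] i) := by
  revert i
  rw [Fin.forall_fin_two]
  exact ⟨evp_X0, evp_X1⟩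

theorem lf_vecH (P : Pln D d p l a b al be ga) (i : Fin 2) : lf al be ga (![a, b] i) = X i := by
  revert i
  rw [Fin.forall_fin_two]
  exact ⟨P.lf_a, P.lf_b⟩

theorem HCtx.fp (h : HCtx K d D E A p G) (P : Pln D d p l a b al be ga) :
    evp K (p a) (p b) (fH d A al be ga) = 0 := by rw [evp_fH P, h.F0]

theorem HCtx.grad_EE (h : HCtx K d D E A p G) (P : Pln D d p l a b al be ga)
    {H : MvPolynomial (Fin 2) K} (hH : H ∈ WW K d) :
    grad d (fun J => (A J : M)) p ⬝ᵥ EE K D d l a b p H = - evp K (p a) (p b) H := by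
  refine WW_induction (P := fun H => grad d (fun J => (A J : M)) p ⬝ᵥ EE K D d l a b p H =
    - evp K (p a) (p b) H) ?_ ?_ ?_ hH
  · intro m hm0
    have h1 := grad_D h.DA h.F0 (mem_expo.mpr (degree_hm (l := l) (a := a) (b := b) hm0))
    have h2 : grad d (fun J => (A J : M)) p ⬝ᵥ EE K D d l a b p (monomial m 1) =
        ∑ j, grad d (fun J => (A J : M)) p j * D (hm l a b d m) (p j) := by
      unfold dotProduct
      refine Finset.sum_congr rfl fun j _ => ?_
      rw [EE_monomial]
    rw [h2, h1, ← evp_mf P.hp, P.mf_hm]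
  · intro H H' hH hH'
    rw [map_add, dotProduct_add, hH, hH', map_add, neg_add]
  · intro c H hH
    have h1 : grad d (fun J => (A J : M)) p ⬝ᵥ EE K D d l a b p (c • H) =
        (c : M) * (grad d (fun J => (A J : M)) p ⬝ᵥ EE K D d l a b p H) := by
      rw [map_smul]
      unfold dotProduct
      rw [Finset.mul_sum]
      refine Finset.sum_congr rfl fun j _ => ?_
      rw [Pi.smul_apply, smul_eq']
      ring
    rw [h1, hH, map_smul, smul_eq', mul_neg]

theorem HCtx.grad_E (h : HCtx K d D E A p G) :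
    grad d (fun J => (A J : M)) p ⬝ᵥ (fun k => E (p k)) = 0 := by
  have h1 := D_Fval d (fun J => (A J : M)) E p
  rw [h.F0, map_zero, Finset.sum_eq_zero (fun I _ => by rw [h.EA, zero_mul]), zero_add] at h1
  exact h1.symm

theorem HCtx.grad_UU (h : HCtx K d D E A p G) (P : Pln D d p l a b al be ga) {e : ℕ}
    (he : e + 1 = d) {Q : MvPolynomial (Fin 2) K} (hQ : Q ∈ WW K e) (j : Fin 2) :
    grad d (fun J => (A J : M)) p ⬝ᵥ UU K D d l a b p j Q = 0 := by
  rw [UU_apply, dotProduct_sub, dotProduct_smul, h.grad_EE P (WW_mono (by omega) hQ),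
    h.grad_EE P (WW_mono he.le (X_mul_mem j hQ)), map_mul, smul_eq_mul, evp_X_vec]
  ring

/-- the derivation attached to a polynomial preserves the subfield -/
theorem HCtx.DG_K (h : HCtx K d D E A p G) (H : MvPolynomial (Fin 2) K) :
    ∀ y ∈ K, DG K D d l a b H y ∈ K := by
  intro y hy
  induction H using MvPolynomial.induction_on' with
  | monomial m c =>
    have h1 : monomial m c = c • monomial m (1 : K) := by
      rw [smul_monomial, smul_eq_mul, mul_one]
    have h2 : DG K D d l a b (c • monomial m (1 : K)) y =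
        (c : M) * DG K D d l a b (monomial m (1 : K)) y := by
      rw [map_smul]; rfl
    rw [h1, h2, DG_monomial]
    exact mul_mem c.2 (h.DK _ _ hy)
  | add P Q hP hQ =>
    have h2 : DG K D d l a b (P + Q) y = DG K D d l a b P y + DG K D d l a b Q y := by
      rw [map_add]; rfl
    rw [h2]
    exact add_mem hP hQ

/-- the derivation of the subfield attached to a polynomial -/
noncomputable def HCtx.dH (h : HCtx K d D E A p G) (l a b : Fin s) (H : MvPolynomial (Fin 2) K) :
    Derivation ℤ K K := resD (DG K D d l a b H) (h.DG_K H)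

theorem HCtx.coe_dH (h : HCtx K d D E A p G) (H : MvPolynomial (Fin 2) K) (y : K) :
    ((h.dH l a b H y : K) : M) = DG K D d l a b H y := rfl

theorem HCtx.dH_add (h : HCtx K d D E A p G) (H H' : MvPolynomial (Fin 2) K) (y : K) :
    h.dH l a b (H + H') y = h.dH l a b H y + h.dH l a b H' y := by
  apply Subtype.ext
  push_cast
  rw [h.coe_dH, h.coe_dH, h.coe_dH, map_add]
  rfl

theorem HCtx.dH_smul (h : HCtx K d D E A p G) (c : K) (H : MvPolynomial (Fin 2) K) (y : K) :
    h.dH l a b (c • H) y = c * h.dH l a b H y := by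
  apply Subtype.ext
  push_cast
  rw [h.coe_dH, h.coe_dH, map_smul]
  rfl

/-- the coefficientwise action, additive in the polynomial -/
theorem HCtx.hat_dH_add (h : HCtx K d D E A p G) (H H' Q : MvPolynomial (Fin 2) K) :
    hat (h.dH l a b (H + H')) Q = hat (h.dH l a b H) Q + hat (h.dH l a b H') Q := by
  ext m
  rw [coeff_add, coeff_hat, coeff_hat, coeff_hat, h.dH_add]

theorem HCtx.hat_dH_smul (h : HCtx K d D E A p G) (c : K) (H Q : MvPolynomial (Fin 2) K) :
    hat (h.dH l a b (c • H)) Q = c • hat (h.dH l a b H) Q := by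
  ext m
  rw [coeff_smul, coeff_hat, coeff_hat, h.dH_smul, smul_eq_mul]

theorem HCtx.sum_dH (h : HCtx K d D E A p G) (P : Pln D d p l a b al be ga)
    {H : MvPolynomial (Fin 2) K} (hH : H ∈ WW K d) :
    ∑ J ∈ expo (Fin s) d, h.dH l a b H (A J) • mf al be ga J = H := by
  refine WW_induction (P := fun H => ∑ J ∈ expo (Fin s) d,
    h.dH l a b H (A J) • mf al be ga J = H) ?_ ?_ ?_ hH
  · intro m hm0
    have h1 := mem_expo.mpr (degree_hm (l := l) (a := a) (b := b) hm0)
    have h2 : ∀ J ∈ expo (Fin s) d, h.dH l a b (monomial m 1) (A J) =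
        if hm l a b d m = J then 1 else 0 := by
      intro J hJ
      apply Subtype.ext
      rw [h.coe_dH, DG_monomial, h.DA _ h1 _ hJ]
      split_ifs <;> rfl
    rw [Finset.sum_congr rfl fun J hJ => by rw [h2 J hJ, ite_smul, one_smul, zero_smul],
      Finset.sum_ite_eq, if_pos h1, P.mf_hm]
  · intro P Q hP hQ
    simp only [h.dH_add, add_smul, Finset.sum_add_distrib]
    rw [hP, hQ]
  · intro c Q hQ
    simp only [h.dH_smul, mul_smul]
    rw [← Finset.smul_sum, hQ]

theorem hat_fH_aux (δ : Derivation ℤ K K) :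
    hat δ (fH d A al be ga) = ∑ J ∈ expo (Fin s) d, δ (A J) • mf al be ga J +
      ∑ k, PH d A al be ga k * hat δ (lf al be ga k) := by
  have h1 : hat δ (fH d A al be ga) =
      ∑ J ∈ expo (Fin s) d, (δ (A J) • mf al be ga J +
        ∑ k, ((A J * (J k : K)) • mf al be ga (J - Finsupp.single k 1)) *
          hat δ (lf al be ga k)) := by
    unfold fH
    rw [map_sum]
    refine Finset.sum_congr rfl fun J _ => ?_
    rw [hat_smul]
    congr 1
    have h2 := D_prod_pow (hat δ) (fun k => lf al be ga k) J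
    have h3 : hat δ (mf al be ga J) = ∑ j, (J j : MvPolynomial (Fin 2) K) *
        mf al be ga (J - Finsupp.single j 1) * hat δ (lf al be ga j) := h2
    rw [h3, Finset.smul_sum]
    refine Finset.sum_congr rfl fun k _ => ?_
    simp only [smul_eq_C_mul, map_mul, map_natCast]
    ring
  rw [h1, Finset.sum_add_distrib, Finset.sum_comm]
  congr 1
  refine Finset.sum_congr rfl fun k _ => ?_
  unfold PH
  rw [Finset.sum_mul]

theorem HCtx.hat_fH (h : HCtx K d D E A p G) (P : Pln D d p l a b al be ga)
    {H : MvPolynomial (Fin 2) K} (hH : H ∈ WW K d) :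
    hat (h.dH l a b H) (fH d A al be ga) =
      H + ∑ k, PH d A al be ga k * hat (h.dH l a b H) (lf al be ga k) := by
  rw [hat_fH_aux, h.sum_dH P hH]

theorem hat_lf_zeroH (P : Pln D d p l a b al be ga) (δ : Derivation ℤ K K) {k : Fin s}
    (hk : k ∈ ({l, a, b} : Finset (Fin s))) : hat δ (lf al be ga k) = 0 := by
  simp only [Finset.mem_insert, Finset.mem_singleton] at hk
  rcases hk with rfl | rfl | rfl
  · rw [P.lf_l, Derivation.map_one_eq_zero]
  · rw [P.lf_a, hat_X]
  · rw [P.lf_b, hat_X]

theorem card_complH (P : Pln D d p l a b al be ga) :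
    (Finset.univ \ ({l, a, b} : Finset (Fin s))).card + 3 = s := by
  have h9 : ({l, a, b} : Finset (Fin s)).card = 3 := by
    rw [Finset.card_insert_of_notMem (by simp [P.la, P.lb]),
      Finset.card_insert_of_notMem (by simp [P.ab]), Finset.card_singleton]
  have h10 := Finset.card_sdiff_add_card_eq_card
    (Finset.subset_univ ({l, a, b} : Finset (Fin s)))
  rwa [h9, Finset.card_univ, Fintype.card_fin] at h10

theorem evp_hat_lfH {x y : M} (δ : Derivation ℤ K K) (k : Fin s) :
    evp K x y (hat δ (lf al be ga k)) =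
      (δ (al k) : M) + (δ (be k) : M) * x + (δ (ga k) : M) * y := by
  have h1 : hat δ (lf al be ga k) = C (δ (al k)) + X 0 * C (δ (be k)) + X 1 * C (δ (ga k)) := by
    unfold lf
    rw [map_add, map_add, Derivation.leibniz, Derivation.leibniz, hat_C, hat_C, hat_C, hat_X,
      hat_X, smul_zero, smul_zero, zero_add, zero_add, smul_eq_mul, smul_eq_mul]
  rw [h1, map_add, map_add, map_mul, map_mul, evp_C, evp_C, evp_C, evp_X0, evp_X1]
  ring

/-- the motion of the point in the moving plane -/
theorem motion (P : Pln D d p l a b al be ga) (D' : Derivation ℤ M M)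
    (hK : ∀ y ∈ K, D' y ∈ K) (k : Fin s) :
    D' (p k) = evp K (p a) (p b) (hat (resD D' hK) (lf al be ga k)) +
      be k * D' (p a) + ga k * D' (p b) := by
  rw [evp_hat_lfH, coe_resD, coe_resD, coe_resD]
  conv_lhs => rw [P.hp k]
  rw [map_add, map_add, Derivation.leibniz, Derivation.leibniz, smul_eq_mul, smul_eq_mul,
    smul_eq_mul, smul_eq_mul]
  ring

/-- the motion of the plane -/
theorem HCtx.motion_EE (h : HCtx K d D E A p G) (P : Pln D d p l a b al be ga)
    (H : MvPolynomial (Fin 2) K) (k : Fin s) :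
    EE K D d l a b p H k = evp K (p a) (p b) (hat (h.dH l a b H) (lf al be ga k)) +
      be k * EE K D d l a b p H a + ga k * EE K D d l a b p H b := by
  rw [EE_apply, EE_apply, EE_apply]
  exact motion P (DG K D d l a b H) (h.DG_K H) k

/-- the derivation `E` on the subfield -/
noncomputable def HCtx.dE (h : HCtx K d D E A p G) : Derivation ℤ K K := resD E h.EK

theorem HCtx.motion_E (h : HCtx K d D E A p G) (P : Pln D d p l a b al be ga) (k : Fin s) :
    E (p k) = evp K (p a) (p b) (hat h.dE (lf al be ga k)) + be k * E (p a) + ga k * E (p b) :=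
  motion P E h.EK k

theorem HCtx.notMem_a (P : Pln D d p l a b al be ga) (c : K) : p a - (c : M) ≠ 0 := by
  intro h0
  have := (P.hxy (-c) 1 0 (by push_cast; linear_combination h0)).2.1
  exact one_ne_zero this

theorem HCtx.notMem_b (P : Pln D d p l a b al be ga) (c : K) : p b - (c : M) ≠ 0 := by
  intro h0
  have := (P.hxy (-c) 0 1 (by push_cast; linear_combination h0)).2.2
  exact one_ne_zero this

/-- the weight of the value of a polynomial -/
theorem Wts.evp_mem (h : Wts K p G) (P : Pln D d p l a b al be ga) {n : ℕ}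
    {Q : MvPolynomial (Fin 2) K} (hQ : Q ∈ WW K n) : evp K (p a) (p b) Q ∈ G n := by
  refine WW_induction (P := fun Q => evp K (p a) (p b) Q ∈ G n) ?_ ?_ ?_ hQ
  · intro m hm0
    have h1 := degree_hm (l := l) (a := a) (b := b) hm0
    rw [← P.mf_hm n m, evp_mf P.hp]
    have h2 := h.mon (hm l a b n m)
    rwa [h1] at h2
  · intro Q Q' hQ hQ'
    rw [map_add]
    exact add_mem hQ hQ'
  · intro c Q hQ
    rw [map_smul, smul_eq']
    exact h.smul c.2 hQ

/-- the wedge of the point and the derivative attached to a polynomial -/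
theorem HCtx.wEE (h : HCtx K d D E A p G) {H : MvPolynomial (Fin 2) K} (hH : H ∈ WW K d)
    (i j : Fin s) :
    p i * EE K D d l a b p H j - p j * EE K D d l a b p H i ∈ G 2 := by
  refine WW_induction (P := fun H => p i * EE K D d l a b p H j -
    p j * EE K D d l a b p H i ∈ G 2) ?_ ?_ ?_ hH
  · intro m hm0
    rw [EE_monomial, EE_monomial]
    exact h.wD _ (mem_expo.mpr (degree_hm hm0)) i j
  · intro H H' hH hH'
    rw [map_add, Pi.add_apply, Pi.add_apply]
    have := add_mem hH hH'
    convert this using 1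
    ring
  · intro c H hH
    rw [map_smul, Pi.smul_apply, Pi.smul_apply, smul_eq', smul_eq']
    have := h.W.smul c.2 hH
    convert this using 1
    ring

/-- the wedge of the point, its derivative by `E`, and the derivative attached to a polynomial -/
theorem HCtx.wEEE (h : HCtx K d D E A p G) {H : MvPolynomial (Fin 2) K} (hH : H ∈ WW K d)
    (i j : Fin s) :
    E (p i) * EE K D d l a b p H j - E (p j) * EE K D d l a b p H i ∈ G 3 := by
  refine WW_induction (P := fun H => E (p i) * EE K D d l a b p H j -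
    E (p j) * EE K D d l a b p H i ∈ G 3) ?_ ?_ ?_ hH
  · intro m hm0
    rw [EE_monomial, EE_monomial]
    exact h.wDE _ (mem_expo.mpr (degree_hm hm0)) i j
  · intro H H' hH hH'
    rw [map_add, Pi.add_apply, Pi.add_apply]
    have := add_mem hH hH'
    convert this using 1
    ring
  · intro c H hH
    rw [map_smul, Pi.smul_apply, Pi.smul_apply, smul_eq', smul_eq']
    have := h.W.smul c.2 hH
    convert this using 1
    ring

end Defs

end Pool.Agent.Lib.MP_44a246_ntH
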