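import Mathlib
import Pool.Agent.Lib.MP_44a246_ntH.HB1
import Pool.Agent.Lib.MP_e52354_ntP.Back2

/-!
The slots: the second case of the dichotomy is impossible.
-/

set_option linter.unusedSectionVars false

namespace Pool.Agent.Lib.MP_44a246_ntH

open Pool.Agent.Lib.MP_e52354_nt
open Pool.Agent.Lib.MP_e52354_ntP
open MvPolynomial

universe u

variable {M : Type u} [Field M] {K : Subfield M} {s d : ℕ} {A : (Fin s →₀ ℕ) → K}
  {al be ga : Fin s → K} {D : (Fin s →₀ ℕ) → Derivation ℤ M M} {E : Derivation ℤ M M}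
  {p : Fin s → M} {G : ℕ → AddSubgroup M} {l a b : Fin s}

/-- the vectors xi are in the span of the point and its derivative -/
def XiH (K : Subfield M) (d : ℕ) (D : (Fin s →₀ ℕ) → Derivation ℤ M M) (E : Derivation ℤ M M)
    (A : (Fin s →₀ ℕ) → K) (p : Fin s → M) (al be ga : Fin s → K) (l a b : Fin s) : Prop :=
  ∀ i j : Fin s, ∃ t t' : M, EE K D d l a b p (PH d A al be ga i * lf al be ga j) =
    t • p + t' • (fun k => E (p k)) - p j • Pi.single i 1

theorem XiH.map (hxi : XiH K d D E A p al be ga l a b) (P : Pln D d p l a b al be ga)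
    (Φ : (Fin s → M) →ₗ[M] M) (hΦ : Φ p = 0) (hΦE : Φ (fun k => E (p k)) = 0) (i j : Fin s) :
    Φ (EE K D d l a b p (PH d A al be ga i * lf al be ga j)) = - (p j * Φ (Pi.single i 1)) := by
  obtain ⟨t, t', ht⟩ := hxi i j
  rw [ht, map_sub, map_add, map_smul, map_smul, map_smul, hΦ, hΦE, smul_zero, smul_zero, add_zero,
    zero_sub, smul_eq_mul]

theorem XiH.map_one (hxi : XiH K d D E A p al be ga l a b) (P : Pln D d p l a b al be ga)
    (Φ : (Fin s → M) →ₗ[M] M) (hΦ : Φ p = 0) (hΦE : Φ (fun k => E (p k)) = 0) (i : Fin s) :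
    Φ (EE K D d l a b p (PH d A al be ga i)) = - Φ (Pi.single i 1) := by
  have h1 := hxi.map P Φ hΦ hΦE i l
  rwa [P.lf_l, mul_one, P.hpl, one_mul] at h1

theorem XiH.map_UU (hxi : XiH K d D E A p al be ga l a b) (P : Pln D d p l a b al be ga)
    (Φ : (Fin s → M) →ₗ[M] M) (hΦ : Φ p = 0) (hΦE : Φ (fun k => E (p k)) = 0) (i : Fin s)
    (j : Fin 2) : Φ (UU K D d l a b p j (PH d A al be ga i)) = 0 := by
  rw [UU_apply, map_sub, map_smul, hxi.map_one P Φ hΦ hΦE, ← lf_vecH P, mul_comm,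
    hxi.map P Φ hΦ hΦE, smul_eq_mul]
  ring

/-- The second case of the dichotomy is impossible. -/
theorem case_twoH (h : HCtx K d D E A p G) (P : Pln D d p l a b al be ga) {e : ℕ}
    (he : e + 1 = d) (hxi : XiH K d D E A p al be ga l a b)
    (Φ : (Fin s → M) →ₗ[M] M) (hΦ : Φ p = 0) (hΦE : Φ (fun k => E (p k)) = 0)
    (g : MvPolynomial (Fin 2) K →ₗ[K] K) {n₁ n₂ : M} (hn : n₁ ≠ 0 ∨ n₂ ≠ 0)
    (h1 : ∀ Q ∈ WW K e, Φ (UU K D d l a b p 0 Q) = - n₂ * (g Q : M))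
    (h2 : ∀ Q ∈ WW K e, Φ (UU K D d l a b p 1 Q) = n₁ * (g Q : M))
    {c₀ : MvPolynomial (Fin 2) K} (hc₀ : c₀ ∈ WW K e) (hg : g c₀ ≠ 0) : False := by
  let Ψ : MvPolynomial (Fin 2) K →ₗ[K] M := (Φ.restrictScalars K) ∘ₗ EE K D d l a b p
  have hΨ : ∀ Q, Ψ Q = Φ (EE K D d l a b p Q) := fun _ => rfl
  have e1 : ∀ Q : MvPolynomial (Fin 2) K, Q.totalDegree ≤ e →
      Ψ (MvPolynomial.X 0 * Q) = p a * Ψ Q - n₂ * (g Q : M) := by
    intro Q hQ
    have h3 := h1 Q (mem_WW.mpr hQ)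
    rw [UU_apply, map_sub, map_smul, smul_eq_mul] at h3
    rw [hΨ, hΨ]
    have h4 : p (![a, b] 0) = p a := rfl
    rw [h4] at h3
    linear_combination h3
  have e2 : ∀ Q : MvPolynomial (Fin 2) K, Q.totalDegree ≤ e →
      Ψ (MvPolynomial.X 1 * Q) = p b * Ψ Q + n₁ * (g Q : M) := by
    intro Q hQ
    have h3 := h2 Q (mem_WW.mpr hQ)
    rw [UU_apply, map_sub, map_smul, smul_eq_mul] at h3
    rw [hΨ, hΨ]
    have h4 : p (![a, b] 1) = p b := rfl
    rw [h4] at h3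
    linear_combination h3
  obtain ⟨θ, κ, hθ⟩ := almost_eval P.hxy Ψ g hn e1 e2
  -- the values of `g` on the partial derivatives
  have hgP : ∀ i, g (PH d A al be ga i) = 0 := by
    intro i
    have h3 := h1 (PH d A al be ga i) (PH_mem he i)
    have h4 := h2 (PH d A al be ga i) (PH_mem he i)
    rw [hxi.map_UU P Φ hΦ hΦE] at h3 h4
    apply Subtype.ext
    rcases hn with hn | hn
    · exact (mul_eq_zero.mp h4.symm).resolve_left hn
    · exact (mul_eq_zero.mp h3.symm).resolve_left (neg_ne_zero.mpr hn)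
  have hΦe : ∀ i, Φ (Pi.single i 1) = - κ * grad d (fun J => (A J : M)) p i := by
    intro i
    have h3 := hθ _ (mem_WW.mp (PH_mem (A := A) (al := al) (be := be) (ga := ga) he i))
    rw [hgP, evp_PH P, hΨ, hxi.map_one P Φ hΦ hΦE] at h3
    rw [ZeroMemClass.coe_zero, mul_zero] at h3
    linear_combination -h3
  have hΦz : ∀ z : Fin s → M, Φ z = - κ * (grad d (fun J => (A J : M)) p ⬝ᵥ z) := by
    intro z
    have h3 : z = ∑ i, z i • (Pi.single i (1 : M) : Fin s → M) := by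
      funext k
      rw [Finset.sum_apply]
      simp [Pi.single_apply]
    conv_lhs => rw [h3]
    rw [map_sum]
    unfold dotProduct
    rw [Finset.mul_sum]
    refine Finset.sum_congr rfl fun i _ => ?_
    rw [map_smul, hΦe, smul_eq_mul]
    ring
  have h3 := h1 c₀ hc₀
  have h4 := h2 c₀ hc₀
  rw [hΦz, h.grad_UU P he hc₀, mul_zero] at h3 h4
  have hg' : (g c₀ : M) ≠ 0 := fun h0 => hg (Subtype.ext h0)
  rcases hn with hn | hn
  · exact mul_ne_zero hn hg' h4.symm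
  · exact mul_ne_zero (neg_ne_zero.mpr hn) hg' h3.symm

/-- one slot: the first case of the dichotomy holds -/
theorem slotH [CharZero M] (h : HCtx K d D E A p G) (P : Pln D d p l a b al be ga) {e : ℕ}
    (he : e + 1 = d) (hxi : XiH K d D E A p al be ga l a b)
    (L : Fin 2 → (Fin s → M) →ₗ[M] M) (hLp : ∀ j, L j p = 0)
    (hLE : ∀ j, L j (fun k => E (p k)) = 0) (c₀ : WW K e)
    (hc : ∀ j j', L j (UU K D d l a b p j' c₀) = if j = j' then 1 else 0)
    (hK : ∀ Q : WW K e, L 0 (UU K D d l a b p 0 Q) * L 1 (UU K D d l a b p 1 Q) -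
      L 1 (UU K D d l a b p 0 Q) * L 0 (UU K D d l a b p 1 Q) ∈ K) :
    ∃ R : Submodule K (WW K e), Module.finrank K (WW K e ⧸ R) ≤ 4 ∧
      ∀ Q ∈ R, ∀ j j', L j (UU K D d l a b p j' (Q : MvPolynomial (Fin 2) K)) = 0 := by
  classical
  let v : Fin 2 → Fin 2 → WW K e →ₗ[K] M := fun j j' =>
    ((L j).restrictScalars K) ∘ₗ (UU K D d l a b p j') ∘ₗ (WW K e).subtype
  have hv : ∀ j j' Q, v j j' Q = L j (UU K D d l a b p j'
    (Q : MvPolynomial (Fin 2) K)) := fun _ _ _ => rfl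
  have hc₀ : ∀ j j', v j j' c₀ = if j = j' then 1 else 0 := fun j j' => hc j j'
  have hq : ∀ Q, v 0 0 Q * v 1 1 Q - v 1 0 Q * v 0 1 Q ∈ K := fun Q => hK Q
  have hsq : ∀ y : M, y ^ 2 ∈ K → y ∈ K := by
    intro y hy
    refine h.W.alg y ⟨Polynomial.X ^ 2 - Polynomial.C ⟨y ^ 2, hy⟩, ?_, ?_⟩
    · intro h0
      have h1 := congrArg (fun f => Polynomial.coeff f 2) h0
      simp at h1
    · simp only [map_sub, map_pow, Polynomial.aeval_X, Polynomial.aeval_C]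
      exact sub_self _
  rcases dich (v 0 0) (v 1 0) (v 0 1) (v 1 1) hsq hq (c₀ := c₀)
    (hc₀ 0 0) (by rw [hc₀]; rfl) (by rw [hc₀]; rfl) (by rw [hc₀]; rfl) with
    ⟨R, hR, hR'⟩ | ⟨n₁, n₂, φ₁, φ₂, g, hn, hg, hgQ⟩
  · refine ⟨R, hR, fun Q hQ j j' => ?_⟩
    obtain ⟨h1, h2, h3, h4⟩ := hR' Q hQ
    rw [← hv]
    revert j j'
    rw [Fin.forall_fin_two, Fin.forall_fin_two, Fin.forall_fin_two]
    exact ⟨⟨h1, h3⟩, ⟨h2, h4⟩⟩
  · exfalso
    obtain ⟨g', hg'⟩ := LinearMap.exists_extend g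
    have hgg : ∀ Q (hQ : Q ∈ WW K e), g' Q = g ⟨Q, hQ⟩ := by
      intro Q hQ
      exact LinearMap.congr_fun hg' ⟨Q, hQ⟩
    refine case_twoH h P he hxi (φ₁ • L 0 + φ₂ • L 1) ?_ ?_ g' hn ?_ ?_ (c₀ := c₀) c₀.2 ?_
    · rw [LinearMap.add_apply, LinearMap.smul_apply, LinearMap.smul_apply, hLp, hLp, smul_zero,
        smul_zero, add_zero]
    · rw [LinearMap.add_apply, LinearMap.smul_apply, LinearMap.smul_apply, hLE, hLE, smul_zero,
        smul_zero, add_zero]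
    · intro Q hQ
      rw [hgg Q hQ, ← (hgQ ⟨Q, hQ⟩).1]
      rfl
    · intro Q hQ
      rw [hgg Q hQ, ← (hgQ ⟨Q, hQ⟩).2]
      rfl
    · rw [hgg _ c₀.2]
      exact hg

end Pool.Agent.Lib.MP_44a246_ntH
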