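import Mathlib
import Pool.Agent.Lib.MP_44a246_ntH.HB1
import Pool.Agent.Lib.MP_e52354_ntP.BackH

/-!
The dimension count from the motion of the plane section.
-/

set_option linter.unusedSectionVars false

namespace Pool.Agent.Lib.MP_44a246_ntH

open Pool.Agent.Lib.MP_e52354_nt
open Pool.Agent.Lib.MP_e52354_ntP
open MvPolynomial

universe u

variable {M : Type u} [Field M] {K : Subfield M} {s d : ℕ} {A : (Fin s →₀ ℕ) → K}
  {al be ga : Fin s → K} {D : (Fin s →₀ ℕ) → Derivation ℤ M M} {E : Derivation ℤ M M}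
  {p : Fin s → M} {G : ℕ → AddSubgroup M} {l a b : Fin s}

/-- the factorisation of the plane section gives a decomposition of all forms -/
theorem HCtx.WW_leH (h : HCtx K d D E A p G) (P : Pln D d p l a b al be ga) {e₁ e₂ : ℕ}
    {g c : MvPolynomial (Fin 2) K} (hg : g ∈ WW K e₁)
    (hc : c ∈ WW K e₂) (hgc : fH d A al be ga = g * c) :
    WW K d ≤ (WW K e₁).map (LinearMap.mulRight K c) ⊔
      (WW K e₂).map (LinearMap.mulLeft K g) ⊔
      (Finset.univ \ {l, a, b}).sup fun k =>
        (WW K 1).map (LinearMap.mulLeft K (PH d A al be ga k)) := by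
  intro H hH
  have h1 := h.hat_fH P hH
  rw [hgc, Derivation.leibniz, smul_eq_mul, smul_eq_mul] at h1
  set S := (WW K e₁).map (LinearMap.mulRight K c) ⊔
      (WW K e₂).map (LinearMap.mulLeft K g) ⊔
      (Finset.univ \ {l, a, b}).sup fun k =>
        (WW K 1).map (LinearMap.mulLeft K (PH d A al be ga k)) with hS
  have h2 : H = hat (h.dH l a b H) g * c + g * hat (h.dH l a b H) c -
      ∑ k, PH d A al be ga k * hat (h.dH l a b H) (lf al be ga k) := by
    linear_combination -h1
  rw [h2]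
  refine Submodule.sub_mem _ (Submodule.add_mem _ ?_ ?_) (Submodule.sum_mem _ fun k _ => ?_)
  · refine (le_sup_left.trans le_sup_left : _ ≤ S) ?_
    exact ⟨hat (h.dH l a b H) g, hat_mem _ hg, rfl⟩
  · refine (le_sup_right.trans le_sup_left : _ ≤ S) ?_
    exact ⟨hat (h.dH l a b H) c, hat_mem _ hc, rfl⟩
  · by_cases hk : k ∈ ({l, a, b} : Finset (Fin s))
    · rw [hat_lf_zeroH P _ hk, mul_zero]
      exact zero_mem _
    · refine (le_sup_right : _ ≤ S) ?_
      have h4 : k ∈ Finset.univ \ ({l, a, b} : Finset (Fin s)) :=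
        Finset.mem_sdiff.mpr ⟨Finset.mem_univ _, hk⟩
      refine (Finset.le_sup (f := fun k => (WW K 1).map
        (LinearMap.mulLeft K (PH d A al be ga k))) h4) ?_
      exact ⟨hat (h.dH l a b H) (lf al be ga k), hat_mem _ (lf_mem k), rfl⟩

theorem HCtx.countH (h : HCtx K d D E A p G) (P : Pln D d p l a b al be ga) {e₁ e₂ : ℕ}
    {g c : MvPolynomial (Fin 2) K} (hg : g ∈ WW K e₁)
    (hc : c ∈ WW K e₂) (hgc : fH d A al be ga = g * c) :
    (d + 1) * (d + 2) + 18 ≤ (e₁ + 1) * (e₁ + 2) + (e₂ + 1) * (e₂ + 2) + 6 * s := by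
  classical
  have h1 := h.WW_leH P hg hc hgc
  set W₁ := (WW K e₁).map (LinearMap.mulRight K c) with hW₁
  set W₂ := (WW K e₂).map (LinearMap.mulLeft K g) with hW₂
  set W₃ : Fin s → Submodule K (MvPolynomial (Fin 2) K) := fun k =>
        (WW K 1).map (LinearMap.mulLeft K (PH d A al be ga k)) with hW₃
  have f3 : ∀ k, FiniteDimensional K (W₃ k) := fun k => by
    rw [hW₃]; infer_instance
  have f1 : FiniteDimensional K W₁ := by rw [hW₁]; infer_instance
  have f2 : FiniteDimensional K W₂ := by rw [hW₂]; infer_instance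
  have f12 : FiniteDimensional K (W₁ ⊔ W₂ : Submodule _ _) := Submodule.finite_sup _ _
  have f4 := finite_sup (Finset.univ \ {l, a, b}) W₃ f3
  have f5 : FiniteDimensional K
      (W₁ ⊔ W₂ ⊔ (Finset.univ \ {l, a, b}).sup W₃ : Submodule _ _) := Submodule.finite_sup _ _
  have h2 := Submodule.finrank_mono h1
  have h3 := Submodule.finrank_add_le_finrank_add_finrank (W₁ ⊔ W₂)
    ((Finset.univ \ {l, a, b}).sup W₃)
  have h4 := Submodule.finrank_add_le_finrank_add_finrank W₁ W₂
  have h5 : Module.finrank K W₁ ≤ Module.finrank K (WW K e₁) :=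
    Submodule.finrank_map_le _ _
  have h6 : Module.finrank K W₂ ≤ Module.finrank K (WW K e₂) :=
    Submodule.finrank_map_le _ _
  have h8 := finrank_WWk K 1
  have h7 := finrank_sup_le (Finset.univ \ {l, a, b}) W₃ 3 f3 (fun k => by
    have : Module.finrank K (W₃ k) ≤ Module.finrank K (WW K 1) :=
      Submodule.finrank_map_le _ _
    omega)
  have hcard := card_complH P
  have g1 := finrank_WWk K d
  have g2 := finrank_WWk K e₁
  have g3 := finrank_WWk K e₂
  have g4 : Module.finrank K (WW K d) ≤ Module.finrank K (WW K e₁) +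
      Module.finrank K (WW K e₂) +
      3 * (Finset.univ \ ({l, a, b} : Finset (Fin s))).card :=
    h2.trans (h3.trans (Nat.add_le_add (h4.trans (Nat.add_le_add h5 h6)) h7))
  clear h2 h3 h4 h5 h6 h7 h8 h1
  generalize Module.finrank K (WW K d) = n1 at g1 g4
  generalize Module.finrank K (WW K e₁) = n2 at g2 g4
  generalize Module.finrank K (WW K e₂) = n3 at g3 g4
  generalize (Finset.univ \ ({l, a, b} : Finset (Fin s))).card = n4 at hcard g4
  omega

/-- the degree of the equation of the point -/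
theorem HCtx.degree_ge (h : HCtx K d D E A p G) (P : Pln D d p l a b al be ga) {k : ℕ}
    (hs : s = 2 * k + 3) (hd : d = 3 * k + 3) (hf : fH d A al be ga ≠ 0)
    {g : MvPolynomial (Fin 2) K} (hg0 : g ≠ 0) (hgx : evp K (p a) (p b) g = 0)
    {c : MvPolynomial (Fin 2) K} (hc : fH d A al be ga = g * c) :
    d ≤ g.totalDegree + 1 ∧ g.totalDegree + c.totalDegree ≤ d := by
  have hg2 := two_le_degree P.hxy hg0 hgx
  have hc0 : c ≠ 0 := by
    rintro rfl
    exact hf (by rw [hc, mul_zero])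
  have h1 := mem_WW.mp (fH_mem (d := d) (A := A) (al := al) (be := be) (ga := ga))
  rw [hc, totalDegree_mul_of_isDomain hg0 hc0] at h1
  refine ⟨?_, h1⟩
  by_contra hcon
  push Not at hcon
  obtain ⟨e₂, he₂⟩ : ∃ e₂, g.totalDegree + e₂ = d := ⟨d - g.totalDegree, by omega⟩
  have h3 := h.countH P (g := g) (c := c) (mem_WW.mpr le_rfl)
    (mem_WW.mpr (show c.totalDegree ≤ e₂ by omega)) hc
  obtain ⟨u, hu⟩ : ∃ u, g.totalDegree = 2 + u := ⟨g.totalDegree - 2, by omega⟩
  obtain ⟨v, hv⟩ : ∃ v, e₂ = 2 + v := ⟨e₂ - 2, by omega⟩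
  rw [hu, hv, ← he₂, hu, hv, hs] at h3
  have h4 : u + v + 1 = 3 * k := by omega
  nlinarith

end Pool.Agent.Lib.MP_44a246_ntH
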