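import Mathlib
import Pool.Agent.Lib.MP_44a246_ntH.HB1

/-!
Relations between elements of the function field of a plane curve over the field of rational
functions of a pencil of lines.
-/

set_option linter.unusedSectionVars false

namespace Pool.Agent.Lib.MP_44a246_ntH

open Pool.Agent.Lib.MP_e52354_nt
open Pool.Agent.Lib.MP_e52354_ntP

open MvPolynomial

universe u

variable {M : Type u} [Field M] {K : Subfield M}

/-- clearing denominators and dividing by powers of X. -/
theorem clear_rel {n : ℕ} {t : M} (ht : t ≠ 0) (f : Fin n → M) (c : Fin n → M)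
    (hc : ∀ i, c i ∈ IntermediateField.adjoin K ({t} : Set M)) (hne : ∃ i, c i ≠ 0)
    (h0 : ∑ i, c i * f i = 0) :
    ∃ C : Fin n → Polynomial K, (∃ i, (C i).coeff 0 ≠ 0) ∧
      ∑ i, Polynomial.aeval t (C i) * f i = 0 := by
  classical
  -- step 3
  have h1 : ∀ i, ∃ r s : Polynomial K, Polynomial.aeval t s ≠ 0 ∧
      c i = Polynomial.aeval t r / Polynomial.aeval t s := by
    intro i
    obtain ⟨r, s, hrs⟩ := (IntermediateField.mem_adjoin_simple_iff K (c i)).1 (hc i)
    by_cases hs : Polynomial.aeval t s = 0
    · refine ⟨0, 1, by simp, ?_⟩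
      rw [hrs, hs]; simp
    · exact ⟨r, s, hs, hrs⟩
  choose r s hs hcrs using h1
  have h3 : ∃ C : Fin n → Polynomial K, (∃ i, C i ≠ 0) ∧
      ∑ i, Polynomial.aeval t (C i) * f i = 0 := by
    refine ⟨fun i => r i * ∏ j ∈ Finset.univ.erase i, s j, ?_, ?_⟩
    · obtain ⟨i, hi⟩ := hne
      refine ⟨i, fun h => hi ?_⟩
      have h' : r i * ∏ j ∈ Finset.univ.erase i, s j = 0 := h
      have h2 : Polynomial.aeval t (r i * ∏ j ∈ Finset.univ.erase i, s j) = 0 := by
        rw [h', map_zero]
      rw [map_mul, map_prod] at h2
      rcases mul_eq_zero.1 h2 with h2 | h2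
      · rw [hcrs, h2, zero_div]
      · exact absurd h2 (Finset.prod_ne_zero_iff.2 fun j _ => hs j)
    · have h2 : ∀ i, Polynomial.aeval t (r i * ∏ j ∈ Finset.univ.erase i, s j) * f i =
          (∏ j, Polynomial.aeval t (s j)) * (c i * f i) := by
        intro i
        rw [map_mul, map_prod, hcrs i, ← Finset.mul_prod_erase Finset.univ _ (Finset.mem_univ i)]
        have := hs i
        field_simp
      rw [Finset.sum_congr rfl fun i _ => h2 i, ← Finset.mul_sum, h0, mul_zero]
  -- step 4
  have h4 : ∀ N : ℕ, ∀ C : Fin n → Polynomial K, ∑ i, (C i).natDegree ≤ N → (∃ i, C i ≠ 0) →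
      ∑ i, Polynomial.aeval t (C i) * f i = 0 →
      ∃ C : Fin n → Polynomial K, (∃ i, (C i).coeff 0 ≠ 0) ∧
        ∑ i, Polynomial.aeval t (C i) * f i = 0 := by
    intro N
    induction N with
    | zero =>
      intro C hN hC hs
      obtain ⟨i, hi⟩ := hC
      refine ⟨C, ⟨i, fun h => hi ?_⟩, hs⟩
      have h5 : (C i).natDegree = 0 := by
        have := Finset.single_le_sum (f := fun i => (C i).natDegree) (fun _ _ => Nat.zero_le _)
          (Finset.mem_univ i)
        omega
      rw [Polynomial.eq_C_of_natDegree_eq_zero h5, h, map_zero]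
    | succ N ih =>
      intro C hN hC hs
      by_cases h6 : ∃ i, (C i).coeff 0 ≠ 0
      · exact ⟨C, h6, hs⟩
      · push Not at h6
        have h7 : ∀ i, ∃ D : Polynomial K, C i = Polynomial.X * D := fun i =>
          Polynomial.X_dvd_iff.2 (h6 i)
        choose D hD using h7
        obtain ⟨i, hi⟩ := hC
        have hDi : D i ≠ 0 := fun h => hi (by rw [hD i, h, mul_zero])
        refine ih D ?_ ⟨i, hDi⟩ ?_
        · have h8 : ∀ j, (D j).natDegree ≤ (C j).natDegree := by
            intro j
            by_cases hj : D j = 0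
            · rw [hj]; simp
            · rw [hD j, Polynomial.natDegree_X_mul hj]; omega
          have h9 : (D i).natDegree < (C i).natDegree := by
            rw [hD i, Polynomial.natDegree_X_mul hDi]; omega
          have := Finset.sum_lt_sum (fun j _ => h8 j) ⟨i, Finset.mem_univ i, h9⟩
          omega
        · have h8 : t * ∑ i, Polynomial.aeval t (D i) * f i = 0 := by
            rw [← hs, Finset.mul_sum]
            refine Finset.sum_congr rfl fun j _ => ?_
            rw [hD j, map_mul, Polynomial.aeval_X, mul_assoc]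
          exact (mul_eq_zero.1 h8).resolve_left ht
  obtain ⟨C, hC, hs⟩ := h3
  exact h4 _ C le_rfl hC hs

/-- Let `x, y` satisfy an equation `g` of degree `e` over `K`, and `z` be a point of the plane with
`g z ≠ 0`. Then `e + 1` elements of `K(x, y)` satisfy a relation whose coefficients are polynomials
in `(x - z 0) / (y - z 1)`, not all without constant term. -/
theorem exists_rel {x y : M} {g : MvPolynomial (Fin 2) K}
    (hgx : evp K x y g = 0) {z : Fin 2 → K} (hz : MvPolynomial.eval z g ≠ 0)
    (hx : x - (z 0 : M) ≠ 0) (hy : y - (z 1 : M) ≠ 0)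
    (f : Fin (g.totalDegree + 1) → M)
    (hf : ∀ i, f i ∈ IntermediateField.adjoin K ({x, y} : Set M)) :
    ∃ C : Fin (g.totalDegree + 1) → Polynomial K, (∃ i, (C i).coeff 0 ≠ 0) ∧
      ∑ i, Polynomial.aeval ((x - (z 0 : M)) / (y - (z 1 : M))) (C i) * f i = 0 := by
  classical
  set t : M := (x - (z 0 : M)) / (y - (z 1 : M)) with ht
  have ht0 : t ≠ 0 := div_ne_zero hx hy
  set P : M := y - (z 1 : M) with hP
  have hxt : x = (z 0 : M) + t * P := by
    rw [ht]; field_simp; ring
  have hyt : y = (z 1 : M) + P := by rw [hP]; ring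
  let F := IntermediateField.adjoin K ({t} : Set M)
  have htF : t ∈ F := IntermediateField.mem_adjoin_simple_self K t
  let τ : F := ⟨t, htF⟩
  -- the polynomial
  let φ : MvPolynomial (Fin 2) K →ₐ[K] Polynomial F :=
    aeval ![Polynomial.C (algebraMap K F (z 0)) + Polynomial.C τ * Polynomial.X,
      Polynomial.C (algebraMap K F (z 1)) + Polynomial.X]
  have hdeg : (φ g).natDegree ≤ g.totalDegree := by
    have h1 : φ g = ∑ m ∈ g.support, φ (monomial m (coeff m g)) := by
      conv_lhs => rw [g.as_sum]
      rw [map_sum]
    rw [h1]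
    refine Polynomial.natDegree_sum_le_of_forall_le _ _ fun m hm => ?_
    rw [aeval_monomial, Finsupp.prod_fintype _ _ (by simp), Fin.prod_univ_two]
    refine Polynomial.natDegree_mul_le.trans ?_
    have h2 : (algebraMap K (Polynomial F) (coeff m g)).natDegree = 0 := by
      rw [IsScalarTower.algebraMap_apply K F (Polynomial F), Polynomial.algebraMap_eq,
        Polynomial.natDegree_C]
    rw [h2, zero_add]
    refine Polynomial.natDegree_mul_le.trans ?_
    have h3 : m 0 + m 1 ≤ g.totalDegree := by
      have := le_totalDegree hm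
      rwa [Finsupp.sum_fintype _ _ (by simp), Fin.sum_univ_two] at this
    refine le_trans (Nat.add_le_add ?_ ?_) h3
    · refine Polynomial.natDegree_pow_le.trans ?_
      have : (Polynomial.C (algebraMap K F (z 0)) + Polynomial.C τ * Polynomial.X).natDegree ≤ 1 := by
        compute_degree
      simpa using Nat.mul_le_mul_left (m 0) this
    · refine Polynomial.natDegree_pow_le.trans ?_
      have : (Polynomial.C (algebraMap K F (z 1)) + Polynomial.X).natDegree ≤ 1 := by
        compute_degree
      simpa using Nat.mul_le_mul_left (m 1) this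
  have hne : φ g ≠ 0 := by
    intro h
    have h1 : Polynomial.aeval (0 : F) (φ g) = algebraMap K F (MvPolynomial.eval z g) := by
      have h2 : ((Polynomial.aeval (R := F) (0 : F)).restrictScalars K).comp φ =
          (Algebra.ofId K F).comp (aeval z) := by
        refine MvPolynomial.algHom_ext fun i => ?_
        fin_cases i
        · simp [φ, Algebra.ofId_apply]
        · simp [φ, Algebra.ofId_apply]
      have h3 := congrArg (fun a => a g) h2
      simpa [Algebra.ofId_apply, MvPolynomial.aeval_eq_eval] using h3
    rw [h, map_zero] at h1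
    exact hz ((map_eq_zero (algebraMap K F)).1 h1.symm)
  have hroot : Polynomial.aeval P (φ g) = 0 := by
    have h2 : ((Polynomial.aeval (R := F) P).restrictScalars K).comp φ = evp K x y := by
      refine MvPolynomial.algHom_ext fun i => ?_
      fin_cases i
      · simp only [φ, evp, AlgHom.comp_apply, aeval_X, AlgHom.restrictScalars_apply]
        simp only [Fin.zero_eta, Matrix.cons_val_zero, map_add, map_mul, Polynomial.aeval_C,
          Polynomial.aeval_X]
        rw [hxt]; rfl
      · simp only [φ, evp, AlgHom.comp_apply, aeval_X, AlgHom.restrictScalars_apply]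
        simp only [Fin.mk_one, Matrix.cons_val_one, Matrix.cons_val_fin_one, map_add,
          Polynomial.aeval_C, Polynomial.aeval_X]
        rw [hyt]; rfl
    have h3 := congrArg (fun a => a g) h2
    simp only [AlgHom.comp_apply, AlgHom.restrictScalars_apply] at h3
    rw [h3, hgx]
  have hint : IsIntegral F P := IsAlgebraic.isIntegral ⟨φ g, hne, hroot⟩
  have hmin : (minpoly F P).natDegree ≤ g.totalDegree :=
    (Polynomial.natDegree_le_of_dvd (minpoly.dvd F P hroot) hne).trans hdeg
  let N := IntermediateField.adjoin F ({P} : Set M)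
  have hfin : FiniteDimensional F N := IntermediateField.adjoin.finiteDimensional hint
  have hrank : Module.finrank F N ≤ g.totalDegree := by
    rw [IntermediateField.adjoin.finrank hint]; exact hmin
  have hPN : P ∈ N := IntermediateField.mem_adjoin_simple_self F P
  have hKN : ∀ a : K, (a : M) ∈ N := fun a => N.algebraMap_mem (algebraMap K F a)
  have htN : t ∈ N := N.algebraMap_mem τ
  have hle : IntermediateField.adjoin K ({x, y} : Set M) ≤ N.restrictScalars K := by
    rw [IntermediateField.adjoin_le_iff]
    rintro w (rfl | rfl)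
    · show w ∈ N
      rw [hxt]
      exact N.add_mem (hKN _) (N.mul_mem htN hPN)
    · show w ∈ N
      rw [hyt]
      exact N.add_mem (hKN _) hPN
  have hfN : ∀ i, f i ∈ N := fun i => hle (hf i)
  let v : Fin (g.totalDegree + 1) → N := fun i => ⟨f i, hfN i⟩
  have hdep : ¬ LinearIndependent F v := by
    intro h
    have := h.fintype_card_le_finrank
    rw [Fintype.card_fin] at this
    omega
  rw [Fintype.not_linearIndependent_iff] at hdep
  obtain ⟨c, hc, i₀, hi₀⟩ := hdep
  refine clear_rel ht0 f (fun i => (c i : M)) (fun i => (c i).2) ⟨i₀, fun h => hi₀ ?_⟩ ?_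
  · exact Subtype.ext h
  · have h2 := congrArg (fun w : N => (w : M)) hc
    simp only [v] at h2
    rw [ZeroMemClass.coe_zero] at h2
    rw [← h2]
    push_cast
    refine Finset.sum_congr rfl fun i _ => ?_
    rfl

end Pool.Agent.Lib.MP_44a246_ntH
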