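import Mathlib
import Pool.Agent.Lib.MP_44a246_ntH.HB1

/-!
Division by a linear form, a power of another linear form, and the equation of a curve.
-/

set_option linter.unusedSectionVars false

namespace Pool.Agent.Lib.MP_44a246_ntH

open Pool.Agent.Lib.MP_e52354_nt
open Pool.Agent.Lib.MP_e52354_ntP
open MvPolynomial

universe u

variable {K : Type*} [Field K]

private theorem he2_T_mem (z : Fin 2 → K) : (X 1 - C (z 1) : MvPolynomial (Fin 2) K) ∈ WW K 1 :=
  Submodule.sub_mem _ (X_mem_WW le_rfl 1) (C_mem_WW 1 _)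

private theorem he2_pow_mem (z : Fin 2 → K) (i : ℕ) :
    (X 1 - C (z 1) : MvPolynomial (Fin 2) K) ^ i ∈ WW K i := by
  induction i with
  | zero => rw [pow_zero]; exact C_mem_WW 0 1
  | succ i ih => rw [pow_succ]; exact mul_mem_WW ih (he2_T_mem z)

private theorem he2_aeval_mem (z : Fin 2 → K) {n : ℕ} {φ : Polynomial K} (hφ : φ.natDegree ≤ n) :
    Polynomial.aeval (X 1 - C (z 1) : MvPolynomial (Fin 2) K) φ ∈ WW K n := by
  rw [Polynomial.aeval_eq_sum_range]
  refine Submodule.sum_mem _ fun i hi => Submodule.smul_mem _ _ ?_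
  rw [Finset.mem_range] at hi
  exact WW_mono (by omega) (he2_pow_mem z i)

private theorem he2_div (z : Fin 2 → K) (n : ℕ) : ∀ F ∈ WW K n,
    ∃ A ∈ WW K (n - 1), ∃ φ : Polynomial K, φ.natDegree ≤ n ∧ φ.coeff 0 = eval z F ∧
      (n = 0 → A = 0) ∧
      F = A * (X 0 - C (z 0)) +
        Polynomial.aeval (X 1 - C (z 1) : MvPolynomial (Fin 2) K) φ := by
  induction n with
  | zero =>
    intro F hF
    have h1 : F = C (coeff 0 F) :=
      totalDegree_eq_zero_iff_eq_C.1 (Nat.le_zero.1 (mem_WW.1 hF))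
    refine ⟨0, Submodule.zero_mem _, Polynomial.C (coeff 0 F), by simp, ?_, fun _ => rfl, ?_⟩
    · rw [Polynomial.coeff_C_zero]
      conv_rhs => rw [h1]
      rw [eval_C]
    · rw [zero_mul, zero_add, Polynomial.aeval_C]
      exact h1
  | succ n ih =>
    intro F hF
    obtain ⟨A₁, hA₁, B₁, hB₁, h1⟩ := exists_div z hF
    obtain ⟨A₂, hA₂, φ, hφ, -, h0, h2⟩ := ih B₁ hB₁
    refine ⟨A₁ + (X 1 - C (z 1)) * A₂, ?_, Polynomial.C (eval z F) + Polynomial.X * φ, ?_, ?_,
      fun h => absurd h (Nat.succ_ne_zero n), ?_⟩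
    · refine Submodule.add_mem _ hA₁ ?_
      rcases Nat.eq_zero_or_pos n with hn | hn
      · rw [h0 hn, mul_zero]
        exact Submodule.zero_mem _
      · exact WW_mono (by omega) (mul_mem_WW (he2_T_mem z) hA₂)
    · refine (Polynomial.natDegree_add_le _ _).trans (max_le ?_ ?_)
      · rw [Polynomial.natDegree_C]
        exact Nat.zero_le _
      · refine Polynomial.natDegree_mul_le.trans ?_
        rw [Polynomial.natDegree_X]
        omega
    · simp
    · rw [map_add, map_mul, Polynomial.aeval_C, Polynomial.aeval_X]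
      conv_lhs => rw [h1]
      conv_lhs => rw [h2]
      show C (eval z F) + _ + _ = _ + (C (eval z F) + _)
      ring

/-- all forms of large degree are combinations of one linear form, of a power of another one, and of
the equation of a curve which does not pass through their common zero -/
theorem exists_div_pow {g : MvPolynomial (Fin 2) K} {z : Fin 2 → K} (hz : eval z g ≠ 0) (m : ℕ)
    (hm : 1 ≤ m) {F : MvPolynomial (Fin 2) K} (hF : F ∈ WW K (g.totalDegree + m)) :
    ∃ A ∈ WW K (g.totalDegree + m - 1), ∃ B ∈ WW K (g.totalDegree), ∃ C' ∈ WW K m,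
      F = A * (X 0 - C (z 0)) + B * (X 1 - C (z 1)) ^ m + C' * g := by
  obtain ⟨Ag, hAg, γ, hγ, hγ0, -, hg⟩ := he2_div z g.totalDegree g (mem_WW.2 le_rfl)
  obtain ⟨Af, hAf, φ, hφ, -, -, hf⟩ := he2_div z (g.totalDegree + m) F hF
  have hcop : IsCoprime γ (Polynomial.X ^ m) := by
    refine (IsCoprime.pow_left ?_).symm
    refine (Polynomial.irreducible_X.coprime_iff_not_dvd).2 ?_
    rw [Polynomial.X_dvd_iff, hγ0]
    exact hz
  obtain ⟨u, v, huv⟩ := hcop
  have hmon : (Polynomial.X ^ m : Polynomial K).Monic := Polynomial.monic_X_pow m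
  set c := (φ * u) %ₘ (Polynomial.X ^ m) with hc
  set β := ((φ * u) /ₘ (Polynomial.X ^ m)) * γ + φ * v with hβ
  have hφu : c + Polynomial.X ^ m * ((φ * u) /ₘ (Polynomial.X ^ m)) = φ * u :=
    Polynomial.modByMonic_add_div _ _
  have hφ' : φ = c * γ + Polynomial.X ^ m * β := by
    rw [hβ]
    linear_combination (-φ) * huv - γ * hφu
  have hcdeg : c.natDegree < m := by
    have h1 := Polynomial.natDegree_modByMonic_lt (φ * u) hmon (by
      intro h
      have := congrArg Polynomial.natDegree h
      rw [Polynomial.natDegree_X_pow, Polynomial.natDegree_one] at this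
      omega)
    rwa [Polynomial.natDegree_X_pow] at h1
  have hβdeg : β.natDegree ≤ g.totalDegree := by
    by_cases hβ0 : β = 0
    · rw [hβ0, Polynomial.natDegree_zero]
      exact Nat.zero_le _
    · have h1 : Polynomial.X ^ m * β = φ - c * γ := by rw [hφ']; ring
      have h2 : (Polynomial.X ^ m * β).natDegree = β.natDegree + m :=
        Polynomial.natDegree_X_pow_mul m hβ0
      have h3 : (φ - c * γ).natDegree ≤ g.totalDegree + m := by
        refine (Polynomial.natDegree_sub_le _ _).trans (max_le hφ ?_)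
        refine Polynomial.natDegree_mul_le.trans ?_
        omega
      rw [← h1, h2] at h3
      omega
  refine ⟨Af - Polynomial.aeval (X 1 - C (z 1) : MvPolynomial (Fin 2) K) c * Ag, ?_,
    Polynomial.aeval (X 1 - C (z 1) : MvPolynomial (Fin 2) K) β, he2_aeval_mem z hβdeg,
    Polynomial.aeval (X 1 - C (z 1) : MvPolynomial (Fin 2) K) c, he2_aeval_mem z hcdeg.le, ?_⟩
  · refine Submodule.sub_mem _ hAf ?_
    exact WW_mono (by omega) (mul_mem_WW (he2_aeval_mem z (n := m - 1) (by omega)) hAg)
  · have e1 : Polynomial.aeval (X 1 - C (z 1) : MvPolynomial (Fin 2) K) φ =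
        Polynomial.aeval (X 1 - C (z 1) : MvPolynomial (Fin 2) K) c *
          Polynomial.aeval (X 1 - C (z 1) : MvPolynomial (Fin 2) K) γ +
        (X 1 - C (z 1)) ^ m * Polynomial.aeval (X 1 - C (z 1) : MvPolynomial (Fin 2) K) β := by
      conv_lhs => rw [hφ']
      rw [map_add, map_mul, map_mul, map_pow, Polynomial.aeval_X]
    rw [e1] at hf
    linear_combination hf - Polynomial.aeval (X 1 - C (z 1) : MvPolynomial (Fin 2) K) c * hg

end Pool.Agent.Lib.MP_44a246_ntH
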