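import Mathlib
import Pool.Agent.Lib.MP_44a246_ntH.HE1
import Pool.Agent.Lib.MP_44a246_ntH.HE2

/-!
The descent for elements of given weight in a one dimensional space over the function field of a
plane curve.
-/

set_option linter.unusedSectionVars false

namespace Pool.Agent.Lib.MP_44a246_ntH

open Pool.Agent.Lib.MP_e52354_nt
open Pool.Agent.Lib.MP_e52354_ntP
open MvPolynomial

universe u

variable {M : Type u} [Field M] {K : Subfield M} {s d : ℕ}
  {al be ga : Fin s → K} {D : (Fin s →₀ ℕ) → Derivation ℤ M M}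
  {p : Fin s → M} {G : ℕ → AddSubgroup M} {l a b : Fin s}

/-- a homogenised polynomial in a quotient -/
theorem Wts.hE3_aux (h : Wts K p G) {P1 P2 : M} (h1 : P1 ∈ G 1) (h2 : P2 ∈ G 1) (hP2 : P2 ≠ 0)
    (q : Polynomial K) (n : ℕ) (hq : q.natDegree ≤ n) :
    P2 ^ n * Polynomial.aeval (P1 / P2) q ∈ G n := by
  rw [Polynomial.aeval_eq_sum_range' (Nat.lt_succ_of_le hq), Finset.mul_sum]
  refine AddSubgroup.sum_mem _ fun i hi => ?_
  rw [Finset.mem_range] at hi
  have e1 : P2 ^ n * (q.coeff i • (P1 / P2) ^ i) = (q.coeff i : M) * (P1 ^ i * P2 ^ (n - i)) := by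
    have e2 : P2 ^ n = P2 ^ (n - i) * P2 ^ i := by
      rw [← pow_add]
      congr 1
      omega
    rw [smul_eq', e2, div_pow]
    have : P2 ^ i ≠ 0 := pow_ne_zero _ hP2
    field_simp
  rw [e1]
  refine h.smul (q.coeff i).2 ?_
  have e3 := h.mul _ _ _ _ (h.pow h1 i) (h.pow h2 (n - i))
  have e4 : 1 * i + 1 * (n - i) = n := by omega
  rwa [e4] at e3

/-- the descent -/
theorem Wts.descent (h : Wts K p G) (P : Pln D d p l a b al be ga)
    {g : MvPolynomial (Fin 2) K} (hgx : evp K (p a) (p b) g = 0) {z : Fin 2 → K}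
    (hz : eval z g ≠ 0) (η : M) (w : ℕ) (Z : Fin (g.totalDegree + 1) → M)
    (hli : LinearIndependent K Z) (hZ : ∀ i, Z i ∈ G (w + 1))
    (hZN : ∀ i, ∃ f ∈ IntermediateField.adjoin K ({p a, p b} : Set M), Z i = η * f) :
    ∃ c : Fin (g.totalDegree + 1) → K, (∃ i, c i ≠ 0) ∧ ∃ z' ∈ G w,
      ∑ i, (c i : M) * Z i = (p a - (z 0 : M)) * z' := by
  have hP1 : p a - (z 0 : M) ≠ 0 := HCtx.notMem_a P (z 0)
  have hP2 : p b - (z 1 : M) ≠ 0 := HCtx.notMem_b P (z 1)
  choose f hf hZf using hZN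
  obtain ⟨Cp, ⟨i0, hi0⟩, hC⟩ := exists_rel hgx hz hP1 hP2 f hf
  have hW1 : (X 0 - C (z 0) : MvPolynomial (Fin 2) K) ∈ WW K 1 :=
    Submodule.sub_mem _ (X_mem_WW le_rfl 0) (C_mem_WW 1 (z 0))
  have hW2 : (X 1 - C (z 1) : MvPolynomial (Fin 2) K) ∈ WW K 1 :=
    Submodule.sub_mem _ (X_mem_WW le_rfl 1) (C_mem_WW 1 (z 1))
  have hev1 : evp K (p a) (p b) (X 0 - C (z 0)) = p a - (z 0 : M) := by
    rw [map_sub, evp_X0, evp_C]
  have hev2 : evp K (p a) (p b) (X 1 - C (z 1)) = p b - (z 1 : M) := by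
    rw [map_sub, evp_X1, evp_C]
  have hG1 : p a - (z 0 : M) ∈ G 1 := by
    have := h.evp_mem P hW1
    rwa [hev1] at this
  have hG2 : p b - (z 1 : M) ∈ G 1 := by
    have := h.evp_mem P hW2
    rwa [hev2] at this
  set P1 := p a - (z 0 : M) with hP1d
  set P2 := p b - (z 1 : M) with hP2d
  set t := P1 / P2 with ht
  have hP2t : P2 * t = P1 := by
    rw [ht]
    field_simp
  have hsum : ∑ i, Polynomial.aeval t (Cp i) * Z i = 0 := by
    have e1 : ∑ i, Polynomial.aeval t (Cp i) * Z i = η * ∑ i, Polynomial.aeval t (Cp i) * f i := by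
      rw [Finset.mul_sum]
      refine Finset.sum_congr rfl fun i _ => ?_
      rw [hZf i]
      ring
    rw [e1, hC, mul_zero]
  have hdec : ∀ i, Polynomial.aeval t (Cp i)
      = Polynomial.aeval t (Cp i).divX * t + ((Cp i).coeff 0 : M) := by
    intro i
    have e1 := congrArg (Polynomial.aeval t) (Polynomial.divX_mul_X_add (Cp i))
    rw [map_add, map_mul, Polynomial.aeval_X, Polynomial.aeval_C] at e1
    exact e1.symm
  set S := ∑ i, ((Cp i).coeff 0 : M) * Z i with hS
  set n := ∑ i, (Cp i).natDegree with hn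
  have hrel : S = - (t * ∑ i, Polynomial.aeval t (Cp i).divX * Z i) := by
    have e1 : ∑ i, Polynomial.aeval t (Cp i) * Z i
        = t * ∑ i, Polynomial.aeval t (Cp i).divX * Z i + S := by
      rw [hS, Finset.mul_sum, ← Finset.sum_add_distrib]
      refine Finset.sum_congr rfl fun i _ => ?_
      rw [hdec i]
      ring
    rw [hsum] at e1
    linear_combination -e1
  refine ⟨fun i => (Cp i).coeff 0, ⟨i0, hi0⟩, S / P1, ?_, ?_⟩
  · have hA1 : S / P1 * P1 ∈ G (w + 1) := by
      rw [div_mul_cancel₀ _ hP1, hS]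
      exact AddSubgroup.sum_mem _ fun i _ => h.smul ((Cp i).coeff 0).2 (hZ i)
    have hA2 : P2 ^ (n + 1) * (S / P1) ∈ G (n + (w + 1)) := by
      have e1 : P2 ^ (n + 1) * (S / P1)
          = - ∑ i, (P2 ^ n * Polynomial.aeval t (Cp i).divX) * Z i := by
        have e2 : ∑ i, (P2 ^ n * Polynomial.aeval t (Cp i).divX) * Z i
            = P2 ^ n * ∑ i, Polynomial.aeval t (Cp i).divX * Z i := by
          rw [Finset.mul_sum]
          refine Finset.sum_congr rfl fun i _ => ?_
          ring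
        rw [e2, hrel]
        have e3 : P2 ^ (n + 1) * (-(t * ∑ i, Polynomial.aeval t (Cp i).divX * Z i) / P1)
            = - (P2 ^ n * (P2 * t) / P1 * ∑ i, Polynomial.aeval t (Cp i).divX * Z i) := by
          ring
        rw [e3, hP2t, mul_div_assoc, div_self hP1, mul_one]
      rw [e1]
      refine AddSubgroup.neg_mem _ (AddSubgroup.sum_mem _ fun i _ => ?_)
      refine h.mul _ _ _ _ ?_ (hZ i)
      refine h.hE3_aux hG1 hG2 hP2 _ n ?_
      rw [Polynomial.natDegree_divX_eq_natDegree_tsub_one]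
      have e4 : (Cp i).natDegree ≤ n :=
        Finset.single_le_sum (f := fun i => (Cp i).natDegree) (fun _ _ => Nat.zero_le _)
          (Finset.mem_univ i)
      omega
    refine h.down (g.totalDegree + (n + 1)) w (S / P1) fun l' _ => ?_
    have hF : (lf al be ga l') ^ (g.totalDegree + (n + 1)) ∈ WW K (g.totalDegree + (n + 1)) := by
      have := pow_mem_WW (lf_mem (al := al) (be := be) (ga := ga) l') (g.totalDegree + (n + 1))
      rwa [mul_one] at this
    obtain ⟨A, hA, B, hB, C', hC', hF'⟩ := exists_div_pow hz (n + 1) (by omega) hF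
    have e1 := congrArg (evp K (p a) (p b)) hF'
    rw [map_pow, evp_lf, ← P.hp, map_add, map_add, map_mul, map_mul, map_mul, map_pow, hev1, hev2,
      hgx, mul_zero, add_zero] at e1
    rw [e1]
    have e2 : S / P1 * (evp K (p a) (p b) A * P1 + evp K (p a) (p b) B * P2 ^ (n + 1))
        = evp K (p a) (p b) A * (S / P1 * P1)
          + evp K (p a) (p b) B * (P2 ^ (n + 1) * (S / P1)) := by ring
    rw [e2]
    refine add_mem ?_ ?_
    · have e3 := h.mul _ _ _ _ (h.evp_mem P hA) hA1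
      have e4 : g.totalDegree + (n + 1) - 1 + (w + 1) = g.totalDegree + (n + 1) + w := by omega
      rwa [e4] at e3
    · have e3 := h.mul _ _ _ _ (h.evp_mem P hB) hA2
      have e4 : g.totalDegree + (n + (w + 1)) = g.totalDegree + (n + 1) + w := by omega
      rwa [e4] at e3
  · rw [mul_div_cancel₀ _ hP1]

end Pool.Agent.Lib.MP_44a246_ntH
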