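import Mathlib
import Pool.Agent.Lib.MP_44a246_ntH.HE3

/-!
The number of independent elements of given weight in a one dimensional space over the function
field of a plane curve.
-/

set_option linter.unusedSectionVars false

namespace Pool.Agent.Lib.MP_44a246_ntH

open Pool.Agent.Lib.MP_e52354_nt
open Pool.Agent.Lib.MP_e52354_ntP
open MvPolynomial

universe u

variable {M : Type u} [Field M] {K : Subfield M} {s d : ℕ}
  {al be ga : Fin s → K} {D : (Fin s →₀ ℕ) → Derivation ℤ M M}
  {p : Fin s → M} {G : ℕ → AddSubgroup M} {l a b : Fin s}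

/-- the elements of weight `w` as a subspace -/
def Wts.sub (h : Wts K p G) (w : ℕ) : Submodule K M where
  carrier := G w
  add_mem' := fun ha hb => add_mem ha hb
  zero_mem' := zero_mem _
  smul_mem' := fun c _ hx => h.smul c.2 hx

theorem Wts.mem_sub (h : Wts K p G) {w : ℕ} {y : M} : y ∈ h.sub w ↔ y ∈ G w := Iff.rfl

/-- the dimension of the elements of weight `w` in a line over the function field of a plane
curve of degree `e` is at most `w e + 1` -/
theorem Wts.dim_le [CharZero M] (h : Wts K p G) (P : Pln D d p l a b al be ga)
    {g : MvPolynomial (Fin 2) K} (hg0 : g ≠ 0) (hgx : evp K (p a) (p b) g = 0) (η : M) (w : ℕ)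
    (V : Submodule K M) [FiniteDimensional K V] (hV : ∀ v ∈ V, v ∈ G w)
    (hVN : ∀ v ∈ V, ∃ f ∈ IntermediateField.adjoin K ({p a, p b} : Set M), v = η * f) :
    Module.finrank K V ≤ w * g.totalDegree + 1 := by
  classical
  have : CharZero K := ⟨fun m n hmn => by
    have h1 : ((m : K) : M) = ((n : K) : M) := by rw [hmn]
    push_cast at h1
    exact_mod_cast h1⟩
  obtain ⟨z, hz⟩ : ∃ z : Fin 2 → K, eval z g ≠ 0 := by
    by_contra hcon
    push Not at hcon
    apply hg0
    apply MvPolynomial.funext
    intro z
    rw [map_zero]
    exact hcon z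
  induction w generalizing V with
  | zero =>
    have h1 : V ≤ Submodule.span K {(1 : M)} := by
      intro v hv
      have h2 := h.GK v (hV v hv)
      rw [Submodule.mem_span_singleton]
      exact ⟨⟨v, h2⟩, mul_one v⟩
    have h3 := Submodule.finrank_mono h1
    rw [finrank_span_singleton one_ne_zero] at h3
    omega
  | succ w ih =>
    have hP1 : p a - (z 0 : M) ≠ 0 := HCtx.notMem_a P (z 0)
    set P1 : M := p a - (z 0 : M) with hP1d
    set L : M →ₗ[K] M := LinearMap.mulLeft K P1⁻¹ with hL
    have hLa : ∀ v, L v = P1⁻¹ * v := fun v => LinearMap.mulLeft_apply _ _ _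
    have hLinj : Function.Injective L := by
      intro v v' hvv
      rw [hLa, hLa] at hvv
      exact mul_left_cancel₀ (inv_ne_zero hP1) hvv
    set V' : Submodule K M := V ⊓ (h.sub w).comap L with hV'
    have hP1N : P1 ∈ IntermediateField.adjoin K ({p a, p b} : Set M) := by
      refine sub_mem ?_ ?_
      · exact IntermediateField.subset_adjoin K _ (by simp)
      · exact (IntermediateField.adjoin K ({p a, p b} : Set M)).algebraMap_mem (z 0)
    have : FiniteDimensional K V' := Submodule.finiteDimensional_of_le inf_le_left
    have hA : Module.finrank K V ≤ Module.finrank K V' + g.totalDegree := by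
      by_contra hcon
      push Not at hcon
      set V'' : Submodule K V := V'.comap V.subtype with hV''
      have h1 : Module.finrank K V'' = Module.finrank K V' := by
        have := Submodule.comapSubtypeEquivOfLe (p := V') (q := V) inf_le_left
        exact this.finrank_eq
      have h2 := Submodule.finrank_quotient_add_finrank V''
      have h3 : g.totalDegree + 1 ≤ Module.finrank K (V ⧸ V'') := by omega
      obtain ⟨q, hq⟩ := exists_linearIndependent_of_le_finrank h3
      choose Z hZ using fun i => Submodule.mkQ_surjective V'' (q i)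
      have hZli : LinearIndependent K Z := by
        apply LinearIndependent.of_comp V''.mkQ
        have : (V''.mkQ ∘ Z) = q := funext hZ
        rwa [this]
      have hZM : LinearIndependent K (fun i => (Z i : M)) :=
        hZli.map' V.subtype (Submodule.ker_subtype V)
      obtain ⟨c, ⟨i, hi⟩, z', hz', hsum⟩ := Wts.descent h P hgx hz η w (fun i => (Z i : M)) hZM
        (fun i => hV _ (Z i).2) (fun i => hVN _ (Z i).2)
      have h4 : (∑ i, c i • Z i) ∈ V'' := by
        rw [hV'', Submodule.mem_comap]
        refine ⟨(∑ i, c i • Z i : V).2, ?_⟩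
        show L (V.subtype (∑ i, c i • Z i)) ∈ h.sub w
        rw [hLa, h.mem_sub]
        have h5 : V.subtype (∑ i, c i • Z i) = ∑ i, (c i : M) * (Z i : M) := by
          rw [map_sum]
          rfl
        rw [h5, hsum, inv_mul_cancel_left₀ hP1]
        exact hz'
      have h6 : ∑ i, c i • q i = 0 := by
        have h7 : V''.mkQ (∑ i, c i • Z i) = 0 := by
          rw [Submodule.mkQ_apply, Submodule.Quotient.mk_eq_zero]
          exact h4
        rw [map_sum] at h7
        rw [← h7]
        refine Finset.sum_congr rfl fun i _ => ?_
        rw [map_smul, hZ i]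
      exact hi (Fintype.linearIndependent_iff.mp hq c h6 i)
    have hB : Module.finrank K V' ≤ w * g.totalDegree + 1 := by
      have h1 : Module.finrank K (V'.map L) = Module.finrank K V' :=
        (Submodule.equivMapOfInjective L hLinj V').finrank_eq.symm
      rw [← h1]
      refine ih (V'.map L) ?_ ?_
      · rintro v ⟨v', hv', rfl⟩
        exact hv'.2
      · rintro v ⟨v', hv', rfl⟩
        obtain ⟨f, hf, hfv⟩ := hVN v' hv'.1
        refine ⟨P1⁻¹ * f, mul_mem (inv_mem hP1N) hf, ?_⟩
        rw [hLa, hfv]
        ring
    rw [Nat.succ_mul]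
    omega

end Pool.Agent.Lib.MP_44a246_ntH
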