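import Mathlib
import Pool.Agent.Lib.MP_44a246_ntH.HB1
import Pool.Agent.Lib.MP_44a246_ntH.HE4

/-!
The case of a plane which is constant with respect to the further derivation.
-/

set_option linter.unusedSectionVars false

namespace Pool.Agent.Lib.MP_44a246_ntH

open Pool.Agent.Lib.MP_e52354_nt
open Pool.Agent.Lib.MP_e52354_ntP
open MvPolynomial

universe u

section Gen

variable {K M : Type*} [Field K] [Field M] [Algebra K M]

theorem aeval_monomial_two (x y : M) (m : Fin 2 →₀ ℕ) (c : K) :
    aeval ![x, y] (monomial m c) = algebraMap K M c * (x ^ m 0 * y ^ m 1) := by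
  rw [aeval_monomial, Finsupp.prod_fintype _ _ (fun _ => pow_zero _), Fin.prod_univ_two]
  rfl

theorem aeval_two (x y : M) (g : MvPolynomial (Fin 2) K) :
    aeval ![x, y] g = ∑ m ∈ g.support, algebraMap K M (coeff m g) * (x ^ m 0 * y ^ m 1) := by
  conv_lhs => rw [g.as_sum]
  rw [map_sum]
  exact Finset.sum_congr rfl fun m _ => aeval_monomial_two x y m _

theorem chain (D : Derivation ℤ M M) (x y : M) (g : MvPolynomial (Fin 2) K) :
    D (aeval ![x, y] g) =
      ∑ m ∈ g.support, D (algebraMap K M (coeff m g)) * (x ^ m 0 * y ^ m 1) +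
      aeval ![x, y] (pderiv 0 g) * D x + aeval ![x, y] (pderiv 1 g) * D y := by
  classical
  have h0 : aeval ![x, y] (pderiv 0 g) =
      ∑ m ∈ g.support, algebraMap K M (coeff m g) * (((m 0 : ℕ) : M) * x ^ (m 0 - 1) * y ^ m 1) := by
    conv_lhs => rw [g.as_sum]
    rw [map_sum, map_sum]
    refine Finset.sum_congr rfl fun m _ => ?_
    rw [pderiv_monomial, aeval_monomial_two]
    simp
    ring
  have h1 : aeval ![x, y] (pderiv 1 g) =
      ∑ m ∈ g.support, algebraMap K M (coeff m g) * (((m 1 : ℕ) : M) * x ^ m 0 * y ^ (m 1 - 1)) := by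
    conv_lhs => rw [g.as_sum]
    rw [map_sum, map_sum]
    refine Finset.sum_congr rfl fun m _ => ?_
    rw [pderiv_monomial, aeval_monomial_two]
    simp
    ring
  rw [aeval_two x y g, h0, h1, map_sum, Finset.sum_mul, Finset.sum_mul,
    ← Finset.sum_add_distrib, ← Finset.sum_add_distrib]
  refine Finset.sum_congr rfl fun m _ => ?_
  rw [Derivation.leibniz, Derivation.leibniz, Derivation.leibniz_pow, Derivation.leibniz_pow]
  simp only [smul_eq_mul, nsmul_eq_mul]
  ring

end Gen

section Gen2

variable {K : Type*} [Field K]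

theorem pderiv_mem_WW (i : Fin 2) {k : ℕ} {g : MvPolynomial (Fin 2) K} (hg : g ∈ WW K (k + 1)) :
    pderiv i g ∈ WW K k := by
  classical
  refine WW_induction (P := fun g => pderiv i g ∈ WW K k) ?_ ?_ ?_ hg
  · intro m hm
    rw [pderiv_monomial]
    by_cases h : m i = 0
    · rw [h, Nat.cast_zero, mul_zero, monomial_zero]
      exact zero_mem _
    · refine monomial_mem_WW ?_ _
      have h1 : m - Finsupp.single i 1 + Finsupp.single i 1 = m :=
        tsub_add_cancel_of_le (by rw [Finsupp.single_le_iff]; omega)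
      have h2 := congrArg Finsupp.degree h1
      rw [map_add, Finsupp.degree_single] at h2
      omega
  · intro Q R hQ hR
    rw [map_add]
    exact add_mem hQ hR
  · intro a Q hQ
    rw [Derivation.map_smul]
    exact Submodule.smul_mem _ _ hQ

theorem eq_C_of_pderiv [CharZero K] {g : MvPolynomial (Fin 2) K} (h : ∀ i, pderiv i g = 0) :
    g = C (coeff 0 g) := by
  classical
  ext m
  rw [coeff_C]
  split_ifs with hm
  · rw [← hm]
  · obtain ⟨i, hi⟩ : ∃ i, m i ≠ 0 := by
      by_contra hcon
      push Not at hcon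
      exact hm (Finsupp.ext fun i => (hcon i).symm)
    have h1 : coeff (m - Finsupp.single i 1) (pderiv i g) = 0 := by rw [h i, coeff_zero]
    have h2 : m - Finsupp.single i 1 + Finsupp.single i 1 = m :=
      tsub_add_cancel_of_le (by rw [Finsupp.single_le_iff]; omega)
    rw [coeff_pderiv, h2] at h1
    refine (mul_eq_zero.mp h1).resolve_right ?_
    exact Nat.cast_add_one_ne_zero _

end Gen2

section Dim

variable {K : Type*} [Field K] {V W U : Type*} [AddCommGroup V] [Module K V]
  [FiniteDimensional K V] [AddCommGroup W] [Module K W] [AddCommGroup U] [Module K U]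

theorem finrank_range_le_add (φ : V →ₗ[K] W) (Θ : V →ₗ[K] U) :
    Module.finrank K (LinearMap.range φ) ≤
      Module.finrank K ((LinearMap.ker Θ).map φ) + Module.finrank K (LinearMap.range Θ) := by
  have d1 := LinearMap.finrank_range_add_finrank_ker Θ
  have d3 := LinearMap.finrank_range_add_finrank_ker φ
  have d4 := LinearMap.finrank_range_add_finrank_ker (φ ∘ₗ (LinearMap.ker Θ).subtype)
  rw [LinearMap.range_comp, Submodule.range_subtype] at d4
  have d5 : Module.finrank K (LinearMap.ker (φ ∘ₗ (LinearMap.ker Θ).subtype)) ≤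
      Module.finrank K (LinearMap.ker φ) := by
    let f : LinearMap.ker (φ ∘ₗ (LinearMap.ker Θ).subtype) →ₗ[K] LinearMap.ker φ :=
      { toFun := fun z => ⟨z.1.1, z.2⟩
        map_add' := fun _ _ => rfl
        map_smul' := fun _ _ => rfl }
    refine LinearMap.finrank_le_finrank_of_injective (f := f) ?_
    intro z z' h
    apply Subtype.ext
    apply Subtype.ext
    exact congrArg (fun w => w.1) h
  omega

end Dim

variable {M : Type u} [Field M] {K : Subfield M} {s d : ℕ} {A : (Fin s →₀ ℕ) → K}
  {al be ga : Fin s → K} {D : (Fin s →₀ ℕ) → Derivation ℤ M M} {E : Derivation ℤ M M}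
  {p : Fin s → M} {G : ℕ → AddSubgroup M} {l a b : Fin s}

/-- the chain rule at a point, for derivations preserving the subfield -/
theorem chainH (D' : Derivation ℤ M M) (hK : ∀ y ∈ K, D' y ∈ K) (x y : M)
    (g : MvPolynomial (Fin 2) K) :
    D' (evp K x y g) = evp K x y (hat (resD D' hK) g) + evp K x y (pderiv 0 g) * D' x +
      evp K x y (pderiv 1 g) * D' y := by
  have h1 := chain (K := K) D' x y g
  have h2 : evp K x y (hat (resD D' hK) g) =
      ∑ m ∈ g.support, D' (algebraMap K M (coeff m g)) * (x ^ m 0 * y ^ m 1) := by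
    have h3 : hat (resD D' hK) g = ∑ m ∈ g.support, monomial m (resD D' hK (coeff m g)) := rfl
    rw [h3, map_sum]
    refine Finset.sum_congr rfl fun m _ => ?_
    have h4 := aeval_monomial_two (K := K) x y m (resD D' hK (coeff m g))
    exact h4
  rw [h2]
  exact h1

theorem evp_mem_adjoin (x y : M) (Q : MvPolynomial (Fin 2) K) :
    evp K x y Q ∈ IntermediateField.adjoin K ({x, y} : Set M) := by
  induction Q using MvPolynomial.induction_on with
  | C c =>
    rw [evp_C]
    exact (IntermediateField.adjoin K ({x, y} : Set M)).algebraMap_mem c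
  | add P Q hP hQ =>
    rw [map_add]
    exact add_mem hP hQ
  | mul_X P i hP =>
    rw [map_mul]
    refine mul_mem hP ?_
    fin_cases i
    · show evp K x y (X 0) ∈ _
      rw [evp_X0]
      exact IntermediateField.subset_adjoin K _ (by simp)
    · show evp K x y (X 1) ∈ _
      rw [evp_X1]
      exact IntermediateField.subset_adjoin K _ (by simp)

/-- the motion of the plane as a linear map -/
noncomputable def HCtx.thetaH (h : HCtx K d D E A p G) (l a b : Fin s) (al be ga : Fin s → K) :
    WW K d →ₗ[K] ((Finset.univ \ ({l, a, b} : Finset (Fin s)) : Finset (Fin s)) → WW K 1) where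
  toFun H := fun k => ⟨hat (h.dH l a b (H : MvPolynomial (Fin 2) K)) (lf al be ga k.1),
    hat_mem _ (lf_mem k.1)⟩
  map_add' := by
    intro H H'
    funext k
    apply Subtype.ext
    exact h.hat_dH_add _ _ _
  map_smul' := by
    intro c H
    funext k
    apply Subtype.ext
    exact h.hat_dH_smul _ _ _

theorem HCtx.thetaH_ker (h : HCtx K d D E A p G) (P : Pln D d p l a b al be ga)
    {H : WW K d} (hH : H ∈ LinearMap.ker (h.thetaH l a b al be ga)) (k : Fin s) :
    hat (h.dH l a b (H : MvPolynomial (Fin 2) K)) (lf al be ga k) = 0 := by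
  by_cases hk : k ∈ ({l, a, b} : Finset (Fin s))
  · exact hat_lf_zeroH P _ hk
  · have h1 := congrFun (LinearMap.mem_ker.mp hH)
      ⟨k, Finset.mem_sdiff.mpr ⟨Finset.mem_univ k, hk⟩⟩
    exact congrArg Subtype.val h1

theorem finrank_WW_one (K : Type*) [Field K] : Module.finrank K (WW K 1) = 3 := by
  have := finrank_WWk K 1
  omega

theorem HCtx.thetaH_rank (h : HCtx K d D E A p G) (P : Pln D d p l a b al be ga) :
    Module.finrank K (LinearMap.range (h.thetaH l a b al be ga)) + 9 ≤ 3 * s := by
  have h1 := Submodule.finrank_le (LinearMap.range (h.thetaH l a b al be ga))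
  rw [Module.finrank_pi_fintype, Finset.sum_congr rfl (fun _ _ => finrank_WW_one K),
    Finset.sum_const, Finset.card_univ, Fintype.card_coe, smul_eq_mul] at h1
  have h2 := card_complH P
  omega

/-- The plane is not constant with respect to `E`. -/
theorem HCtx.caseB [CharZero M] (h : HCtx K d D E A p G) (P : Pln D d p l a b al be ga) {k : ℕ}
    (hk : 1 ≤ k) (hs : s = 2 * k + 3) (hd : d = 3 * k + 3)
    {g c : MvPolynomial (Fin 2) K} (hg0 : g ≠ 0) (hgx : evp K (p a) (p b) g = 0)
    (hmin : ∀ f : MvPolynomial (Fin 2) K, f ≠ 0 → evp K (p a) (p b) f = 0 →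
      g.totalDegree ≤ f.totalDegree)
    (hc : fH d A al be ga = g * c) (hc0 : c ≠ 0) (hge : d ≤ g.totalDegree + 1)
    (hgc : g.totalDegree + c.totalDegree ≤ d)
    (hE : ∀ j, hat h.dE (lf al be ga j) = 0) : False := by
  classical
  have hchar : CharZero K := K.subtype.charZero
  set F := fH d A al be ga with hF
  -- step 1
  have hEk : ∀ j, E (p j) = be j * E (p a) + ga j * E (p b) := by
    intro j
    have h1 := h.motion_E P j
    rw [hE j, map_zero, zero_add] at h1
    exact h1
  have hExy : E (p a) ≠ 0 ∨ E (p b) ≠ 0 := by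
    by_contra hcon
    push Not at hcon
    obtain ⟨j, hj⟩ := h.Ep
    apply hj
    rw [hEk j, hcon.1, hcon.2, mul_zero, mul_zero, add_zero]
  set fx := evp K (p a) (p b) (pderiv 0 F) with hfx
  set fy := evp K (p a) (p b) (pderiv 1 F) with hfy
  have hFp : evp K (p a) (p b) F = 0 := h.fp P
  -- step 2
  have e1 : fx * E (p a) + fy * E (p b) = 0 := by
    have h1 := chainH E h.EK (p a) (p b) F
    have h2 : hat (resD E h.EK) F = 0 := by
      rw [hF, hat_fH_aux, Finset.sum_eq_zero, Finset.sum_eq_zero, add_zero]
      · intro j _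
        have : hat (resD E h.EK) (lf al be ga j) = 0 := hE j
        rw [this, mul_zero]
      · intro J _
        have : resD E h.EK (A J) = 0 := Subtype.ext (h.EA J)
        rw [this, zero_smul]
    rw [hFp, map_zero, h2, map_zero, zero_add] at h1
    exact h1.symm
  have e2 : ∀ H : WW K d, H ∈ LinearMap.ker (h.thetaH l a b al be ga) →
      fx * EE K D d l a b p (H : MvPolynomial (Fin 2) K) a +
        fy * EE K D d l a b p (H : MvPolynomial (Fin 2) K) b =
      - evp K (p a) (p b) (H : MvPolynomial (Fin 2) K) := by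
    intro H hH
    have h1 := chainH (DG K D d l a b (H : MvPolynomial (Fin 2) K))
      (h.DG_K (H : MvPolynomial (Fin 2) K)) (p a) (p b) F
    have h2 : hat (resD (DG K D d l a b (H : MvPolynomial (Fin 2) K))
        (h.DG_K (H : MvPolynomial (Fin 2) K))) F = H := by
      have h3 := h.hat_fH P H.2
      rw [Finset.sum_eq_zero (fun j _ => by rw [h.thetaH_ker P hH j, mul_zero]), add_zero] at h3
      exact h3
    rw [hFp, map_zero, h2] at h1
    rw [EE_apply, EE_apply]
    linear_combination -h1
  -- step 4
  have hd5 : 5 ≤ g.totalDegree := by omega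
  have hcp : evp K (p a) (p b) c ≠ 0 := by
    intro h0
    have := hmin c hc0 h0
    omega
  have hgd : ∀ i, evp K (p a) (p b) (pderiv i g) = 0 → pderiv i g = 0 := by
    intro i h0
    by_contra hne
    have h1 := hmin _ hne h0
    have h2 : g ∈ WW K (g.totalDegree - 1 + 1) := mem_WW.mpr (by omega)
    have h3 := mem_WW.mp (pderiv_mem_WW i h2)
    omega
  have hFi : ∀ i, evp K (p a) (p b) (pderiv i F) =
      evp K (p a) (p b) (pderiv i g) * evp K (p a) (p b) c := by
    intro i
    rw [hc, Derivation.leibniz, map_add, smul_eq_mul, smul_eq_mul, map_mul, map_mul, hgx,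
      zero_mul, zero_add, mul_comm]
  have hfxy : fx ≠ 0 ∨ fy ≠ 0 := by
    by_contra hcon
    push Not at hcon
    have h0 : pderiv 0 g = 0 := by
      apply hgd
      have := hcon.1
      rw [hfx, hFi] at this
      exact (mul_eq_zero.mp this).resolve_right hcp
    have h1 : pderiv 1 g = 0 := by
      apply hgd
      have := hcon.2
      rw [hfy, hFi] at this
      exact (mul_eq_zero.mp this).resolve_right hcp
    have h2 := eq_C_of_pderiv (g := g) (by
      intro i
      fin_cases i
      · exact h0
      · exact h1)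
    rw [h2, totalDegree_C] at hd5
    omega
  -- step 5
  obtain ⟨η, hη0, hη1, hη2⟩ : ∃ η : M, η ≠ 0 ∧ E (p a) = η * fy ∧ E (p b) = -(η * fx) := by
    by_cases hy : fy = 0
    · have hx : fx ≠ 0 := by
        rcases hfxy with h1 | h1
        · exact h1
        · exact absurd hy h1
      have h2 : E (p a) = 0 := by
        rw [hy, zero_mul, add_zero] at e1
        exact (mul_eq_zero.mp e1).resolve_left hx
      have h3 : E (p b) ≠ 0 := by
        rcases hExy with h1 | h1
        · exact absurd h2 h1
        · exact h1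
      refine ⟨-(E (p b)) / fx, div_ne_zero (neg_ne_zero.mpr h3) hx, ?_, ?_⟩
      · rw [h2, hy, mul_zero]
      · field_simp
    · refine ⟨E (p a) / fy, ?_, ?_, ?_⟩
      · refine div_ne_zero ?_ hy
        intro h0
        rw [h0, mul_zero, zero_add] at e1
        have h1 := (mul_eq_zero.mp e1).resolve_left hy
        rcases hExy with h2 | h2
        · exact h2 h0
        · exact h2 h1
      · field_simp
      · field_simp
        linear_combination e1
  have e3 : ∀ H : WW K d, H ∈ LinearMap.ker (h.thetaH l a b al be ga) →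
      η * evp K (p a) (p b) (H : MvPolynomial (Fin 2) K) ∈ G 3 := by
    intro H hH
    have h1 := h.wEEE (l := l) (a := a) (b := b) H.2 a b
    have h2 : E (p a) * EE K D d l a b p (H : MvPolynomial (Fin 2) K) b -
        E (p b) * EE K D d l a b p (H : MvPolynomial (Fin 2) K) a =
        -(η * evp K (p a) (p b) (H : MvPolynomial (Fin 2) K)) := by
      rw [hη1, hη2]
      linear_combination η * e2 H hH
    rw [h2] at h1
    have h3 := neg_mem h1
    rwa [neg_neg] at h3
  -- step 6
  let φ : WW K d →ₗ[K] M := (LinearMap.mulLeft K η) ∘ₗ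
    ((evp K (p a) (p b)).toLinearMap ∘ₗ (WW K d).subtype)
  have hφ : ∀ H : WW K d, φ H = η * evp K (p a) (p b) (H : MvPolynomial (Fin 2) K) :=
    fun H => rfl
  have hrange : LinearMap.range φ = (VV2 K (p a) (p b) d).map (LinearMap.mulLeft K η) := by
    rw [LinearMap.range_comp, LinearMap.range_comp, Submodule.range_subtype]
    rfl
  have hinj : Function.Injective (LinearMap.mulLeft K η) := by
    intro x y hxy
    exact mul_left_cancel₀ hη0 hxy
  have hfr : Module.finrank K (LinearMap.range φ) = Module.finrank K (VV2 K (p a) (p b) d) := by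
    rw [hrange]
    exact (LinearEquiv.finrank_eq (Submodule.equivMapOfInjective _ hinj _)).symm
  have h1 := finrank_range_le_add φ (h.thetaH l a b al be ga)
  rw [hfr] at h1
  have h2 := h.thetaH_rank (al := al) (be := be) (ga := ga) P
  have h3 : Module.finrank K ((LinearMap.ker (h.thetaH l a b al be ga)).map φ) ≤
      3 * g.totalDegree + 1 := by
    refine h.W.dim_le P hg0 hgx η 3 _ ?_ ?_
    · rintro v ⟨H, hH, rfl⟩
      rw [hφ]
      exact e3 H hH
    · rintro v ⟨H, hH, rfl⟩
      exact ⟨evp K (p a) (p b) (H : MvPolynomial (Fin 2) K), evp_mem_adjoin _ _ _, hφ H⟩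
  have htr : Transcendental K (p b) := by
    intro halg
    have h4 := h.W.alg _ halg
    exact HCtx.notMem_b P ⟨p b, h4⟩ (sub_self _)
  have h4 := finrank_VV2 (x := p a) htr (n := g.totalDegree) (fun f hf0 hf => hmin f hf0 hf) d
  have h5 : g.totalDegree ≤ d := by omega
  have h6 : g.totalDegree = d ∨ g.totalDegree + 1 = d := by omega
  rcases h6 with h6 | h6
  · rw [h6] at h3 h4
    have e4 : d + 1 - d = 1 := by omega
    have e5 : d + 2 - d = 2 := by omega
    rw [e4, e5] at h4
    subst hd
    nlinarith
  · have e4 : d + 1 - g.totalDegree = 2 := by omega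
    have e5 : d + 2 - g.totalDegree = 3 := by omega
    rw [e4, e5] at h4
    have e6 : g.totalDegree = 3 * k + 2 := by omega
    rw [e6] at h3
    subst hd
    nlinarith

end Pool.Agent.Lib.MP_44a246_ntH
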