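import Mathlib
import Pool.Agent.Lib.MP_e52354_ntP.Back2

/-!
Fractions with linear denominators, and the Koszul complex in the lowest degree.
-/

set_option linter.unusedSectionVars false

namespace Pool.Agent.Lib.MP_44a246_ntH

open Pool.Agent.Lib.MP_e52354_ntP
open MvPolynomial

universe u

section Alg

variable {K : Type*} [Field K]

/-- the form of the polynomials of degree at most one -/
theorem hb6_form {Q : MvPolynomial (Fin 2) K} (hQ : Q ∈ WW K 1) :
    ∃ a b c : K, Q = C a + C b * X 0 + C c * X 1 := by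
  refine WW_induction (P := fun Q => ∃ a b c : K, Q = C a + C b * X 0 + C c * X 1)
    ?_ ?_ ?_ hQ
  · intro m hm
    rcases Nat.eq_zero_or_pos m.degree with h0 | h0
    · have : m = 0 := (Finsupp.degree_eq_zero_iff m).mp h0
      exact ⟨1, 0, 0, by rw [this]; simp⟩
    · obtain ⟨i, m', hm', hmm⟩ := exists_of_degree (K := K) (k := 0) (m := m) (by omega)
      have : m' = 0 := (Finsupp.degree_eq_zero_iff m').mp hm'
      rw [hmm, this]
      fin_cases i
      · exact ⟨0, 1, 0, by simp⟩
      · exact ⟨0, 0, 1, by simp⟩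
  · rintro Q R ⟨a, b, c, rfl⟩ ⟨a', b', c', rfl⟩
    exact ⟨a + a', b + b', c + c', by simp only [map_add]; ring⟩
  · rintro t Q ⟨a, b, c, rfl⟩
    exact ⟨t * a, t * b, t * c, by simp only [map_mul, smul_eq_C_mul]; ring⟩

/-- the constant polynomials are those of degree zero -/
theorem hb6_const {Q : MvPolynomial (Fin 2) K} (hQ : Q.totalDegree = 0) :
    ∃ c : K, Q = C c := ⟨_, totalDegree_eq_zero_iff_eq_C.1 hQ⟩

theorem hb6_irr {b : MvPolynomial (Fin 2) K} (hb : b.totalDegree = 1) : Irreducible b := by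
  have hb0 : b ≠ 0 := by
    rintro rfl
    simp at hb
  have hun : ∀ u : MvPolynomial (Fin 2) K, u ≠ 0 → u.totalDegree = 0 → IsUnit u := by
    intro u hu hu0
    obtain ⟨c, rfl⟩ := hb6_const hu0
    have hc : c ≠ 0 := by
      rintro rfl
      exact hu (by simp)
    exact (isUnit_iff_ne_zero.2 hc).map C
  refine ⟨?_, ?_⟩
  · intro hu
    obtain ⟨v, hv⟩ := hu.exists_right_inv
    have hv0 : v ≠ 0 := by
      rintro rfl
      simp at hv
    have := congrArg totalDegree hv
    rw [totalDegree_mul_of_isDomain hb0 hv0, totalDegree_one] at this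
    omega
  · intro u v huv
    have hu0 : u ≠ 0 := by
      rintro rfl
      rw [zero_mul] at huv
      exact hb0 huv
    have hv0 : v ≠ 0 := by
      rintro rfl
      rw [mul_zero] at huv
      exact hb0 huv
    have := congrArg totalDegree huv
    rw [totalDegree_mul_of_isDomain hu0 hv0, hb] at this
    rcases Nat.eq_zero_or_pos u.totalDegree with h1 | h1
    · exact Or.inl (hun u hu0 h1)
    · exact Or.inr (hun v hv0 (by omega))

/-- the case where `b` is constant -/
theorem hb6_case {b b' q q' : MvPolynomial (Fin 2) K} (hb0 : b.totalDegree = 0)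
    (hb' : b' ∈ WW K 1) (hq' : q' ∈ WW K 2)
    (hli : ∀ c c' : K, c • b + c' • b' = 0 → c = 0 ∧ c' = 0) (h : b * q' = b' * q) :
    ∃ r ∈ WW K 1, q = b * r ∧ q' = b' * r := by
  obtain ⟨c, rfl⟩ := hb6_const hb0
  have hc : c ≠ 0 := by
    rintro rfl
    have := (hli 1 0 (by simp)).1
    exact one_ne_zero this
  have hcc : (C c : MvPolynomial (Fin 2) K) * C c⁻¹ = 1 := by
    rw [← C_mul, mul_inv_cancel₀ hc, C_1]
  have hb1 : b'.totalDegree ≠ 0 := by
    intro h0
    obtain ⟨c', rfl⟩ := hb6_const h0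
    have := (hli (-c') c (by
      rw [smul_eq_C_mul, smul_eq_C_mul, ← C_mul, ← C_mul, ← C_add]
      rw [neg_mul, mul_comm c' c, neg_add_cancel, C_0])).2
    exact hc this
  have hb'0 : b' ≠ 0 := by
    rintro rfl
    simp at hb1
  have hq'' : q' = b' * (C c⁻¹ * q) := by
    calc q' = (C c * C c⁻¹) * q' := by rw [hcc, one_mul]
      _ = C c⁻¹ * (C c * q') := by ring
      _ = C c⁻¹ * (b' * q) := by rw [h]
      _ = b' * (C c⁻¹ * q) := by ring
  refine ⟨C c⁻¹ * q, ?_, ?_, hq''⟩
  · by_cases hr : C c⁻¹ * q = 0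
    · rw [hr]
      exact Submodule.zero_mem _
    · have h1 := congrArg totalDegree hq''
      rw [totalDegree_mul_of_isDomain hb'0 hr] at h1
      have h2 := mem_WW.1 hq'
      rw [mem_WW]
      omega
  · rw [← mul_assoc, hcc, one_mul]

/-- two fractions with independent linear denominators -/
theorem exists_lin {b b' q q' : MvPolynomial (Fin 2) K} (hb : b ∈ WW K 1) (hb' : b' ∈ WW K 1)
    (hq : q ∈ WW K 2) (hq' : q' ∈ WW K 2)
    (hli : ∀ c c' : K, c • b + c' • b' = 0 → c = 0 ∧ c' = 0) (h : b * q' = b' * q) :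
    ∃ r ∈ WW K 1, q = b * r ∧ q' = b' * r := by
  rcases Nat.eq_zero_or_pos b.totalDegree with h0 | h0
  · exact hb6_case h0 hb' hq' hli h
  rcases Nat.eq_zero_or_pos b'.totalDegree with h0' | h0'
  · obtain ⟨r, hr, h1, h2⟩ := hb6_case h0' hb hq (fun c c' hcc => by
      have := hli c' c (by rw [add_comm]; exact hcc)
      exact ⟨this.2, this.1⟩) h.symm
    exact ⟨r, hr, h2, h1⟩
  have hd := mem_WW.1 hb
  have hd' := mem_WW.1 hb'
  have hb1 : b.totalDegree = 1 := by omega
  have hb1' : b'.totalDegree = 1 := by omega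
  have hbne : b ≠ 0 := by
    rintro rfl
    simp at hb1
  have hirr := hb6_irr hb1
  have hprime : Prime b := hirr.prime
  rcases hprime.dvd_or_dvd (Dvd.intro _ h) with h1 | h1
  · exfalso
    obtain ⟨e, he⟩ := h1
    have hb'ne : b' ≠ 0 := by
      rintro rfl
      simp at hb1'
    have hene : e ≠ 0 := by
      rintro rfl
      rw [mul_zero] at he
      exact hb'ne he
    have h2 := congrArg totalDegree he
    rw [totalDegree_mul_of_isDomain hbne hene] at h2
    obtain ⟨c, rfl⟩ := hb6_const (show e.totalDegree = 0 by omega)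
    have := (hli (-c) 1 (by
      rw [he, one_smul, neg_smul, smul_eq_C_mul, mul_comm b, neg_add_cancel])).2
    exact one_ne_zero this
  · obtain ⟨r, hr⟩ := h1
    refine ⟨r, ?_, hr, ?_⟩
    · by_cases hr0 : r = 0
      · rw [hr0]
        exact Submodule.zero_mem _
      · have h2 := congrArg totalDegree hr
        rw [totalDegree_mul_of_isDomain hbne hr0] at h2
        have h3 := mem_WW.1 hq
        rw [mem_WW]
        omega
    · apply mul_left_cancel₀ hbne
      rw [h, hr]
      ring

/-- comparison of coefficients in degree two -/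
theorem hb6_coeff {a b c d e f : K}
    (h : C a + C b * X 0 + C c * X 1 + C d * (X 0 * X 0) + C e * (X 0 * X 1) +
      C f * (X 1 * X 1) = (0 : MvPolynomial (Fin 2) K)) :
    d = 0 ∧ e = 0 ∧ f = 0 := by
  classical
  have hX : ∀ i j : Fin 2, ∀ t : K, (C t * (X i * X j) : MvPolynomial (Fin 2) K) =
      monomial (Finsupp.single i 1 + Finsupp.single j 1) t := by
    intro i j t
    rw [X, X, monomial_mul, C_mul_monomial, one_mul, mul_one]
  have hX1 : ∀ i : Fin 2, ∀ t : K, (C t * X i : MvPolynomial (Fin 2) K) =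
      monomial (Finsupp.single i 1) t := by
    intro i t
    rw [X, C_mul_monomial, mul_one]
  have hC : ∀ t : K, (C t : MvPolynomial (Fin 2) K) = monomial 0 t := fun t => rfl
  rw [hX, hX, hX, hX1, hX1, hC] at h
  refine ⟨?_, ?_, ?_⟩
  · have := congrArg (coeff (Finsupp.single 0 1 + Finsupp.single 0 1)) h
    simpa [coeff_monomial, Finsupp.ext_iff, Fin.forall_fin_two] using this
  · have := congrArg (coeff (Finsupp.single 0 1 + Finsupp.single 1 1)) h
    simpa [coeff_monomial, Finsupp.ext_iff, Fin.forall_fin_two] using this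
  · have := congrArg (coeff (Finsupp.single 1 1 + Finsupp.single 1 1)) h
    simpa [coeff_monomial, Finsupp.ext_iff, Fin.forall_fin_two] using this

/-- the exactness of the Koszul complex in the lowest degree -/
theorem koszul {r₀ r₁ r₂ : MvPolynomial (Fin 2) K} (h0 : r₀ ∈ WW K 1) (h1 : r₁ ∈ WW K 1)
    (h2 : r₂ ∈ WW K 1) (h : r₂ = X 0 * r₁ - X 1 * r₀) :
    ∃ u₀ u₁ u₂ : K, r₀ = C u₁ - X 0 * C u₀ ∧ r₁ = C u₂ - X 1 * C u₀ := by
  obtain ⟨a0, a1, a2, rfl⟩ := hb6_form h0
  obtain ⟨b0, b1, b2, rfl⟩ := hb6_form h1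
  obtain ⟨c0, c1, c2, rfl⟩ := hb6_form h2
  obtain ⟨e1, e2, e3⟩ := hb6_coeff (a := -c0) (b := b0 - c1) (c := -a0 - c2) (d := b1)
    (e := b2 - a1) (f := -a2) (K := K) (by
      simp only [map_neg, map_sub]
      linear_combination -h)
  obtain rfl : b1 = 0 := e1
  obtain rfl : b2 = a1 := sub_eq_zero.1 e2
  obtain rfl : a2 = 0 := neg_eq_zero.1 e3
  refine ⟨-b2, a0, b0, ?_, ?_⟩
  · simp only [map_neg, map_zero]
    ring
  · simp only [map_neg, map_zero]
    ring

end Alg

end Pool.Agent.Lib.MP_44a246_ntH
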