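import Mathlib
import Pool.Agent.Lib.MP_44a246_ntH.HB1
import Pool.Agent.Lib.MP_44a246_ntH.HB6
import Pool.Agent.Lib.MP_e52354_ntP.BackH

/-!
Scalars which are quotients of values of polynomials of small degree.
-/

set_option linter.unusedSectionVars false

namespace Pool.Agent.Lib.MP_44a246_ntH

open Pool.Agent.Lib.MP_e52354_nt
open Pool.Agent.Lib.MP_e52354_ntP
open MvPolynomial

universe u

variable {M : Type u} [Field M] {K : Subfield M} {s d : ℕ}
  {al be ga : Fin s → K} {D : (Fin s →₀ ℕ) → Derivation ℤ M M}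
  {p : Fin s → M} {G : ℕ → AddSubgroup M} {l a b : Fin s}

theorem HB6b_lin_form {K : Type*} [Field K] {f : MvPolynomial (Fin 2) K} (hf : f ∈ WW K 1) :
    ∃ c₀ c₁ c₂ : K, f = C c₀ + C c₁ * X 0 + C c₂ * X 1 := by
  refine WW_induction (P := fun f => ∃ c₀ c₁ c₂ : K, f = C c₀ + C c₁ * X 0 + C c₂ * X 1)
    ?_ ?_ ?_ hf
  · intro m hm
    rcases Nat.lt_or_ge m.degree 1 with h | h
    · have : m = 0 := (Finsupp.degree_eq_zero_iff m).mp (by omega)
      subst this
      exact ⟨1, 0, 0, by simp⟩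
    · obtain ⟨i, m', hm', hmm⟩ := exists_of_degree (K := K) (k := 0) (m := m) (by omega)
      have : m' = 0 := (Finsupp.degree_eq_zero_iff m').mp hm'
      subst this
      rw [hmm]
      fin_cases i
      · exact ⟨0, 1, 0, by simp⟩
      · exact ⟨0, 0, 1, by simp⟩
  · rintro Q R ⟨a0, a1, a2, rfl⟩ ⟨b0, b1, b2, rfl⟩
    exact ⟨a0 + b0, a1 + b1, a2 + b2, by simp only [map_add]; ring⟩
  · rintro c Q ⟨a0, a1, a2, rfl⟩
    exact ⟨c * a0, c * a1, c * a2, by rw [smul_eq_C_mul]; simp only [map_mul]; ring⟩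

theorem HB6b_fin (K : Type*) [Field K] (k : ℕ) : FiniteDimensional K (WW K k) := by
  apply Module.finite_of_finrank_pos
  have := finrank_WWk K k
  by_contra hcon
  have h0 : Module.finrank K (WW K k) = 0 := by omega
  rw [h0] at this
  have h1 : 0 < (k + 1) * (k + 2) := by positivity
  omega

/-- a scalar which is a fraction with a fixed linear denominator is linear on a subspace of
codimension at most two -/
theorem Wts.codim_part (h : Wts K p G) (P : Pln D d p l a b al be ga)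
    (h3 : ∀ f ∈ WW K 3, evp K (p a) (p b) f = 0 → f = 0)
    {V : Type*} [AddCommGroup V] [Module K V] [FiniteDimensional K V]
    {lam : MvPolynomial (Fin 2) K} (hlam : lam ∈ WW K 1) (hlam0 : lam ≠ 0)
    (sg : V →ₗ[K] M) (hG : ∀ v, sg v ∈ G 1)
    (hq : ∀ v, ∃ q ∈ WW K 2, evp K (p a) (p b) q = sg v * evp K (p a) (p b) lam) :
    ∃ V' : Submodule K V, Module.finrank K V ≤ Module.finrank K V' + 2 ∧
      ∀ v ∈ V', ∃ r ∈ WW K 1, evp K (p a) (p b) r = sg v := by
  classical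
  set ev := evp K (p a) (p b) with hev
  have hL : ev lam ≠ 0 := fun h0 => hlam0 (h3 lam (WW_mono (by omega) hlam) h0)
  let Q2 : Submodule K M := (WW K 2).map ev.toLinearMap
  let LL : Submodule K M := (WW K 1).map ev.toLinearMap
  let S : Submodule K M :=
    { carrier := {m | m ∈ G 1 ∧ m * ev lam ∈ Q2}
      add_mem' := by
        rintro m m' ⟨h1, h2⟩ ⟨h1', h2'⟩
        refine ⟨add_mem h1 h1', ?_⟩
        rw [add_mul]
        exact add_mem h2 h2'
      zero_mem' := by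
        refine ⟨zero_mem _, ?_⟩
        rw [zero_mul]
        exact zero_mem _
      smul_mem' := by
        rintro c m ⟨h1, h2⟩
        refine ⟨?_, ?_⟩
        · rw [smul_eq']
          exact h.smul c.2 h1
        · rw [smul_mul_assoc]
          exact Submodule.smul_mem _ _ h2 }
  have := HB6b_fin K 2
  have := HB6b_fin K 1
  have : FiniteDimensional K Q2 := inferInstance
  have : FiniteDimensional K LL := inferInstance
  let ψ : S →ₗ[K] Q2 :=
    { toFun := fun m => ⟨m.1 * ev lam, m.2.2⟩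
      map_add' := fun m m' => Subtype.ext (add_mul _ _ _)
      map_smul' := fun c m => Subtype.ext (smul_mul_assoc _ _ _) }
  have hψ : Function.Injective ψ := by
    intro m m' hmm
    have h1 := congrArg Subtype.val hmm
    exact Subtype.ext (mul_right_cancel₀ hL h1)
  have : FiniteDimensional K S := Module.Finite.of_injective ψ hψ
  have hS6 : Module.finrank K S ≤ Module.finrank K Q2 :=
    LinearMap.finrank_le_finrank_of_injective hψ
  have hQ6 : Module.finrank K Q2 ≤ 6 := by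
    have h1 : Module.finrank K Q2 ≤ Module.finrank K (WW K 2) := Submodule.finrank_map_le _ _
    have h2 := finrank_WWk K 2
    omega
  have hS5 : Module.finrank K S ≤ 5 := by
    by_contra hcon
    have h1 : Module.finrank K S = Module.finrank K Q2 := by omega
    have h2 := (LinearMap.injective_iff_surjective_of_finrank_eq_finrank h1).1 hψ
    have h4 : (ev lam)⁻¹ = 0 := by
      apply h.nb 1
      intro l' _
      have h5 : p l' ^ 2 ∈ Q2 := by
        refine ⟨lf al be ga l' ^ 2, ?_, ?_⟩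
        · have := pow_mem_WW (lf_mem (al := al) (be := be) (ga := ga) l') 2
          simpa using this
        · show ev (lf al be ga l' ^ 2) = _
          rw [map_pow, hev, evp_lf, ← P.hp l']
      obtain ⟨m, hm⟩ := h2 ⟨_, h5⟩
      have h6 : m.1 * ev lam = p l' ^ 2 := congrArg Subtype.val hm
      have h7 : (ev lam)⁻¹ * p l' ^ (1 + 1) = m.1 := by
        rw [show 1 + 1 = 2 from rfl, ← h6]
        field_simp
      rw [h7]
      exact m.2.1
    exact hL (inv_eq_zero.1 h4)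
  have hLL3 : Module.finrank K LL = 3 := by
    have h1 : Module.finrank K LL = Module.finrank K (WW K 1) := by
      let φ : WW K 1 →ₗ[K] M := ev.toLinearMap ∘ₗ (WW K 1).subtype
      have h2 : Function.Injective φ := by
        rw [← LinearMap.ker_eq_bot, LinearMap.ker_eq_bot']
        rintro ⟨Q, hQ⟩ hQ0
        exact Subtype.ext (h3 Q (WW_mono (by omega) hQ) hQ0)
      have h4 : LinearMap.range φ = LL := by
        rw [LinearMap.range_comp, Submodule.range_subtype]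
      rw [← h4]
      exact LinearMap.finrank_range_of_inj h2
    have h2 := finrank_WWk K 1
    omega
  have hLS : LL ≤ S := by
    rintro _ ⟨r, hr, rfl⟩
    refine ⟨h.evp_mem P hr, r * lam, mul_mem_WW hr hlam, ?_⟩
    exact map_mul ev r lam
  let R : Submodule K S := LL.comap S.subtype
  have hR : Module.finrank K R = 3 := by
    rw [← hLL3]
    exact (Submodule.comapSubtypeEquivOfLe hLS).finrank_eq
  let sg' : V →ₗ[K] S := sg.codRestrict S (fun v => by
    refine ⟨hG v, ?_⟩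
    obtain ⟨q, hq1, hq2⟩ := hq v
    exact ⟨q, hq1, hq2⟩)
  have h8 := finrank_comap sg' R
  have h9 := Submodule.finrank_quotient_add_finrank R
  refine ⟨R.comap sg', by omega, ?_⟩
  rintro v ⟨r, hr, hrv⟩
  exact ⟨r, hr, hrv⟩

/-- The scalars `s₀, s₁` are linear on a subspace of codimension at most two. -/
theorem Wts.linear_part (h : Wts K p G) (P : Pln D d p l a b al be ga)
    (h3 : ∀ f ∈ WW K 3, evp K (p a) (p b) f = 0 → f = 0)
    {V : Type*} [AddCommGroup V] [Module K V] [FiniteDimensional K V]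
    (s₀ s₁ : V →ₗ[K] M) (hs₀ : ∀ v, s₀ v ∈ G 1) (hs₁ : ∀ v, s₁ v ∈ G 1)
    (hs₂ : ∀ v, p a * s₁ v - p b * s₀ v ∈ G 1)
    {ι : Type*} (bE : ι → MvPolynomial (Fin 2) K) (hbE : ∀ k, bE k ∈ WW K 1)
    (hne : ∃ k, bE k ≠ 0) (B₀ B₁ B₂ : ι → V → MvPolynomial (Fin 2) K)
    (hB₀ : ∀ k v, B₀ k v ∈ WW K 1) (hB₁ : ∀ k v, B₁ k v ∈ WW K 1)
    (hB₂ : ∀ k v, B₂ k v ∈ WW K 1)
    (e₀ : ∀ k v, s₀ v * evp K (p a) (p b) (bE k) =
      evp K (p a) (p b) (B₁ k v) - p a * evp K (p a) (p b) (B₀ k v))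
    (e₁ : ∀ k v, s₁ v * evp K (p a) (p b) (bE k) =
      evp K (p a) (p b) (B₂ k v) - p b * evp K (p a) (p b) (B₀ k v)) :
    ∃ V' : Submodule K V, Module.finrank K V ≤ Module.finrank K V' + 2 ∧
      ∀ v ∈ V', ∃ u₀ u₁ u₂ : K, s₀ v = u₁ - p a * u₀ ∧ s₁ v = u₂ - p b * u₀ := by
  classical
  set x := p a with hx
  set y := p b with hy
  -- Koszul
  have step0 : ∀ v, (∃ r ∈ WW K 1, evp K x y r = s₀ v) → (∃ r ∈ WW K 1, evp K x y r = s₁ v) →
      (∃ r ∈ WW K 1, evp K x y r = x * s₁ v - y * s₀ v) →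
      ∃ u₀ u₁ u₂ : K, s₀ v = u₁ - x * u₀ ∧ s₁ v = u₂ - y * u₀ := by
    rintro v ⟨r₀, hr₀, e0⟩ ⟨r₁, hr₁, e1⟩ ⟨r₂, hr₂, e2⟩
    have h1 : X 0 * r₁ - X 1 * r₀ - r₂ = 0 := by
      apply h3
      · refine Submodule.sub_mem _ (Submodule.sub_mem _ ?_ ?_) (WW_mono (by omega) hr₂)
        · exact WW_mono (by omega) (X_mul_mem 0 hr₁)
        · exact WW_mono (by omega) (X_mul_mem 1 hr₀)
      · rw [map_sub, map_sub, map_mul, map_mul, evp_X0, evp_X1, e0, e1, e2]
        ring
    obtain ⟨u₀, u₁, u₂, h5, h6⟩ := koszul hr₀ hr₁ hr₂ (by linear_combination -h1)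
    refine ⟨u₀, u₁, u₂, ?_, ?_⟩
    · rw [← e0, h5, map_sub, map_mul, evp_C, evp_C, evp_X0]
    · rw [← e1, h6, map_sub, map_mul, evp_C, evp_C, evp_X1]
  obtain ⟨k, hk⟩ := hne
  obtain ⟨c₀, c₁, c₂, hc⟩ := HB6b_lin_form (hbE k)
  have hLev : evp K x y (bE k) = c₀ + c₁ * x + c₂ * y := by
    rw [hc, map_add, map_add, map_mul, map_mul, evp_C, evp_C, evp_C, evp_X0, evp_X1]
  have hL : evp K x y (bE k) ≠ 0 := fun h0 => hk (h3 _ (WW_mono (by omega) (hbE k)) h0)
  set L := evp K x y (bE k) with hLdef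
  have hB : ∀ (B : ι → V → MvPolynomial (Fin 2) K), (∀ k v, B k v ∈ WW K 1) → ∀ v,
      evp K x y (B k v) ∈ G 1 := fun B hB v => h.evp_mem P (hB k v)
  -- the element `tau`
  have htau : ∀ v, ∃ τ : K,
      -(c₁ * s₀ v + c₂ * s₁ v) = evp K x y (B₀ k v) - τ ∧
      c₀ * s₀ v - c₂ * (x * s₁ v - y * s₀ v) = evp K x y (B₁ k v) - x * τ ∧
      c₀ * s₁ v + c₁ * (x * s₁ v - y * s₀ v) = evp K x y (B₂ k v) - y * τ := by
    intro v
    have f0 := e₀ k v
    have f1 := e₁ k v
    set b0 := evp K x y (B₀ k v) with hb0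
    set b1 := evp K x y (B₁ k v) with hb1
    set b2 := evp K x y (B₂ k v) with hb2
    set θ : M := c₀ * b0 + c₁ * b1 + c₂ * b2 with hθ
    have g1 : θ / L = b0 - -(c₁ * s₀ v + c₂ * s₁ v) := by
      rw [div_eq_iff hL, hθ]
      linear_combination -b0 * hLev - (c₁ : M) * f0 - (c₂ : M) * f1
    have g2 : x * (θ / L) = b1 - (c₀ * s₀ v - c₂ * (x * s₁ v - y * s₀ v)) := by
      rw [mul_div_assoc', div_eq_iff hL, hθ]
      linear_combination -b1 * hLev + ((c₀ : M) + c₂ * y) * f0 - (c₂ : M) * x * f1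
    have g3 : y * (θ / L) = b2 - (c₀ * s₁ v + c₁ * (x * s₁ v - y * s₀ v)) := by
      rw [mul_div_assoc', div_eq_iff hL, hθ]
      linear_combination -b2 * hLev + ((c₀ : M) + c₁ * x) * f1 - (c₁ : M) * y * f0
    have i0 : b0 ∈ G 1 := hB B₀ hB₀ v
    have i1 : b1 ∈ G 1 := hB B₁ hB₁ v
    have i2 : b2 ∈ G 1 := hB B₂ hB₂ v
    have k1 : θ / L ∈ G 1 := by
      rw [g1]
      exact sub_mem i0 (neg_mem (add_mem (h.smul c₁.2 (hs₀ v)) (h.smul c₂.2 (hs₁ v))))
    have k2 : x * (θ / L) ∈ G 1 := by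
      rw [g2]
      exact sub_mem i1 (sub_mem (h.smul c₀.2 (hs₀ v)) (h.smul c₂.2 (hs₂ v)))
    have k3 : y * (θ / L) ∈ G 1 := by
      rw [g3]
      exact sub_mem i2 (add_mem (h.smul c₀.2 (hs₁ v)) (h.smul c₁.2 (hs₂ v)))
    have hK : θ / L ∈ K := by
      apply h.mem_K (w := 1)
      intro l' _
      have h5 : θ / L * p l' ^ 1 = al l' * (θ / L) + be l' * (x * (θ / L)) +
          ga l' * (y * (θ / L)) := by
        rw [P.hp l']
        ring
      rw [h5]
      exact add_mem (add_mem (h.smul (al l').2 k1) (h.smul (be l').2 k2)) (h.smul (ga l').2 k3)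
    refine ⟨⟨θ / L, hK⟩, ?_, ?_, ?_⟩
    · show _ = b0 - θ / L
      rw [g1]
      ring
    · show _ = b1 - x * (θ / L)
      rw [g2]
      ring
    · show _ = b2 - y * (θ / L)
      rw [g3]
      ring
  -- membership of the three combinations
  have m1 : ∀ v, ∃ r ∈ WW K 1, evp K x y r = -(c₁ * s₀ v + c₂ * s₁ v) := by
    intro v
    obtain ⟨τ, h1, -, -⟩ := htau v
    exact ⟨B₀ k v - C τ, Submodule.sub_mem _ (hB₀ k v) (C_mem_WW _ _), by
      rw [h1, map_sub, evp_C]⟩
  have m2 : ∀ v, ∃ r ∈ WW K 1, evp K x y r = c₀ * s₀ v - c₂ * (x * s₁ v - y * s₀ v) := by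
    intro v
    obtain ⟨τ, -, h1, -⟩ := htau v
    refine ⟨B₁ k v - X 0 * C τ, Submodule.sub_mem _ (hB₁ k v) ?_, by
      rw [h1, map_sub, map_mul, evp_C, evp_X0]⟩
    exact X_mul_mem 0 (C_mem_WW 0 _)
  have m3 : ∀ v, ∃ r ∈ WW K 1, evp K x y r = c₀ * s₁ v + c₁ * (x * s₁ v - y * s₀ v) := by
    intro v
    obtain ⟨τ, -, -, h1⟩ := htau v
    refine ⟨B₂ k v - X 1 * C τ, Submodule.sub_mem _ (hB₂ k v) ?_, by
      rw [h1, map_sub, map_mul, evp_C, evp_X1]⟩
    exact X_mul_mem 1 (C_mem_WW 0 _)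
  let s₂ : V →ₗ[K] M := (LinearMap.mulLeft K x) ∘ₗ s₁ - (LinearMap.mulLeft K y) ∘ₗ s₀
  have hs2 : ∀ v, s₂ v = x * s₁ v - y * s₀ v := fun v => rfl
  by_cases hc0 : c₀ = 0
  · by_cases hc1 : c₁ = 0
    · have hc2 : c₂ ≠ 0 := by
        rintro rfl
        apply hk
        rw [hc, hc0, hc1]
        simp
      have hc2' : (c₂ : M) ≠ 0 := fun h0 => hc2 (Subtype.ext h0)
      obtain ⟨V', hV', hv⟩ := h.codim_part P h3 (hbE k) hk s₀ hs₀ (fun v =>
        ⟨B₁ k v - X 0 * B₀ k v, Submodule.sub_mem _ (WW_mono (by omega) (hB₁ k v))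
          (X_mul_mem 0 (hB₀ k v)), by
          rw [map_sub, map_mul, evp_X0, e₀ k v]⟩)
      refine ⟨V', hV', fun v hv' => ?_⟩
      obtain ⟨r, hr, hrv⟩ := hv v hv'
      obtain ⟨r1, hr1, hrv1⟩ := m1 v
      obtain ⟨r2, hr2, hrv2⟩ := m2 v
      apply step0 v ⟨r, hr, hrv⟩
      · refine ⟨(-c₂⁻¹) • (r1 + c₁ • r), ?_, ?_⟩
        · exact Submodule.smul_mem _ _ (Submodule.add_mem _ hr1 (Submodule.smul_mem _ _ hr))
        · rw [map_smul, map_add, map_smul, smul_eq', smul_eq', hrv1]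
          rw [show evp K x y r = s₀ v from hrv]
          push_cast
          field_simp
          ring
      · refine ⟨c₂⁻¹ • (c₀ • r - r2), ?_, ?_⟩
        · exact Submodule.smul_mem _ _ (Submodule.sub_mem _ (Submodule.smul_mem _ _ hr) hr2)
        · rw [map_smul, map_sub, map_smul, smul_eq', smul_eq', hrv2]
          rw [show evp K x y r = s₀ v from hrv]
          push_cast
          field_simp
          ring
    · have hc1' : (c₁ : M) ≠ 0 := fun h0 => hc1 (Subtype.ext h0)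
      obtain ⟨V', hV', hv⟩ := h.codim_part P h3 (hbE k) hk s₁ hs₁ (fun v =>
        ⟨B₂ k v - X 1 * B₀ k v, Submodule.sub_mem _ (WW_mono (by omega) (hB₂ k v))
          (X_mul_mem 1 (hB₀ k v)), by
          rw [map_sub, map_mul, evp_X1, e₁ k v]⟩)
      refine ⟨V', hV', fun v hv' => ?_⟩
      obtain ⟨r, hr, hrv⟩ := hv v hv'
      obtain ⟨r1, hr1, hrv1⟩ := m1 v
      obtain ⟨r3, hr3, hrv3⟩ := m3 v
      apply step0 v _ ⟨r, hr, hrv⟩
      · refine ⟨c₁⁻¹ • (r3 - c₀ • r), ?_, ?_⟩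
        · exact Submodule.smul_mem _ _ (Submodule.sub_mem _ hr3 (Submodule.smul_mem _ _ hr))
        · rw [map_smul, map_sub, map_smul, smul_eq', smul_eq', hrv3]
          rw [show evp K x y r = s₁ v from hrv]
          push_cast
          field_simp
          ring
      · refine ⟨(-c₁⁻¹) • (r1 + c₂ • r), ?_, ?_⟩
        · exact Submodule.smul_mem _ _ (Submodule.add_mem _ hr1 (Submodule.smul_mem _ _ hr))
        · rw [map_smul, map_add, map_smul, smul_eq', smul_eq', hrv1]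
          rw [show evp K x y r = s₁ v from hrv]
          push_cast
          field_simp
          ring
  · have hc0' : (c₀ : M) ≠ 0 := fun h0 => hc0 (Subtype.ext h0)
    obtain ⟨V', hV', hv⟩ := h.codim_part P h3 (hbE k) hk s₂ hs₂ (fun v =>
      ⟨X 0 * B₂ k v - X 1 * B₁ k v, Submodule.sub_mem _ (X_mul_mem 0 (hB₂ k v))
        (X_mul_mem 1 (hB₁ k v)), by
        rw [map_sub, map_mul, map_mul, evp_X0, evp_X1, hs2]
        have f0 := e₀ k v
        have f1 := e₁ k v
        linear_combination y * f0 - x * f1⟩)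
    refine ⟨V', hV', fun v hv' => ?_⟩
    obtain ⟨r, hr, hrv⟩ := hv v hv'
    obtain ⟨r2, hr2, hrv2⟩ := m2 v
    obtain ⟨r3, hr3, hrv3⟩ := m3 v
    rw [hs2] at hrv
    apply step0 v _ _ ⟨r, hr, hrv⟩
    · refine ⟨c₀⁻¹ • (r2 + c₂ • r), ?_, ?_⟩
      · exact Submodule.smul_mem _ _ (Submodule.add_mem _ hr2 (Submodule.smul_mem _ _ hr))
      · rw [map_smul, map_add, map_smul, smul_eq', smul_eq', hrv2]
        rw [show evp K x y r = x * s₁ v - y * s₀ v from hrv]
        push_cast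
        field_simp
        ring
    · refine ⟨c₀⁻¹ • (r3 - c₁ • r), ?_, ?_⟩
      · exact Submodule.smul_mem _ _ (Submodule.sub_mem _ hr3 (Submodule.smul_mem _ _ hr))
      · rw [map_smul, map_sub, map_smul, smul_eq', smul_eq', hrv3]
        rw [show evp K x y r = x * s₁ v - y * s₀ v from hrv]
        push_cast
        field_simp
        ring

end Pool.Agent.Lib.MP_44a246_ntH
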