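import Mathlib
import Pool.Agent.Lib.MP_44a246_ntH.HB1

/-!
The pencil argument, up to multiples of the further derivation.
-/

set_option linter.unusedSectionVars false

namespace Pool.Agent.Lib.MP_44a246_ntH

open Pool.Agent.Lib.MP_e52354_nt
open Pool.Agent.Lib.MP_e52354_ntP
open MvPolynomial

universe u

variable {M : Type u} [Field M] {K : Subfield M} {s d : ℕ} {A : (Fin s →₀ ℕ) → K}
  {al be ga : Fin s → K} {D : (Fin s →₀ ℕ) → Derivation ℤ M M} {E : Derivation ℤ M M}
  {p : Fin s → M} {G : ℕ → AddSubgroup M} {l a b : Fin s}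

/-- the weight of a product with a value -/
private theorem hb7_evp_mul (h : Wts K p G) (P : Pln D d p l a b al be ga) {n w : ℕ}
    {B : MvPolynomial (Fin 2) K} (hB : B ∈ WW K (n + 1)) {v : M}
    (hv : ∀ k, p k * v ∈ G w) : evp K (p a) (p b) B * v ∈ G (n + w) := by
  refine WW_induction (P := fun B => evp K (p a) (p b) B * v ∈ G (n + w)) ?_ ?_ ?_ hB
  · intro m hm0
    have h1 := degree_hm (l := l) (a := a) (b := b) hm0
    rw [← P.mf_hm (n + 1) m, evp_mf P.hp]
    set J := hm l a b (n + 1) m with hJ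
    obtain ⟨k, hk⟩ : ∃ k, J k ≠ 0 := by
      by_contra hcon
      push Not at hcon
      have : J = 0 := by ext i; exact hcon i
      rw [this] at h1
      simp at h1
    have h2 := sub_add_single hk
    have h3 : (J - Finsupp.single k 1).degree = n := by
      have h4 := congrArg Finsupp.degree h2
      rw [map_add, Finsupp.degree_single, h1] at h4
      omega
    rw [← h2, mon_add, mon_single, pow_one, mul_assoc]
    have h5 := h.mul _ _ _ _ (h.mon (J - Finsupp.single k 1)) (hv k)
    rwa [h3] at h5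
  · intro P Q hP hQ
    rw [map_add, add_mul]
    exact add_mem hP hQ
  · intro c Q hQ
    rw [map_smul, smul_eq', mul_assoc]
    exact h.smul c.2 hQ

/-- the two relations, coordinatewise -/
private theorem hb7_rel {Q : MvPolynomial (Fin 2) K} (u : Fin 3 → K)
    (hu0 : UU K D d l a b p 0 Q = ((u 1 : M) - p a * (u 0 : M)) • (fun k => E (p k)))
    (hu1 : UU K D d l a b p 1 Q = ((u 2 : M) - p b * (u 0 : M)) • (fun k => E (p k)))
    (t : Fin s) :
    EE K D d l a b p (X 0 * Q) t =
        p a * (EE K D d l a b p Q t - (u 0 : M) * E (p t)) + (u 1 : M) * E (p t) ∧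
      EE K D d l a b p (X 1 * Q) t =
        p b * (EE K D d l a b p Q t - (u 0 : M) * E (p t)) + (u 2 : M) * E (p t) := by
  have e0 : (![a, b] : Fin 2 → Fin s) 0 = a := rfl
  have e1 : (![a, b] : Fin 2 → Fin s) 1 = b := rfl
  have h3 := congrFun hu0 t
  have h4 := congrFun hu1 t
  rw [UU_apply, e0] at h3
  rw [UU_apply, e1] at h4
  simp only [Pi.sub_apply, Pi.smul_apply, smul_eq_mul] at h3 h4
  constructor
  · linear_combination h3
  · linear_combination h4

private theorem hb7_Gam (h : HCtx K d D E A p G) (P : Pln D d p l a b al be ga)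
    {Q : MvPolynomial (Fin 2) K} {e : ℕ} (he : e + 1 = d) (hQ : Q ∈ WW K e) (u : Fin 3 → K)
    (hu0 : UU K D d l a b p 0 Q = ((u 1 : M) - p a * (u 0 : M)) • (fun k => E (p k)))
    (hu1 : UU K D d l a b p 1 Q = ((u 2 : M) - p b * (u 0 : M)) • (fun k => E (p k)))
    (i j k : Fin s) :
    p k * (p i * (EE K D d l a b p Q j - (u 0 : M) * E (p j)) -
      p j * (EE K D d l a b p Q i - (u 0 : M) * E (p i))) ∈ G 2 := by
  have hlQ : lf al be ga k * Q ∈ WW K d := by
    have := mul_mem_WW (lf_mem (al := al) (be := be) (ga := ga) k) hQ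
    rwa [show 1 + e = d by omega] at this
  have h1 := h.wEE hlQ (l := l) (a := a) (b := b) i j
  have e3 : lf al be ga k * Q = al k • Q + be k • (X 0 * Q) + ga k • (X 1 * Q) := by
    unfold lf
    simp only [smul_eq_C_mul]
    ring
  have e4 : ∀ t, EE K D d l a b p (lf al be ga k * Q) t =
      p k * (EE K D d l a b p Q t - (u 0 : M) * E (p t)) +
        ((al k * u 0 + be k * u 1 + ga k * u 2 : K) : M) * E (p t) := by
    intro t
    obtain ⟨h5, h6⟩ := hb7_rel u hu0 hu1 t
    rw [e3, map_add, map_add, map_smul, map_smul, map_smul]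
    simp only [Pi.add_apply, Pi.smul_apply, smul_eq']
    rw [h5, h6]
    conv_rhs => rw [P.hp k]
    push_cast
    ring
  rw [e4, e4] at h1
  have h2 := h.W.smul (al k * u 0 + be k * u 1 + ga k * u 2 : K).2 (h.wE i j)
  have h3 := sub_mem h1 h2
  convert h3 using 1
  ring

/-- The pencil argument. -/
theorem HCtx.pencilH (h : HCtx K d D E A p G) (P : Pln D d p l a b al be ga) {n : ℕ}
    (hn : n + 2 = d) {z : Fin 2 → K} (hz : eval z (fH d A al be ga) ≠ 0)
    {R : MvPolynomial (Fin 2) K} (hR : R ∈ WW K n) (u v : Fin 3 → K)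
    (hu0 : UU K D d l a b p 0 ((X 0 - C (z 0)) * R) =
      ((u 1 : M) - p a * (u 0 : M)) • (fun k => E (p k)))
    (hu1 : UU K D d l a b p 1 ((X 0 - C (z 0)) * R) =
      ((u 2 : M) - p b * (u 0 : M)) • (fun k => E (p k)))
    (hv0 : UU K D d l a b p 0 ((X 1 - C (z 1)) * R) =
      ((v 1 : M) - p a * (v 0 : M)) • (fun k => E (p k)))
    (hv1 : UU K D d l a b p 1 ((X 1 - C (z 1)) * R) =
      ((v 2 : M) - p b * (v 0 : M)) • (fun k => E (p k)))
    (huv : u 2 - z 1 * u 0 = v 1 - z 0 * v 0) :
    evp K (p a) (p b) R = 0 := by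
  set Q₁ : MvPolynomial (Fin 2) K := (X 0 - C (z 0)) * R with hQ₁
  set Q₂ : MvPolynomial (Fin 2) K := (X 1 - C (z 1)) * R with hQ₂
  have ha0 := HCtx.notMem_a P (z 0)
  have hb0 := HCtx.notMem_b P (z 1)
  set xa := p a - (z 0 : M) with hxa
  set yb := p b - (z 1 : M) with hyb
  have hXC : ∀ i : Fin 2, (X i - C (z i) : MvPolynomial (Fin 2) K) ∈ WW K 1 := fun i =>
    Submodule.sub_mem _ (X_mem_WW le_rfl i) (C_mem_WW 1 _)
  have hQ₁m : Q₁ ∈ WW K (n + 1) := by
    have := mul_mem_WW (hXC 0) hR
    rwa [show 1 + n = n + 1 by omega] at this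
  have hQ₂m : Q₂ ∈ WW K (n + 1) := by
    have := mul_mem_WW (hXC 1) hR
    rwa [show 1 + n = n + 1 by omega] at this
  -- the basic relation
  set W₁ : Fin s → M := fun j => EE K D d l a b p Q₁ j - (u 0 : M) * E (p j) with hW₁
  set W₂ : Fin s → M := fun j => EE K D d l a b p Q₂ j - (v 0 : M) * E (p j) with hW₂
  have hrel : ∀ j, yb * W₁ j = xa * W₂ j := by
    intro j
    obtain ⟨_, h3⟩ := hb7_rel u hu0 hu1 j
    obtain ⟨h4, _⟩ := hb7_rel v hv0 hv1 j
    have h5 : X 1 * Q₁ - z 1 • Q₁ = X 0 * Q₂ - z 0 • Q₂ := by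
      rw [hQ₁, hQ₂]
      simp only [smul_eq_C_mul]
      ring
    have h6 := congrFun (congrArg (EE K D d l a b p) h5) j
    rw [map_sub, map_sub, map_smul, map_smul] at h6
    simp only [Pi.sub_apply, Pi.smul_apply, smul_eq'] at h6
    have h7 : (u 2 : M) - z 1 * u 0 = (v 1 : M) - z 0 * v 0 := by
      have := congrArg (Subtype.val : K → M) huv
      push_cast at this
      exact this
    rw [h3, h4] at h6
    simp only [hW₁, hW₂, hyb, hxa]
    linear_combination h6 - E (p j) * h7
  set w : Fin s → M := fun j => W₁ j / xa with hw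
  have hE1 : ∀ j, W₁ j = xa * w j := by
    intro j
    simp only [hw]
    field_simp
  have hE2 : ∀ j, W₂ j = yb * w j := by
    intro j
    have h3 := hrel j
    rw [hE1] at h3
    apply mul_left_cancel₀ ha0
    linear_combination -h3
  have hEl : E (p l) = 0 := by rw [P.hpl, Derivation.map_one_eq_zero]
  have hwl : w l = 0 := by
    simp only [hw, hW₁]
    rw [EE_l P.hpl, hEl, mul_zero, sub_zero, zero_div]
  -- the wedge is in the subfield
  have hω : ∀ i j, p i * w j - p j * w i ∈ K := by
    intro i j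
    have hg1 : ∀ k, p k * (xa * (p i * w j - p j * w i)) ∈ G 2 := by
      intro k
      have h3 := hb7_Gam h P (by omega) hQ₁m u hu0 hu1 i j k
      have : p k * (xa * (p i * w j - p j * w i)) =
          p k * (p i * (xa * w j) - p j * (xa * w i)) := by ring
      rw [this, ← hE1, ← hE1]
      exact h3
    have hg2 : ∀ k, p k * (yb * (p i * w j - p j * w i)) ∈ G 2 := by
      intro k
      have h3 := hb7_Gam h P (by omega) hQ₂m v hv0 hv1 i j k
      have : p k * (yb * (p i * w j - p j * w i)) =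
          p k * (p i * (yb * w j) - p j * (yb * w i)) := by ring
      rw [this, ← hE2, ← hE2]
      exact h3
    refine h.W.mem_K (w := n + 2) fun l' _ => ?_
    -- decompose the power of a linear form
    set F := lf al be ga l' ^ (n + 2) with hF
    have hFW : F ∈ WW K (n + 2) := by
      have := pow_mem_WW (lf_mem (al := al) (be := be) (ga := ga) l') (n + 2)
      rwa [mul_one] at this
    set t : K := eval z F / eval z (fH d A al be ga) with ht
    have hH : F - t • fH d A al be ga ∈ WW K ((n + 1) + 1) := by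
      exact Submodule.sub_mem _ hFW (Submodule.smul_mem _ _
        (WW_mono (by omega) fH_mem))
    obtain ⟨A', hA', B', hB', hAB⟩ := exists_div z hH
    have hz0 : eval z (F - t • fH d A al be ga) = 0 := by
      rw [map_sub, smul_eq_C_mul, map_mul, eval_C, ht, div_mul_cancel₀ _ hz, sub_self]
    rw [hz0, C_0, zero_add] at hAB
    have hev := congrArg (evp K (p a) (p b)) hAB
    rw [map_sub, map_smul, h.fp P, smul_zero, sub_zero, map_add, map_mul, map_mul,
      map_sub, map_sub, evp_X0, evp_X1, evp_C, evp_C, hF, map_pow, evp_lf, ← P.hp, ← hxa,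
      ← hyb] at hev
    have h5 := hb7_evp_mul h.W P hA' hg1
    have h6 := hb7_evp_mul h.W P hB' hg2
    have h7 : (p i * w j - p j * w i) * p l' ^ (n + 2) =
        evp K (p a) (p b) A' * (xa * (p i * w j - p j * w i)) +
        evp K (p a) (p b) B' * (yb * (p i * w j - p j * w i)) := by
      rw [hev]; ring
    rw [h7]
    exact add_mem h5 h6
  -- the line argument
  have hw0 : ∀ j, w j = 0 := by
    intro j
    by_contra hj
    have h3 : ∀ i, w i ∈ K := by
      intro i
      have := hω l i
      rwa [P.hpl, one_mul, hwl, mul_zero, sub_zero] at this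
    refine P.hline (p j) fun i => ⟨(p i * w j - p j * w i) / w j,
      div_mem (hω i j) (h3 j), w i / w j, div_mem (h3 i) (h3 j), ?_⟩
    field_simp
    ring
  have hgr := h.grad_EE P (WW_mono (by omega : n + 1 ≤ d) hQ₁m)
  have h8 : EE K D d l a b p Q₁ = (u 0 : M) • (fun k => E (p k)) := by
    funext j
    have h9 := hE1 j
    rw [hw0, mul_zero] at h9
    rw [Pi.smul_apply, smul_eq_mul]
    linear_combination h9
  rw [h8, dotProduct_smul, h.grad_E, smul_zero, hQ₁, map_mul, map_sub, evp_X0, evp_C,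
    ← hxa] at hgr
  exact (mul_eq_zero.mp (neg_eq_zero.mp hgr.symm)).resolve_left ha0

end Pool.Agent.Lib.MP_44a246_ntH
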