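import Mathlib
import Pool.Agent.Lib.MP_44a246_ntH.HB1
import Pool.Agent.Lib.MP_44a246_ntH.HB6b
import Pool.Agent.Lib.MP_44a246_ntH.HB7

/-!
The case of a plane which is not constant with respect to the further derivation.
-/

set_option linter.unusedSectionVars false

namespace Pool.Agent.Lib.MP_44a246_ntH

open Pool.Agent.Lib.MP_e52354_nt
open Pool.Agent.Lib.MP_e52354_ntP
open MvPolynomial

universe u

variable {M : Type u} [Field M] {K : Subfield M} {s d : ℕ} {A : (Fin s →₀ ℕ) → K}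
  {al be ga : Fin s → K} {D : (Fin s →₀ ℕ) → Derivation ℤ M M} {E : Derivation ℤ M M}
  {p : Fin s → M} {G : ℕ → AddSubgroup M} {l a b : Fin s}

/-- the motion of the plane, for a multiple of the further derivation -/
theorem HCtx.UU_motion (h : HCtx K d D E A p G) (P : Pln D d p l a b al be ga)
    (Q : MvPolynomial (Fin 2) K) (i : Fin 2) {t : M}
    (ht : UU K D d l a b p i Q = t • (fun k => E (p k))) (j : Fin s) :
    t * evp K (p a) (p b) (hat h.dE (lf al be ga j)) =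
      evp K (p a) (p b) (hat (h.dH l a b (X i * Q)) (lf al be ga j)) -
        p (![a, b] i) * evp K (p a) (p b) (hat (h.dH l a b Q) (lf al be ga j)) := by
  have e : ∀ k, EE K D d l a b p (X i * Q) k - p (![a, b] i) * EE K D d l a b p Q k =
      t * E (p k) := by
    intro k
    have h1 := congrFun ht k
    rw [UU_apply] at h1
    exact h1
  have m1 := h.motion_EE P (X i * Q) j
  have m2 := h.motion_EE P Q j
  have m3 := h.motion_E P j
  linear_combination - e j + be j * e a + ga j * e b + m1 - p (![a, b] i) * m2 - t * m3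

theorem UU_comb (c c' : K) (L Q Q' : MvPolynomial (Fin 2) K) (i : Fin 2) (t t' : M)
    (ht : UU K D d l a b p i (L * Q) = t • (fun k => E (p k)))
    (ht' : UU K D d l a b p i (L * Q') = t' • (fun k => E (p k))) :
    UU K D d l a b p i (L * (c • Q + c' • Q')) =
      ((c : M) * t + (c' : M) * t') • (fun k => E (p k)) := by
  rw [mul_add, mul_smul_comm, mul_smul_comm, map_add, map_smul, map_smul, ht, ht']
  funext k
  show (c : M) * (t * E (p k)) + (c' : M) * (t' * E (p k)) = _ * E (p k)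
  ring

theorem exists_two {F : Type*} [Field F] {V : Type*} [AddCommGroup V] [Module F V]
    (T : Submodule F V) (h : 2 ≤ Module.finrank F T) :
    ∃ Q ∈ T, ∃ Q' ∈ T, ∀ c c' : F, c • Q + c' • Q' = 0 → c = 0 ∧ c' = 0 := by
  obtain ⟨w, hw⟩ := exists_linearIndependent_of_le_finrank h
  have hwi := Fintype.linearIndependent_iff.mp hw
  refine ⟨(w 0).1, (w 0).2, (w 1).1, (w 1).2, fun c c' hc => ?_⟩
  have h1 := hwi ![c, c'] (by
    rw [Fin.sum_univ_two]
    apply Subtype.ext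
    exact hc)
  exact ⟨h1 0, h1 1⟩

/-- The plane is constant with respect to `E`: the other case is impossible. -/
theorem HCtx.caseA [CharZero M] (h : HCtx K d D E A p G) (P : Pln D d p l a b al be ga) {k : ℕ}
    (hk : 1 ≤ k) (hs : s = 2 * k + 3) (hd : d = 3 * k + 3) (hf : fH d A al be ga ≠ 0)
    (hmin : ∀ f : MvPolynomial (Fin 2) K, f ≠ 0 → evp K (p a) (p b) f = 0 →
      d ≤ f.totalDegree + 1)
    (R : Submodule K (WW K (3 * k + 2)))
    (hR : Module.finrank K (WW K (3 * k + 2)) ≤ Module.finrank K R + 4 * k)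
    (hRU : ∀ Q ∈ R, ∀ i, ∃ t : M, UU K D d l a b p i (Q : MvPolynomial (Fin 2) K) =
      t • (fun k => E (p k)))
    (Λ : (Fin s → M) →ₗ[M] M) (hΛE : Λ (fun k => E (p k)) = 1)
    (hΛ : ∀ i, ∀ Q ∈ WW K (3 * k + 2), Λ (UU K D d l a b p i Q) ∈ G 1)
    (hΛ' : ∀ Q ∈ WW K (3 * k + 2), p a * Λ (UU K D d l a b p 1 Q) -
      p b * Λ (UU K D d l a b p 0 Q) ∈ G 1) :
    ∀ j, hat h.dE (lf al be ga j) = 0 := by
  classical
  by_contra hcon
  push Not at hcon
  obtain ⟨j0, hj0⟩ := hcon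
  let SS : Fin 2 → R →ₗ[K] M := fun i =>
    ((Λ.restrictScalars K).comp (UU K D d l a b p i)).comp
      ((WW K (3 * k + 2)).subtype.comp R.subtype)
  have hSS : ∀ i (Q : R), SS i Q = Λ (UU K D d l a b p i (Q : MvPolynomial (Fin 2) K)) :=
    fun i Q => rfl
  have hU : ∀ (Q : R) (i : Fin 2), UU K D d l a b p i (Q : MvPolynomial (Fin 2) K) =
      SS i Q • (fun k => E (p k)) := by
    intro Q i
    obtain ⟨t, ht⟩ := hRU Q.1 Q.2 i
    rw [hSS, ht, map_smul, hΛE, smul_eq_mul, mul_one]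
  have h3 : ∀ f ∈ WW K 3, evp K (p a) (p b) f = 0 → f = 0 := by
    intro f hf3 hf0
    by_contra hne
    have h1 := hmin f hne hf0
    have h2 := mem_WW.mp hf3
    omega
  obtain ⟨V', hV', hV'u⟩ := h.W.linear_part P h3 (V := R) (SS 0) (SS 1)
    (fun v => hΛ 0 _ v.1.2) (fun v => hΛ 1 _ v.1.2) (fun v => hΛ' _ v.1.2)
    (fun j : Fin s => hat h.dE (lf al be ga j)) (fun j => hat_mem _ (lf_mem j)) ⟨j0, hj0⟩
    (fun j v => hat (h.dH l a b (v : MvPolynomial (Fin 2) K)) (lf al be ga j))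
    (fun j v => hat (h.dH l a b (X 0 * (v : MvPolynomial (Fin 2) K))) (lf al be ga j))
    (fun j v => hat (h.dH l a b (X 1 * (v : MvPolynomial (Fin 2) K))) (lf al be ga j))
    (fun j v => hat_mem _ (lf_mem j)) (fun j v => hat_mem _ (lf_mem j))
    (fun j v => hat_mem _ (lf_mem j))
    (fun j v => h.UU_motion P _ 0 (hU v 0) j) (fun j v => h.UU_motion P _ 1 (hU v 1) j)
  obtain ⟨z, hz⟩ : ∃ z : Fin 2 → K, eval z (fH d A al be ga) ≠ 0 := by
    by_contra hcon
    push Not at hcon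
    exact hf (MvPolynomial.funext fun z => by rw [hcon z, map_zero])
  have hP₁ : (MvPolynomial.X 0 - C (z 0) : MvPolynomial (Fin 2) K) ∈ WW K 1 :=
    Submodule.sub_mem _ (X_mem_WW le_rfl 0) (C_mem_WW 1 _)
  have hP₂ : (MvPolynomial.X 1 - C (z 1) : MvPolynomial (Fin 2) K) ∈ WW K 1 :=
    Submodule.sub_mem _ (X_mem_WW le_rfl 1) (C_mem_WW 1 _)
  set V'' : Submodule K (WW K (3 * k + 2)) := V'.map R.subtype with hV''
  have hfr : Module.finrank K V'' = Module.finrank K V' := Submodule.finrank_map_subtype_eq R V'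
  have hlin : ∀ Q ∈ V'', ∃ u : Fin 3 → K,
      UU K D d l a b p 0 (Q : MvPolynomial (Fin 2) K) =
        ((u 1 : M) - p a * (u 0 : M)) • (fun k => E (p k)) ∧
      UU K D d l a b p 1 (Q : MvPolynomial (Fin 2) K) =
        ((u 2 : M) - p b * (u 0 : M)) • (fun k => E (p k)) := by
    rintro Q ⟨v, hv, rfl⟩
    obtain ⟨u₀, u₁, u₂, h0, h1⟩ := hV'u v hv
    refine ⟨![u₀, u₁, u₂], ?_, ?_⟩
    · have := hU v 0
      rw [h0] at this
      exact this
    · have := hU v 1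
      rw [h1] at this
      exact this
  have hn1 : 1 + (3 * k + 1) = 3 * k + 2 := by omega
  set T₁ := V''.comap (mulW hP₁ (3 * k + 1) hn1) with hT₁
  set T₂ := V''.comap (mulW hP₂ (3 * k + 1) hn1) with hT₂
  have g1 := finrank_comap (mulW hP₁ (3 * k + 1) hn1) V''
  have g2 := finrank_comap (mulW hP₂ (3 * k + 1) hn1) V''
  have g3 := Submodule.finrank_quotient_add_finrank V''
  have g4 := Submodule.finrank_sup_add_finrank_inf_eq T₁ T₂
  have g5 := Submodule.finrank_le (T₁ ⊔ T₂)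
  have g6 := finrank_WWk K (3 * k + 1)
  have g7 : 2 ≤ Module.finrank K (T₁ ⊓ T₂ : Submodule K (WW K (3 * k + 1))) := by
    rw [← hT₁] at g1
    rw [← hT₂] at g2
    have g8 : (3 * k + 1 + 1) * (3 * k + 1 + 2) = 9 * (k * k) + 15 * k + 6 := by ring
    rw [g8] at g6
    have g9 : k ≤ k * k := Nat.le_mul_of_pos_left k hk
    omega
  obtain ⟨q₀, hq₀, q₁, hq₁, hind⟩ := exists_two _ g7
  obtain ⟨m1, m2⟩ := Submodule.mem_inf.mp hq₀
  obtain ⟨m3, m4⟩ := Submodule.mem_inf.mp hq₁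
  rw [hT₁, Submodule.mem_comap] at m1 m3
  rw [hT₂, Submodule.mem_comap] at m2 m4
  obtain ⟨u, hu0, hu1⟩ := hlin _ m1
  obtain ⟨v, hv0, hv1⟩ := hlin _ m2
  obtain ⟨u', hu0', hu1'⟩ := hlin _ m3
  obtain ⟨v', hv0', hv1'⟩ := hlin _ m4
  rw [mulW_apply] at hu0 hu1 hv0 hv1 hu0' hu1' hv0' hv1'
  obtain ⟨Q₀, hQ₀⟩ := q₀
  obtain ⟨Q₁, hQ₁⟩ := q₁
  replace hu0 : UU K D d l a b p 0 ((X 0 - C (z 0)) * Q₀) =
        ((u 1 : M) - p a * (u 0 : M)) • (fun k => E (p k)) := hu0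
  replace hu1 : UU K D d l a b p 1 ((X 0 - C (z 0)) * Q₀) =
        ((u 2 : M) - p b * (u 0 : M)) • (fun k => E (p k)) := hu1
  replace hv0 : UU K D d l a b p 0 ((X 1 - C (z 1)) * Q₀) =
        ((v 1 : M) - p a * (v 0 : M)) • (fun k => E (p k)) := hv0
  replace hv1 : UU K D d l a b p 1 ((X 1 - C (z 1)) * Q₀) =
        ((v 2 : M) - p b * (v 0 : M)) • (fun k => E (p k)) := hv1
  replace hu0' : UU K D d l a b p 0 ((X 0 - C (z 0)) * Q₁) =
        ((u' 1 : M) - p a * (u' 0 : M)) • (fun k => E (p k)) := hu0'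
  replace hu1' : UU K D d l a b p 1 ((X 0 - C (z 0)) * Q₁) =
        ((u' 2 : M) - p b * (u' 0 : M)) • (fun k => E (p k)) := hu1'
  replace hv0' : UU K D d l a b p 0 ((X 1 - C (z 1)) * Q₁) =
        ((v' 1 : M) - p a * (v' 0 : M)) • (fun k => E (p k)) := hv0'
  replace hv1' : UU K D d l a b p 1 ((X 1 - C (z 1)) * Q₁) =
        ((v' 2 : M) - p b * (v' 0 : M)) • (fun k => E (p k)) := hv1'
  -- a combination with zero defect
  obtain ⟨c, c', hc0, hcκ⟩ : ∃ c c' : K, (c ≠ 0 ∨ c' ≠ 0) ∧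
      c * (u 2 - z 1 * u 0 - (v 1 - z 0 * v 0)) +
        c' * (u' 2 - z 1 * u' 0 - (v' 1 - z 0 * v' 0)) = 0 := by
    by_cases hκ : u 2 - z 1 * u 0 - (v 1 - z 0 * v 0) = 0
    · exact ⟨1, 0, Or.inl one_ne_zero, by rw [hκ]; ring⟩
    · exact ⟨u' 2 - z 1 * u' 0 - (v' 1 - z 0 * v' 0), - (u 2 - z 1 * u 0 - (v 1 - z 0 * v 0)),
        Or.inr (neg_ne_zero.mpr hκ), by ring⟩
  have hS : c • Q₀ + c' • Q₁ ≠ 0 := by
    intro h0
    have h1 := hind c c' (Subtype.ext h0)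
    rcases hc0 with h2 | h2
    · exact h2 h1.1
    · exact h2 h1.2
  have hSW : c • Q₀ + c' • Q₁ ∈ WW K (3 * k + 1) :=
    Submodule.add_mem _ (Submodule.smul_mem _ _ hQ₀) (Submodule.smul_mem _ _ hQ₁)
  have w0 := UU_comb c c' (X 0 - C (z 0)) Q₀ Q₁ 0 _ _ hu0 hu0'
  have w1 := UU_comb c c' (X 0 - C (z 0)) Q₀ Q₁ 1 _ _ hu1 hu1'
  have w2 := UU_comb c c' (X 1 - C (z 1)) Q₀ Q₁ 0 _ _ hv0 hv0'
  have w3 := UU_comb c c' (X 1 - C (z 1)) Q₀ Q₁ 1 _ _ hv1 hv1'
  have hfin := h.pencilH P (n := 3 * k + 1) (by omega) hz hSW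
    (fun t => c * u t + c' * u' t) (fun t => c * v t + c' * v' t)
    (by rw [w0]; congr 1; push_cast; ring) (by rw [w1]; congr 1; push_cast; ring)
    (by rw [w2]; congr 1; push_cast; ring) (by rw [w3]; congr 1; push_cast; ring)
    (by
      show (c * u 2 + c' * u' 2) - z 1 * (c * u 0 + c' * u' 0) =
        (c * v 1 + c' * v' 1) - z 0 * (c * v 0 + c' * v' 0)
      linear_combination hcκ)
  have h5 := hmin _ hS hfin
  have h6 := mem_WW.mp hSW
  omega

end Pool.Agent.Lib.MP_44a246_ntH
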