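import Mathlib
import Pool.Agent.Lib.MP_44a246_ntH.HB2
import Pool.Agent.Lib.MP_44a246_ntH.HB3
import Pool.Agent.Lib.MP_44a246_ntH.HB5
import Pool.Agent.Lib.MP_44a246_ntH.HB8

/-!
The case of a plane is impossible.
-/

set_option linter.unusedSectionVars false

namespace Pool.Agent.Lib.MP_44a246_ntH

open Pool.Agent.Lib.MP_e52354_nt
open Pool.Agent.Lib.MP_e52354_ntP
open MvPolynomial

universe u

variable {M : Type u} [Field M] {K : Subfield M} {s d : ℕ} {A : (Fin s →₀ ℕ) → K}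
  {al be ga : Fin s → K} {D : (Fin s →₀ ℕ) → Derivation ℤ M M} {E : Derivation ℤ M M}
  {p : Fin s → M} {G : ℕ → AddSubgroup M} {l a b : Fin s}

/-- The plane case is impossible. -/
theorem HCtx.plane_false [CharZero M] (h : HCtx K d D E A p G) (P : Pln D d p l a b al be ga)
    {k : ℕ} (hk : 1 ≤ k) (hs : s = 2 * k + 3) (hd : d = 3 * k + 3) (hf : fH d A al be ga ≠ 0)
    (hxi : XiH K d D E A p al be ga l a b)
    (L : Fin k → Fin 2 → (Fin s → M) →ₗ[M] M) (hLp : ∀ i j, L i j p = 0)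
    (hLE : ∀ i j, L i j (fun k => E (p k)) = 0)
    (hL0 : ∀ z : Fin s → M, grad d (fun J => (A J : M)) p ⬝ᵥ z = 0 → (∀ i j, L i j z = 0) →
      ∃ t t' : M, z = t • p + t' • (fun k => E (p k)))
    (c₀ : Fin k → WW K (3 * k + 2))
    (hc : ∀ i j j', L i j (UU K D d l a b p j' (c₀ i)) = if j = j' then 1 else 0)
    (hK : ∀ i, ∀ Q : WW K (3 * k + 2),
      L i 0 (UU K D d l a b p 0 Q) * L i 1 (UU K D d l a b p 1 Q) -
      L i 1 (UU K D d l a b p 0 Q) * L i 0 (UU K D d l a b p 1 Q) ∈ K)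
    (Λ : (Fin s → M) →ₗ[M] M) (hΛE : Λ (fun k => E (p k)) = 1)
    (hΛ : ∀ i, ∀ Q ∈ WW K (3 * k + 2), Λ (UU K D d l a b p i Q) ∈ G 1)
    (hΛ' : ∀ Q ∈ WW K (3 * k + 2), p a * Λ (UU K D d l a b p 1 Q) -
      p b * Λ (UU K D d l a b p 0 Q) ∈ G 1) : False := by
  classical
  have he : 3 * k + 2 + 1 = d := by omega
  -- the equation of the curve
  have hyK : p b ∉ K := fun hb => HCtx.notMem_b P ⟨p b, hb⟩ (sub_self _)
  obtain ⟨g, hg0, hgx, -, hgd⟩ := exists_gen (K := K) (x := p a) (y := p b)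
    h.W.alg hyK hf (h.fp P)
  obtain ⟨c, hcf⟩ := hgd _ (h.fp P)
  have hc0 : c ≠ 0 := by
    rintro rfl
    exact hf (by rw [hcf, mul_zero])
  have hmin : ∀ f : MvPolynomial (Fin 2) K, f ≠ 0 → evp K (p a) (p b) f = 0 →
      g.totalDegree ≤ f.totalDegree := by
    intro f hf0 hfx
    obtain ⟨t, rfl⟩ := hgd f hfx
    have ht : t ≠ 0 := by
      rintro rfl
      exact hf0 (mul_zero g)
    rw [totalDegree_mul_of_isDomain hg0 ht]
    exact Nat.le_add_right _ _
  obtain ⟨hge, hgc⟩ := h.degree_ge P hs hd hf hg0 hgx hcf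
  -- the slots
  choose R hR hR' using fun i => slotH h P he hxi (L i) (hLp i) (hLE i) (c₀ i) (hc i) (hK i)
  have hRi : ∀ i, Module.finrank K (WW K (3 * k + 2)) ≤ Module.finrank K (R i) + 4 := by
    intro i
    have h1 := Submodule.finrank_quotient_add_finrank (R i)
    have h2 := hR i
    omega
  have hinf := finrank_inf Finset.univ R 4 hRi
  rw [Finset.card_univ, Fintype.card_fin] at hinf
  have hRU : ∀ Q ∈ (Finset.univ.inf R : Submodule K (WW K (3 * k + 2))), ∀ i, ∃ t : M,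
      UU K D d l a b p i (Q : MvPolynomial (Fin 2) K) = t • (fun k => E (p k)) := by
    intro Q hQ i
    have hQi : ∀ i, Q ∈ R i := by
      intro i'
      exact (Finset.inf_le (f := R) (Finset.mem_univ i') : _ ≤ R i') hQ
    obtain ⟨t, t', ht⟩ := hL0 _ (h.grad_UU P he Q.2 i) fun i' j => hR' i' Q (hQi i') j i
    have h1 := congrFun ht l
    rw [UU_l P.hpl, Pi.add_apply, Pi.smul_apply, Pi.smul_apply, P.hpl,
      Derivation.map_one_eq_zero, smul_zero, add_zero, smul_eq_mul, mul_one] at h1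
    refine ⟨t', ?_⟩
    rw [ht, ← h1, zero_smul, zero_add]
  have hA := h.caseA P hk hs hd hf
    (fun f hf0 hfx => hge.trans (Nat.add_le_add_right (hmin f hf0 hfx) 1))
    (Finset.univ.inf R) hinf hRU Λ hΛE hΛ hΛ'
  exact h.caseB P hk hs hd hg0 hgx hmin hcf hc0 hge hgc hA

end Pool.Agent.Lib.MP_44a246_ntH
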