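import Mathlib
import Pool.Agent.Lib.MP_e52354_ntI.IRows
import Pool.Agent.Lib.MP_e52354_ntI.IVol
import Pool.Agent.Lib.MP_e52354_ntP.Gam
import Pool.Agent.Lib.MP_44a246_ntH.HB1

/-!
Data with one further derivation killing the coefficients: the base data, comparison of weights.
-/

namespace Pool.Agent.Lib.MP_44a246_ntH

open Pool.Agent.Lib.MP_e52354_nt Pool.Agent.Lib.MP_e52354_ntG Pool.Agent.Lib.MP_e52354_ntC
open Pool.Agent.Lib.MP_e52354_ntW Pool.Agent.Lib.MP_e52354_ntP Pool.Agent.Lib.MP_e52354_ntI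

universe u w w'

section Base

variable {ι : Type w} {γ : Type w'} [DecidableEq ι] {M : Type u} [Field M]

/-- the data without the further derivation -/
def base (Y : DData (Option ι) γ M) : DData ι γ M where
  a := fun I => Y.a (some I)
  b := Y.b
  D := fun I => Y.D (some I)
  hD := fun I J => by
    rw [Y.hD]
    simp only [Option.some.injEq]
  hb := fun I g => Y.hb _ g
  hcomm := fun I J y => Y.hcomm _ _ y

variable {Y : DData (Option ι) γ M} {σ : Type*} {p : σ → M} {c w : ℕ}

theorem adm_base {O : Subring M} {δ : M} {l : σ} (h : Adm Y p O δ l) : Adm (base Y) p O δ l :=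
  ⟨h.hval, h.hδ, fun I => h.hDO (some I), fun I => h.ha (some I), h.hb, h.hl, h.hp⟩

theorem ws_up {y : M} (h : WS (base Y) p c w y) : WS Y p c w y :=
  fun O δ l hA => h O δ l (adm_base hA)

theorem wt_up {y : σ → M} (h : WT (base Y) p c w y) : WT Y p c w y :=
  fun O δ l hA => h O δ l (adm_base hA)

theorem local_up {s : ℕ} {p : Fin s → M} {c e : ℕ} {J : M} (h : LocalBound (base Y) p c e J) :
    LocalBound Y p c e J :=
  fun O δ hval hδ hDO ha hb l hl hp => h O δ hval hδ (fun I => hDO (some I))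
    (fun I => ha (some I)) hb l hl hp

theorem blk_up {κ : Type} [Fintype κ] [DecidableEq κ] {Z : κ → σ → M} {α : M} {W : ℕ}
    (h : Blk (base Y) p Z α W) : Blk Y p Z α W := by
  obtain ⟨n, c, Z', wc, wz, h1, h2, h3, h4⟩ := h
  exact ⟨n, c, Z', wc, wz, fun j => ws_up (h1 j), fun j i => wt_up (h2 j i), h3, h4⟩

/-- the derivative of the point by the further derivation -/
def Ev (Y : DData (Option ι) γ M) (p : σ → M) : σ → M := fun k => Y.D none (p k)

theorem wt_Ev : WT Y p 2 1 (Ev Y p) := (WT.deriv (X := Y) (p := p) none).mono_c 1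

theorem Ev_one {l : σ} (hl : p l = 1) : Ev Y p l = 0 := by
  show Y.D none (p l) = 0
  rw [hl]
  exact Derivation.map_one_eq_zero _

end Base

section Forms

variable {s q : ℕ} {d : Fin q → ℕ} {γ : Type w'} {M : Type u} [Field M]
  {Y : DData (Option (MIdx s q d)) γ M} {p : Fin s → M}

theorem E_mA (j : Fin q) (I : Fin s →₀ ℕ) : Y.D none (mA (base Y) j I) = 0 := by
  unfold mA
  split_ifs with h
  · show Y.D none (Y.a (some _)) = 0
    rw [Y.hD, if_neg (by simp)]
  · exact map_zero _

theorem E_mD (j : Fin q) (I : Fin s →₀ ℕ) (y : M) :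
    Y.D none (mD (base Y) j I y) = mD (base Y) j I (Y.D none y) := by
  unfold mD
  split_ifs with h
  · exact Y.hcomm _ _ _
  · simp

theorem mgrad_Ev (hF : ∀ j, Fval (d j) (mA (base Y) j) p = 0) (j : Fin q) :
    mgrad (base Y) p j ⬝ᵥ Ev Y p = 0 := by
  have h := D_Fval (d j) (mA (base Y) j) (Y.D none) p
  rw [hF j, map_zero] at h
  have h1 : ∑ I ∈ expo (Fin s) (d j), Y.D none (mA (base Y) j I) * mon p I = 0 :=
    Finset.sum_eq_zero fun I _ => by rw [E_mA, zero_mul]
  rw [h1, zero_add] at h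
  exact h.symm

/-- the vectors of weight one: the derivative of the point and the vectors xi -/
def hS1 (Y : DData (Option (MIdx s q d)) γ M) (p : Fin s → M) : Set (Fin s → M) :=
  insert (Ev Y p) (mSxi (base Y) p)

theorem mgrad_S1 (hF : ∀ j, Fval (d j) (mA (base Y) j) p = 0) {z : Fin s → M}
    (hz : z ∈ hS1 Y p) (j : Fin q) : mgrad (base Y) p j ⬝ᵥ z = 0 := by
  rcases hz with rfl | hz
  · exact mgrad_Ev hF j
  · exact mgrad_xi hF hz j

theorem wt_S1 {z : Fin s → M} (hz : z ∈ hS1 Y p) : WT Y p 2 1 z := by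
  rcases hz with rfl | ⟨u, v, rfl⟩
  · exact wt_Ev
  · exact wt_up (wt_mxi u v)

end Forms

end Pool.Agent.Lib.MP_44a246_ntH
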