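import Mathlib
import Pool.Agent.Lib.MP_44a246_ntH.HF1

/-!
Functionals from blocks of rows, completion of families, with a further derivation.
-/

namespace Pool.Agent.Lib.MP_44a246_ntH

open Pool.Agent.Lib.MP_e52354_nt
open Pool.Agent.Lib.MP_e52354_ntG
open Pool.Agent.Lib.MP_e52354_ntC
open Pool.Agent.Lib.MP_e52354_ntI

universe u w w'

section RowFun

variable {s q : ℕ} {d : Fin q → ℕ} {γ : Type w'} {M : Type u} [Field M]
  {Y : DData (Option (MIdx s q d)) γ M} {p : Fin s → M}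

/-- a linear functional with controlled denominators on the tangent space -/
def HRF (Y : DData (Option (MIdx s q d)) γ M) (p : Fin s → M) (C w : ℕ)
    (L : (Fin s → M) →ₗ[M] M) : Prop :=
  ∀ z wz, (∀ j, mgrad (base Y) p j ⬝ᵥ z = 0) → WT Y p 2 wz z → ∀ l, p l ≠ 0 →
    WS Y p C (w + wz) (L z * p l ^ (∑ j, d j))

theorem HRF.direct {C w wz E : ℕ} {L : (Fin s → M) →ₗ[M] M} (hL : HRF Y p C w L)
    {z : Fin s → M} (hz : ∀ j, mgrad (base Y) p j ⬝ᵥ z = 0) (hwz : WT Y p 2 wz z)
    (hd : ∑ j, d j = E + (w + wz)) : LocalBound Y p C E (L z) :=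
  LocalBound.of_WS hd fun l hl => ⟨_, hL z wz hz hwz l hl, rfl⟩

theorem HRF.line [CharZero M] {C w E : ℕ} {L : (Fin s → M) →ₗ[M] M}
    (hL : HRF Y p C w L) (hF : ∀ j, Fval (d j) (mA (base Y) j) p = 0) {b : Fin s} (hb : p b ≠ 0)
    (hd : ∑ j, d j = E + (w + 2)) {z : Fin s → M} (hz : z ∈ mSzeta (base Y) p) (hLz : L z ≠ 0) :
    (∃ J : M, J ≠ 0 ∧ LocalBound Y p (C * ∑ j, d j + 1) 1 J) ∨ MOnLine d (mA (base Y)) p := by
  obtain ⟨f, m, i₀, j₀, hm, rfl⟩ := hz
  let p' : Fin s → M := fun v => L (dp (base Y) p f (m + Finsupp.single v 1))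
  have hπ : ∀ i j, L (zeta (mD (base Y) f) p m i j) = plu p p' i j := by
    intro i j
    rw [zeta_eq, map_sub, map_smul, map_smul]
    rfl
  have hij : plu p p' i₀ j₀ ≠ 0 := by rw [← hπ]; exact hLz
  by_cases hline : ∀ a, lineP (d a) (mA (base Y) a) (plu p p' i₀) (plu p p' j₀) = 0
  · right
    refine ⟨p', ⟨i₀, j₀, hij⟩, fun a u v => ?_⟩
    have h1 := Fval_comb (d a) (mA (base Y) a) (hline a) inferInstance
      ((p j₀ * u + p' j₀ * v) / plu p p' i₀ j₀) (-(p i₀ * u + p' i₀ * v) / plu p p' i₀ j₀)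
    rw [← h1]
    congr 1
    funext k
    have h2 : plu p p' i₀ j₀ = p i₀ * p' j₀ - p j₀ * p' i₀ := rfl
    have h3 : plu p p' i₀ k = p i₀ * p' k - p k * p' i₀ := rfl
    have h4 : plu p p' j₀ k = p j₀ * p' k - p k * p' j₀ := rfl
    rw [h3, h4]
    field_simp
    rw [h2]
    ring
  · left
    push Not at hline
    obtain ⟨a, ha⟩ := hline
    obtain ⟨J, hJ0, hJ⟩ := line_trick_form (X := Y) (p' := p') (hF a) (fun I => ws_up (ws_mA a I)) hij ha
      (c := C) (E := E) (by
        intro i j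
        rw [← hπ]
        refine hL.direct (wz := 2) (fun b => mgrad_zeta hF ⟨f, m, i, j, hm, rfl⟩ b) ?_ hd
        exact wt_up ((wt_mzeta f m i j).mono_c 1))
    have h1 : C * d a ≤ C * ∑ j, d j :=
      Nat.mul_le_mul le_rfl (Finset.single_le_sum (f := d) (fun _ _ => Nat.zero_le _)
        (Finset.mem_univ a))
    have h2 := hJ.mono_c (C * ∑ j, d j - C * d a)
    rw [show C * d a + 1 + (C * ∑ j, d j - C * d a) = C * ∑ j, d j + 1 by omega] at h2
    exact lower_one hb ⟨J, hJ0, h2⟩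

/-- the functional `z ↦ det (v, p, Z, z) / det (g v)`, for a block `Z` -/
theorem hexists_rowFun_blk {r : ℕ} (hs : q + r + 1 = s) {ρ : Type} [Fintype ρ] [DecidableEq ρ]
    (hρ : Fintype.card ρ + 1 = r)
    (hF : ∀ j, Fval (d j) (mA (base Y) j) p = 0) {l₀ : Fin s} (hl₀ : p l₀ ≠ 0)
    (Z : ρ → Fin s → M) (hgZ : ∀ i j, mgrad (base Y) p j ⬝ᵥ Z i = 0)
    {α : M} (hα : α ≠ 0) {W : ℕ} (hZ : Blk Y p Z α W) :
    ∃ L : (Fin s → M) →ₗ[M] M, HRF Y p (2 * s) (q + 1 + W) L ∧
      ∀ z, (∀ j, mgrad (base Y) p j ⬝ᵥ z = 0) →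
        LinearIndependent M (fun o : Option (ρ ⊕ Unit) => o.elim p (Sum.elim Z fun _ => z)) →
        L z ≠ 0 := by
  classical
  let e : Fin q ⊕ Option (ρ ⊕ Unit) ≃ Fin s := Fintype.equivFinOfCardEq (by
    simp only [Fintype.card_sum, Fintype.card_option, Fintype.card_unit, Fintype.card_fin]
    omega)
  have hdv : ∀ l, (Matrix.of fun j i => mgrad (base Y) p i ⬝ᵥ dp (base Y) p j (Finsupp.single l (d j))).det =
      (-1) ^ q * p l ^ (∑ j, d j) := fun l => det_vv hF (fun j => mgrad (base Y) p j)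
    (fun j z _ => rfl) l
  have hdet0 : (Matrix.of fun j i => mgrad (base Y) p i ⬝ᵥ dp (base Y) p j (Finsupp.single l₀ (d j))).det ≠ 0 := by
    rw [hdv l₀]
    exact mul_ne_zero (pow_ne_zero _ (neg_ne_zero.mpr one_ne_zero)) (pow_ne_zero _ hl₀)
  obtain ⟨L, hL1, hL2⟩ := exists_rowLG e (fun j => mgrad (base Y) p j) (mgrad_li hF hl₀) (p := p)
    (fun j => mgrad_p hF j) Z (fun i j => hgZ j i)
    (fun j => dp (base Y) p j (Finsupp.single l₀ (d j))) hdet0
  refine ⟨α⁻¹ • L, ?_, ?_⟩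
  · intro z wz hz hwz l hl
    obtain ⟨n, c, Z', wc, wzz, hc, hz', hw, hdet⟩ := hZ
    let f : ρ ⊕ (Fin q ⊕ Option Unit) ≃ Fin q ⊕ Option (ρ ⊕ Unit) :=
      { toFun := Sum.elim (fun i => Sum.inr (some (Sum.inl i)))
          (Sum.elim (fun i => Sum.inl i) (fun o => o.elim (Sum.inr none)
            (fun _ => Sum.inr (some (Sum.inr ())))))
        invFun := Sum.elim (fun i => Sum.inr (Sum.inl i))
          (fun o => o.elim (Sum.inr (Sum.inr none)) (Sum.elim Sum.inl
            (fun _ => Sum.inr (Sum.inr (some ())))))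
        left_inv := by rintro (i | (i | (_ | i))) <;> rfl
        right_inv := by rintro (i | (_ | (i | i))) <;> rfl }
    let v : Fin q → Fin s → M := fun j => dp (base Y) p j (Finsupp.single l (d j))
    have h2 := hL1 z hz v
    rw [hdv l] at h2
    have h3 : (rowsM e v p (Sum.elim Z fun _ => z)).det =
        rowdet (f.trans e) (Sum.elim Z (Sum.elim v (fun o => o.elim p (fun _ => z)))) := by
      have h4 := rowdet_reindex f e
        (Sum.elim v (fun o : Option (ρ ⊕ Unit) => o.elim p (Sum.elim Z fun _ => z)))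
      unfold rowsM
      rw [show (Matrix.of fun i j =>
        (Sum.elim v (fun o : Option (ρ ⊕ Unit) => o.elim p (Sum.elim Z fun _ => z))) i
          (e j)).det = rowdet e _ from rfl, ← h4]
      congr 1
      funext i
      rcases i with i | (i | (_ | i)) <;> rfl
    rw [h3, hdet] at h2
    have h5 : (α⁻¹ • L) z * ((-1) ^ q * p l ^ (∑ j, d j)) = ∑ j, c j * rowdet (f.trans e)
        (Sum.elim (Z' j) (Sum.elim v (fun o => o.elim p (fun _ => z)))) := by
      rw [LinearMap.smul_apply, smul_eq_mul, mul_assoc, ← h2, ← mul_assoc,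
        inv_mul_cancel₀ hα, one_mul]
    have h0 : WS Y p (2 * s) (q + 1 + W + wz) ((α⁻¹ • L) z * ((-1) ^ q * p l ^ (∑ j, d j))) := by
      rw [h5]
      refine WS.sum _ fun j _ => ?_
      have h6 := WS.det (X := Y) (p := p) (f.trans e)
        (Sum.elim (Z' j) (Sum.elim v (fun o : Option Unit => o.elim p (fun _ => z))))
        (Sum.inr (Sum.inr none)) rfl 2
        (Sum.elim (wzz j) (Sum.elim (fun _ => 1) (fun o => o.elim 1 (fun _ => wz)))) rfl (by
          rintro (i | (i | (_ | i))) hi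
          · exact hz' j i
          · exact wt_up (wt_dp2 _ _)
          · exact absurd rfl hi
          · exact hwz)
      have h7 : Fintype.card (ρ ⊕ (Fin q ⊕ Option Unit)) = s := by
        simp only [Fintype.card_sum, Fintype.card_option, Fintype.card_unit, Fintype.card_fin]
        omega
      have h8 : ∑ i, (Sum.elim (wzz j) (Sum.elim (fun _ : Fin q => 1)
          (fun o : Option Unit => o.elim 1 (fun _ => wz)))) i = ∑ i, wzz j i + (q + 1 + wz) := by
        simp only [Fintype.sum_sum_type, Fintype.sum_option, Sum.elim_inl, Sum.elim_inr,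
          Option.elim_none, Option.elim_some, Finset.sum_const, Finset.card_univ,
          Fintype.card_fin, Fintype.card_unit, smul_eq_mul, mul_one, one_mul]
        ring
      rw [h7, h8] at h6
      have h9 := (hc j).mul h6
      have h10 : wc j + (∑ i, wzz j i + (q + 1 + wz)) = q + 1 + W + wz := by
        rw [← hw j]; ring
      rw [h10, zero_add] at h9
      exact h9
    rcases neg_one_pow_eq_or M q with h | h
    · rwa [h, one_mul] at h0
    · have := h0.neg
      rw [h] at this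
      convert this using 1
      ring
  · intro z hz hli
    rw [LinearMap.smul_apply, smul_eq_mul]
    exact mul_ne_zero (inv_ne_zero hα) (hL2 z hz hli)

/-- completion by vectors zeta, the last of which gives a line -/
theorem hfinish_line_blk [CharZero M] {r : ℕ} (hs : q + r + 1 = s) {κ : Type} [Fintype κ]
    [DecidableEq κ] {m E : ℕ}
    (hm : Fintype.card κ + (m + 1) = r)
    (hF : ∀ j, Fval (d j) (mA (base Y) j) p = 0) {l₀ : Fin s} (hl₀ : p l₀ ≠ 0)
    (Z : κ → Fin s → M) (hgZ : ∀ i j, mgrad (base Y) p j ⬝ᵥ Z i = 0)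
    {α : M} (hα : α ≠ 0) {W : ℕ} (hZ : Blk Y p Z α W)
    (hli : LinearIndependent M (fun o : Option κ => o.elim p Z))
    (hspan : mTT (base Y) p ≤ Submodule.span M (insert p (Set.range Z) ∪ mSzeta (base Y) p))
    (hd : ∑ j, d j = E + (q + 3 + W + 2 * m)) :
    (∃ J : M, J ≠ 0 ∧ LocalBound Y p (2 * s * ∑ j, d j + 1) 1 J) ∨ MOnLine d (mA (base Y)) p := by
  obtain ⟨Z', hZ'S, hli'⟩ := mexists_ext hs hm hF hl₀ Z hgZ hli (mSzeta (base Y) p)
    (fun z hz => mgrad_zeta hF hz) hspan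
  have hfam : Blk Y p (fun i : Fin m => Z' i.castSucc) 1 (∑ _i : Fin m, 2) :=
    Blk.fam fun i => wt_up ((wt_mSzeta (hZ'S i.castSucc)).mono_c 1)
  obtain ⟨L, hL, hL0⟩ := hexists_rowFun_blk (Y := Y) (p := p) (ρ := κ ⊕ Fin m) hs
    (by rw [Fintype.card_sum, Fintype.card_fin]; omega) hF hl₀
    (Sum.elim Z fun i => Z' i.castSucc)
    (by
      rintro (i | i)
      · exact hgZ i
      · exact mgrad_zeta hF (hZ'S _))
    (mul_ne_zero hα one_ne_zero) (hZ.sum hfam)
  refine hL.line hF hl₀ (E := E) ?_ (hZ'S (Fin.last m)) (hL0 _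
    (mgrad_zeta hF (hZ'S _)) ?_)
  · rw [sum_fam_two]; omega
  · let f : Option ((κ ⊕ Fin m) ⊕ Unit) → Option (κ ⊕ Fin (m + 1)) := fun o =>
      o.elim none (fun x => some (Sum.elim (Sum.elim Sum.inl (fun i => Sum.inr i.castSucc))
        (fun _ => Sum.inr (Fin.last m)) x))
    have hf : Function.Injective f := by
      rintro (_ | ((i | i) | i)) (_ | ((j | j) | j)) h
      · rfl
      · simp [f] at h
      · simp [f] at h
      · simp [f] at h
      · simp [f] at h
      · simp [f] at h; rw [h]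
      · simp [f] at h
      · simp [f] at h
      · simp [f] at h
      · simp [f] at h
      · simp [f] at h; rw [h]
      · simp [f] at h
      · simp [f] at h
      · simp [f] at h
      · simp [f] at h
        exact absurd h.symm (Fin.castSucc_lt_last j).ne
      · rfl
    have h1 := hli'.comp f hf
    convert h1 using 1
    funext o
    rcases o with (_ | ((i | i) | i))
    · rfl
    · rfl
    · rfl
    · rfl

/-- completion when enough weight has been saved -/
theorem hfinish_direct_blk {r : ℕ} (hs : q + r + 1 = s) {κ : Type} [Fintype κ] [DecidableEq κ]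
    {m E : ℕ} (hm : Fintype.card κ + m + 1 = r)
    (hF : ∀ j, Fval (d j) (mA (base Y) j) p = 0) {l₀ : Fin s} (hl₀ : p l₀ ≠ 0)
    (Z : κ → Fin s → M) (hgZ : ∀ i j, mgrad (base Y) p j ⬝ᵥ Z i = 0)
    {α : M} (hα : α ≠ 0) {W : ℕ} (hZ : Blk Y p Z α W)
    {z₀ : Fin s → M} (hgz₀ : ∀ j, mgrad (base Y) p j ⬝ᵥ z₀ = 0) {w₀ : ℕ} (hz₀ : WT Y p 2 w₀ z₀)
    (hli : LinearIndependent M (fun o : Option (κ ⊕ Unit) => o.elim p (Sum.elim Z fun _ => z₀)))
    (hd : ∑ j, d j = E + (q + 1 + W + 2 * m + w₀)) :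
    ∃ J : M, J ≠ 0 ∧ LocalBound Y p (2 * s) E J := by
  obtain ⟨Z', hZ'S, hli'⟩ := mexists_ext (κ := κ ⊕ Unit) (m := m) hs
    (by rw [Fintype.card_sum, Fintype.card_unit]; omega) hF hl₀
    (Sum.elim Z fun _ => z₀) (by
      rintro (i | i)
      · exact hgZ i
      · exact hgz₀) hli (mSall (base Y) p l₀)
    (fun z hz => mgrad_Sall hF hz)
    ((mTT_le_Sall hl₀).trans (Submodule.span_mono Set.subset_union_right))
  have hfam : Blk Y p Z' 1 (∑ _i : Fin m, 2) := Blk.fam fun i => wt_up (wt_mSall (hZ'S i))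
  obtain ⟨L, hL, hL0⟩ := hexists_rowFun_blk (Y := Y) (p := p) (ρ := κ ⊕ Fin m) hs
    (by rw [Fintype.card_sum, Fintype.card_fin]; omega) hF hl₀
    (Sum.elim Z Z')
    (by
      rintro (i | i)
      · exact hgZ i
      · exact mgrad_Sall hF (hZ'S _))
    (mul_ne_zero hα one_ne_zero) (hZ.sum hfam)
  refine ⟨L z₀, hL0 _ hgz₀ ?_, hL.direct hgz₀ hz₀ ?_⟩
  · let f : Option ((κ ⊕ Fin m) ⊕ Unit) → Option ((κ ⊕ Unit) ⊕ Fin m) := fun o =>
      o.elim none (fun x => some (Sum.elim (Sum.elim (fun i => Sum.inl (Sum.inl i)) Sum.inr)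
        (fun _ => Sum.inl (Sum.inr ())) x))
    have hf : Function.Injective f := by
      rintro (_ | ((i | i) | i)) (_ | ((j | j) | j)) h
      · rfl
      · simp [f] at h
      · simp [f] at h
      · simp [f] at h
      · simp [f] at h
      · simp [f] at h; rw [h]
      · simp [f] at h
      · simp [f] at h
      · simp [f] at h
      · simp [f] at h
      · simp [f] at h; rw [h]
      · simp [f] at h
      · simp [f] at h
      · simp [f] at h
      · simp [f] at h
      · rfl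
    have h1 := hli'.comp f hf
    convert h1 using 1
    funext o
    rcases o with (_ | ((i | i) | i))
    · rfl
    · rfl
    · rfl
    · rfl
  · rw [sum_fam_two]; omega

end RowFun

end Pool.Agent.Lib.MP_44a246_ntH
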