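import Mathlib
import Pool.Agent.Lib.MP_e52354_ntI.IContact
import Pool.Agent.Lib.MP_44a246_ntT.TContact

/-!
The contact theorem with a further derivation killing the coefficients.
-/

namespace Pool.Agent.Lib.MP_44a246_ntH

open Pool.Agent.Lib.MP_e52354_nt
open Pool.Agent.Lib.MP_e52354_ntG
open Pool.Agent.Lib.MP_e52354_ntC
open Pool.Agent.Lib.MP_e52354_ntI
open Pool.Agent.Lib.MP_44a246_ntT (Em_comm_ext Gc Gc_apply)
open Polynomial

universe u w w'

set_option linter.unusedSectionVars false

section Gen

variable {M : Type u} [Field M] [CharZero M] {s q : ℕ} {d : Fin q → ℕ}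
  {a : Fin q → (Fin s →₀ ℕ) → M} {D : Fin q → (Fin s →₀ ℕ) → Derivation ℤ M M}
  {p θ : Fin s → M} {l b : Fin s}

theorem hcontact_gen {e : Fin q → ℕ} {r S : ℕ} (hs : q + r + 1 = s) (hS : 2 * S ≤ r + 1)
    (he : ∀ j, e j + 1 = d j) (hd : ∑ j, d j + S = 2 * r + q + 1)
    (hcomm : ∀ i j I J y, D i I (D j J y) = D j J (D i I y))
    (hD : ∀ i j, ∀ I ∈ expo (Fin s) (d i), ∀ J ∈ expo (Fin s) (d j),
      D i I (a j J) = if i = j ∧ I = J then 1 else 0)
    (hF : ∀ j, Fval (d j) (a j) p = 0) (hpl : p l = 1) (hθl : θ l = 0) (hθb : θ b = 1)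
    (W : Submodule M (Fin s → M)) (hpW : p ∈ W) (hW : Module.finrank M W ≤ S)
    (hm : ∀ f, ∀ m : Fin s →₀ ℕ, m.degree = e f → ∀ j,
      (fun k => Dmc (D f) p θ l b m j (p k)) ∈ W)
    (hξ : ∀ i j, xiM d a D p i j ∈ W)
    (E₀ : Derivation ℤ M M) (hE₀ : ∀ i I y, E₀ (D i I y) = D i I (E₀ y))
    (hE₀0 : ∃ k, E₀ (p k) ≠ 0) (hE₀W : (fun k => E₀ (p k)) ∈ W) (f₀ : Fin q) :
    ∑ j, p j • gradP (d f₀) (a f₀) p θ j = 0 := by
  classical
  by_contra hne
  have hnd : p l * θ b - p b * θ l ≠ 0 := by
    rw [hpl, hθb, hθl]; simp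
  let π := W.mkQ
  have hπ0 : ∀ v, π v = 0 ↔ v ∈ W := by
    intro v
    rw [Submodule.mkQ_apply, Submodule.Quotient.mk_eq_zero]
  have hQ : Module.finrank M ((Fin s → M) ⧸ W) + Module.finrank M W = s := by
    have := Submodule.finrank_quotient_add_finrank W
    rwa [Module.finrank_fin_fun] at this
  let A : Fin q → (Fin s →₀ ℕ) → (Fin s → M) := fun f I k => D f I (p k)
  have hDmc : ∀ f m c, (fun k => Dmc (D f) p θ l b m c (p k)) =
      A f (m + Finsupp.single c 1) - p c • A f (m + Finsupp.single l 1) -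
      θ c • (A f (m + Finsupp.single b 1) - p b • A f (m + Finsupp.single l 1)) := by
    intro f m c
    funext k
    rw [Dmc_apply]
    simp [A]
  obtain ⟨Ψ, hΨ'⟩ := mexists_Psi (e := e) (fun f I => π (A f I)) hpl hθl hθb
    (fun f m => π (A f (m + Finsupp.single b 1)) - p b • π (A f (m + Finsupp.single l 1))) (by
      intro f m hme c
      have h1 := (hπ0 _).mpr (hm f m hme c)
      rw [hDmc, map_sub, map_sub, map_smul, map_smul, map_sub, map_smul, sub_sub,
        sub_eq_zero] at h1
      exact h1)
  have hΨ : ∀ f, ∀ I : Fin s →₀ ℕ, I.degree = d f →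
      Ψ (Pi.single f (lmon p θ I)) = π (A f I) := by
    intro f I hI
    exact hΨ' f I (by rw [hI, he])
  have hG := mpsi_grad (a := a) (D := D) hpl hθl hθb π Ψ hΨ (fun i j => (hπ0 _).mpr (hξ i j))
  set G := mG d a p θ with hGdef
  -- the kernel
  have hsd : ∑ j, (d j + 1) = ∑ j, d j + q := by
    rw [Finset.sum_add_distrib]; simp
  obtain ⟨w, hw0, hGw⟩ := mker_of_count (N := d) G Ψ (fun v j => mG_mem v j)
    (fun v => (hG v).2) (by
      intro y
      obtain ⟨v, rfl⟩ := Submodule.mkQ_surjective W y
      refine ⟨-v, ?_⟩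
      rw [(hG _).1, map_neg, neg_neg]) (by
      rw [Module.finrank_fin_fun, hsd]; omega)
  have hwW : w ∈ W := by
    rw [← hπ0]
    have := (hG w).1
    rw [hGw, map_zero] at this
    exact neg_eq_zero.mp this.symm
  have hGdim : Module.finrank M (LinearMap.range G) + 1 ≤ s := by
    have h1 := LinearMap.finrank_range_add_finrank_ker G
    rw [Module.finrank_fin_fun] at h1
    have h2 : 0 < Module.finrank M (LinearMap.ker G) := by
      rw [Module.finrank_pos_iff_exists_ne_zero]
      exact ⟨⟨w, hGw⟩, fun h => hw0 (congrArg Subtype.val h)⟩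
    omega
  -- the part of `W` where the coordinate `l` vanishes
  let Wl : Submodule M (Fin s → M) := W ⊓ LinearMap.ker (LinearMap.proj l)
  have hWl : ∀ y, y ∈ Wl ↔ y ∈ W ∧ y l = 0 := by
    intro y
    rw [Submodule.mem_inf, LinearMap.mem_ker]
    rfl
  have hWlW : Wl ≤ W := inf_le_left
  have hWldim : Module.finrank M Wl + 1 ≤ Module.finrank M W := by
    refine Submodule.finrank_lt_finrank_of_lt (lt_of_le_of_ne hWlW ?_)
    intro h
    have h1 : p ∈ Wl := by rw [h]; exact hpW
    have h2 := ((hWl p).mp h1).2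
    rw [hpl] at h2
    exact one_ne_zero h2
  have hDl : ∀ f, ∀ m : Fin s →₀ ℕ, m.degree = e f → ∀ j,
      (fun k => Dmc (D f) p θ l b m j (p k)) ∈ Wl := by
    intro f m hme j
    rw [hWl]
    refine ⟨hm f m hme j, ?_⟩
    show Dmc (D f) p θ l b m j (p l) = 0
    rw [hpl]
    exact Derivation.map_one_eq_zero _
  set h := Module.finrank M Wl with hh
  let β : Module.Basis (Fin h) M Wl := Module.finBasis M Wl
  let u : Fin h → Fin s → M := fun i => (β i : Fin s → M)
  have huW : ∀ i, u i ∈ W := fun i => hWlW (β i).2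
  have hul : ∀ i, u i l = 0 := fun i => ((hWl _).mp (β i).2).2
  have hχ : ∀ x : Fin q × (Fin s →₀ ℕ), ∀ j, x.2.degree = e x.1 → ∃ χ : Fin h → M,
      ∀ k, Dmc (D x.1) p θ l b x.2 j (p k) = ∑ i, χ i * u i k := by
    rintro ⟨f, m⟩ j hme
    refine ⟨fun i => β.repr ⟨_, hDl f m hme j⟩ i, fun k => ?_⟩
    have h1 := β.sum_repr ⟨_, hDl f m hme j⟩
    have h2 := congrArg (fun y : Wl => (y : Fin s → M) k) h1
    simp only [AddSubmonoidClass.coe_finsetSum, Submodule.coe_smul, Finset.sum_apply, Pi.smul_apply,
      smul_eq_mul] at h2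
    rw [← h2]
  choose! χ hχ using hχ
  -- the derivative of the point by the further derivation
  have hE₀l : (fun k => E₀ (p k)) ∈ Wl := by
    rw [hWl]
    refine ⟨hE₀W, ?_⟩
    show E₀ (p l) = 0
    rw [hpl]
    exact Derivation.map_one_eq_zero _
  obtain ⟨cE, hcE, i₀, hi₀⟩ : ∃ cE : Fin h → M, (∀ k, E₀ (p k) = ∑ i, cE i * u i k) ∧
      ∃ i₀, cE i₀ ≠ 0 := by
    have h0 : ∀ k, E₀ (p k) = ∑ i, (β.repr ⟨_, hE₀l⟩ i) * u i k := by
      intro k
      have h1 := β.sum_repr ⟨_, hE₀l⟩
      have h2 := congrArg (fun y : Wl => (y : Fin s → M) k) h1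
      simp only [AddSubmonoidClass.coe_finsetSum, Submodule.coe_smul, Finset.sum_apply,
        Pi.smul_apply, smul_eq_mul] at h2
      rw [← h2]
    refine ⟨fun i => β.repr ⟨_, hE₀l⟩ i, h0, ?_⟩
    by_contra hcon
    push Not at hcon
    obtain ⟨k, hk⟩ := hE₀0
    apply hk
    rw [h0 k]
    exact Finset.sum_eq_zero fun i _ => by rw [hcon i, zero_mul]
  -- a linear form vanishing on the line but not at `w`
  obtain ⟨c, hc⟩ : ∃ c, w c - p c * w l - θ c * (w b - p b * w l) ≠ 0 := by
    by_contra hcon
    push Not at hcon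
    have hw : w = w l • p + (w b - p b * w l) • θ := by
      funext k
      have := hcon k
      simp only [Pi.add_apply, Pi.smul_apply, smul_eq_mul]
      linear_combination this
    have h1 : w l • G p + (w b - p b * w l) • G θ = 0 := by
      rw [← map_smul, ← map_smul, ← map_add, ← hw, hGw]
    have h1' := congrFun h1 f₀
    rw [Pi.add_apply, Pi.smul_apply, Pi.smul_apply, Pi.zero_apply, hGdef, mG_apply, mG_apply]
      at h1'
    refine hne (dir_of_line (hF f₀) h1' ?_)
    by_contra h2
    push Not at h2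
    obtain ⟨h3, h4⟩ := h2
    rw [h4, zero_smul, add_zero, h3, zero_smul] at hw
    exact hw0 hw
  set lam := w c - p c * w l - θ c * (w b - p b * w l) with hlam
  -- a basis of the derivatives with index `c`
  let T : Set (Fin s → M) := {z | ∃ x : Fin q × (Fin s →₀ ℕ), x.2.degree = e x.1 ∧
    z = fun k => Dmc (D x.1) p θ l b x.2 c (p k)}
  have hTW : Submodule.span M T ≤ Wl := by
    rw [Submodule.span_le]
    rintro _ ⟨x, hme, rfl⟩
    exact hDl x.1 x.2 hme c
  have hTdim : Module.finrank M (Submodule.span M T) ≤ h := Submodule.finrank_mono hTW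
  obtain ⟨h', hh'⟩ : ∃ h', Module.finrank M (Submodule.span M T) = h' := ⟨_, rfl⟩
  obtain ⟨Z, hZT, hZli⟩ := exists_extension (M := M) (k := 0) (r := h')
    (Submodule.span M T) (by omega) (fun i => i.elim0) (linearIndependent_empty_type)
    (fun i => i.elim0)
    T (fun z hz => Submodule.subset_span hz) (Submodule.span_mono Set.subset_union_right)
  have hZli' : LinearIndependent M Z := by
    have := hZli.comp Sum.inr Sum.inr_injective
    exact this
  have hZspan : Submodule.span M (Set.range Z) = Submodule.span M T := by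
    apply Submodule.eq_of_le_of_finrank_le
    · exact Submodule.span_mono (by rintro _ ⟨i, rfl⟩; exact hZT i)
    · rw [finrank_span_eq_card hZli', Fintype.card_fin, hh']
  choose μ hμ hZμ using hZT
  have ht : ∀ x : Fin q × (Fin s →₀ ℕ), x.2.degree = e x.1 → ∃ t : Fin h' → M,
      ∀ k, Dmc (D x.1) p θ l b x.2 c (p k) =
        ∑ i, t i * Dmc (D (μ i).1) p θ l b (μ i).2 c (p k) := by
    intro x hme
    have h1 : (fun k => Dmc (D x.1) p θ l b x.2 c (p k)) ∈
        Submodule.span M (Set.range Z) := by
      rw [hZspan]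
      exact Submodule.subset_span ⟨x, hme, rfl⟩
    obtain ⟨t, ht⟩ := (Submodule.mem_span_range_iff_exists_fun M).mp h1
    refine ⟨t, fun k => ?_⟩
    have h2 := congrFun ht k
    rw [Finset.sum_apply] at h2
    rw [← h2]
    refine Finset.sum_congr rfl fun i _ => ?_
    rw [Pi.smul_apply, smul_eq_mul, hZμ i]
  choose! t ht using ht
  let ν : Fin q × (Fin s →₀ ℕ) → Option (Fin h') → Fin q × (Fin s →₀ ℕ) := fun x o => o.elim x μ
  let sc : Fin q × (Fin s →₀ ℕ) → Option (Fin h') → M := fun x o => o.elim 1 (fun i => - t x i)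
  have hνdeg : ∀ x : Fin q × (Fin s →₀ ℕ), x.2.degree = e x.1 → ∀ o,
      (ν x o).2.degree = e (ν x o).1 := by
    rintro x hme (_ | i)
    · exact hme
    · exact hμ i
  have hEp : ∀ x : Fin q × (Fin s →₀ ℕ), x.2.degree = e x.1 → ∀ k,
      Em D p θ l b c (sc x) (ν x) (p k) = 0 := by
    intro x hme k
    rw [Em_apply, Fintype.sum_option]
    show 1 * Dmc (D x.1) p θ l b x.2 c (p k) +
      ∑ i, (- t x i) * Dmc (D (μ i).1) p θ l b (μ i).2 c (p k) = 0
    rw [one_mul, ht x hme k, ← Finset.sum_add_distrib]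
    exact Finset.sum_eq_zero fun i _ => by ring
  -- images of the derivatives in the quotient
  have hΨl : ∀ x : Fin q × (Fin s →₀ ℕ), x.2.degree = e x.1 →
      π (A x.1 (x.2 + Finsupp.single l 1)) = Ψ (Pi.single x.1 (lmon p θ x.2)) := by
    intro x hme
    have := hΨ x.1 (x.2 + Finsupp.single l 1) (by simp [hme, he])
    rw [← this, lmon_add, lmon_single, hpl, hθl]
    simp
  have hΨb : ∀ x : Fin q × (Fin s →₀ ℕ), x.2.degree = e x.1 →
      π (A x.1 (x.2 + Finsupp.single b 1) - p b • A x.1 (x.2 + Finsupp.single l 1)) =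
        Ψ (Pi.single x.1 (X * lmon p θ x.2)) := by
    intro x hme
    have h1 := hΨ x.1 (x.2 + Finsupp.single b 1) (by simp [hme, he])
    rw [map_sub, map_smul, hΨl x hme]
    show π (A x.1 (x.2 + Finsupp.single b 1)) - _ = _
    rw [← h1, lmon_add, lmon_single, hθb, ← map_smul, ← map_sub, ← Pi.single_smul,
      ← Pi.single_sub]
    congr 2
    rw [smul_eq_C_mul, C_1]; ring
  -- the derivation `E` kills the line
  have hE : ∀ x : Fin q × (Fin s →₀ ℕ), x.2.degree = e x.1 → ∀ j,
      Em D p θ l b c (sc x) (ν x) (θ j) = 0 := by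
    intro x hme j
    by_contra hEθ
    have hp := hEp x hme
    have hEd := Em_Dmc (l := l) (b := b) (p := p) (θ := θ) hcomm c (sc x) (ν x) hp
    set E := Em D p θ l b c (sc x) (ν x) with hEdef
    let y₁ := ∑ o, sc x o • Ψ (Pi.single (ν x o).1 (lmon p θ (ν x o).2))
    let y₂ := ∑ o, sc x o • Ψ (Pi.single (ν x o).1 (X * lmon p θ (ν x o).2))
    let lu : Fin h → M := fun i => u i c - θ c * u i b
    let qv : Fin h → _ := fun i => lu i • y₁ - π (fun k => E (u i k))
    have key : ∀ x' : Fin q × (Fin s →₀ ℕ), x'.2.degree = e x'.1 →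
        E (θ j) • Ψ (Pi.single x'.1 (X * lmon p θ x'.2)) =
          ∑ i, χ x' j i • qv i + Dmc (D x'.1) p θ l b x'.2 j (θ c) • y₂ := by
      intro x' hm'
      -- the two expressions of `E (Dmc m' j p)`
      have h1 : (fun k => E (Dmc (D x'.1) p θ l b x'.2 j (p k))) =
          ∑ i, (E (χ x' j i) • u i + χ x' j i • (fun k => E (u i k))) := by
        funext k
        rw [hχ x' j hm' k, map_sum, Finset.sum_apply]
        refine Finset.sum_congr rfl fun i _ => ?_
        rw [Derivation.leibniz]
        simp only [Pi.add_apply, Pi.smul_apply, smul_eq_mul]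
        ring
      have hlamχ : Dmc (D x'.1) p θ l b x'.2 j (p c) - θ c * Dmc (D x'.1) p θ l b x'.2 j (p b) =
          ∑ i, χ x' j i * lu i := by
        rw [hχ x' j hm' c, hχ x' j hm' b, Finset.mul_sum, ← Finset.sum_sub_distrib]
        exact Finset.sum_congr rfl fun i _ => by simp only [lu]; ring
      have h2 : (fun k => E (Dmc (D x'.1) p θ l b x'.2 j (p k))) =
          - ∑ o, Dmc (D x'.1) p θ l b x'.2 j (sc x o) •
            (fun k => Dmc (D (ν x o).1) p θ l b (ν x o).2 c (p k)) +
          (∑ i, χ x' j i * lu i) • ∑ o, sc x o • A (ν x o).1 ((ν x o).2 + Finsupp.single l 1) +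
          (Dmc (D x'.1) p θ l b x'.2 j (θ c)) • ∑ o, sc x o •
            (A (ν x o).1 ((ν x o).2 + Finsupp.single b 1) -
              p b • A (ν x o).1 ((ν x o).2 + Finsupp.single l 1)) -
          E (θ j) • (A x'.1 (x'.2 + Finsupp.single b 1) -
            p b • A x'.1 (x'.2 + Finsupp.single l 1)) := by
        funext k
        rw [hEd x'.1 x'.2 j k, hlamχ]
        simp only [A, Pi.sub_apply, Pi.add_apply, Pi.neg_apply, Pi.smul_apply, smul_eq_mul,
          Finset.sum_apply]
      have h3 := congrArg π (h1.symm.trans h2)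
      have hu0 : ∀ i, π (u i) = 0 := fun i => (hπ0 _).mpr (huW i)
      have hm0' : ∀ o, π (fun k => Dmc (D (ν x o).1) p θ l b (ν x o).2 c (p k)) = 0 := fun o =>
        (hπ0 _).mpr (hm _ _ (hνdeg x hme o) c)
      simp only [map_add, map_sub, map_neg, map_sum, map_smul, hu0, hm0', smul_zero, zero_add,
        Finset.sum_const_zero, neg_zero] at h3
      have e1 : ∀ o, π (A (ν x o).1 ((ν x o).2 + Finsupp.single l 1)) =
          Ψ (Pi.single (ν x o).1 (lmon p θ (ν x o).2)) := fun o => hΨl _ (hνdeg x hme o)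
      have e2 : ∀ o, π (A (ν x o).1 ((ν x o).2 + Finsupp.single b 1)) -
          p b • Ψ (Pi.single (ν x o).1 (lmon p θ (ν x o).2)) =
          Ψ (Pi.single (ν x o).1 (X * lmon p θ (ν x o).2)) := by
        intro o
        rw [← hΨb _ (hνdeg x hme o), map_sub, map_smul, hΨl _ (hνdeg x hme o)]
      have e3 : π (A x'.1 (x'.2 + Finsupp.single b 1)) -
          p b • Ψ (Pi.single x'.1 (lmon p θ x'.2)) =
          Ψ (Pi.single x'.1 (X * lmon p θ x'.2)) := by
        rw [← hΨb _ hm', map_sub, map_smul, hΨl _ hm']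
      simp only [e1, e2, hΨl x' hm', e3] at h3
      have h4 : ∑ i, χ x' j i • qv i = (∑ i, χ x' j i * lu i) • y₁ -
          ∑ i, χ x' j i • π (fun k => E (u i k)) := by
        simp only [qv, smul_sub, Finset.sum_sub_distrib, smul_smul, Finset.sum_smul]
      rw [h4, h3]
      simp only [y₁, y₂]
      abel
    -- the relation of the further derivation
    have hrelE : ∑ i, cE i • qv i = - (E₀ (θ c) • y₂) := by
      have g1 : (fun k => E (E₀ (p k))) =
          ∑ i, (E (cE i) • u i + cE i • (fun k => E (u i k))) := by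
        funext k
        rw [hcE k, map_sum, Finset.sum_apply]
        refine Finset.sum_congr rfl fun i _ => ?_
        rw [Derivation.leibniz]
        simp only [Pi.add_apply, Pi.smul_apply, smul_eq_mul]
        ring
      have g2 : (fun k => E (E₀ (p k))) =
          - ∑ o, E₀ (sc x o) • (fun k => Dmc (D (ν x o).1) p θ l b (ν x o).2 c (p k)) +
          (∑ i, cE i * lu i) • ∑ o, sc x o • A (ν x o).1 ((ν x o).2 + Finsupp.single l 1) +
          E₀ (θ c) • ∑ o, sc x o •
            (A (ν x o).1 ((ν x o).2 + Finsupp.single b 1) -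
              p b • A (ν x o).1 ((ν x o).2 + Finsupp.single l 1)) := by
        funext k
        have g3 := Em_comm_ext (l := l) (b := b) (p := p) (θ := θ) (D := D) c (sc x) (ν x) E₀ (p k)
        have g4 : ∀ o, Gc (D (ν x o).1) p θ l b (ν x o).2 c E₀ (p k) = 0 := by
          intro o
          rw [Gc_apply]
          simp only [hE₀, sub_self, mul_zero]
        simp only [g4, mul_zero, Finset.sum_const_zero, sub_zero] at g3
        rw [hp k, map_zero, sub_zero] at g3
        have g5 : E₀ (p c) - θ c * E₀ (p b) = ∑ i, cE i * lu i := by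
          rw [hcE c, hcE b, Finset.mul_sum, ← Finset.sum_sub_distrib]
          exact Finset.sum_congr rfl fun i _ => by simp only [lu]; ring
        rw [g5] at g3
        show E (E₀ (p k)) = _
        rw [hEdef, g3]
        simp only [A, Pi.sub_apply, Pi.add_apply, Pi.neg_apply, Pi.smul_apply, smul_eq_mul,
          Finset.sum_apply]
      have g3 := congrArg π (g1.symm.trans g2)
      have hu0 : ∀ i, π (u i) = 0 := fun i => (hπ0 _).mpr (huW i)
      have hm0' : ∀ o, π (fun k => Dmc (D (ν x o).1) p θ l b (ν x o).2 c (p k)) = 0 := fun o =>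
        (hπ0 _).mpr (hm _ _ (hνdeg x hme o) c)
      simp only [map_add, map_sub, map_neg, map_sum, map_smul, hu0, hm0', smul_zero, zero_add,
        Finset.sum_const_zero, neg_zero] at g3
      have e1 : ∀ o, π (A (ν x o).1 ((ν x o).2 + Finsupp.single l 1)) =
          Ψ (Pi.single (ν x o).1 (lmon p θ (ν x o).2)) := fun o => hΨl _ (hνdeg x hme o)
      have e2 : ∀ o, π (A (ν x o).1 ((ν x o).2 + Finsupp.single b 1)) -
          p b • Ψ (Pi.single (ν x o).1 (lmon p θ (ν x o).2)) =
          Ψ (Pi.single (ν x o).1 (X * lmon p θ (ν x o).2)) := by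
        intro o
        rw [← hΨb _ (hνdeg x hme o), map_sub, map_smul, hΨl _ (hνdeg x hme o)]
      simp only [e1, e2] at g3
      have g4 : ∑ i, cE i • qv i = (∑ i, cE i * lu i) • y₁ -
          ∑ i, cE i • π (fun k => E (u i k)) := by
        simp only [qv, smul_sub, Finset.sum_sub_distrib, smul_smul, Finset.sum_smul]
      rw [g4, g3]
      simp only [y₁, y₂]
      abel
    -- all of `Q` is in the span of few vectors
    let V : Set ((Fin s → M) ⧸ W) := (Set.range fun f : Fin q => Ψ (Pi.single f 1)) ∪
      insert y₂ (qv '' {i | i ≠ i₀})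
    have hqV : ∀ i, qv i ∈ Submodule.span M V := by
      have hne' : ∀ i, i ≠ i₀ → qv i ∈ Submodule.span M V := fun i hi =>
        Submodule.subset_span (Or.inr (Or.inr ⟨i, hi, rfl⟩))
      intro i
      by_cases hi : i = i₀
      · subst hi
        have g1 : qv i = (cE i)⁻¹ • (- (E₀ (θ c) • y₂) -
            ∑ i' ∈ Finset.univ.erase i, cE i' • qv i') := by
          rw [← hrelE, ← Finset.add_sum_erase Finset.univ (fun i' => cE i' • qv i')
            (Finset.mem_univ i), add_sub_cancel_right, smul_smul, inv_mul_cancel₀ hi₀, one_smul]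
        rw [g1]
        refine Submodule.smul_mem _ _ (sub_mem (neg_mem (Submodule.smul_mem _ _
          (Submodule.subset_span (Or.inr (Or.inl rfl))))) (Submodule.sum_mem _ fun i' hi' =>
            Submodule.smul_mem _ _ (hne' i' (Finset.ne_of_mem_erase hi'))))
      · exact hne' i hi
    have hSp : ∀ f, ∀ g ∈ degreeLT M (e f + 1), Ψ (Pi.single f (X * g)) ∈ Submodule.span M V := by
      intro f g hg
      have hg' := degreeLT_le_lspan hnd (e f) hg
      rw [lspan] at hg'
      clear hg
      induction hg' using Submodule.span_induction with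
      | mem g hg =>
        obtain ⟨m', hm', rfl⟩ := hg
        have h1 : Ψ (Pi.single f (X * lmon p θ m')) =
            (E (θ j))⁻¹ • (E (θ j) • Ψ (Pi.single f (X * lmon p θ m'))) := by
          rw [smul_smul, inv_mul_cancel₀ hEθ, one_smul]
        rw [h1, key (f, m') hm']
        refine Submodule.smul_mem _ _ (add_mem (Submodule.sum_mem _ fun i _ =>
          Submodule.smul_mem _ _ ?_) (Submodule.smul_mem _ _ ?_))
        · exact hqV i
        · exact Submodule.subset_span (Or.inr (Or.inl rfl))
      | zero => rw [mul_zero, Pi.single_zero, map_zero]; exact zero_mem _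
      | add g g' _ _ hg hg' =>
        rw [mul_add, Pi.single_add, map_add]; exact add_mem hg hg'
      | smul s g _ hg =>
        rw [mul_smul_comm, Pi.single_smul, map_smul]; exact Submodule.smul_mem _ _ hg
    have htop : (⊤ : Submodule M ((Fin s → M) ⧸ W)) ≤ Submodule.span M V := by
      rintro y -
      obtain ⟨v, rfl⟩ := Submodule.mkQ_surjective W y
      have h1 : Ψ (G (-v)) = π v := by rw [(hG _).1, map_neg, neg_neg]
      show π v ∈ _
      rw [← h1, ← Finset.univ_sum_single (G (-v)), map_sum]
      refine Submodule.sum_mem _ fun f _ => ?_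
      have h2 := mG_mem (d := d) (a := a) (p := p) (θ := θ) (-v) f
      rw [← hGdef] at h2
      have h3 := divX_mul_X_add (G (-v) f)
      rw [← h3, Pi.single_add, map_add]
      refine add_mem ?_ ?_
      · rw [mul_comm]
        apply hSp
        rw [mem_degreeLT, degree_lt_iff_coeff_zero] at h2 ⊢
        intro n hn
        rw [coeff_divX]
        have := he f
        exact h2 (n + 1) (by omega)
      · have : C ((G (-v) f).coeff 0) = (G (-v) f).coeff 0 • (1 : M[X]) := by
          rw [smul_eq_C_mul, mul_one]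
        rw [this, Pi.single_smul, map_smul]
        exact Submodule.smul_mem _ _ (Submodule.subset_span (Or.inl ⟨f, rfl⟩))
    have h1 := Submodule.finrank_mono htop
    rw [finrank_top] at h1
    have h2 : Module.finrank M (Submodule.span M V) ≤ q + h := by
      have h3 := finrank_span_finset_le_card (R := M)
        ((Finset.univ.image fun f : Fin q => Ψ (Pi.single f 1)) ∪
          insert y₂ ((Finset.univ.erase i₀).image qv))
      have h4 : (((Finset.univ.image fun f : Fin q => Ψ (Pi.single f 1)) ∪
          insert y₂ ((Finset.univ.erase i₀).image qv) : Finset _) : Set _) = V := by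
        have h6 : ((Finset.univ.erase i₀ : Finset (Fin h)) : Set (Fin h)) = {i | i ≠ i₀} := by
          ext i
          simp
        simp only [Finset.coe_union, Finset.coe_insert, Finset.coe_image, h6, V,
          Finset.coe_univ, Set.image_univ]
      have h5 : ((Finset.univ.image fun f : Fin q => Ψ (Pi.single f 1)) ∪
          insert y₂ ((Finset.univ.erase i₀).image qv)).card ≤ q + h := by
        refine (Finset.card_union_le _ _).trans ?_
        refine Nat.add_le_add ?_ ?_
        · refine Finset.card_image_le.trans ?_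
          simp
        · refine (Finset.card_insert_le _ _).trans ?_
          have h7 : ((Finset.univ.erase i₀).image qv).card ≤ h - 1 := by
            refine Finset.card_image_le.trans ?_
            rw [Finset.card_erase_of_mem (Finset.mem_univ _), Finset.card_univ, Fintype.card_fin]
          have h8 : 0 < h := i₀.pos
          omega
      rw [Set.finrank, h4] at h3
      exact h3.trans h5
    omega
  -- conclusion
  have hfin : ∀ x : Fin q × (Fin s →₀ ℕ), x.2.degree = e x.1 →
      (Pi.single x.1 (lmon p θ x.2) : Fin q → M[X]) ∈ LinearMap.range G ⊔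
        Submodule.span M (Set.range fun i =>
          (Pi.single (μ i).1 (lmon p θ (μ i).2) : Fin q → M[X])) := by
    intro x hme
    have h1 := mrel_of_Em (l := l) (b := b) (a := a) (D := D) (d := d) (θ := θ) hD hpl hθl hθb w
      hGw c (sc x) (ν x)
      (fun o => by rw [hνdeg x hme o, he]) (hEp x hme) (hE x hme)
    set E := Em D p θ l b c (sc x) (ν x) with hEdef
    rw [← hlam, Fintype.sum_option] at h1
    have h2 : (Pi.single x.1 (lmon p θ x.2) : Fin q → M[X]) =
        G (-(lam⁻¹ • fun j => E (w j))) +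
        ∑ i, t x i • (Pi.single (μ i).1 (lmon p θ (μ i).2) : Fin q → M[X]) := by
      have h3 : G (-(lam⁻¹ • fun j => E (w j))) = lam⁻¹ • (- G (fun j => E (w j))) := by
        rw [map_neg, map_smul, smul_neg]
      have h5 : ∑ i, sc x (some i) • (Pi.single (ν x (some i)).1 (lmon p θ (ν x (some i)).2) :
          Fin q → M[X]) =
          - ∑ i, t x i • (Pi.single (μ i).1 (lmon p θ (μ i).2) : Fin q → M[X]) := by
        rw [← Finset.sum_neg_distrib]
        refine Finset.sum_congr rfl fun i _ => ?_
        show (- t x i) • _ = _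
        rw [neg_smul]
        rfl
      have h6 : sc x none • (Pi.single (ν x none).1 (lmon p θ (ν x none).2) : Fin q → M[X]) =
          Pi.single x.1 (lmon p θ x.2) := by
        show (1 : M) • _ = _
        rw [one_smul]
        rfl
      rw [h3, ← h1, h5, h6, smul_smul, inv_mul_cancel₀ hc, one_smul]
      abel
    rw [h2]
    exact add_mem (Submodule.mem_sup_left ⟨_, rfl⟩) (Submodule.mem_sup_right
      (Submodule.sum_mem _ fun i _ => Submodule.smul_mem _ _ (Submodule.subset_span ⟨i, rfl⟩)))
  have hle : LinearMap.range (inclP M d) ≤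
      LinearMap.range G ⊔ Submodule.span M (Set.range fun i =>
        (Pi.single (μ i).1 (lmon p θ (μ i).2) : Fin q → M[X])) := by
    rintro _ ⟨g, rfl⟩
    rw [← Finset.univ_sum_single (inclP M d g)]
    refine Submodule.sum_mem _ fun f _ => ?_
    have h1 : inclP M d g f ∈ degreeLT M (e f + 1) := by
      rw [he]; exact (g f).2
    have h2 := degreeLT_le_lspan hnd (e f) h1
    rw [lspan] at h2
    generalize inclP M d g f = g' at h2
    induction h2 using Submodule.span_induction with
    | mem g hg =>
      obtain ⟨m', hm', rfl⟩ := hg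
      exact hfin (f, m') hm'
    | zero => rw [Pi.single_zero]; exact zero_mem _
    | add g g' _ _ hg hg' => rw [Pi.single_add]; exact add_mem hg hg'
    | smul s g _ hg => rw [Pi.single_smul]; exact Submodule.smul_mem _ _ hg
  have hfd : FiniteDimensional M (Submodule.span M (Set.range fun i =>
      (Pi.single (μ i).1 (lmon p θ (μ i).2) : Fin q → M[X]))) :=
    FiniteDimensional.span_of_finite M (Set.finite_range _)
  have h1 := Submodule.finrank_mono hle
  rw [LinearMap.finrank_range_of_inj (inclP_injective d), finrank_PD] at h1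
  have h2 := Submodule.finrank_add_le_finrank_add_finrank (LinearMap.range G)
    (Submodule.span M (Set.range fun i =>
      (Pi.single (μ i).1 (lmon p θ (μ i).2) : Fin q → M[X])))
  have h3 : Module.finrank M (Submodule.span M (Set.range fun i =>
      (Pi.single (μ i).1 (lmon p θ (μ i).2) : Fin q → M[X]))) ≤ h' := by
    have := finrank_range_le_card (R := M) (fun i =>
      (Pi.single (μ i).1 (lmon p θ (μ i).2) : Fin q → M[X]))
    rwa [Fintype.card_fin] at this
  omega

end Gen

end Pool.Agent.Lib.MP_44a246_ntH
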