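import Mathlib
import Pool.Agent.Lib.MP_e52354_ntI.IConfig
import Pool.Agent.Lib.MP_44a246_ntT.TFull
import Pool.Agent.Lib.MP_44a246_ntH.HF2
import Pool.Agent.Lib.MP_44a246_ntH.HF3

/-!
From configurations to local bounds, with a further derivation.
-/

namespace Pool.Agent.Lib.MP_44a246_ntH

open Pool.Agent.Lib.MP_e52354_nt
open Pool.Agent.Lib.MP_e52354_ntG
open Pool.Agent.Lib.MP_e52354_ntC
open Pool.Agent.Lib.MP_e52354_ntI
open Pool.Agent.Lib.MP_e52354_ntW Pool.Agent.Lib.MP_e52354_ntP
open Pool.Agent.Lib.MP_44a246_ntT (LocalE elocal_full)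
open Polynomial

universe u w w'

section Local

variable {s q : ℕ} {d : Fin q → ℕ} {γ : Type w'} {M : Type u} [Field M] [CharZero M]
  {Y : DData (Option (MIdx s q d)) γ M} {p : Fin s → M} {l : Fin s} {r S : ℕ}

/-- from a subspace and a line for the family `B` to the vectors zeta -/
theorem hline_small {x : ℕ} (hs : q + r + 1 = s) (hS : 2 * S ≤ r + x)
    (hx : x ≤ S) (hF : ∀ j, Fval (d j) (mA (base Y) j) p = 0) (hpl : p l = 1)
    (Z₀ : Fin x → Fin s → M)
    (hli : LinearIndependent M (fun o : Option (Fin x) => o.elim p Z₀))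
    (hspan : mTT (base Y) p ≤ Submodule.span M (insert p (Set.range Z₀) ∪ mSzeta (base Y) p))
    (hbig : ∀ [DecidableEq (CC s q)] (R : Finset (CC s q × Fin s)),
      LinearIndepOn M (vecB (mBq (base Y) p l (Submodule.span M (insert p (Set.range Z₀)))))
        (R : Set _) → sav R < S - x) :
    ∃ θ : Fin s → M, θ l = 0 ∧ ∃ b, θ b = 1 ∧ ∃ N : Submodule M (Fin s → M),
      Submodule.span M (insert p (Set.range Z₀)) ≤ N ∧ Module.finrank M N ≤ S ∧
      ∀ f, ∀ m : Fin s →₀ ℕ, m.degree + 1 = d f → ∀ c,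
        zeta (mD (base Y) f) p m l c - θ c • zeta (mD (base Y) f) p m l b ∈ N := by
  classical
  have hl : p l ≠ 0 := by rw [hpl]; exact one_ne_zero
  set W₀ := Submodule.span M (insert p (Set.range Z₀)) with hW₀
  have hW₀dim : Module.finrank M W₀ = x + 1 := by
    have := finrank_insert hli
    rwa [Fintype.card_fin] at this
  have hT0 := mfinrank_T0_ge hs hF hpl Z₀ hli hspan
  rw [← hW₀] at hT0
  have hsx : 0 < S - x := by
    have := hbig ∅ (by simp)
    omega
  obtain ⟨θ, b, hθb, N', hN', hθ⟩ := exists_line_small (M := M) (mBq (base Y) p l W₀)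
    (S := S - x) (by omega) (by
      intro hdec R hR
      exact hbig R hR)
  have hθl : θ l = 0 := by
    by_contra hne
    have h1 : ∀ c, mBq (base Y) p l W₀ c b ∈ N' := by
      intro c
      have h2 := hθ c l
      have h3 : mBq (base Y) p l W₀ c l = 0 := by
        rw [mBq_apply]
        have : mzetaC (base Y) p c l l = 0 := by
          unfold mzetaC
          rw [sub_self]
        rw [this, map_zero]
      rw [h3, zero_sub] at h2
      have h4 := Submodule.smul_mem N' (-(θ l)⁻¹) h2
      rwa [smul_neg, neg_smul, neg_neg, smul_smul, inv_mul_cancel₀ hne, one_smul] at h4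
    have h2 : T0 M (mBq (base Y) p l W₀) ≤ N' := by
      apply T0_le
      intro c j
      have h3 := add_mem (hθ c j) (Submodule.smul_mem N' (θ j) (h1 c))
      rwa [sub_add_cancel] at h3
    have h3 := Submodule.finrank_mono h2
    omega
  refine ⟨θ, hθl, b, hθb, N'.comap W₀.mkQ, ?_, ?_, ?_⟩
  · intro z hz
    show W₀.mkQ z ∈ N'
    have : W₀.mkQ z = 0 := by
      rw [Submodule.mkQ_apply, Submodule.Quotient.mk_eq_zero]; exact hz
    rw [this]
    exact zero_mem _
  · let f : N'.comap W₀.mkQ →ₗ[M] N' :=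
      { toFun := fun z => ⟨W₀.mkQ z.1, z.2⟩
        map_add' := fun y z => by
          apply Subtype.ext
          show W₀.mkQ (y.1 + z.1) = W₀.mkQ y.1 + W₀.mkQ z.1
          rw [map_add]
        map_smul' := fun a z => by
          apply Subtype.ext
          show W₀.mkQ (a • z.1) = a • W₀.mkQ z.1
          rw [map_smul] }
    have h3 := LinearMap.finrank_range_add_finrank_ker f
    have h4 : Module.finrank M (LinearMap.range f) ≤ Module.finrank M N' :=
      Submodule.finrank_le _
    have h5 : Module.finrank M (LinearMap.ker f) ≤ Module.finrank M W₀ := by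
      let g : LinearMap.ker f →ₗ[M] W₀ :=
        { toFun := fun z => ⟨z.1.1, by
            have h6 : W₀.mkQ z.1.1 = 0 := congrArg Subtype.val z.2
            rwa [Submodule.mkQ_apply, Submodule.Quotient.mk_eq_zero] at h6⟩
          map_add' := fun _ _ => rfl
          map_smul' := fun _ _ => rfl }
      refine LinearMap.finrank_le_finrank_of_injective (f := g) ?_
      intro z z' h
      apply Subtype.ext
      apply Subtype.ext
      exact congrArg (fun w => w.1) h
    omega
  · intro f m hm c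
    have h1 := hθ (mind f m) c
    rw [mBq_apply, mBq_apply, mzetaC_ind hm, mzetaC_ind hm, ← map_smul, ← map_sub] at h1
    exact h1

/-- many vectors xi -/
theorem hlocal_many {n : ℕ} (hs : q + r + 1 = s) (hS : S + 1 ≤ r)
    (hd : ∑ j, d j + S = 2 * r + q + 1) (hn : S + 1 ≤ n)
    (hF : ∀ j, Fval (d j) (mA (base Y) j) p = 0) (hl : p l ≠ 0)
    (Z : Fin n → Fin s → M) (hZ : ∀ i, Z i ∈ hS1 Y p)
    (hli : LinearIndependent M (fun o : Option (Fin n) => o.elim p Z)) :
    ∃ J : M, J ≠ 0 ∧ LocalBound Y p (2 * s) 1 J := by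
  classical
  let Z₀ : Fin S → Fin s → M := fun i => Z (Fin.castLE (by omega) i)
  let z₀ : Fin s → M := Z ⟨S, by omega⟩
  have hwt : ∀ i, WT Y p 2 1 (Z i) := by
    intro i
    exact wt_S1 (hZ i)
  refine hfinish_direct_blk (κ := Fin S) (m := r - S - 1) (E := 1) (w₀ := 1) hs
    (by rw [Fintype.card_fin]; omega) hF hl Z₀ (fun i => mgrad_S1 hF (hZ _))
    one_ne_zero (Blk.fam (wz := fun _ => 1) fun i => hwt _)
    (z₀ := z₀) (mgrad_S1 hF (hZ _)) (hwt _) ?_ ?_
  · let f : Fin S ⊕ Unit → Fin n := Sum.elim (fun i => Fin.castLE (by omega) i)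
      (fun _ => ⟨S, by omega⟩)
    have hf : Function.Injective f := by
      rintro (i | i) (j | j) h
      · have h1 := congrArg Fin.val h
        simp only [f, Sum.elim_inl, Fin.val_castLE] at h1
        rw [Fin.ext h1]
      · have h1 := congrArg Fin.val h
        simp only [f, Sum.elim_inl, Sum.elim_inr, Fin.val_castLE] at h1
        have := i.2
        omega
      · have h1 := congrArg Fin.val h
        simp only [f, Sum.elim_inl, Sum.elim_inr, Fin.val_castLE] at h1
        have := j.2
        omega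
      · rfl
    have h1 := hli.comp (Option.map f) (Option.map_injective hf)
    convert h1 using 1
    funext o
    rcases o with (_ | (i | i)) <;> rfl
  · rw [Finset.sum_const, Finset.card_univ, Fintype.card_fin, smul_eq_mul, mul_one]
    omega

/-- The local bound in the borderline case: a subspace and a line give a local bound or a line of
zeros. -/
theorem hlocal_line_small (hs : q + r + 1 = s) (hS : 2 * S ≤ r + 1) (hd1 : ∀ j, 1 ≤ d j)
    (hd : ∑ j, d j + S = 2 * r + q + 1)
    (hF : ∀ j, Fval (d j) (mA (base Y) j) p = 0) (hpl : p l = 1) (hEp : Ev Y p ≠ 0)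
    {θ : Fin s → M} (hθl : θ l = 0) {b : Fin s} (hθb : θ b = 1)
    (N : Submodule M (Fin s → M)) (hpN : p ∈ N) (hN : Module.finrank M N ≤ S)
    (hξ : ∀ z ∈ hS1 Y p, z ∈ N)
    (hm : ∀ f, ∀ m : Fin s →₀ ℕ, m.degree + 1 = d f → ∀ c,
        zeta (mD (base Y) f) p m l c - θ c • zeta (mD (base Y) f) p m l b ∈ N) :
    (∃ J : M, J ≠ 0 ∧ LocalBound Y p (2 * s * (∑ j, d j) + r) 1 J) ∨
      MOnLine d (mA (base Y)) p := by
  classical
  have hl : p l ≠ 0 := by rw [hpl]; exact one_ne_zero
  have hEN : Ev Y p ∈ N := hξ _ (Set.mem_insert _ _)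
  have hξ' : ∀ z ∈ mSxi (base Y) p, z ∈ N := fun z hz => hξ _ (Set.mem_insert_of_mem _ hz)
  have he : ∀ j, (d j - 1) + 1 = d j := fun j => Nat.sub_add_cancel (hd1 j)
  have hE0 : ∃ k, Y.D none (p k) ≠ 0 := by
    by_contra hcon
    push Not at hcon
    exact hEp (funext hcon)
  have h1 := hcontact_gen (e := fun j => d j - 1) (S := S) (a := mA (base Y)) (D := mD (base Y))
    hs hS he hd (by
      intro i j I J y
      simp only [mD]
      split_ifs
      · exact (base Y).hcomm _ _ _
      · simp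
      · simp
      · simp) (m_hD (base Y)) hF hpl hθl hθb N hpN hN
    (fun f m hme j => by rw [Dmc_p hpl]; exact hm f m (by rw [hme, he]) j)
    (fun i j => hξ' _ ⟨i, j, rfl⟩) (Y.D none) (fun i I y => E_mD i I y) hE0 hEN
  have h2 : ∀ f, _ := fun f => lineP_pure (h1 f)
  by_cases hc : ∀ f, (lineP (d f) (mA (base Y) f) p θ).coeff (d f) = 0
  · right
    refine lineP_zero_onLine hpl hθl hθb fun f => ?_
    rw [h2 f, hc f, C_0, zero_mul]
  · left
    push Not at hc
    obtain ⟨f₀, hf₀⟩ := hc
    obtain ⟨E', J, hJ0, hJ⟩ := elocal_full (X := base Y) (EE := {Y.D none}) (τ := 1)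
      (e := fun j => d j - 1) hs hS he hd hF hpl hθl hθb (h2 f₀) hf₀ N hpN hN hξ'
      (by
        rintro E rfl j I
        exact E_mA j I)
      (by
        rintro E rfl
        exact hEN)
      (fun _ => Ev Y p)
      (fun _ => Submodule.subset_span (Set.mem_insert_of_mem _ ⟨Y.D none, rfl, rfl⟩))
      (fun _ => Ev_one hpl)
      (by
        rw [linearIndependent_unique_iff]
        exact hEp) hm
    have hJ' : LocalBound Y p (2 * s * (∑ j, d j) + r) (E' + 1) J := by
      intro O δ hval hδ hDO ha hb l' hl' hp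
      exact hJ O δ l' (adm_base ⟨hval, hδ, hDO, ha, hb, hl', hp⟩) (by
        rintro E rfl
        exact hDO none)
    exact lower_one hl ⟨J, hJ0, hJ'⟩

/-- a configuration with enough savings and few elements gives a local bound -/
theorem hlocal_of_small [DecidableEq (CC s q)] {x : ℕ} (hs : q + r + 1 = s)
    (hd1 : ∀ j, 1 ≤ d j) (hd : ∑ j, d j + S = 2 * r + q + 1)
    (hF : ∀ j, Fval (d j) (mA (base Y) j) p = 0) (hl : p l ≠ 0)
    (Z₀ : Fin x → Fin s → M) (hZ₀ : ∀ i, Z₀ i ∈ hS1 Y p)
    (hli : LinearIndependent M (fun o : Option (Fin x) => o.elim p Z₀))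
    (hspan : mTT (base Y) p ≤ Submodule.span M (insert p (Set.range Z₀) ∪ mSzeta (base Y) p))
    (R : Finset (CC s q × Fin s))
    (hR : LinearIndepOn M
      (vecB (mBq (base Y) p l (Submodule.span M (insert p (Set.range Z₀))))) (R : Set _))
    (hsav : S ≤ x + sav R) (hcard : x + R.card + 1 ≤ r) (hNB : NB Y p)
    (hOff : ¬ MOnLine d (mA (base Y)) p) : False := by
  classical
  obtain ⟨α, hα, hblk⟩ := mblkR (X := base Y) hl R
  have hfam : Blk Y p Z₀ 1 (∑ _i : Fin x, 1) := by
    exact Blk.fam fun i => wt_S1 (hZ₀ i)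
  have hli' := li_of_quot_fam hli rfl hR
  have h3 := sav_add R
  have hfin := hfinish_line_blk (κ := Fin x ⊕ R) (m := r - 1 - (x + R.card))
    (E := x + sav R - S) hs
    (by rw [Fintype.card_sum, Fintype.card_fin, Fintype.card_coe]; omega) hF hl
    (Sum.elim Z₀ (fun y : R => mzetaC (base Y) p y.1.1 l y.1.2)) (by
      rintro (i | i)
      · exact mgrad_S1 hF (hZ₀ i)
      · exact mgrad_zetaC hd1 hF _ _ _)
    (mul_ne_zero one_ne_zero hα) (hfam.sum (blk_up hblk)) hli'
    (hspan.trans (Submodule.span_mono (Set.union_subset_union_left _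
      (Set.insert_subset_insert (by rw [Set.Sum.elim_range]; exact Set.subset_union_left)))))
    (by
      rw [Finset.sum_const, Finset.card_univ, Fintype.card_fin, smul_eq_mul, mul_one]
      omega)
  rcases hfin with ⟨J, hJ0, hJ⟩ | hfin
  · exact hNB _ _ J one_pos hJ0 hJ
  · exact hOff hfin

end Local

end Pool.Agent.Lib.MP_44a246_ntH
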