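import Mathlib
import Pool.Agent.Lib.MP_44a246_ntH.HF4

/-!
The borderline case with a further derivation: the structure of the configurations.
-/

namespace Pool.Agent.Lib.MP_44a246_ntH

open Pool.Agent.Lib.MP_e52354_nt
open Pool.Agent.Lib.MP_e52354_ntG
open Pool.Agent.Lib.MP_e52354_ntC
open Pool.Agent.Lib.MP_e52354_ntI
open Pool.Agent.Lib.MP_e52354_ntW Pool.Agent.Lib.MP_e52354_ntP

universe u w w'

section Two

variable {s : ℕ} {ι : Type w} {γ : Type w'} [DecidableEq ι] {M : Type u} [Field M]
  {Y : DData (Option ι) γ M} {p : Fin s → M} {l : Fin s}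

/-- the span of the point and its derivative -/
abbrev W2 (Y : DData (Option ι) γ M) (p : Fin s → M) : Submodule M (Fin s → M) :=
  Submodule.span M {p, Ev Y p}

theorem mem_W2 {z : Fin s → M} : z ∈ W2 Y p ↔ ∃ t t' : M, z = t • p + t' • Ev Y p := by
  rw [W2, Submodule.mem_span_pair]
  constructor
  · rintro ⟨a, b, h⟩; exact ⟨a, b, h.symm⟩
  · rintro ⟨a, b, h⟩; exact ⟨a, b, h.symm⟩

theorem p_mem_W2 : p ∈ W2 Y p := Submodule.subset_span (Set.mem_insert _ _)

theorem Ev_mem_W2 : Ev Y p ∈ W2 Y p :=
  Submodule.subset_span (Set.mem_insert_of_mem _ (Set.mem_singleton _))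

theorem pEv_li (hpl : p l = 1) (hEp : Ev Y p ≠ 0) {t t' : M} (h : t • p + t' • Ev Y p = 0) :
    t = 0 ∧ t' = 0 := by
  have h1 := congrFun h l
  simp only [Pi.add_apply, Pi.smul_apply, smul_eq_mul, hpl, Ev_one hpl, mul_one, mul_zero,
    add_zero, Pi.zero_apply] at h1
  refine ⟨h1, ?_⟩
  rw [h1, zero_smul, zero_add] at h
  exact (smul_eq_zero.mp h).resolve_right hEp

/-- independence modulo the point and its derivative -/
theorem li_total (hpl : p l = 1) (hEp : Ev Y p ≠ 0) {κ : Type*} [Fintype κ]
    {Z : κ → Fin s → M} (hZ : LinearIndependent M (fun x => (W2 Y p).mkQ (Z x))) :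
    LinearIndependent M (fun o : Option (κ ⊕ Unit) => o.elim p (Sum.elim Z fun _ => Ev Y p)) := by
  classical
  rw [Fintype.linearIndependent_iff] at hZ ⊢
  intro g hg
  rw [Fintype.sum_option, Fintype.sum_sum_type] at hg
  simp only [Option.elim_none, Option.elim_some, Sum.elim_inl, Sum.elim_inr,
    Finset.univ_unique, Finset.sum_singleton] at hg
  have hp0 : (W2 Y p).mkQ p = 0 := by
    rw [Submodule.mkQ_apply, Submodule.Quotient.mk_eq_zero]; exact p_mem_W2
  have hE0 : (W2 Y p).mkQ (Ev Y p) = 0 := by
    rw [Submodule.mkQ_apply, Submodule.Quotient.mk_eq_zero]; exact Ev_mem_W2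
  have h1 := congrArg (W2 Y p).mkQ hg
  rw [map_add, map_add, map_smul, map_smul, hp0, hE0, smul_zero, smul_zero, zero_add, add_zero,
    map_sum, map_zero] at h1
  have h2 := hZ (fun i => g (some (Sum.inl i))) (by
    rw [← h1]
    exact Finset.sum_congr rfl fun i _ => by rw [map_smul])
  have h3 : g none • p + g (some (Sum.inr default)) • Ev Y p = 0 := by
    rw [← hg]
    have : ∑ i, g (some (Sum.inl i)) • Z i = 0 :=
      Finset.sum_eq_zero fun i _ => by rw [h2 i, zero_smul]
    rw [this, zero_add]
  have h4 := pEv_li hpl hEp h3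
  rintro (_ | (i | i))
  · exact h4.1
  · exact h2 i
  · exact h4.2

theorem finrank_W2 (hpl : p l = 1) (hEp : Ev Y p ≠ 0) : Module.finrank M (W2 Y p) = 2 := by
  have h1 : LinearIndependent M ![p, Ev Y p] := by
    rw [LinearIndependent.pair_iff]
    intro t t' h
    exact pEv_li hpl hEp h
  have h2 := finrank_span_eq_card h1
  rw [Fintype.card_fin] at h2
  have h3 : Set.range ![p, Ev Y p] = {p, Ev Y p} := by
    simp [Set.pair_comm]
  rw [h3] at h2
  exact h2

end Two

section Border

variable {s q : ℕ} {d : Fin q → ℕ} {γ : Type w'} {M : Type u} [Field M] [CharZero M]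
  {Y : DData (Option (MIdx s q d)) γ M} {p : Fin s → M} {l : Fin s} {r k : ℕ}

/-- the configurations in the borderline case -/
theorem hborder_config [inst : DecidableEq (CC s q)] (hs : q + r + 1 = s) (hk : 1 ≤ k)
    (hr : r = 2 * k + 1) (hd1 : ∀ j, 1 ≤ d j) (hd : ∑ j, d j + (k + 1) = 2 * r + q + 1)
    (hF : ∀ j, Fval (d j) (mA (base Y) j) p = 0) (hpl : p l = 1) (hEp : Ev Y p ≠ 0)
    (hNB : NB Y p) (hOff : ¬ MOnLine d (mA (base Y)) p) :
    (∀ z ∈ mSxi (base Y) p, z ∈ W2 Y p) ∧
    (∃ R : Finset (CC s q × Fin s),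
      LinearIndepOn M (vecB (mBq (base Y) p l (W2 Y p))) (R : Set _) ∧ k ≤ sav R) ∧
    (∀ R : Finset (CC s q × Fin s),
      LinearIndepOn M (vecB (mBq (base Y) p l (W2 Y p))) (R : Set _) →
        k ≤ sav R → 2 * k ≤ R.card) := by
  classical
  have hl : p l ≠ 0 := by rw [hpl]; exact one_ne_zero
  have hp0 : p ≠ 0 := by
    rintro rfl; exact hl rfl
  obtain ⟨n, Z, hZ, hli, hspan⟩ := exists_fam_single (M := M) hp0 (hS1 Y p)
  have hTT : mTT (base Y) p ≤ Submodule.span M (insert p (Set.range Z) ∪ mSzeta (base Y) p) := by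
    refine (mker_le_span hl).trans ?_
    rw [Submodule.span_le]
    rintro z (hz | hz)
    · exact Submodule.subset_span (Or.inr hz)
    · exact Submodule.span_mono Set.subset_union_left (hspan z (Set.mem_insert_of_mem _ hz))
  rcases Nat.lt_or_ge (k + 1) n with hn | hn
  · exfalso
    obtain ⟨J, hJ0, hJ⟩ := hlocal_many (S := k + 1) hs (by omega) hd hn hF hl Z hZ hli
    exact hNB _ _ J one_pos hJ0 hJ
  -- the number of vectors of weight one
  have hn1 : 1 ≤ n := by
    rcases Nat.eq_zero_or_pos n with hn0 | hn0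
    · exfalso
      subst hn0
      have h1 := hspan _ (Set.mem_insert _ _)
      rw [Set.range_eq_empty, insert_empty_eq, Submodule.mem_span_singleton] at h1
      obtain ⟨t, ht⟩ := h1
      have h2 := pEv_li (Y := Y) hpl hEp (t := -t) (t' := 1) (by rw [← ht]; module)
      exact one_ne_zero h2.2
    · exact hn0
  -- there is a configuration with large savings
  have hex : ∃ R : Finset (CC s q × Fin s),
      LinearIndepOn M (vecB (mBq (base Y) p l
        (Submodule.span M (insert p (Set.range Z))))) (R : Set _) ∧ (k + 1) - n ≤ sav R := by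
    by_contra hcon
    push Not at hcon
    obtain ⟨θ, hθl, b, hθb, N, hWN, hN, hm⟩ := hline_small (S := k + 1) hs (by omega) hn hF hpl Z
      hli hTT (by
        intro hdec R hR
        obtain rfl : hdec = inst := Subsingleton.elim _ _
        exact hcon R hR)
    have hpN : p ∈ N := hWN (Submodule.subset_span (Set.mem_insert _ _))
    have hξ : ∀ z ∈ hS1 Y p, z ∈ N := fun z hz => hWN (hspan z hz)
    rcases hlocal_line_small hs (by omega) hd1 hd hF hpl hEp hθl hθb N hpN hN hξ hm with
      ⟨J, hJ0, hJ⟩ | h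
    · exact hNB _ _ J one_pos hJ0 hJ
    · exact hOff h
  rcases Nat.lt_or_ge 1 n with hn2 | hn2
  · exfalso
    obtain ⟨R, hR, hsav, hcard⟩ := exists_small_config hex
    exact hlocal_of_small (S := k + 1) (x := n) hs hd1 hd hF hl Z hZ hli hTT R hR (by omega)
      (by omega) hNB hOff
  · obtain rfl : n = 1 := by omega
    have hW : Submodule.span M (insert p (Set.range Z)) = W2 Y p := by
      have hZr : Set.range Z = {Z 0} := by
        ext z
        simp only [Set.mem_range, Set.mem_singleton_iff]
        constructor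
        · rintro ⟨i, rfl⟩
          rw [Subsingleton.elim i 0]
        · rintro rfl
          exact ⟨0, rfl⟩
      have h1 := hspan _ (Set.mem_insert _ _)
      rw [hZr] at h1 ⊢
      apply le_antisymm
      · rw [Submodule.span_le]
        rintro z (rfl | rfl)
        · exact p_mem_W2
        · rw [Submodule.mem_span_pair] at h1
          obtain ⟨t, t', ht⟩ := h1
          have ht'0 : t' ≠ 0 := by
            rintro rfl
            have h2 := pEv_li (Y := Y) hpl hEp (t := -t) (t' := 1) (by rw [← ht]; module)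
            exact one_ne_zero h2.2
          have h2 : Z 0 = t'⁻¹ • Ev Y p - (t'⁻¹ * t) • p := by
            rw [← ht, smul_add, smul_smul, smul_smul, inv_mul_cancel₀ ht'0, one_smul]
            module
          rw [h2]
          exact sub_mem (Submodule.smul_mem _ _ Ev_mem_W2) (Submodule.smul_mem _ _ p_mem_W2)
      · rw [Submodule.span_le]
        rintro z (rfl | rfl)
        · exact Submodule.subset_span (Set.mem_insert _ _)
        · exact h1
    rw [hW] at hex
    refine ⟨fun z hz => by
      have := hspan z (Set.mem_insert_of_mem _ hz); rwa [hW] at this, by simpa using hex, ?_⟩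
    intro R hR hsav
    by_contra hcon
    push Not at hcon
    refine hlocal_of_small (S := k + 1) (x := 1) hs hd1 hd hF hl Z hZ hli hTT R ?_ (by omega)
      (by omega) hNB hOff
    rw [hW]
    exact hR

end Border

end Pool.Agent.Lib.MP_44a246_ntH
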