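import Mathlib
import Pool.Agent.Lib.MP_e52354_ntP.Plc
import Pool.Agent.Lib.MP_44a246_ntH.HF1

/-!
The weights of scalars, and the volumes of families of tangent vectors.
-/

namespace Pool.Agent.Lib.MP_44a246_ntH

open Pool.Agent.Lib.MP_e52354_nt Pool.Agent.Lib.MP_e52354_ntG Pool.Agent.Lib.MP_e52354_ntC
open Pool.Agent.Lib.MP_e52354_ntW Pool.Agent.Lib.MP_e52354_ntP Pool.Agent.Lib.MP_e52354_ntI

universe u w w'

section Gam

variable {ι : Type w} {γ : Type w'} [DecidableEq ι] {M : Type u} [Field M] {X : DData ι γ M}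
  {s : ℕ} {p : Fin s → M}

theorem exists_adm_of_adm0 (hp : p ≠ 0) {O : Subring M} {δ : M} (hA : Adm0 X O δ) :
    ∃ l, Adm X p O δ l := by
  obtain ⟨l, hl, h4⟩ := exists_max_val O hA.hval p (by
    by_contra hcon
    push Not at hcon
    exact hp (funext hcon))
  exact ⟨l, ⟨hA.hval, hA.hδ, hA.hDO, hA.ha, hA.hb, hl, h4⟩⟩

theorem Gam_zero (hp : p ≠ 0) {y : M} (h : y ∈ Gam X p 0) : y ∈ KK X :=
  KK_of_Gam (p := p) (w := 0) hp fun l _ => by rw [pow_zero, mul_one]; exact h

/-- common denominators for finitely many weights -/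
theorem common_Gam {τ : Type*} [Fintype τ] (w : ℕ) (P : τ → Prop) (f : τ → M)
    (h : ∀ t, P t → f t ∈ Gam X p w) :
    ∃ β ∈ Bd X, β ≠ 0 ∧ ∃ c, ∀ t, P t → WS X p c w (β * f t) := by
  classical
  have h' : ∀ t, ∃ β ∈ Bd X, β ≠ 0 ∧ ∃ c, P t → WS X p c w (β * f t) := by
    intro t
    by_cases ht : P t
    · obtain ⟨β, h1, h2, c, h3⟩ := h t ht
      exact ⟨β, h1, h2, c, fun _ => h3⟩
    · exact ⟨1, one_mem _, one_ne_zero, 0, fun h => absurd h ht⟩
  choose β h1 h2 c h3 using h'
  choose b hb using fun t => ws_of_Bd (p := p)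
    (show (∏ k ∈ Finset.univ.erase t, β k) ∈ Bd X from prod_mem fun k _ => h1 k)
  refine ⟨∏ t, β t, prod_mem fun t _ => h1 t, Finset.prod_ne_zero_iff.mpr fun t _ => h2 t,
    ∑ t, (b t + c t), fun t ht => ?_⟩
  have h4 := (hb t).mul (h3 t ht)
  rw [zero_add] at h4
  have h5 := h4.mono_c (∑ k ∈ Finset.univ.erase t, (b k + c k))
  rw [Finset.add_sum_erase Finset.univ (fun k => b k + c k) (Finset.mem_univ t)] at h5
  have h6 : (∏ t, β t) * f t = (∏ k ∈ Finset.univ.erase t, β k) * (β t * f t) := by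
    rw [← Finset.mul_prod_erase Finset.univ β (Finset.mem_univ t)]; ring
  rw [h6]
  exact h5

/-- division by a power of the largest coordinate -/
theorem Gam_down (hp : p ≠ 0) {w v : ℕ} {y : M}
    (h : ∀ l, p l ≠ 0 → y * p l ^ w ∈ Gam X p (w + v)) : y ∈ Gam X p v := by
  obtain ⟨β, h1, h2, c, h3⟩ := common_Gam (w + v) (fun l => p l ≠ 0) (fun l => y * p l ^ w) h
  refine ⟨β, h1, h2, c, fun O δ l hA => ?_⟩
  obtain ⟨y', h4, h5⟩ := h3 l hA.hl O δ l hA
  refine ⟨y', h4, ?_⟩
  apply mul_right_cancel₀ (pow_ne_zero w hA.hl)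
  rw [mul_assoc, h5, pow_add]
  ring

/-- the scalars of negative weight vanish -/
theorem Gam_nb (hp : p ≠ 0) (hNB : NB X p) {w : ℕ} {y : M}
    (h : ∀ l, p l ≠ 0 → y * p l ^ (w + 1) ∈ Gam X p w) : y = 0 := by
  by_contra hy
  obtain ⟨β, h1, h2, c, h3⟩ := common_Gam w (fun l => p l ≠ 0) (fun l => y * p l ^ (w + 1)) h
  refine hNB c 1 (β * y) one_pos (mul_ne_zero h2 hy) ?_
  intro O δ hval hδ hDO ha hb l hl hpl
  obtain ⟨y', h4, h5⟩ := h3 l hl O δ l ⟨hval, hδ, hDO, ha, hb, hl, hpl⟩
  have h6 : β * y * p l ^ 1 = y' := by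
    apply mul_left_cancel₀ (pow_ne_zero w hl)
    rw [← h5]
    ring
  rw [h6]
  exact h4

/-- the weights form a filtration as in the abstract situation -/
theorem Wts_Gam (hp : p ≠ 0) (hNB : NB X p) : Wts (KK X) p (Gam X p) where
  alg := fun _ h => KK_algClosed h
  KG := fun _ h => Gam_of_KK h
  GK := fun _ h => Gam_zero hp h
  mul := fun _ _ _ _ hy hz => Gam_mul hy hz
  coord := fun i => Gam_coord i
  down := fun _ _ _ h => Gam_down hp h
  nb := fun _ _ h => Gam_nb hp hNB h

end Gam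

section Det

variable {M : Type u} [Field M] {σ τ : Type*} [Fintype τ] [DecidableEq τ]

theorem rowdet_update_zero (e : τ ≃ σ) (R : τ → σ → M) (i : τ) :
    rowdet e (Function.update R i 0) = 0 := by
  unfold rowdet
  refine Matrix.det_eq_zero_of_row_eq_zero i fun j => ?_
  rw [Matrix.of_apply, Function.update_self]
  rfl

theorem rowdet_update_sum (e : τ ≃ σ) (R : τ → σ → M) (i : τ) {ρ : Type*} (S : Finset ρ)
    (ℓ : ρ → M) (y : ρ → σ → M) : rowdet e (Function.update R i (∑ t ∈ S, ℓ t • y t)) =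
      ∑ t ∈ S, ℓ t * rowdet e (Function.update R i (y t)) := by
  classical
  induction S using Finset.induction_on with
  | empty => rw [Finset.sum_empty, Finset.sum_empty, rowdet_update_zero]
  | insert t S ht ih =>
    rw [Finset.sum_insert ht, Finset.sum_insert ht]
    have h1 : ℓ t • y t + ∑ x ∈ S, ℓ x • y x = ℓ t • y t - (-1 : M) • ∑ x ∈ S, ℓ x • y x := by
      rw [neg_smul, one_smul, sub_neg_eq_add]
    rw [h1, rowdet_update_comb, ih]
    ring

end Det

section Vol

variable {s q : ℕ} {d : Fin q → ℕ} {γ : Type w'} {M : Type u} [Field M]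
  {Y : DData (Option (MIdx s q d)) γ M} {p : Fin s → M} {l : Fin s}

/-- the weight of the volume of a block and a further vector -/
theorem hvol_gam {κ : Type} [Fintype κ] [DecidableEq κ]
    (e₀ : Fin q ⊕ Option (κ ⊕ Unit) ≃ Fin s)
    (hF : ∀ j, Fval (d j) (mA (base Y) j) p = 0) (hpl : p l = 1) {Z : κ → Fin s → M}
    (hgZ : ∀ i j, mgrad (base Y) p j ⬝ᵥ Z i = 0) {α : M} (hα : α ≠ 0) {W : ℕ}
    (hZ : Blk Y p Z α W) {ρ : Type} [Fintype ρ] (ℓ : ρ → M) (hℓ : ∀ t, ℓ t ∈ KK Y)
    (y : ρ → Fin s → M) {w v : ℕ} (hy : ∀ t, WT Y p 2 w (y t))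
    (hgz : ∀ j, mgrad (base Y) p j ⬝ᵥ (∑ t, ℓ t • y t) = 0)
    (hd : ∑ j, d j + v = q + 1 + W + w) :
    rowdet e₀ (mvolRows p (mbaseV (base Y) p l) (Sum.elim Z fun _ => ∑ t, ℓ t • y t)) / α ∈
      Gam Y p v := by
  classical
  have hl₀ : p l ≠ 0 := by rw [hpl]; exact one_ne_zero
  have hp0 : p ≠ 0 := by rintro rfl; exact hl₀ rfl
  obtain ⟨J, -, hJ⟩ := det_many (Z := Sum.elim Z fun _ => ∑ t, ℓ t • y t) e₀ (mgrad_li hF hl₀)
    (fun j => mgrad_p hF j) (by
      rintro i (j | j)
      · exact hgZ j i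
      · exact hgz i)
  have hJ' : ∀ v, rowdet e₀ (mvolRows p v (Sum.elim Z fun _ => ∑ t, ℓ t • y t)) =
      J * (Matrix.of fun j i => mgrad (base Y) p i ⬝ᵥ v j).det :=
    fun v => hJ v
  have h0 : rowdet e₀ (mvolRows p (mbaseV (base Y) p l) (Sum.elim Z fun _ => ∑ t, ℓ t • y t)) =
      (-1) ^ q * J := by
    rw [hJ', mdet_base hF, hpl, one_pow, mul_one, mul_comm]
  have hJG : J / α ∈ Gam Y p v := by
    refine Gam_down (w := ∑ j, d j) hp0 fun l' hl' => ?_
    obtain ⟨n, c, Z', wc, wzz, hc, hz', hw, hdet⟩ := hZ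
    let v' : Fin q → Fin s → M := mbaseV (base Y) p l'
    let f : κ ⊕ (Fin q ⊕ Option Unit) ≃ Fin q ⊕ Option (κ ⊕ Unit) :=
      { toFun := Sum.elim (fun i => Sum.inr (some (Sum.inl i)))
          (Sum.elim (fun i => Sum.inl i) (fun o => o.elim (Sum.inr none)
            (fun _ => Sum.inr (some (Sum.inr ())))))
        invFun := Sum.elim (fun i => Sum.inr (Sum.inl i))
          (fun o => o.elim (Sum.inr (Sum.inr none)) (Sum.elim Sum.inl
            (fun _ => Sum.inr (Sum.inr (some ())))))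
        left_inv := by rintro (i | (i | (_ | i))) <;> rfl
        right_inv := by rintro (i | (_ | (i | i))) <;> rfl }
    have h3 : ∀ z : Fin s → M, rowdet e₀ (mvolRows p v' (Sum.elim Z fun _ => z)) =
        rowdet (f.trans e₀) (Sum.elim Z (Sum.elim v'
          (fun o : Option Unit => o.elim p (fun _ => z)))) := by
      intro z
      rw [← rowdet_reindex f e₀ (mvolRows p v' (Sum.elim Z fun _ => z))]
      congr 1
      funext i
      rcases i with i | (i | (_ | i)) <;> rfl
    have h2 : J * p l' ^ (∑ j, d j) = (-1) ^ q * rowdet e₀ (mvolRows p v'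
        (Sum.elim Z fun _ => ∑ t, ℓ t • y t)) := by
      rw [hJ', mdet_base hF l']
      have : ((-1 : M) ^ q) * (-1) ^ q = 1 := by
        rw [← mul_pow]; simp
      linear_combination (-(J * p l' ^ (∑ j, d j))) * this
    -- linearity in the last row
    have h4 : rowdet e₀ (mvolRows p v' (Sum.elim Z fun _ => ∑ t, ℓ t • y t)) =
        ∑ t, ℓ t * rowdet e₀ (mvolRows p v' (Sum.elim Z fun _ => y t)) := by
      have h5 : ∀ z : Fin s → M, mvolRows p v' (Sum.elim Z fun _ => z) =
          Function.update (mvolRows p v' (Sum.elim Z fun _ => 0)) (Sum.inr (some (Sum.inr ()))) z := by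
        intro z
        funext i
        rcases i with i | (_ | (i | i))
        · rw [Function.update_of_ne (by simp)]; rfl
        · rw [Function.update_of_ne (by simp)]; rfl
        · rw [Function.update_of_ne (by simp)]; rfl
        · rw [Function.update_self]; rfl
      rw [h5, rowdet_update_sum]
      exact Finset.sum_congr rfl fun t _ => by rw [← h5]
    have h6 : J / α * p l' ^ (∑ j, d j) = (-1) ^ q * ∑ t, ℓ t * ∑ j, c j * rowdet (f.trans e₀)
        (Sum.elim (Z' j) (Sum.elim v' (fun o : Option Unit => o.elim p (fun _ => y t)))) := by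
      rw [div_mul_eq_mul_div, h2, h4, mul_div_assoc]
      congr 1
      rw [Finset.sum_div]
      refine Finset.sum_congr rfl fun t _ => ?_
      rw [h3, hdet]
      field_simp
    rw [h6]
    have h7 : ∑ t, ℓ t * ∑ j, c j * rowdet (f.trans e₀)
        (Sum.elim (Z' j) (Sum.elim v' (fun o : Option Unit => o.elim p (fun _ => y t)))) ∈
        Gam Y p (∑ j, d j + v) := by
      refine sum_mem fun t _ => Gam_smul (hℓ t) (Gam_of_WS (c := 2 * s) ?_)
      refine WS.sum _ fun j _ => ?_
      have h6 := WS.det (X := Y) (p := p) (f.trans e₀)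
        (Sum.elim (Z' j) (Sum.elim v' (fun o : Option Unit => o.elim p (fun _ => y t))))
        (Sum.inr (Sum.inr none)) rfl 2
        (Sum.elim (wzz j) (Sum.elim (fun _ => 1) (fun o => o.elim 1 (fun _ => w)))) rfl (by
          rintro (i | (i | (_ | i))) hi
          · exact hz' j i
          · exact wt_up (wt_dp2 _ _)
          · exact absurd rfl hi
          · exact hy t)
      have h7 : Fintype.card (κ ⊕ (Fin q ⊕ Option Unit)) = s := by
        rw [Fintype.card_congr (f.trans e₀), Fintype.card_fin]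
      have h8 : ∑ i, (Sum.elim (wzz j) (Sum.elim (fun _ : Fin q => 1)
          (fun o : Option Unit => o.elim 1 (fun _ => w)))) i = ∑ i, wzz j i + (q + 1 + w) := by
        simp only [Fintype.sum_sum_type, Fintype.sum_option, Sum.elim_inl, Sum.elim_inr,
          Option.elim_none, Option.elim_some, Finset.sum_const, Finset.card_univ,
          Fintype.card_fin, Fintype.card_unit, smul_eq_mul, mul_one, one_mul]
        ring
      rw [h7, h8] at h6
      have h9 := (hc j).mul h6
      have h10 : wc j + (∑ i, wzz j i + (q + 1 + w)) = ∑ j, d j + v := by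
        rw [hd, ← hw j]; ring
      rw [h10, zero_add] at h9
      exact h9
    rcases neg_one_pow_eq_or M q with h | h
    · rw [h, one_mul]; exact h7
    · rw [h, neg_one_mul]; exact neg_mem h7
  rw [h0, mul_div_assoc]
  rcases neg_one_pow_eq_or M q with h | h
  · rw [h, one_mul]; exact hJG
  · rw [h, neg_one_mul]; exact neg_mem hJG

end Vol

end Pool.Agent.Lib.MP_44a246_ntH
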