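import Mathlib
import Pool.Agent.Lib.MP_44a246_ntH.HF5
import Pool.Agent.Lib.MP_44a246_ntH.HF6
import Pool.Agent.Lib.MP_e52354_ntI.IPlane

/-!
The plane of a minimal configuration, with a further derivation.
-/

namespace Pool.Agent.Lib.MP_44a246_ntH

open Pool.Agent.Lib.MP_e52354_nt Pool.Agent.Lib.MP_e52354_ntG Pool.Agent.Lib.MP_e52354_ntC
open Pool.Agent.Lib.MP_e52354_ntW Pool.Agent.Lib.MP_e52354_ntP Pool.Agent.Lib.MP_e52354_ntI

universe u w w'

variable {s q : ℕ} {d : Fin q → ℕ} {γ : Type w'} {M : Type u} [Field M]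
  {Y : DData (Option (MIdx s q d)) γ M} {p : Fin s → M} {l : Fin s} {r n : ℕ}

/-- the weight of the volume of a block and a further vector -/
theorem hvol_one {κ : Type} [Fintype κ] [DecidableEq κ]
    (e₀ : Fin q ⊕ Option (κ ⊕ Unit) ≃ Fin s)
    (hF : ∀ j, Fval (d j) (mA (base Y) j) p = 0) (hpl : p l = 1) {Z : κ → Fin s → M}
    (hgZ : ∀ i j, mgrad (base Y) p j ⬝ᵥ Z i = 0) {α : M} (hα : α ≠ 0) {W : ℕ}
    (hZ : Blk Y p Z α W) {z : Fin s → M} {w v : ℕ} (hz : WT Y p 2 w z)
    (hgz : ∀ j, mgrad (base Y) p j ⬝ᵥ z = 0) (hd : ∑ j, d j + v = q + 1 + W + w) :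
    rowdet e₀ (mvolRows p (mbaseV (base Y) p l) (Sum.elim Z fun _ => z)) / α ∈ Gam Y p v := by
  have hzz : ∑ t : Unit, (fun _ : Unit => (1 : M)) t • (fun _ : Unit => z) t = z := by simp
  have h1 := hvol_gam (Y := Y) e₀ hF hpl hgZ hα hZ (ρ := Unit) (fun _ => 1)
    (fun _ => one_mem _) (fun _ => z) (w := w) (v := v) (fun _ => hz)
    (by rw [hzz]; exact hgz) hd
  rwa [hzz] at h1

/-- the volume of an independent family is not zero -/
theorem hvol_ne_zero {κ : Type} [Fintype κ] [DecidableEq κ] (e₀ : Fin q ⊕ Option κ ≃ Fin s)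
    (hF : ∀ j, Fval (d j) (mA (base Y) j) p = 0) (hpl : p l = 1) {Z : κ → Fin s → M}
    (hgZ : ∀ i j, mgrad (base Y) p j ⬝ᵥ Z i = 0)
    (hli : LinearIndependent M (fun o : Option κ => o.elim p Z)) :
    rowdet e₀ (mvolRows p (mbaseV (base Y) p l) Z) ≠ 0 := by
  have hl : p l ≠ 0 := by rw [hpl]; exact one_ne_zero
  obtain ⟨J, hJ0, hJ⟩ := det_many e₀ (mgrad_li hF hl) (fun j => mgrad_p hF j)
    (fun i j => hgZ j i)
  have h1 : rowdet e₀ (mvolRows p (mbaseV (base Y) p l) Z) =
      J * (Matrix.of fun j i => mgrad (base Y) p i ⬝ᵥ mbaseV (base Y) p l j).det := hJ _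
  rw [h1, mdet_base hF]
  exact mul_ne_zero (hJ0 hli) (mul_ne_zero (pow_ne_zero _ (neg_ne_zero.mpr one_ne_zero))
    (pow_ne_zero _ hl))

/-- the minors of the coordinates in a configuration are bounded -/
theorem hminor_mem_KK (hs : q + r + 1 = s) (hr : r = 2 * n + 1) (hd1 : ∀ j, 1 ≤ d j)
    (hd : ∑ j, d j + (n + 1) = 2 * r + q + 1)
    (hF : ∀ j, Fval (d j) (mA (base Y) j) p = 0) (hpl : p l = 1) (hEp : Ev Y p ≠ 0)
    {c : Fin n → CC s q} {b : Fin n → Fin 2 → Fin s}
    (hli : LinearIndependent M (fun x : Fin n × Fin 2 =>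
      (W2 Y p).mkQ (mzetaC (base Y) p (c x.1) l (b x.1 x.2)))) (i₀ : Fin n)
    (c' : CC s q) {v : Fin s} (hv : p v ≠ 0) (b' : Fin 2 → Fin s)
    (a : Fin 2 → Fin n × Fin 2 → M)
    (ha : ∀ j, mzetaC (base Y) p c' v (b' j) -
      ∑ x, a j x • mzetaC (base Y) p (c x.1) l (b x.1 x.2) ∈ W2 Y p) :
    (a 0 (i₀, 0) * a 1 (i₀, 1) - a 0 (i₀, 1) * a 1 (i₀, 0)) / p v ∈ KK Y := by
  classical
  have hl : p l ≠ 0 := by rw [hpl]; exact one_ne_zero
  have hp0 : p ≠ 0 := by rintro rfl; exact hl rfl
  set Z : Fin n × Fin 2 → Fin s → M :=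
    fun x => mzetaC (base Y) p (c x.1) l (b x.1 x.2) with hZ
  let e₀ : Fin q ⊕ Option ((Fin n × Fin 2) ⊕ Unit) ≃ Fin s := Fintype.equivFinOfCardEq (by
    simp only [Fintype.card_sum, Fintype.card_option, Fintype.card_prod, Fintype.card_fin,
      Fintype.card_unit]
    omega)
  have hgZ : ∀ x j, mgrad (base Y) p j ⬝ᵥ Z x = 0 := fun x j => mgrad_zetaC hd1 hF _ _ _ j
  -- the volume of the configuration
  set Δ := rowdet e₀ (mvolRows p (mbaseV (base Y) p l) (Sum.elim Z fun _ => Ev Y p)) with hΔ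
  have hΔBd : Δ ∈ KK Y := by
    have h1 := hvol_one (Y := Y) (α := ∏ i : Fin n, p l) (W := 3 * n) (w := 1) (v := 0) e₀ hF hpl
      hgZ (Finset.prod_ne_zero_iff.mpr fun _ _ => hl)
      (blk_up (mblk_pairs c (fun _ => l) (fun _ => hl) b)) wt_Ev (mgrad_Ev hF) (by omega)
    rw [hpl, Finset.prod_const_one, div_one] at h1
    exact Gam_zero hp0 h1
  have hΔ0 : Δ ≠ 0 := by
    refine hvol_ne_zero e₀ hF hpl ?_ (li_total hpl hEp hli)
    rintro (i | i) j
    · exact hgZ i j
    · exact mgrad_Ev hF j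
  -- the new family
  set Z' : Fin n × Fin 2 → Fin s → M := fun x =>
    mzetaC (base Y) p (Function.update c i₀ c' x.1) (Function.update (fun _ => l) i₀ v x.1)
      (Function.update b i₀ b' x.1 x.2) with hZ'
  have hgZ' : ∀ x j, mgrad (base Y) p j ⬝ᵥ Z' x = 0 := fun x j => mgrad_zetaC hd1 hF _ _ _ j
  have hprod : ∏ i, p (Function.update (fun _ : Fin n => l) i₀ v i) = p v := by
    rw [Finset.prod_eq_single i₀]
    · rw [Function.update_self]
    · intro i _ hi
      rw [Function.update_of_ne hi, hpl]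
    · intro h; exact absurd (Finset.mem_univ _) h
  have h1 : rowdet e₀ (mvolRows p (mbaseV (base Y) p l) (Sum.elim Z' fun _ => Ev Y p)) / p v ∈
      KK Y := by
    have hne : ∀ i, p (Function.update (fun _ : Fin n => l) i₀ v i) ≠ 0 := by
      intro i
      by_cases hi : i = i₀
      · subst hi; rw [Function.update_self]; exact hv
      · rw [Function.update_of_ne hi]; exact hl
    have h2 := hvol_one (Y := Y) (W := 3 * n) (w := 1) (v := 0) e₀ hF hpl hgZ'
      (Finset.prod_ne_zero_iff.mpr fun i _ => hne i)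
      (blk_up (mblk_pairs (Function.update c i₀ c') (Function.update (fun _ => l) i₀ v) hne
        (Function.update b i₀ b'))) wt_Ev (mgrad_Ev hF) (by omega)
    rw [hprod] at h2
    exact Gam_zero hp0 h2
  -- the rows
  choose t t' ht using fun j => mem_W2.mp (ha j)
  set Rw := mvolRows p (mbaseV (base Y) p l) (Sum.elim Z fun _ : Unit => Ev Y p) with hRw
  let cf : Fin 2 → Fin q ⊕ Option ((Fin n × Fin 2) ⊕ Unit) → M := fun j =>
    Sum.elim (fun _ => 0) (fun o => o.elim (t j) (Sum.elim (a j) fun _ => t' j))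
  have hcf : ∀ j, ∑ k, cf j k • Rw k = mzetaC (base Y) p c' v (b' j) := by
    intro j
    rw [Fintype.sum_sum_type, Fintype.sum_option, Fintype.sum_sum_type]
    simp only [cf, hRw, mvolRows, Sum.elim_inl, Sum.elim_inr, Option.elim_none, Option.elim_some,
      zero_smul, Finset.sum_const_zero, zero_add, Finset.univ_unique, Finset.sum_singleton]
    have h2 := ht j
    rw [sub_eq_iff_eq_add] at h2
    rw [h2]
    abel
  have hrows : mvolRows p (mbaseV (base Y) p l) (Sum.elim Z' fun _ : Unit => Ev Y p) =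
      Function.update (Function.update Rw (Sum.inr (some (Sum.inl (i₀, 0)))) (∑ k, cf 0 k • Rw k))
        (Sum.inr (some (Sum.inl (i₀, 1)))) (∑ k, cf 1 k • Rw k) := by
    rw [hcf, hcf]
    funext k
    rcases k with k | (_ | (⟨i, j⟩ | k))
    · rw [Function.update_of_ne (by simp), Function.update_of_ne (by simp)]
      rfl
    · rw [Function.update_of_ne (by simp), Function.update_of_ne (by simp)]
      rfl
    · show Z' (i, j) = _
      by_cases hi : i = i₀
      · subst hi
        simp only [hZ', Function.update_self]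
        obtain rfl | rfl : j = 0 ∨ j = 1 := by fin_cases j <;> simp
        · rw [Function.update_of_ne (by simp), Function.update_self]
        · rw [Function.update_self]
      · rw [Function.update_of_ne (by simp [hi]), Function.update_of_ne (by simp [hi])]
        simp only [hZ', Function.update_of_ne hi]
        rfl
    · rw [Function.update_of_ne (by simp), Function.update_of_ne (by simp)]
      rfl
  rw [hrows, rowdet_update_two e₀ Rw (by simp)] at h1
  have h2 : (a 0 (i₀, 0) * a 1 (i₀, 1) - a 0 (i₀, 1) * a 1 (i₀, 0)) / p v =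
      ((cf 0 (Sum.inr (some (Sum.inl (i₀, 0)))) * cf 1 (Sum.inr (some (Sum.inl (i₀, 1)))) -
        cf 0 (Sum.inr (some (Sum.inl (i₀, 1)))) * cf 1 (Sum.inr (some (Sum.inl (i₀, 0))))) *
          rowdet e₀ Rw / p v) / Δ := by
    rw [← hΔ]
    simp only [cf, Sum.elim_inr, Sum.elim_inl, Option.elim_some]
    field_simp
  rw [h2]
  exact div_mem h1 hΔBd

/-- the point is not on a line of bounded height -/
theorem hno_line [CharZero M] (hF : ∀ j, Fval (d j) (mA (base Y) j) p = 0) (hNB : NB Y p)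
    (hOff : ¬ MOnLine d (mA (base Y)) p) {A B : Fin s → M} (hA : ∀ i, A i ∈ KK Y)
    (hB : ∀ i, B i ∈ KK Y) {x : M} (hp : ∀ i, p i = A i + x * B i) : False := by
  classical
  have hxK : x ∉ KK Y := by
    intro hx
    obtain ⟨i, hi⟩ := exists_notMem_KK hNB
    apply hi
    rw [hp i]
    exact add_mem (hA i) (mul_mem hx (hB i))
  have hx0 : x ≠ 0 := by
    rintro rfl
    exact hxK (zero_mem _)
  -- `x` is transcendental
  have hxt : Transcendental (KK Y) x := fun h => hxK (KK_of_isAlgebraic h)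
  -- the polynomial of the line
  have hline : ∀ f, lineP (d f) (mA (base Y) f) A B = 0 := by
    intro f
    -- coefficients are in `KK Y`
    have hcoef : lineP (d f) (mA (base Y) f) A B ∈ Polynomial.lifts (algebraMap (KK Y) M) := by
      unfold lineP
      refine Subsemiring.sum_mem _ fun I hI => ?_
      have hC : ∀ c ∈ KK Y, Polynomial.C c ∈ Polynomial.lifts (algebraMap (KK Y) M) := by
        intro c hc
        have : (c : M) = algebraMap (KK Y) M ⟨c, hc⟩ := rfl
        rw [this]
        exact Polynomial.C_mem_lifts _ _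
      refine Subsemiring.mul_mem _ (hC _ ?_) ?_
      · rw [mA, dif_pos hI]
        exact KK_a (X := Y) (some _)
      · unfold lmon
        refine Subsemiring.prod_mem _ fun k _ => ?_
        refine Subsemiring.pow_mem _ (Subsemiring.add_mem _ (hC _ (hA k)) ?_) _
        refine Subsemiring.mul_mem _ (hC _ (hB k)) (Polynomial.X_mem_lifts _)
    obtain ⟨g, hg⟩ := Polynomial.mem_lifts _ |>.mp hcoef
    have h1 : Polynomial.eval x (lineP (d f) (mA (base Y) f) A B) = 0 := by
      rw [eval_lineP, ← hF f]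
      congr 1
      funext k
      rw [hp k]
      ring
    have h2 : Polynomial.aeval x g = 0 := by
      rw [← hg, Polynomial.eval_map] at h1
      exact h1
    have h3 : g = 0 := by
      by_contra hg0
      exact hxt ⟨g, hg0, h2⟩
    rw [← hg, h3, Polynomial.map_zero]
  apply hOff
  have hcomb := fun (f : Fin q) (u v : M) =>
    Fval_comb (d f) (mA (base Y) f) (hline f) inferInstance u v
  -- a second point of the line
  have hAB : ∃ i j, p i * B j - p j * B i ≠ 0 := by
    by_contra hcon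
    push Not at hcon
    -- `p` is proportional to `B`
    by_cases hB0 : ∀ j, B j = 0
    · obtain ⟨i, hi⟩ := exists_notMem_KK hNB
      apply hi
      rw [hp i, hB0 i, mul_zero, add_zero]
      exact hA i
    · push Not at hB0
      obtain ⟨j, hj⟩ := hB0
      -- then A is proportional to B
      have h1 : ∀ i, A i = (A j / B j) * B i := by
        intro i
        have h2 := hcon i j
        rw [hp i, hp j] at h2
        field_simp
        linear_combination h2
      -- `p` is a multiple of a bounded point: every ratio is in `KK`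
      have h3 : ∀ i, p i = (A j / B j + x) * B i := by
        intro i
        rw [hp i, h1 i]
        ring
      set t := A j / B j + x with ht
      have ht0 : t ≠ 0 := by
        intro h0
        apply hxK
        have : x = - (A j / B j) := by linear_combination h0
        rw [this]
        exact neg_mem (div_mem (hA j) (hB j))
      -- weight `-1` element: 1 / t
      obtain ⟨c, β, h1', h2', h3'⟩ := BF_common (fun (i : Option (Fin s)) (_ : Plc Y) =>
        i.elim (1 : M) B) (by
          rintro (_ | i)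
          · exact BF_const.mpr (one_mem _)
          · exact BF_const.mpr (hB i))
      refine hNB c 1 (β / t) one_pos (div_ne_zero h2' ht0) ?_
      intro O δ hval hδ hDO ha hb l' hl' hpl
      have h4 := h3' (some l') ⟨O, δ, ⟨hval, hδ, hDO, ha, hb⟩⟩
      have h5 : δ ^ c * (β / t * p l' ^ 1) = δ ^ c * (β * B l') := by
        rw [h3 l']
        field_simp
      rw [h5]
      exact h4
  refine ⟨B, hAB, fun f u v => ?_⟩
  have h1 := hcomb f u (x * u + v)
  rw [← h1]
  congr 1
  funext k
  rw [hp k]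
  ring

/-- the plane of a configuration -/
theorem hplane_of_config (hs : q + r + 1 = s) (hr : r = 2 * n + 1) (hd1 : ∀ j, 1 ≤ d j)
    (hd : ∑ j, d j + (n + 1) = 2 * r + q + 1)
    (hF : ∀ j, Fval (d j) (mA (base Y) j) p = 0) (hpl : p l = 1) (hEp : Ev Y p ≠ 0)
    {c : Fin n → CC s q} {b : Fin n → Fin 2 → Fin s}
    (hli : LinearIndependent M (fun x : Fin n × Fin 2 =>
      (W2 Y p).mkQ (mzetaC (base Y) p (c x.1) l (b x.1 x.2)))) (i₀ : Fin n)
    (hblock : ∀ k, ∃ a : Fin 2 → M, mzetaC (base Y) p (c i₀) l k -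
      ∑ j, a j • mzetaC (base Y) p (c i₀) l (b i₀ j) ∈ W2 Y p) :
    ∃ al be ga : Fin s → M, (∀ k, al k ∈ KK Y) ∧ (∀ k, be k ∈ KK Y) ∧
      (∀ k, ga k ∈ KK Y) ∧ (∀ k, p k = al k + be k * p (b i₀ 0) + ga k * p (b i₀ 1)) ∧
      ∀ k, mzetaC (base Y) p (c i₀) l k - (be k • mzetaC (base Y) p (c i₀) l (b i₀ 0) +
        ga k • mzetaC (base Y) p (c i₀) l (b i₀ 1)) ∈ W2 Y p := by
  classical
  have hl : p l ≠ 0 := by rw [hpl]; exact one_ne_zero
  choose a ha using hblock
  -- the coefficients of the two vectors of the block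
  have huniq : ∀ x y : Fin 2 → M, (∑ j, x j • mzetaC (base Y) p (c i₀) l (b i₀ j)) -
      ∑ j, y j • mzetaC (base Y) p (c i₀) l (b i₀ j) ∈ W2 Y p → x = y := by
    intro x y hxy
    have h2 := hli.comp (fun j : Fin 2 => ((i₀, j) : Fin n × Fin 2)) (fun j j' h => by
      exact congrArg Prod.snd h)
    funext k
    have h3 := Fintype.linearIndependent_iff.mp h2 (fun j => x j - y j) (by
      have h4 : (W2 Y p).mkQ ((∑ j, x j • mzetaC (base Y) p (c i₀) l (b i₀ j)) -
          ∑ j, y j • mzetaC (base Y) p (c i₀) l (b i₀ j)) = 0 := by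
        rw [Submodule.mkQ_apply, Submodule.Quotient.mk_eq_zero]; exact hxy
      rw [← Finset.sum_sub_distrib, map_sum] at h4
      rw [← h4]
      refine Finset.sum_congr rfl fun j _ => ?_
      rw [← sub_smul, map_smul]
      rfl) k
    exact sub_eq_zero.mp h3
  have hone : ∀ j : Fin 2, a (b i₀ j) = Pi.single j 1 := by
    intro j
    symm
    apply huniq
    convert ha (b i₀ j) using 2
    rw [Finset.sum_eq_single j]
    · rw [Pi.single_eq_same, one_smul]
    · intro k _ hk
      rw [Pi.single_eq_of_ne hk, zero_smul]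
    · intro h; exact absurd (Finset.mem_univ _) h
  set be : Fin s → M := fun k => a k 0 with hbe
  set ga : Fin s → M := fun k => a k 1 with hga
  have hb0 : be (b i₀ 0) = 1 ∧ ga (b i₀ 0) = 0 := by
    simp only [hbe, hga, hone]
    simp
  have hb1 : be (b i₀ 1) = 0 ∧ ga (b i₀ 1) = 1 := by
    simp only [hbe, hga, hone]
    simp
  have hcoord : ∀ k, mzetaC (base Y) p (c i₀) l k - (be k • mzetaC (base Y) p (c i₀) l (b i₀ 0) +
        ga k • mzetaC (base Y) p (c i₀) l (b i₀ 1)) ∈ W2 Y p := by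
    intro k
    have h1 := ha k
    rwa [Fin.sum_univ_two] at h1
  -- the minors
  have hmin : ∀ u, p u ≠ 0 → ∀ k k', ((p u * be k - p k * be u) * (p u * ga k' - p k' * ga u) -
      (p u * ga k - p k * ga u) * (p u * be k' - p k' * be u)) / p u ∈ KK Y := by
    intro u hu k k'
    have h1 := hminor_mem_KK hs hr hd1 hd hF hpl hEp hli i₀ (c i₀) hu ![k, k']
      (fun j x => if x.1 = i₀ then (if x.2 = 0 then p u * be (![k, k'] j) - ![p k, p k'] j * be u
        else p u * ga (![k, k'] j) - ![p k, p k'] j * ga u) else 0) (by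
        intro j
        have h2 : ∑ x : Fin n × Fin 2, (if x.1 = i₀ then (if x.2 = 0 then
            p u * be (![k, k'] j) - ![p k, p k'] j * be u
            else p u * ga (![k, k'] j) - ![p k, p k'] j * ga u) else 0) •
            mzetaC (base Y) p (c x.1) l (b x.1 x.2) =
            (p u * be (![k, k'] j) - ![p k, p k'] j * be u) •
              mzetaC (base Y) p (c i₀) l (b i₀ 0) +
            (p u * ga (![k, k'] j) - ![p k, p k'] j * ga u) •
              mzetaC (base Y) p (c i₀) l (b i₀ 1) := by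
          rw [Fintype.sum_prod_type, Finset.sum_eq_single i₀]
          · rw [Fin.sum_univ_two]
            simp
          · intro i _ hi
            simp [hi]
          · intro h; exact absurd (Finset.mem_univ _) h
        rw [h2, mzetaC_base hpl (c i₀) u]
        have h3 : (![p k, p k'] : Fin 2 → M) j = p (![k, k'] j) := by
          fin_cases j <;> rfl
        rw [h3]
        have h4 := sub_mem (Submodule.smul_mem _ (p u) (hcoord (![k, k'] j)))
          (Submodule.smul_mem _ (p (![k, k'] j)) (hcoord u))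
        convert h4 using 1
        module)
    simpa using h1
  have hminl : ∀ k k', be k * ga k' - ga k * be k' ∈ KK Y := by
    intro k k'
    have hal : be l = 0 ∧ ga l = 0 := by
      have h1 : (fun _ => 0) = a l := by
        apply huniq
        convert ha l using 2
        have h2 : mzetaC (base Y) p (c i₀) l l = 0 := by
          unfold mzetaC
          rw [sub_self]
        rw [h2]
        simp
      simp only [hbe, hga, ← h1]
      simp
    have h1 := hmin l hl k k'
    rw [hal.1, hal.2, hpl] at h1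
    simpa using h1
  have hbeK : ∀ k, be k ∈ KK Y := by
    intro k
    have h1 := hminl k (b i₀ 1)
    rw [hb1.1, hb1.2] at h1
    simpa using h1
  have hgaK : ∀ k, ga k ∈ KK Y := by
    intro k
    have h1 := hminl (b i₀ 0) k
    rw [hb0.1, hb0.2] at h1
    simpa using h1
  refine ⟨fun k => p k - be k * p (b i₀ 0) - ga k * p (b i₀ 1), be, ga, ?_, hbeK, hgaK,
    fun k => by ring, hcoord⟩
  intro k
  show p k - be k * p (b i₀ 0) - ga k * p (b i₀ 1) ∈ KK Y
  by_cases h0 : p k = 0
  · by_cases h1 : p (b i₀ 0) = 0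
    · by_cases h2 : p (b i₀ 1) = 0
      · rw [h0, h1, h2]
        simp only [mul_zero, sub_zero]
        exact zero_mem _
      · have h3 := hmin (b i₀ 1) h2 k (b i₀ 0)
        rw [hb0.1, hb0.2, hb1.1, hb1.2] at h3
        convert h3 using 1
        field_simp
        ring
    · have h3 := hmin (b i₀ 0) h1 (b i₀ 1) k
      rw [hb0.1, hb0.2, hb1.1, hb1.2] at h3
      convert h3 using 1
      field_simp
      ring
  · have h3 := hmin k h0 (b i₀ 0) (b i₀ 1)
    rw [hb0.1, hb0.2, hb1.1, hb1.2] at h3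
    convert h3 using 1
    field_simp
    ring

/-- a bounded vector orthogonal to the point kills the vectors zeta of a configuration -/
theorem hkernel_of_config [CharZero M] (hs : q + r + 1 = s) (hr : r = 2 * n + 1)
    (hd1 : ∀ j, 1 ≤ d j) (hd : ∑ j, d j + (n + 1) = 2 * r + q + 1)
    (hF : ∀ j, Fval (d j) (mA (base Y) j) p = 0) (hpl : p l = 1) (hEp : Ev Y p ≠ 0) (hNB : NB Y p)
    (hOff : ¬ MOnLine d (mA (base Y)) p)
    {c : Fin n → CC s q} {b : Fin n → Fin 2 → Fin s}
    (hli : LinearIndependent M (fun x : Fin n × Fin 2 =>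
      (W2 Y p).mkQ (mzetaC (base Y) p (c x.1) l (b x.1 x.2)))) (i₀ : Fin n)
    (hblock : ∀ k, ∃ a : Fin 2 → M, mzetaC (base Y) p (c i₀) l k -
      ∑ j, a j • mzetaC (base Y) p (c i₀) l (b i₀ j) ∈ W2 Y p)
    (ℓ : Fin s → M) (hℓ : ∀ k, ℓ k ∈ KK Y) (hℓp : ∑ k, ℓ k * p k = 0) :
    ∑ k, ℓ k • mzetaC (base Y) p (c i₀) l k ∈ W2 Y p := by
  classical
  obtain ⟨al, be, ga, hal, hbe, hga, hp, hζ⟩ :=
    hplane_of_config hs hr hd1 hd hF hpl hEp hli i₀ hblock
  set A := ∑ k, ℓ k * al k with hA
  set Bb := ∑ k, ℓ k * be k with hBb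
  set G := ∑ k, ℓ k * ga k with hG
  have hAK : A ∈ KK Y := sum_mem fun k _ => mul_mem (hℓ k) (hal k)
  have hBK : Bb ∈ KK Y := sum_mem fun k _ => mul_mem (hℓ k) (hbe k)
  have hGK : G ∈ KK Y := sum_mem fun k _ => mul_mem (hℓ k) (hga k)
  have hrel : A + Bb * p (b i₀ 0) + G * p (b i₀ 1) = 0 := by
    rw [← hℓp, hA, hBb, hG, Finset.sum_mul, Finset.sum_mul, ← Finset.sum_add_distrib,
      ← Finset.sum_add_distrib]
    refine Finset.sum_congr rfl fun k _ => ?_
    rw [hp k]
    ring
  have hG0 : G = 0 := by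
    by_contra hne
    have h1 : p (b i₀ 1) = -(A / G) - (Bb / G) * p (b i₀ 0) := by
      field_simp
      linear_combination hrel
    refine hno_line hF hNB hOff (A := fun k => al k - ga k * (A / G))
      (B := fun k => be k - ga k * (Bb / G)) (x := p (b i₀ 0)) ?_ ?_ ?_
    · intro k
      exact sub_mem (hal k) (mul_mem (hga k) (div_mem hAK hGK))
    · intro k
      exact sub_mem (hbe k) (mul_mem (hga k) (div_mem hBK hGK))
    · intro k
      rw [hp k]
      rw [h1]
      ring
  have hB0 : Bb = 0 := by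
    by_contra hne
    rw [hG0, zero_mul, add_zero] at hrel
    have h1 : p (b i₀ 0) = -(A / Bb) := by
      field_simp
      linear_combination hrel
    refine hno_line hF hNB hOff (A := fun k => al k + be k * (-(A / Bb)))
      (B := ga) (x := p (b i₀ 1)) ?_ hga ?_
    · intro k
      exact add_mem (hal k) (mul_mem (hbe k) (neg_mem (div_mem hAK hBK)))
    · intro k
      rw [hp k, h1]
      ring
  have h1 : ∑ k, ℓ k • mzetaC (base Y) p (c i₀) l k =
      ∑ k, ℓ k • (mzetaC (base Y) p (c i₀) l k -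
        (be k • mzetaC (base Y) p (c i₀) l (b i₀ 0) +
        ga k • mzetaC (base Y) p (c i₀) l (b i₀ 1))) +
      (Bb • mzetaC (base Y) p (c i₀) l (b i₀ 0) +
        G • mzetaC (base Y) p (c i₀) l (b i₀ 1)) := by
    rw [hBb, hG, Finset.sum_smul, Finset.sum_smul, ← Finset.sum_add_distrib,
      ← Finset.sum_add_distrib]
    refine Finset.sum_congr rfl fun k _ => ?_
    module
  rw [h1, hG0, hB0, zero_smul, zero_smul, add_zero, add_zero]
  exact Submodule.sum_mem _ fun k _ => Submodule.smul_mem _ _ (hζ k)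

/-- the dimension of the span of the vectors zeta modulo the point and its derivative -/
theorem hfinrank_T0_le [CharZero M] (hs : q + r + 1 = s) (hd1 : ∀ j, 1 ≤ d j)
    (hF : ∀ j, Fval (d j) (mA (base Y) j) p = 0) (hpl : p l = 1) (hEp : Ev Y p ≠ 0) :
    Module.finrank M (T0 M (mBq (base Y) p l (W2 Y p))) + 1 ≤ r := by
  classical
  have hl : p l ≠ 0 := by rw [hpl]; exact one_ne_zero
  have hle : T0 M (mBq (base Y) p l (W2 Y p)) ≤
      (mTT (base Y) p).map (W2 Y p).mkQ := by
    apply T0_le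
    intro c b
    rw [mBq_apply]
    refine Submodule.mem_map_of_mem ?_
    rw [mem_mTT]
    exact fun j => mgrad_zetaC hd1 hF _ _ _ j
  have h0 := Submodule.finrank_mono hle
  let f : mTT (base Y) p →ₗ[M] ((Fin s → M) ⧸ W2 Y p) :=
    (W2 Y p).mkQ ∘ₗ (mTT (base Y) p).subtype
  have h3 := LinearMap.finrank_range_add_finrank_ker f
  have h4 : LinearMap.range f = (mTT (base Y) p).map (W2 Y p).mkQ := by
    rw [LinearMap.range_comp, Submodule.range_subtype]
  have h5 : 2 ≤ Module.finrank M (LinearMap.ker f) := by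
    have hpT : p ∈ mTT (base Y) p := mem_mTT.mpr fun j => mgrad_p hF j
    have hET : Ev Y p ∈ mTT (base Y) p := mem_mTT.mpr fun j => mgrad_Ev hF j
    have hWT : W2 Y p ≤ mTT (base Y) p := by
      rw [Submodule.span_le]
      rintro z (rfl | rfl)
      · exact hpT
      · exact hET
    rw [← finrank_W2 hpl hEp]
    let g : W2 Y p →ₗ[M] LinearMap.ker f :=
      { toFun := fun z => ⟨⟨z.1, hWT z.2⟩, by
          rw [LinearMap.mem_ker]
          show (W2 Y p).mkQ z.1 = 0
          rw [Submodule.mkQ_apply, Submodule.Quotient.mk_eq_zero]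
          exact z.2⟩
        map_add' := fun _ _ => rfl
        map_smul' := fun _ _ => rfl }
    refine LinearMap.finrank_le_finrank_of_injective (f := g) ?_
    intro z z' h
    apply Subtype.ext
    exact congrArg (fun w => w.1.1) h
  have h6 := finrank_mTT hF hl
  rw [h4] at h3
  omega

/-- the configurations and the kernel -/
theorem hkernel_R [CharZero M] [DecidableEq (CC s q)] (hs : q + r + 1 = s) (hr : r = 2 * n + 1)
    (hd1 : ∀ j, 1 ≤ d j) (hd : ∑ j, d j + (n + 1) = 2 * r + q + 1)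
    (hF : ∀ j, Fval (d j) (mA (base Y) j) p = 0) (hpl : p l = 1) (hEp : Ev Y p ≠ 0) (hNB : NB Y p)
    (hOff : ¬ MOnLine d (mA (base Y)) p)
    (hmin : ∀ R : Finset (CC s q × Fin s),
      LinearIndepOn M (vecB (mBq (base Y) p l (W2 Y p))) (R : Set _) →
        n ≤ sav R → 2 * n ≤ R.card)
    {R : Finset (CC s q × Fin s)}
    (hR : LinearIndepOn M (vecB (mBq (base Y) p l (W2 Y p))) (R : Set _))
    (hsav : n ≤ sav R) {c' : CC s q} (hc' : c' ∈ R.image Prod.fst)
    (ℓ : Fin s → M) (hℓ : ∀ k, ℓ k ∈ KK Y) (hℓp : ∑ k, ℓ k * p k = 0) :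
    ∑ k, ℓ k • mzetaC (base Y) p c' l k ∈ W2 Y p := by
  classical
  have hl : p l ≠ 0 := by rw [hpl]; exact one_ne_zero
  have hp0 : p ≠ 0 := by rintro rfl; exact hl rfl
  obtain ⟨c, b, hcinj, himg, hli, hblock⟩ := config_family hmin hR hsav
    (by have := hfinrank_T0_le (Y := Y) hs hd1 hF hpl hEp; omega)
  obtain ⟨i₀, rfl⟩ := (himg c').mp hc'
  refine hkernel_of_config hs hr hd1 hd hF hpl hEp hNB hOff hli i₀ (fun k => ?_) ℓ hℓ hℓp
  have h1 := hblock i₀ k
  obtain ⟨a, ha⟩ := (Submodule.mem_span_range_iff_exists_fun M).mp h1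
  refine ⟨a, ?_⟩
  rw [← Submodule.Quotient.mk_eq_zero, ← Submodule.mkQ_apply, map_sub, map_sum, sub_eq_zero]
  simp only [map_smul]
  exact ha.symm

/-- the kernel for all exponents -/
theorem hkernel_all [CharZero M] [DecidableEq (CC s q)] (hs : q + r + 1 = s) (hn : 1 ≤ n)
    (hr : r = 2 * n + 1)
    (hd1 : ∀ j, 1 ≤ d j) (hd : ∑ j, d j + (n + 1) = 2 * r + q + 1)
    (hF : ∀ j, Fval (d j) (mA (base Y) j) p = 0) (hpl : p l = 1) (hEp : Ev Y p ≠ 0) (hNB : NB Y p)
    (hOff : ¬ MOnLine d (mA (base Y)) p)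
    (hmin : ∀ R : Finset (CC s q × Fin s),
      LinearIndepOn M (vecB (mBq (base Y) p l (W2 Y p))) (R : Set _) →
        n ≤ sav R → 2 * n ≤ R.card)
    {R : Finset (CC s q × Fin s)}
    (hR : LinearIndepOn M (vecB (mBq (base Y) p l (W2 Y p))) (R : Set _))
    (hsav : n ≤ sav R) (c : CC s q)
    (ℓ : Fin s → M) (hℓ : ∀ k, ℓ k ∈ KK Y) (hℓp : ∑ k, ℓ k * p k = 0) :
    ∑ k, ℓ k • mzetaC (base Y) p c l k ∈ W2 Y p := by
  classical
  have hne : (R.image Prod.fst).Nonempty := by
    rw [← Finset.card_pos]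
    by_contra hcon
    have h1 := sav_add R
    have h2 : (R.image Prod.fst).card = 0 := by omega
    rw [Finset.card_eq_zero, Finset.image_eq_empty] at h2
    subst h2
    rw [Finset.card_empty] at h1
    omega
  obtain ⟨c₀, hc₀⟩ := hne
  obtain ⟨t, R', hR', -, hsav', hc', -⟩ := exists_variation hR hc₀ c
  have h1 := hkernel_R hs hr hd1 hd hF hpl hEp hNB hOff hmin hR' (hsav'.ge.trans' hsav) hc' ℓ hℓ hℓp
  have h2 := hkernel_R hs hr hd1 hd hF hpl hEp hNB hOff hmin hR hsav hc₀ ℓ hℓ hℓp
  have h3 : ∑ k, ℓ k • mzetaC (base Y) p c l k =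
      ∑ k, ℓ k • mzetaC (base Y) p (c + t • c₀) l k -
      (t : M) • ∑ k, ℓ k • mzetaC (base Y) p c₀ l k := by
    rw [Finset.smul_sum, ← Finset.sum_sub_distrib]
    refine Finset.sum_congr rfl fun k _ => ?_
    rw [mzetaC_add, mzetaC_zsmul]
    module
  rw [h3]
  exact sub_mem h1 (Submodule.smul_mem _ _ h2)


end Pool.Agent.Lib.MP_44a246_ntH
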