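import Mathlib
import Pool.Agent.Lib.MP_e52354_ntI.IFront
import Pool.Agent.Lib.MP_44a246_ntH.HF7

/-!
The data of the bounded plane in the borderline case with a further derivation.
-/

namespace Pool.Agent.Lib.MP_44a246_ntH

open Pool.Agent.Lib.MP_e52354_nt Pool.Agent.Lib.MP_e52354_ntG Pool.Agent.Lib.MP_e52354_ntC
open Pool.Agent.Lib.MP_e52354_ntW Pool.Agent.Lib.MP_e52354_ntP Pool.Agent.Lib.MP_e52354_ntI

universe u w w'

section Dual

variable {M : Type*} [Field M] {V : Type*} [AddCommGroup V] [Module M V]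

/-- expansion in a basis of a subspace -/
theorem dual_expand {κ : Type*} [Fintype κ] [DecidableEq κ] {B : κ → V} {L : κ → V →ₗ[M] M}
    (hL : ∀ i j, L i (B j) = if i = j then 1 else 0) {z : V}
    (hz : z ∈ Submodule.span M (Set.range B)) : z = ∑ i, L i z • B i := by
  obtain ⟨c, rfl⟩ := (Submodule.mem_span_range_iff_exists_fun M).mp hz
  refine Finset.sum_congr rfl fun i _ => ?_
  rw [map_sum, Finset.sum_eq_single i]
  · rw [map_smul, hL, if_pos rfl, smul_eq_mul, mul_one]
  · intro j _ hj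
    rw [map_smul, hL, if_neg (Ne.symm hj), smul_zero]
  · intro h; exact absurd (Finset.mem_univ _) h

end Dual

section Det

variable {M : Type u} [Field M] {σ τ : Type*} [Fintype τ] [DecidableEq τ]

theorem rowdet_update_comb_self (e : τ ≃ σ) (R : τ → σ → M) (y : τ) (c : τ → M) :
    rowdet e (Function.update R y (∑ j, c j • R j)) = c y * rowdet e R := by
  rw [Pool.Agent.Lib.MP_e52354_ntP.rowdet_update_sum, Finset.sum_eq_single y]
  · rw [Function.update_eq_self]
  · intro j _ hj
    rw [rowdet_eq_zero e hj (by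
      rw [Function.update_of_ne hj, Function.update_self]), mul_zero]
  · intro h; exact absurd (Finset.mem_univ _) h

end Det

variable {s q : ℕ} {d : Fin q → ℕ} {γ : Type w'} {M : Type u} [Field M] [CharZero M]
  {Y : DData (Option (MIdx s q d)) γ M} {p : Fin s → M} {l : Fin s} {r n : ℕ}

/-- the weights of the values of the functional dual to the derivative of the point -/
theorem hLam_gam (hs : q + r + 1 = s) (hr : r = 2 * n + 1) (hd1 : ∀ j, 1 ≤ d j)
    (hd : ∑ j, d j + (n + 1) = 2 * r + q + 1)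
    (hF : ∀ j, Fval (d j) (mA (base Y) j) p = 0) (hpl : p l = 1) (hEp : Ev Y p ≠ 0)
    {c : Fin n → CC s q} {b : Fin n → Fin 2 → Fin s}
    (hli : LinearIndependent M (fun x : Fin n × Fin 2 =>
      (W2 Y p).mkQ (mzetaC (base Y) p (c x.1) l (b x.1 x.2))))
    (L₀ : Option ((Fin n × Fin 2) ⊕ Unit) → (Fin s → M) →ₗ[M] M)
    (hL₀ : ∀ i j : Option ((Fin n × Fin 2) ⊕ Unit), L₀ i (j.elim p (Sum.elim
      (fun x => mzetaC (base Y) p (c x.1) l (b x.1 x.2)) fun _ => Ev Y p)) =
        if i = j then 1 else 0)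
    (hTT : mTT (base Y) p ≤ Submodule.span M (Set.range
      (fun o : Option ((Fin n × Fin 2) ⊕ Unit) => o.elim p (Sum.elim
        (fun x => mzetaC (base Y) p (c x.1) l (b x.1 x.2)) fun _ => Ev Y p))))
    {ρ : Type} [Fintype ρ] (ℓ : ρ → M) (hℓ : ∀ t, ℓ t ∈ KK Y)
    (y : ρ → Fin s → M) {w v : ℕ} (hy : ∀ t, WT Y p 2 w (y t))
    (hgz : ∀ j, mgrad (base Y) p j ⬝ᵥ (∑ t, ℓ t • y t) = 0)
    (hd' : v + 1 = w) : L₀ (some (Sum.inr ())) (∑ t, ℓ t • y t) ∈ Gam Y p v := by
  classical
  have hl : p l ≠ 0 := by rw [hpl]; exact one_ne_zero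
  have hp0 : p ≠ 0 := by rintro rfl; exact hl rfl
  set Z : Fin n × Fin 2 → Fin s → M :=
    fun x => mzetaC (base Y) p (c x.1) l (b x.1 x.2) with hZ
  let e₀ : Fin q ⊕ Option ((Fin n × Fin 2) ⊕ Unit) ≃ Fin s := Fintype.equivFinOfCardEq (by
    simp only [Fintype.card_sum, Fintype.card_option, Fintype.card_prod, Fintype.card_fin,
      Fintype.card_unit]
    omega)
  have hgZ : ∀ x j, mgrad (base Y) p j ⬝ᵥ Z x = 0 := fun x j => mgrad_zetaC hd1 hF _ _ _ j
  set Δ := rowdet e₀ (mvolRows p (mbaseV (base Y) p l) (Sum.elim Z fun _ => Ev Y p)) with hΔ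
  have hΔBd : Δ ∈ KK Y := by
    have h1 := hvol_one (Y := Y) (α := ∏ i : Fin n, p l) (W := 3 * n) (w := 1) (v := 0) e₀ hF hpl
      hgZ (Finset.prod_ne_zero_iff.mpr fun _ _ => hl)
      (blk_up (mblk_pairs c (fun _ => l) (fun _ => hl) b)) wt_Ev (mgrad_Ev hF) (by omega)
    rw [hpl, Finset.prod_const_one, div_one] at h1
    exact Gam_zero hp0 h1
  have hΔ0 : Δ ≠ 0 := by
    refine hvol_ne_zero e₀ hF hpl ?_ (li_total hpl hEp hli)
    rintro (i | i) j
    · exact hgZ i j
    · exact mgrad_Ev hF j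
  set z := ∑ t, ℓ t • y t with hz
  have h1 : rowdet e₀ (mvolRows p (mbaseV (base Y) p l) (Sum.elim Z fun _ => z)) ∈ Gam Y p v := by
    have h2 := hvol_gam (Y := Y) (α := ∏ i : Fin n, p l) (W := 3 * n) (w := w) (v := v) e₀ hF hpl
      hgZ (Finset.prod_ne_zero_iff.mpr fun _ _ => hl)
      (blk_up (mblk_pairs c (fun _ => l) (fun _ => hl) b)) ℓ hℓ y hy hgz (by omega)
    rwa [hpl, Finset.prod_const_one, div_one] at h2
  set Rw := mvolRows p (mbaseV (base Y) p l) (Sum.elim Z fun _ : Unit => Ev Y p) with hRw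
  let cf : Fin q ⊕ Option ((Fin n × Fin 2) ⊕ Unit) → M :=
    Sum.elim (fun _ => 0) (fun o => L₀ o z)
  have hzT : z ∈ mTT (base Y) p := mem_mTT.mpr hgz
  have hexp := dual_expand (L := L₀) hL₀ (hTT hzT)
  have hcf : ∑ k, cf k • Rw k = z := by
    rw [Fintype.sum_sum_type]
    simp only [cf, Sum.elim_inl, Sum.elim_inr, zero_smul, Finset.sum_const_zero, zero_add]
    conv_rhs => rw [hexp]
    rfl
  have hrows : mvolRows p (mbaseV (base Y) p l) (Sum.elim Z fun _ : Unit => z) =
      Function.update Rw (Sum.inr (some (Sum.inr ()))) (∑ k, cf k • Rw k) := by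
    rw [hcf]
    funext k
    rcases k with k | (_ | (k | k))
    · rw [Function.update_of_ne (by simp)]
      rfl
    · rw [Function.update_of_ne (by simp)]
      rfl
    · rw [Function.update_of_ne (by simp)]
      rfl
    · rw [Function.update_self]
      rfl
  rw [hrows, rowdet_update_comb_self] at h1
  have h2 : L₀ (some (Sum.inr ())) z = Δ⁻¹ * (L₀ (some (Sum.inr ())) z * Δ) := by
    field_simp
  rw [h2]
  exact Gam_smul (inv_mem hΔBd) h1

/-- the data of the bounded plane -/
theorem hfront (hs : q + r + 1 = s) (hn : 1 ≤ n) (hr : r = 2 * n + 1) (hd1 : ∀ j, 1 ≤ d j)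
    (hd : ∑ j, d j + (n + 1) = 2 * r + q + 1)
    (hF : ∀ j, Fval (d j) (mA (base Y) j) p = 0) (hpl : p l = 1) (hEp : Ev Y p ≠ 0)
    (hNB : NB Y p) (hOff : ¬ MOnLine d (mA (base Y)) p) :
    (∀ z ∈ mSxi (base Y) p, z ∈ W2 Y p) ∧
    ∃ (a b : Fin s) (al be ga : Fin s → M), (∀ k, al k ∈ KK Y) ∧
      (∀ k, be k ∈ KK Y) ∧ (∀ k, ga k ∈ KK Y) ∧ (∀ k, p k = al k + be k * p a + ga k * p b) ∧
      (∀ j, ∀ m : Fin s →₀ ℕ, m.degree + 1 = d j → ∀ k, ∃ lam ∈ KK Y, ∀ t,
        mD (base Y) j (m + Finsupp.single k 1) (p t) =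
          al k * mD (base Y) j (m + Finsupp.single l 1) (p t) +
          be k * mD (base Y) j (m + Finsupp.single a 1) (p t) +
          ga k * mD (base Y) j (m + Finsupp.single b 1) (p t) + lam * Y.D none (p t)) ∧
      ∃ (L : Fin n → Fin 2 → (Fin s → M) →ₗ[M] M) (Λ : (Fin s → M) →ₗ[M] M)
        (c : Fin n → CC s q),
        (∀ i j, L i j p = 0) ∧ (∀ i j, L i j (Ev Y p) = 0) ∧
        (∀ z ∈ mTT (base Y) p, (∀ i j, L i j z = 0) → z ∈ W2 Y p) ∧
        (∀ i i' j j', L i j (mzetaC (base Y) p (c i') l (![a, b] j')) =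
          if i = i' ∧ j = j' then 1 else 0) ∧
        (∀ i, ∀ c' : CC s q,
          L i 0 (mzetaC (base Y) p c' l a) * L i 1 (mzetaC (base Y) p c' l b) -
          L i 1 (mzetaC (base Y) p c' l a) * L i 0 (mzetaC (base Y) p c' l b) ∈ KK Y) ∧
        Λ (Ev Y p) = 1 ∧ ∀ (c' : CC s q) (u v : Fin s),
          Λ (mzetaC (base Y) p c' u v) ∈ Gam Y p 1 := by
  classical
  have hl : p l ≠ 0 := by rw [hpl]; exact one_ne_zero
  have hp0 : p ≠ 0 := by rintro rfl; exact hl rfl
  obtain ⟨hxi, ⟨R, hR, hsav⟩, hmin⟩ := hborder_config hs hn hr hd1 hd hF hpl hEp hNB hOff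
  refine ⟨hxi, ?_⟩
  obtain ⟨c, b₀, hcinj, himg, hli, hblock⟩ := config_family hmin hR hsav
    (by have := hfinrank_T0_le (Y := Y) hs hd1 hF hpl hEp; omega)
  set i₀ : Fin n := ⟨0, hn⟩ with hi₀
  have hblock' : ∀ k, ∃ a : Fin 2 → M, mzetaC (base Y) p (c i₀) l k -
      ∑ j, a j • mzetaC (base Y) p (c i₀) l (b₀ i₀ j) ∈ W2 Y p := by
    intro k
    obtain ⟨a, ha⟩ := (Submodule.mem_span_range_iff_exists_fun M).mp (hblock i₀ k)
    refine ⟨a, ?_⟩
    rw [← Submodule.Quotient.mk_eq_zero, ← Submodule.mkQ_apply, map_sub, map_sum, sub_eq_zero]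
    simp only [map_smul]
    exact ha.symm
  obtain ⟨al, be, ga, hal, hbe, hga, hp, -⟩ :=
    hplane_of_config hs hr hd1 hd hF hpl hEp hli i₀ hblock'
  set a := b₀ i₀ 0 with ha
  set b := b₀ i₀ 1 with hb
  -- the kernel
  have hker : ∀ c' : CC s q, ∀ k, mzetaC (base Y) p c' l k -
      (be k • mzetaC (base Y) p c' l a + ga k • mzetaC (base Y) p c' l b) ∈ W2 Y p := by
    intro c' k
    have h1 := hkernel_all hs hn hr hd1 hd hF hpl hEp hNB hOff hmin hR hsav c'
      (fun t => (if t = k then 1 else 0) - (if t = l then al k else 0) -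
        (if t = a then be k else 0) - (if t = b then ga k else 0)) (by
        intro t
        refine sub_mem (sub_mem (sub_mem ?_ ?_) ?_) ?_
        · split_ifs
          exacts [one_mem _, zero_mem _]
        · split_ifs
          exacts [hal k, zero_mem _]
        · split_ifs
          exacts [hbe k, zero_mem _]
        · split_ifs
          exacts [hga k, zero_mem _]) (by
        simp only [sub_mul, ite_mul, one_mul, zero_mul, Finset.sum_sub_distrib,
          Finset.sum_ite_eq', Finset.mem_univ, if_true]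
        rw [hpl]
        linear_combination hp k)
    have h0 : mzetaC (base Y) p c' l l = 0 := by
      unfold mzetaC
      rw [sub_self]
    simp only [sub_smul, ite_smul, one_smul, zero_smul, Finset.sum_sub_distrib,
      Finset.sum_ite_eq', Finset.mem_univ, if_true, h0, smul_zero, sub_zero] at h1
    convert h1 using 1
    abel
  -- the new family
  set Z : Fin n × Fin 2 → Fin s → M :=
    fun x => mzetaC (base Y) p (c x.1) l (![a, b] x.2) with hZ
  have hliQ : LinearIndependent M (fun x => (W2 Y p).mkQ (Z x)) := by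
    rw [linearIndependent_iff_card_le_finrank_span, Set.finrank]
    have h1 := finrank_span_eq_card hli
    rw [← h1]
    apply Submodule.finrank_mono
    rw [Submodule.span_le]
    rintro _ ⟨⟨i, j⟩, rfl⟩
    have h2 := hker (c i) (b₀ i j)
    rw [← Submodule.Quotient.mk_eq_zero, ← Submodule.mkQ_apply, map_sub, sub_eq_zero,
      map_add, map_smul, map_smul] at h2
    show (W2 Y p).mkQ (mzetaC (base Y) p (c i) l (b₀ i j)) ∈ _
    rw [h2]
    exact add_mem (Submodule.smul_mem _ _ (Submodule.subset_span ⟨(i, 0), rfl⟩))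
      (Submodule.smul_mem _ _ (Submodule.subset_span ⟨(i, 1), rfl⟩))
  have hliO := li_total (Y := Y) hpl hEp hliQ
  have hZT : ∀ x, Z x ∈ mTT (base Y) p := fun x => mem_mTT.mpr (mgrad_zetaC hd1 hF _ _ _)
  have hpT : p ∈ mTT (base Y) p := mem_mTT.mpr fun j => mgrad_p hF j
  have hET : Ev Y p ∈ mTT (base Y) p := mem_mTT.mpr fun j => mgrad_Ev hF j
  set B : Option ((Fin n × Fin 2) ⊕ Unit) → Fin s → M :=
    fun o => o.elim p (Sum.elim Z fun _ => Ev Y p) with hB
  have hTT : Submodule.span M (Set.range B) = mTT (base Y) p := by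
    apply Submodule.eq_of_le_of_finrank_le
    · rw [Submodule.span_le]
      rintro _ ⟨(_ | (x | x)), rfl⟩
      · exact hpT
      · exact hZT x
      · exact hET
    · have h7 := finrank_mTT hF hl
      rw [finrank_span_eq_card hliO, Fintype.card_option, Fintype.card_sum, Fintype.card_prod,
        Fintype.card_fin, Fintype.card_fin, Fintype.card_unit]
      omega
  obtain ⟨L₀, hL₀⟩ := exists_dual_fam' hliO
  have hLp : ∀ i j, L₀ (some (Sum.inl (i, j))) p = 0 := by
    intro i j
    have h1 : L₀ (some (Sum.inl (i, j))) p = _ := hL₀ (some (Sum.inl (i, j))) none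
    simpa using h1
  have hLE : ∀ i j, L₀ (some (Sum.inl (i, j))) (Ev Y p) = 0 := by
    intro i j
    have h1 : L₀ (some (Sum.inl (i, j))) (Ev Y p) = _ :=
      hL₀ (some (Sum.inl (i, j))) (some (Sum.inr ()))
    simpa using h1
  have hLZ : ∀ i i' j j', L₀ (some (Sum.inl (i, j))) (Z (i', j')) =
      if i = i' ∧ j = j' then 1 else 0 := by
    intro i i' j j'
    have h1 : L₀ (some (Sum.inl (i, j))) (Z (i', j')) = _ :=
      hL₀ (some (Sum.inl (i, j))) (some (Sum.inl (i', j')))
    simpa using h1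
  have hΛE : L₀ (some (Sum.inr ())) (Ev Y p) = 1 := by
    have h1 : L₀ (some (Sum.inr ())) (Ev Y p) = _ :=
      hL₀ (some (Sum.inr ())) (some (Sum.inr ()))
    simpa using h1
  have hL0 : ∀ z ∈ mTT (base Y) p, (∀ i j, L₀ (some (Sum.inl (i, j))) z = 0) → z ∈ W2 Y p := by
    intro z hz h0
    rw [← hTT] at hz
    have h1 := dual_expand (L := L₀) hL₀ hz
    rw [Fintype.sum_option, Fintype.sum_sum_type] at h1
    have h2 : ∑ x : Fin n × Fin 2, L₀ (some (Sum.inl x)) z • B (some (Sum.inl x)) = 0 :=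
      Finset.sum_eq_zero fun x _ => by rw [h0 x.1 x.2, zero_smul]
    rw [h2, zero_add, Finset.univ_unique, Finset.sum_singleton] at h1
    rw [h1]
    exact add_mem (Submodule.smul_mem _ _ p_mem_W2) (Submodule.smul_mem _ _ Ev_mem_W2)
  have hLam : ∀ {ρ : Type} [Fintype ρ] (ℓ : ρ → M) (_ : ∀ t, ℓ t ∈ KK Y)
      (y : ρ → Fin s → M) {w v : ℕ} (_ : ∀ t, WT Y p 2 w (y t))
      (_ : ∀ j, mgrad (base Y) p j ⬝ᵥ (∑ t, ℓ t • y t) = 0)
      (_ : v + 1 = w), L₀ (some (Sum.inr ())) (∑ t, ℓ t • y t) ∈ Gam Y p v := by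
    intro ρ _ ℓ hℓ y w v hy hgz hd'
    exact hLam_gam (b := fun _ => ![a, b]) hs hr hd1 hd hF hpl hEp hliQ L₀ hL₀ hTT.ge ℓ hℓ y hy
      hgz hd'
  refine ⟨a, b, al, be, ga, hal, hbe, hga, hp, ?_, ?_⟩
  · -- the derivations
    intro f m hm k
    obtain ⟨x, lam, hx⟩ := mem_W2.mp (hker (mind f m) k)
    have hval : ∀ t, x * p t + lam * Y.D none (p t) =
        mD (base Y) f (m + Finsupp.single k 1) (p t) -
        (al k * mD (base Y) f (m + Finsupp.single l 1) (p t) +
          be k * mD (base Y) f (m + Finsupp.single a 1) (p t) +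
          ga k * mD (base Y) f (m + Finsupp.single b 1) (p t)) := by
      intro t
      have h1 := congrFun hx t
      simp only [Pi.smul_apply, smul_eq_mul, Pi.sub_apply, Pi.add_apply, mzetaC_ind hm, zeta,
        hpl, one_mul, Ev] at h1
      rw [← h1]
      linear_combination (-(mD (base Y) f (m + Finsupp.single l 1) (p t))) * hp k
    have h1 := hval l
    rw [hpl] at h1
    simp only [Derivation.map_one_eq_zero, mul_zero, add_zero, sub_zero, mul_one] at h1
    refine ⟨lam, ?_, fun t => ?_⟩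
    · -- the coefficient is bounded
      let ℓ : Fin s → M := fun t => (if t = k then 1 else 0) - (if t = l then al k else 0) -
        (if t = a then be k else 0) - (if t = b then ga k else 0)
      have hℓ : ∀ t, ℓ t ∈ KK Y := by
        intro t
        refine sub_mem (sub_mem (sub_mem ?_ ?_) ?_) ?_
        · split_ifs
          exacts [one_mem _, zero_mem _]
        · split_ifs
          exacts [hal k, zero_mem _]
        · split_ifs
          exacts [hbe k, zero_mem _]
        · split_ifs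
          exacts [hga k, zero_mem _]
      have hsum : ∑ t, ℓ t • dp (base Y) p f (m + Finsupp.single t 1) = lam • Ev Y p := by
        simp only [ℓ, sub_smul, ite_smul, one_smul, zero_smul, Finset.sum_sub_distrib,
          Finset.sum_ite_eq', Finset.mem_univ, if_true]
        funext t
        have h2 := hval t
        rw [h1, zero_mul, zero_add] at h2
        simp only [Pi.sub_apply, Pi.smul_apply, smul_eq_mul]
        show _ = lam * Y.D none (p t)
        rw [h2]
        ring
      have h3 := hLam ℓ hℓ (fun t => dp (base Y) p f (m + Finsupp.single t 1)) (w := 1) (v := 0)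
        (fun t => wt_up (wt_dp2 _ _)) (by
          intro j
          rw [hsum, dotProduct_smul, mgrad_Ev hF, smul_zero]) rfl
      rw [hsum, map_smul, hΛE, smul_eq_mul, mul_one] at h3
      exact Gam_zero hp0 h3
    · have h2 := hval t
      rw [h1, zero_mul, zero_add] at h2
      rw [h2]
      ring
  · refine ⟨fun i j => L₀ (some (Sum.inl (i, j))), L₀ (some (Sum.inr ())), c, hLp, hLE, hL0, hLZ,
      ?_, hΛE, ?_⟩
    · intro i c'
      have h1 := hminor_mem_KK (b := fun _ => ![a, b]) hs hr hd1 hd hF hpl hEp hliQ i c' hl ![a, b]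
        (fun j x => L₀ (some (Sum.inl x)) (mzetaC (base Y) p c' l (![a, b] j))) (by
          intro j
          apply hL0
          · refine sub_mem (mem_mTT.mpr (mgrad_zetaC hd1 hF _ _ _)) ?_
            exact Submodule.sum_mem _ fun x _ => Submodule.smul_mem _ _ (hZT x)
          · intro i' j'
            rw [map_sub, map_sum, Finset.sum_eq_single (i', j')]
            · rw [map_smul]
              have h2 := hLZ i' i' j' j'
              rw [if_pos ⟨rfl, rfl⟩] at h2
              have h3 : Z (i', j') = mzetaC (base Y) p (c i') l (![a, b] j') := rfl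
              rw [← h3, h2, smul_eq_mul, mul_one, sub_self]
            · rintro ⟨i'', j''⟩ _ hne
              rw [map_smul]
              have h3 : Z (i'', j'') = mzetaC (base Y) p (c i'') l (![a, b] j'') := rfl
              show _ • (L₀ (some (Sum.inl (i', j')))) (Z (i'', j'')) = 0
              rw [hLZ, if_neg (by
                rintro ⟨rfl, rfl⟩
                exact hne rfl), smul_zero]
            · intro h; exact absurd (Finset.mem_univ _) h)
      rw [hpl, div_one] at h1
      convert h1 using 1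
      simp only [Matrix.cons_val_zero, Matrix.cons_val_one]
    · intro c' u v
      have hzz : ∑ t : Unit, (fun _ : Unit => (1 : M)) t •
          (fun _ : Unit => mzetaC (base Y) p c' u v) t = mzetaC (base Y) p c' u v := by simp
      have hwt : WT (base Y) p 1 2 (mzetaC (base Y) p c' u v) := by
        have h1 := (WS.coord (X := base Y) (p := p) u).smul (wt_mdC (X := base Y) (p := p) c' v)
        have h2 := (WS.coord (X := base Y) (p := p) v).smul (wt_mdC (X := base Y) (p := p) c' u)
        exact h1.sub h2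
      have h3 := hLam (ρ := Unit) (fun _ => 1) (fun _ => one_mem _)
        (fun _ => mzetaC (base Y) p c' u v) (w := 2) (v := 1)
        (fun _ => wt_up (hwt.mono_c 1)) (by
          intro j
          rw [hzz]
          exact mgrad_zetaC hd1 hF _ _ _ j) rfl
      rwa [hzz] at h3

end Pool.Agent.Lib.MP_44a246_ntH
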