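import Mathlib
import Pool.Agent.Lib.MP_44a246_ntH.HB1
import Pool.Agent.Lib.MP_e52354_ntP.Back5

/-!
Correction of the derivations by multiples of the further derivation.
-/

set_option linter.unusedSectionVars false

namespace Pool.Agent.Lib.MP_44a246_ntH

open Pool.Agent.Lib.MP_e52354_nt
open Pool.Agent.Lib.MP_e52354_ntP Pool.Agent.Lib.MP_e52354_ntC
open MvPolynomial

section Corr

variable {M : Type*} [Field M] {K : Subfield M} {σ : Type*} [Fintype σ] [DecidableEq σ]
  {D : (σ →₀ ℕ) → Derivation ℤ M M} {E : Derivation ℤ M M} {d : ℕ} {p : σ → M} {l a b : σ}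
  {al be ga : σ → K}

/-- the restriction lemma, with a correction -/
theorem D_eq_corr (h : Pln (fun _ => (0 : Derivation ℤ M M)) d p l a b al be ga)
    (hD : ∀ m : σ →₀ ℕ, m.degree + 1 = d → ∀ k, ∃ lam : K, ∀ t,
      D (m + Finsupp.single k 1) (p t) = (al k : M) * D (m + Finsupp.single l 1) (p t) +
        be k * D (m + Finsupp.single a 1) (p t) + ga k * D (m + Finsupp.single b 1) (p t) +
        lam * E (p t))
    {J : σ →₀ ℕ} (hJ : J.degree = d) :
    ∃ lam : K, ∀ t, D J (p t) = EE K D d l a b p (mf al be ga J) t + lam * E (p t) := by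
  obtain ⟨n, hn⟩ : ∃ n, n = ∑ k ∈ Finset.univ \ {l, a, b}, J k := ⟨_, rfl⟩
  induction n using Nat.strong_induction_on generalizing J with
  | _ n ih =>
    by_cases h0 : ∃ k, k ∉ ({l, a, b} : Finset σ) ∧ J k ≠ 0
    · obtain ⟨k, hk, hJk⟩ := h0
      set m := J - Finsupp.single k 1 with hm'
      have hmJ : m + Finsupp.single k 1 = J := sub_add_single hJk
      have hdeg : m.degree + 1 = d := by
        rw [← hJ, ← hmJ, map_add, Finsupp.degree_single]
      have hsum : ∀ j ∈ ({l, a, b} : Finset σ), ∑ k ∈ Finset.univ \ {l, a, b},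
          (m + Finsupp.single j 1 : σ →₀ ℕ) k < n := by
        intro j hj
        rw [hn, ← hmJ]
        have e1 : ∑ k ∈ Finset.univ \ {l, a, b}, (m + Finsupp.single j 1 : σ →₀ ℕ) k =
            ∑ k ∈ Finset.univ \ {l, a, b}, m k := by
          refine Finset.sum_congr rfl fun i hi => ?_
          have : i ≠ j := by
            rintro rfl
            exact (Finset.mem_sdiff.mp hi).2 hj
          rw [Finsupp.add_apply, Finsupp.single_eq_of_ne this, add_zero]
        have e2 : ∑ i ∈ Finset.univ \ {l, a, b}, (m + Finsupp.single k 1 : σ →₀ ℕ) i =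
            ∑ i ∈ Finset.univ \ {l, a, b}, m i + 1 := by
          simp only [Finsupp.add_apply, Finset.sum_add_distrib]
          congr 1
          rw [Finset.sum_eq_single k]
          · simp
          · intro i _ hi
            exact Finsupp.single_eq_of_ne hi
          · intro hk'
            exact absurd (Finset.mem_sdiff.mpr ⟨Finset.mem_univ _, hk⟩) hk'
        rw [e1, e2]
        omega
      have hih : ∀ j ∈ ({l, a, b} : Finset σ), ∃ lam : K, ∀ t, D (m + Finsupp.single j 1) (p t) =
          EE K D d l a b p (mf al be ga (m + Finsupp.single j 1)) t + lam * E (p t) := by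
        intro j hj
        exact ih _ (hsum j hj) (by rw [map_add, Finsupp.degree_single]; exact hdeg) rfl
      obtain ⟨x, hx⟩ := hD m hdeg k
      obtain ⟨xl, hxl⟩ := hih l (by simp)
      obtain ⟨xa, hxa⟩ := hih a (by simp)
      obtain ⟨xb, hxb⟩ := hih b (by simp)
      refine ⟨x + al k * xl + be k * xa + ga k * xb, fun t => ?_⟩
      rw [← hmJ, hx t, hxl, hxa, hxb]
      simp only [mf_add, mf_single, pow_one, h.lf_l, h.lf_a, h.lf_b]
      have e3 : mf al be ga m * lf al be ga k = al k • (mf al be ga m * 1) +
          be k • (mf al be ga m * X 0) + ga k • (mf al be ga m * X 1) := by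
        unfold lf
        simp only [smul_eq_C_mul]
        ring
      rw [e3, map_add, map_add, map_smul, map_smul, map_smul]
      simp only [Pi.add_apply, Pi.smul_apply, smul_eq']
      push_cast
      ring
    · push Not at h0
      have hJeq : J = hm l a b d (Finsupp.single 0 (J a) + Finsupp.single 1 (J b)) := by
        have hsum : J l + (J a + J b) = d := by
          rw [← hJ, Finsupp.degree_eq_sum]
          have e1 : ∑ k, J k = ∑ k ∈ ({l, a, b} : Finset σ), J k := by
            symm
            refine Finset.sum_subset (Finset.subset_univ _) fun k _ hk => h0 k hk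
          rw [e1, Finset.sum_insert (by simp [h.la, h.lb]), Finset.sum_insert (by simp [h.ab]),
            Finset.sum_singleton]
        unfold hm
        ext k
        by_cases hk : k ∈ ({l, a, b} : Finset σ)
        · simp only [Finset.mem_insert, Finset.mem_singleton] at hk
          rcases hk with rfl | rfl | rfl
          · simp [h.la, h.lb]
            omega
          · simp [h.la, h.ab]
          · simp [h.lb, h.ab]
        · rw [h0 k hk]
          simp only [Finset.mem_insert, Finset.mem_singleton, not_or] at hk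
          simp [hk.1, hk.2.1, hk.2.2]
      refine ⟨0, fun t => ?_⟩
      conv_rhs => rw [hJeq]
      rw [h.mf_hm, EE_monomial, ← hJeq]
      simp

/-- the correction of the derivations -/
theorem exists_corr (h : Pln (fun _ => (0 : Derivation ℤ M M)) d p l a b al be ga)
    (hE : ∃ t, E (p t) ≠ 0)
    (hD : ∀ m : σ →₀ ℕ, m.degree + 1 = d → ∀ k, ∃ lam : K, ∀ t,
      D (m + Finsupp.single k 1) (p t) = (al k : M) * D (m + Finsupp.single l 1) (p t) +
        be k * D (m + Finsupp.single a 1) (p t) + ga k * D (m + Finsupp.single b 1) (p t) +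
        lam * E (p t)) :
    ∃ lam : (σ →₀ ℕ) → K,
      Pln (fun J => D J - (lam J : M) • E) d p l a b al be ga ∧
      ∀ G, EE K (fun J => D J - (lam J : M) • E) d l a b p G = EE K D d l a b p G := by
  classical
  choose lam₀ hlam₀ using fun (J : {J : σ →₀ ℕ // J.degree = d}) => D_eq_corr h hD J.2
  let lam : (σ →₀ ℕ) → K := fun J => if hJ : J.degree = d then lam₀ ⟨J, hJ⟩ else 0
  have hlam : ∀ J : σ →₀ ℕ, J.degree = d → ∀ t,
      D J (p t) = EE K D d l a b p (mf al be ga J) t + lam J * E (p t) := by
    intro J hJ t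
    simp only [lam, dif_pos hJ]
    exact hlam₀ ⟨J, hJ⟩ t
  have hhm : ∀ m, lam (hm l a b d m) = 0 := by
    intro m
    by_cases hdeg : (hm l a b d m).degree = d
    · obtain ⟨t, ht⟩ := hE
      have h1 := hlam _ hdeg t
      rw [h.mf_hm, EE_monomial] at h1
      have h2 : (lam (hm l a b d m) : M) * E (p t) = 0 := by linear_combination -h1
      have h3 := (mul_eq_zero.mp h2).resolve_right ht
      exact Subtype.ext h3
    · simp only [lam, dif_neg hdeg]
  have hDG : ∀ G, DG K (fun J => D J - (lam J : M) • E) d l a b G = DG K D d l a b G := by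
    intro G
    induction G using MvPolynomial.induction_on' with
    | monomial m c =>
      have h1 : monomial m c = c • monomial m (1 : K) := by
        rw [smul_monomial, smul_eq_mul, mul_one]
      rw [h1, map_smul, map_smul, DG_monomial, DG_monomial, hhm]
      congr 1
      show D (hm l a b d m) - ((0 : K) : M) • E = D (hm l a b d m)
      rw [ZeroMemClass.coe_zero, zero_smul, sub_zero]
    | add P Q hP hQ => rw [map_add, map_add, hP, hQ]
  have hEE : ∀ G, EE K (fun J => D J - (lam J : M) • E) d l a b p G = EE K D d l a b p G := by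
    intro G
    funext t
    rw [EE_apply, EE_apply, hDG]
  have hval : ∀ J : σ →₀ ℕ, J.degree = d → ∀ t,
      (D J - (lam J : M) • E) (p t) = EE K D d l a b p (mf al be ga J) t := by
    intro J hJ t
    rw [Derivation.sub_apply, Derivation.smul_apply, smul_eq_mul, hlam J hJ t]
    ring
  refine ⟨lam, ⟨h.hpl, h.hp, ?_, h.hline⟩, hEE⟩
  intro m hm' k t
  have hdeg : ∀ i, (m + Finsupp.single i 1 : σ →₀ ℕ).degree = d := by
    intro i
    rw [map_add, Finsupp.degree_single]
    exact hm'
  rw [hval _ (hdeg k), hval _ (hdeg l), hval _ (hdeg a), hval _ (hdeg b)]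
  simp only [mf_add, mf_single, pow_one, h.lf_l, h.lf_a, h.lf_b]
  have e3 : mf al be ga m * lf al be ga k = al k • (mf al be ga m * 1) +
      be k • (mf al be ga m * X 0) + ga k • (mf al be ga m * X 1) := by
    unfold lf
    simp only [smul_eq_C_mul]
    ring
  rw [e3, map_add, map_add, map_smul, map_smul, map_smul]
  rfl

theorem hm_succ_l {e : ℕ} {m : Fin 2 →₀ ℕ} (hm0 : m.degree ≤ e) :
    hm l a b (e + 1) m = hm l a b e m + Finsupp.single l 1 := by
  rw [Finsupp.degree_eq_sum, Fin.sum_univ_two] at hm0
  unfold hm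
  have : e + 1 - (m 0 + m 1) = e - (m 0 + m 1) + 1 := by omega
  rw [this, Finsupp.single_add]
  abel

theorem hm_succ_vec {e : ℕ} (m : Fin 2 →₀ ℕ) (i : Fin 2) :
    hm l a b (e + 1) (Finsupp.single i 1 + m) = hm l a b e m + Finsupp.single (![a, b] i) 1 := by
  unfold hm
  revert i
  rw [Fin.forall_fin_two]
  constructor
  · simp only [Finsupp.add_apply, Finsupp.single_eq_same, Matrix.cons_val_zero]
    rw [Finsupp.single_eq_of_ne (by decide : (1 : Fin 2) ≠ 0)]
    have : e + 1 - (1 + m 0 + (0 + m 1)) = e - (m 0 + m 1) := by omega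
    rw [this, Finsupp.single_add, zero_add]
    abel
  · simp only [Finsupp.add_apply, Finsupp.single_eq_same, Matrix.cons_val_one]
    rw [Finsupp.single_eq_of_ne (by decide : (0 : Fin 2) ≠ 1)]
    have : e + 1 - (0 + m 0 + (1 + m 1)) = e - (m 0 + m 1) := by omega
    show _ = Finsupp.single l (e - (m 0 + m 1)) + Finsupp.single a (m 0) +
      Finsupp.single b (m 1) + Finsupp.single b 1
    rw [this, zero_add, Finsupp.single_add]
    abel

/-- the vectors attached to monomials are vectors zeta -/
theorem UU_monomial {e : ℕ} {m : Fin 2 →₀ ℕ} (hm0 : m.degree ≤ e) (i : Fin 2) :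
    UU K D (e + 1) l a b p i (monomial m 1) = (fun t =>
      D (hm l a b e m + Finsupp.single (![a, b] i) 1) (p t) -
        p (![a, b] i) * D (hm l a b e m + Finsupp.single l 1) (p t)) := by
  funext t
  have h1 : (X i * monomial m 1 : MvPolynomial (Fin 2) K) =
      monomial (Finsupp.single i 1 + m) 1 := by
    rw [MvPolynomial.X, monomial_mul, mul_one]
  rw [UU_apply, h1, Pi.sub_apply, Pi.smul_apply, smul_eq_mul, EE_monomial, EE_monomial,
    hm_succ_vec, hm_succ_l hm0]

end Corr

end Pool.Agent.Lib.MP_44a246_ntH
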