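import Mathlib
import Pool.Agent.Lib.MP_e52354_ntP.Back11
import Pool.Agent.Lib.MP_44a246_ntH.HF8
import Pool.Agent.Lib.MP_44a246_ntH.HF9
import Pool.Agent.Lib.MP_44a246_ntH.HB9

/-!
The borderline case with a further derivation: assembly.
-/

set_option linter.unusedSectionVars false

namespace Pool.Agent.Lib.MP_44a246_ntH

open Pool.Agent.Lib.MP_e52354_nt Pool.Agent.Lib.MP_e52354_ntG Pool.Agent.Lib.MP_e52354_ntC
open Pool.Agent.Lib.MP_e52354_ntW Pool.Agent.Lib.MP_e52354_ntP Pool.Agent.Lib.MP_e52354_ntI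
open MvPolynomial

universe u w w'

section Wedge

variable {ι : Type w} {γ : Type w'} [DecidableEq ι] {M : Type u} [Field M] {X : DData ι γ M}
  {s : ℕ} {p : Fin s → M}

theorem gam_wedge {c w : ℕ} {y : Fin s → M} (hy : WT X p c w y) (i j : Fin s) :
    p i * y j - p j * y i ∈ Gam X p (w + 1) := by
  refine Gam_of_WS (c := c) ?_
  intro O δ l hA
  obtain ⟨t, y', h1, h2⟩ := hy O δ l hA
  refine ⟨(p i / p l) * y' j - (p j / p l) * y' i, ?_, ?_⟩
  · have : δ ^ c * ((p i / p l) * y' j - (p j / p l) * y' i) =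
        (p i / p l) * (δ ^ c * y' j) - (p j / p l) * (δ ^ c * y' i) := by ring
    rw [this]
    exact O.sub_mem (O.mul_mem (hA.hp i) (h1 j)) (O.mul_mem (hA.hp j) (h1 i))
  · have hl := hA.hl
    rw [h2 i, h2 j]
    field_simp
    ring

/-- the weight of the wedge of the point and two vectors -/
theorem gam_wedge3 {l₀ : Fin s} (hpl : p l₀ = 1) {c w c' w' : ℕ} {y z : Fin s → M}
    (hy : WT X p c w y) (hz : WT X p c' w' z) (hyl : y l₀ = 0) (hzl : z l₀ = 0) (i j : Fin s) :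
    y i * z j - y j * z i ∈ Gam X p (w + w' + 1) := by
  refine Gam_of_WS (c := c + c') ?_
  intro O δ l hA
  obtain ⟨t, y', h1, h2⟩ := hy O δ l hA
  obtain ⟨u, z', h3, h4⟩ := hz O δ l hA
  have hl := hA.hl
  have ht : t = - (p l ^ w * y' l₀) := by
    have := h2 l₀
    rw [hyl, hpl] at this
    linear_combination -this
  have hu : u = - (p l ^ w' * z' l₀) := by
    have := h4 l₀
    rw [hzl, hpl] at this
    linear_combination -this
  have hone : (p l)⁻¹ ∈ O := by
    have := hA.hp l₀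
    rwa [hpl, one_div] at this
  refine ⟨(p l)⁻¹ * (y' i * z' j - y' j * z' i) -
    z' l₀ * ((p j / p l) * y' i - (p i / p l) * y' j) -
    y' l₀ * ((p i / p l) * z' j - (p j / p l) * z' i), ?_, ?_⟩
  · have : δ ^ (c + c') * ((p l)⁻¹ * (y' i * z' j - y' j * z' i) -
        z' l₀ * ((p j / p l) * y' i - (p i / p l) * y' j) -
        y' l₀ * ((p i / p l) * z' j - (p j / p l) * z' i)) =
        (p l)⁻¹ * ((δ ^ c * y' i) * (δ ^ c' * z' j) - (δ ^ c * y' j) * (δ ^ c' * z' i)) -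
        (δ ^ c' * z' l₀) * ((p j / p l) * (δ ^ c * y' i) - (p i / p l) * (δ ^ c * y' j)) -
        (δ ^ c * y' l₀) * ((p i / p l) * (δ ^ c' * z' j) - (p j / p l) * (δ ^ c' * z' i)) := by
      rw [pow_add]; ring
    rw [this]
    exact O.sub_mem (O.sub_mem (O.mul_mem hone (O.sub_mem (O.mul_mem (h1 i) (h3 j))
      (O.mul_mem (h1 j) (h3 i)))) (O.mul_mem (h3 l₀) (O.sub_mem (O.mul_mem (hA.hp j) (h1 i))
        (O.mul_mem (hA.hp i) (h1 j))))) (O.mul_mem (h1 l₀) (O.sub_mem (O.mul_mem (hA.hp i) (h3 j))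
          (O.mul_mem (hA.hp j) (h3 i))))
  · rw [h2 i, h2 j, h4 i, h4 j, ht, hu, pow_succ, pow_add]
    field_simp
    ring

end Wedge

section DetMem

variable {M : Type u} [Field M] [CharZero M] {K : Subfield M} {s : ℕ} {d : ℕ}
  {D : (Fin s →₀ ℕ) → Derivation ℤ M M} {p : Fin s → M} {l a b : Fin s}
  {al be ga : Fin s → K}

theorem mfC_indH (h : Pln D d p l a b al be ga) {e : ℕ} {m : Fin 2 →₀ ℕ} (hm0 : m.degree ≤ e) :
    mfC al be ga e (fun J => if hm l a b e m = J then 1 else 0) = monomial m 1 := by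
  classical
  unfold mfC
  rw [Finset.sum_eq_single (hm l a b e m)]
  · simp only [if_true, Int.cast_one, one_smul, h.mf_hm]
  · intro J _ hJ
    simp only [if_neg (Ne.symm hJ), Int.cast_zero, zero_smul]
  · intro hnot
    exact absurd (mem_expo.mpr (degree_hm hm0)) hnot

theorem mfC_addH (e : ℕ) (c c' : (Fin s →₀ ℕ) → ℤ) :
    mfC al be ga e (c + c') = mfC al be ga e c + mfC al be ga e c' := by
  unfold mfC
  rw [← Finset.sum_add_distrib]
  refine Finset.sum_congr rfl fun m _ => ?_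
  rw [Pi.add_apply, Int.cast_add, add_smul]

/-- the determinant is in the subfield for all polynomials -/
theorem det_memH (h : Pln D d p l a b al be ga) {e : ℕ} (he : e + 1 = d)
    (L₀ L₁ : (Fin s → M) →ₗ[M] M)
    (hK : ∀ c : (Fin s →₀ ℕ) → ℤ, L₀ (zetaC e D p c l a) *
      L₁ (zetaC e D p c l b) - L₁ (zetaC e D p c l a) *
      L₀ (zetaC e D p c l b) ∈ K) (Q : WW K e) :
    L₀ (UU K D d l a b p 0 Q) * L₁ (UU K D d l a b p 1 Q) -
      L₁ (UU K D d l a b p 0 Q) * L₀ (UU K D d l a b p 1 Q) ∈ K := by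
  classical
  let u : Fin 2 → WW K e →ₗ[K] (Fin s → M) := fun j =>
    UU K D d l a b p j ∘ₗ (WW K e).subtype
  have hKc : ∀ c : (Fin s →₀ ℕ) → ℤ, ∀ Q : WW K e,
      (Q : MvPolynomial (Fin 2) K) = mfC al be ga e c →
      (L₀ (u 0 Q) * L₁ (u 1 Q) - L₁ (u 0 Q) * L₀ (u 1 Q) ∈ K) := by
    intro c Q hQ
    have h0 := zetaC_UU h he c 0
    have h1 := zetaC_UU h he c 1
    have e0 : u 0 Q = zetaC e D p c l a := by
      show UU K D d l a b p 0 (Q : MvPolynomial (Fin 2) K) = _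
      rw [hQ]; exact h0.symm
    have e1 : u 1 Q = zetaC e D p c l b := by
      show UU K D d l a b p 1 (Q : MvPolynomial (Fin 2) K) = _
      rw [hQ]; exact h1.symm
    rw [e0, e1]
    exact hK c
  refine quad_mem ((L₀.restrictScalars K) ∘ₗ u 0) ((L₁.restrictScalars K) ∘ₗ u 0)
    ((L₀.restrictScalars K) ∘ₗ u 1) ((L₁.restrictScalars K) ∘ₗ u 1)
    (fun m : {m : Fin 2 →₀ ℕ // m.degree ≤ e} =>
      (⟨monomial m.1 1, monomial_mem_WW m.2 1⟩ : WW K e)) (span_monomials e) ?_ ?_ Q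
  · intro m
    exact hKc _ _ (mfC_indH h m.2).symm
  · intro m m'
    refine hKc ((fun J => if hm l a b e m.1 = J then 1 else 0) +
      (fun J => if hm l a b e m'.1 = J then 1 else 0)) _ ?_
    rw [mfC_addH, mfC_indH h m.2, mfC_indH h m'.2]
    rfl

end DetMem

end Pool.Agent.Lib.MP_44a246_ntH
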