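import Mathlib
import Pool.Agent.Lib.MP_44a246_ntH.HF10

/-!
One form, the borderline case with a further derivation: the local theorem.
-/

set_option linter.unusedSectionVars false

namespace Pool.Agent.Lib.MP_44a246_ntH

open Pool.Agent.Lib.MP_e52354_nt Pool.Agent.Lib.MP_e52354_ntG Pool.Agent.Lib.MP_e52354_ntC
open Pool.Agent.Lib.MP_e52354_ntW Pool.Agent.Lib.MP_e52354_ntP Pool.Agent.Lib.MP_e52354_ntI
open MvPolynomial

universe u w w'

variable {s d : ℕ} {γ : Type w'} {M : Type u} [Field M] [CharZero M]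
  {Y : DData (Option (MIdx s 1 fun _ => d)) γ M} {p : Fin s → M} {l a b : Fin s} {k : ℕ}

theorem mA_KK (J : Fin s →₀ ℕ) : mA (base Y) 0 J ∈ KK Y := by
  unfold mA
  split_ifs with hJ
  · exact KK_a (X := Y) (some _)
  · exact zero_mem _

/-- the coefficients as elements of the subfield -/
noncomputable def AK (Y : DData (Option (MIdx s 1 fun _ => d)) γ M) (J : Fin s →₀ ℕ) : KK Y :=
  ⟨mA (base Y) 0 J, mA_KK J⟩

theorem coe_AK (J : Fin s →₀ ℕ) : ((AK Y J : KK Y) : M) = mA (base Y) 0 J := rfl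

theorem mD_KK (J : Fin s →₀ ℕ) {y : M} (hy : y ∈ KK Y) : mD (base Y) 0 J y ∈ KK Y := by
  unfold mD
  split_ifs with hJ
  · exact KK_D (X := Y) (some _) hy
  · exact zero_mem _

section Ctx

variable {al be ga : Fin s → KK Y} {lam : (Fin s →₀ ℕ) → KK Y}

/-- the corrected derivations -/
noncomputable abbrev Dt (Y : DData (Option (MIdx s 1 fun _ => d)) γ M)
    (lam : (Fin s →₀ ℕ) → KK Y) (J : Fin s →₀ ℕ) : Derivation ℤ M M :=
  mD (base Y) 0 J - (lam J : M) • Y.D none

theorem Dt_apply (J : Fin s →₀ ℕ) (y : M) :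
    Dt Y lam J y = mD (base Y) 0 J y - lam J * Y.D none y := by
  rw [Dt, Derivation.sub_apply, Derivation.smul_apply, smul_eq_mul]

/-- the abstract situation -/
theorem hctx (hF : ∀ j, Fval d (mA (base Y) j) p = 0) (hpl : p l = 1) (hEp : Ev Y p ≠ 0)
    (hNB : NB Y p) : HCtx (KK Y) d (Dt Y lam) (Y.D none) (AK Y) p (Gam Y p) where
  W := by
    refine Wts_Gam ?_ hNB
    rintro rfl
    exact zero_ne_one hpl
  DK := by
    intro J y hy
    rw [Dt_apply]
    exact sub_mem (mD_KK J hy) (mul_mem (lam J).2 (KK_D (X := Y) none hy))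
  EK := fun y hy => KK_D (X := Y) none hy
  DA := by
    intro I hI J hJ
    rw [Dt_apply, coe_AK, E_mA, mul_zero, sub_zero]
    exact m_hD_self (d := fun _ => d) (base Y) 0 I hI J hJ
  EA := fun J => E_mA 0 J
  F0 := hF 0
  Ep := by
    by_contra hcon
    push Not at hcon
    exact hEp (funext hcon)
  wD := by
    intro J _ i j
    rw [Dt_apply, Dt_apply]
    have h1 := gam_wedge (wt_up (wt_dp2 (X := base Y) (p := p) 0 J)) i j
    have h2 := gam_wedge (wt_Ev (Y := Y) (p := p)) i j
    have h3 := Gam_smul (p := p) (lam J).2 h2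
    have h4 := sub_mem h1 h3
    convert h4 using 1
    simp only [dp, Ev]
    ring
  wE := fun i j => gam_wedge (wt_Ev (Y := Y) (p := p)) i j
  wDE := by
    intro J _ i j
    rw [Dt_apply, Dt_apply]
    have h1 := gam_wedge3 hpl (wt_Ev (Y := Y) (p := p))
      (wt_up (wt_dp2 (X := base Y) (p := p) 0 J)) (Ev_one hpl) (by
        show mD (base Y) 0 J (p l) = 0
        rw [hpl]
        exact Derivation.map_one_eq_zero _) i j
    convert h1 using 1
    simp only [dp, Ev]
    ring

/-- the vectors xi -/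
theorem hxiH (P : Pln (Dt Y lam) d p l a b al be ga)
    (hxi : ∀ z ∈ mSxi (base Y) p, z ∈ W2 Y p) :
    XiH (KK Y) d (Dt Y lam) (Y.D none) (AK Y) p al be ga l a b := by
  classical
  intro i j
  obtain ⟨t, t', ht⟩ := mem_W2.mp (hxi _ ⟨i, j, rfl⟩)
  have hJ : ∀ J : Fin s →₀ ℕ, J.degree = d → ∀ k, mD (base Y) 0 J (p k) =
      EE (KK Y) (Dt Y lam) d l a b p (mf al be ga J) k + lam J * Y.D none (p k) := by
    intro J hJ k
    have h1 := P.D_eq hJ k
    rw [Dt_apply] at h1
    rw [← h1]
    ring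
  set μ : M := ∑ I ∈ expo (Fin s) d, mA (base Y) 0 I * (I i : M) *
    lam (I - Finsupp.single i 1 + Finsupp.single j 1) with hμ
  refine ⟨t, t' - μ, ?_⟩
  have hE : PH d (AK Y) al be ga i * lf al be ga j = ∑ I ∈ expo (Fin s) d,
      (AK Y I * (I i : KK Y)) • mf al be ga (I - Finsupp.single i 1 + Finsupp.single j 1) := by
    unfold PH
    rw [Finset.sum_mul]
    refine Finset.sum_congr rfl fun I _ => ?_
    rw [mf_add, mf_single, pow_one, smul_mul_assoc]
  rw [hE, map_sum]
  funext k
  rw [Finset.sum_apply]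
  have h1 := congrFun ht k
  simp only [mxi, Finset.univ_unique, Fin.default_eq_zero, Finset.sum_singleton, Fin.isValue,
    Pi.add_apply, Pi.smul_apply, smul_eq_mul] at h1
  have h2 : ∑ I ∈ expo (Fin s) d, mA (base Y) 0 I * (I i : M) *
      mD (base Y) 0 (I - Finsupp.single i 1 + Finsupp.single j 1) (p k) =
      ∑ I ∈ expo (Fin s) d, EE (KK Y) (Dt Y lam) d l a b p ((AK Y I * (I i : KK Y)) •
        mf al be ga (I - Finsupp.single i 1 + Finsupp.single j 1)) k + μ * Y.D none (p k) := by
    rw [hμ, Finset.sum_mul, ← Finset.sum_add_distrib]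
    refine Finset.sum_congr rfl fun I hI => ?_
    rw [map_smul, Pi.smul_apply, smul_eq']
    by_cases hi : I i = 0
    · simp [hi]
    · rw [hJ _ (mem_expo.mp (shift_mem hI hi j))]
      push_cast
      rw [coe_AK]
      ring
  rw [h2] at h1
  simp only [Pi.sub_apply, Pi.add_apply, Pi.smul_apply, smul_eq_mul]
  have h3 : (Pi.single i (1 : M) : Fin s → M) k = if i = k then 1 else 0 := by
    rw [Pi.single_apply]
    simp only [eq_comm]
  rw [h3]
  have h4 : p j * (if i = k then (1 : M) else 0) = if i = k then p j else 0 := by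
    split_ifs <;> simp
  rw [h4]
  have h5 : Ev Y p k = Y.D none (p k) := rfl
  rw [h5] at h1
  linear_combination h1

/-- the restriction of the equation to the plane is not zero -/
theorem fH_ne_zero (P : Pln (Dt Y lam) d p l a b al be ga)
    (hOff : ¬ MOnLine (fun _ => d) (mA (base Y)) p) : fH d (AK Y) al be ga ≠ 0 := by
  intro h0
  apply hOff
  refine lineP_zero_onLine (θ := fun k => (be k : M)) (b := a) (l := l) P.hpl ?_ ?_ fun j => ?_
  · show ((be l : KK Y) : M) = 0
    rw [P.coef_l.2.1]; rfl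
  · show ((be a : KK Y) : M) = 1
    rw [P.coef_a.2.1]; rfl
  · obtain rfl : j = 0 := Subsingleton.elim _ _
    apply Polynomial.funext
    intro t
    have h1 : evp (KK Y) (p a + t) (p b) (fH d (AK Y) al be ga) =
        Fval d (mA (base Y) 0) (fun k => p k + be k * t) := by
      unfold fH Fval
      rw [map_sum]
      refine Finset.sum_congr rfl fun J _ => ?_
      rw [map_smul, evp_mf (p := fun k => p k + be k * t) (fun k => by
        show p k + be k * t = _
        rw [P.hp k]
        ring)]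
      rfl
    rw [eval_lineP, Polynomial.eval_zero, ← h1, h0, map_zero]

/-- comparison of the vectors zeta of the corrected derivations -/
theorem zetaC_Dt {e : ℕ} (he : e + 1 = d) (c : (Fin s →₀ ℕ) → ℤ) (u v : Fin s) :
    ∃ μ : M, zetaC e (Dt Y lam) p c u v =
      mzetaC (base Y) p (fun _ => c) u v - μ • Ev Y p := by
  have h1 : ∀ v, dC e (Dt Y lam) p c v = mdC (base Y) p (fun _ => c) v -
      (∑ m ∈ expo (Fin s) e, (c m : M) * lam (m + Finsupp.single v 1)) • Ev Y p := by
    intro v
    funext k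
    simp only [dC, mdC, Pi.sub_apply, Pi.smul_apply, smul_eq_mul, Finset.univ_unique,
      Fin.default_eq_zero, Finset.sum_singleton, Finset.sum_mul]
    have he' : d - 1 = e := by omega
    rw [he', ← Finset.sum_sub_distrib]
    refine Finset.sum_congr rfl fun m _ => ?_
    rw [Dt_apply]
    simp only [Ev]
    ring
  refine ⟨p u * (∑ m ∈ expo (Fin s) e, (c m : M) * lam (m + Finsupp.single v 1)) -
    p v * (∑ m ∈ expo (Fin s) e, (c m : M) * lam (m + Finsupp.single u 1)), ?_⟩
  unfold zetaC mzetaC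
  rw [h1, h1]
  module

end Ctx

/-- The borderline case with a further derivation. -/
theorem hborder_false (hk : 1 ≤ k) (hs : s = 2 * k + 3) (hd : d = 3 * k + 3)
    (hF : ∀ j, Fval d (mA (base Y) j) p = 0) (hpl : p l = 1) (hEp : Ev Y p ≠ 0)
    (hNB : NB Y p) (hOff : ¬ MOnLine (fun _ => d) (mA (base Y)) p) : False := by
  classical
  have hd1 : ∀ j : Fin 1, 1 ≤ (fun _ => d) j := fun _ => by show 1 ≤ d; omega
  obtain ⟨hxi, a, b, al, be, ga, hal, hbe, hga, hp, hD, L, Λ, c, hLp, hLE, hL0, hLc, hLK, hΛE,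
    hΛ⟩ := hfront (Y := Y) (q := 1) (r := 2 * k + 1) (n := k) (by omega) hk rfl hd1
      (by simp only [Finset.univ_unique, Finset.sum_const, Finset.card_singleton, smul_eq_mul]
          omega) hF hpl hEp hNB hOff
  let al' : Fin s → KK Y := fun k => ⟨al k, hal k⟩
  let be' : Fin s → KK Y := fun k => ⟨be k, hbe k⟩
  let ga' : Fin s → KK Y := fun k => ⟨ga k, hga k⟩
  have P0 : Pln (fun _ => (0 : Derivation ℤ M M)) d p l a b al' be' ga' :=
    { hpl := hpl
      hp := hp
      hD := fun _ _ _ _ => by simp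
      hline := by
        intro w hw
        choose u hu v hv huv using hw
        exact hno_line (Y := Y) (A := u) (B := v) (x := w) hF hNB hOff hu hv
          (fun i => by rw [huv i, mul_comm]) }
  have hE0 : ∃ t, Y.D none (p t) ≠ 0 := by
    by_contra hcon
    push Not at hcon
    exact hEp (funext hcon)
  obtain ⟨lam, P, hEE⟩ := exists_corr (D := mD (base Y) 0) (E := Y.D none) P0 hE0 (by
    intro m hm' k
    obtain ⟨x, hx, hx'⟩ := hD 0 m hm' k
    exact ⟨⟨x, hx⟩, fun t => hx' t⟩)
  have P' : Pln (Dt Y lam) d p l a b al' be' ga' := P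
  have H : HCtx (KK Y) d (Dt Y lam) (Y.D none) (AK Y) p (Gam Y p) := hctx hF hpl hEp hNB
  have he : 3 * k + 2 + 1 = d := by omega
  -- the functionals on the vectors zeta
  have hLz : ∀ i j (c' : (Fin s →₀ ℕ) → ℤ) v, L i j (zetaC (3 * k + 2) (Dt Y lam) p c' l v) =
      L i j (mzetaC (base Y) p (fun _ => c') l v) := by
    intro i j c' v
    obtain ⟨μ, hμ⟩ := zetaC_Dt (Y := Y) (lam := lam) (p := p) he c' l v
    rw [hμ, map_sub, map_smul, hLE, smul_zero, sub_zero]
  -- the functional dual to the derivative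
  have hUU : ∀ {m : Fin 2 →₀ ℕ} (_ : m.degree ≤ 3 * k + 2) (i : Fin 2),
      UU (KK Y) (Dt Y lam) d l a b p i (monomial m 1) =
        zeta (mD (base Y) 0) p (hm l a b (3 * k + 2) m) l (![a, b] i) := by
    intro m hm0 i
    have h1 : UU (KK Y) (Dt Y lam) d l a b p i (monomial m 1) =
        UU (KK Y) (mD (base Y) 0) d l a b p i (monomial m 1) := by
      rw [UU_apply, UU_apply, hEE, hEE]
    rw [h1]
    obtain rfl : d = 3 * k + 2 + 1 := by omega
    rw [UU_monomial hm0]
    funext t
    simp only [zeta, hpl, one_mul]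
  have hzeta : ∀ {m : Fin 2 →₀ ℕ} (_ : m.degree ≤ 3 * k + 2) (u v : Fin s),
      zeta (mD (base Y) 0) p (hm l a b (3 * k + 2) m) u v =
        mzetaC (base Y) p (mind 0 (hm l a b (3 * k + 2) m)) u v := by
    intro m hm0 u v
    rw [mzetaC_ind]
    rw [degree_hm hm0]
    exact he
  refine H.plane_false P' hk hs hd (fH_ne_zero P' hOff) (hxiH P' hxi) L hLp hLE ?_
    (fun i => ⟨mfC al' be' ga' (3 * k + 2) (c i 0), mfC_mem _ _⟩) ?_ ?_ Λ hΛE ?_ ?_
  · intro z hz h0
    exact mem_W2.mp (hL0 z (mem_mTT.mpr fun j => by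
      obtain rfl : j = 0 := Subsingleton.elim _ _
      exact hz) h0)
  · intro i j j'
    have h1 := hLc i i j j'
    have h2 : (fun _ : Fin 1 => c i 0) = c i := by
      funext j
      rw [Subsingleton.elim j 0]
    rw [← h2, ← hLz, zetaC_UU P' he] at h1
    rw [h1]
    simp
  · intro i Q
    refine det_memH P' he (L i 0) (L i 1) ?_ Q
    intro c'
    rw [hLz, hLz, hLz, hLz]
    exact hLK i (fun _ => c')
  · intro i Q hQ
    refine WW_induction (P := fun Q => Λ (UU (KK Y) (Dt Y lam) d l a b p i Q) ∈ Gam Y p 1)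
      ?_ ?_ ?_ hQ
    · intro m hm0
      rw [hUU hm0, hzeta hm0]
      exact hΛ _ _ _
    · intro Q Q' h1 h2
      rw [map_add, map_add]
      exact add_mem h1 h2
    · intro t Q h1
      have h2 : Λ (UU (KK Y) (Dt Y lam) d l a b p i (t • Q)) =
          (t : M) * Λ (UU (KK Y) (Dt Y lam) d l a b p i Q) := by
        rw [map_smul]
        have : t • (UU (KK Y) (Dt Y lam) d l a b p i) Q =
            (t : M) • (UU (KK Y) (Dt Y lam) d l a b p i) Q := rfl
        rw [this, map_smul, smul_eq_mul]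
      rw [h2]
      exact Gam_smul t.2 h1
  · intro Q hQ
    refine WW_induction (P := fun Q => p a * Λ (UU (KK Y) (Dt Y lam) d l a b p 1 Q) -
      p b * Λ (UU (KK Y) (Dt Y lam) d l a b p 0 Q) ∈ Gam Y p 1) ?_ ?_ ?_ hQ
    · intro m hm0
      rw [hUU hm0, hUU hm0, hzeta hm0, hzeta hm0]
      have h1 := hΛ (mind 0 (hm l a b (3 * k + 2) m)) a b
      rw [mzetaC_base hpl, map_sub, map_smul, map_smul, smul_eq_mul, smul_eq_mul] at h1
      exact h1
    · intro Q Q' h1 h2
      have h3 := add_mem h1 h2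
      rw [map_add, map_add, map_add, map_add]
      convert h3 using 1
      ring
    · intro t Q h1
      have h2 : ∀ i, Λ (UU (KK Y) (Dt Y lam) d l a b p i (t • Q)) =
          (t : M) * Λ (UU (KK Y) (Dt Y lam) d l a b p i Q) := by
        intro i
        rw [map_smul]
        have : t • (UU (KK Y) (Dt Y lam) d l a b p i) Q =
            (t : M) • (UU (KK Y) (Dt Y lam) d l a b p i) Q := rfl
        rw [this, map_smul, smul_eq_mul]
      rw [h2, h2]
      have h3 := Gam_smul (p := p) t.2 h1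
      convert h3 using 1
      ring

end Pool.Agent.Lib.MP_44a246_ntH
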