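import Mathlib
import Pool.Agent.Lib.MP_44a246_ntL.LDer

/-!
Commuting derivations of a function field, dual to an algebraically independent family of
constants and to the variable.
-/

namespace Pool.Agent.Lib.MP_44a246_ntH

open Pool.Agent.Lib.MP_e52354_nt
open Pool.Agent.Lib.MP_44a246_nt

variable {k₀ κ K : Type*} [Field k₀] [CharZero k₀] [Field κ] [Field K] [Algebra k₀ κ] [Algebra κ K]
  [Algebra k₀ K] [IsScalarTower k₀ κ K]

theorem exists_const_ders {t : K} (ht : Transcendental κ t)
    (halg : Algebra.IsAlgebraic (IntermediateField.adjoin κ {t}) K)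
    {Θ : Type*} [DecidableEq Θ] {c : Θ → κ} (hc : AlgebraicIndependent k₀ c) :
    ∃ D : Option Θ → Derivation ℤ K K,
      (∀ i, ∀ u : κ, ∃ u' : κ, D i (algebraMap κ K u) = algebraMap κ K u') ∧
      (∀ i, ∃ v : κ, D i t = algebraMap κ K v) ∧
      (∀ u : κ, D none (algebraMap κ K u) = 0) ∧ D none t = 1 ∧
      (∀ θ, D (some θ) t = 0) ∧
      (∀ θ θ', D (some θ) (algebraMap κ K (c θ')) = if θ = θ' then 1 else 0) ∧
      (∀ i i' y, D i (D i' y) = D i' (D i y)) := by
  classical
  have hcK : CharZero κ := charZero_of_injective_algebraMap (algebraMap k₀ κ).injective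
  -- a transcendence basis of `κ` containing the family
  have hc' : AlgebraicIndepOn k₀ id (Set.range c) := hc.coe_range
  obtain ⟨s, hs1, hx⟩ := exists_isTranscendenceBasis_superset hc'
  set x : s → κ := ((↑) : s → κ) with hxdef
  have hy : IsTranscendenceBasis κ (fun _ : Unit => t) := by
    have h1 : AlgebraicIndependent κ (fun _ : Unit => t) :=
      algebraicIndependent_unique_type_iff.mpr ht
    rw [h1.isTranscendenceBasis_iff_isAlgebraic, ← IntermediateField.isAlgebraic_adjoin_iff_top,
      Set.range_const]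
    exact halg
  set z : Unit ⊕ s → K := Sum.elim (fun _ => t) (algebraMap κ K ∘ x) with hz
  have hzb : IsTranscendenceBasis k₀ z := hx.sumElim_comp hy
  have hzalg : Algebra.IsAlgebraic (Algebra.adjoin k₀ (Set.range z)) K := hzb.isAlgebraic
  have hxalg : Algebra.IsAlgebraic (Algebra.adjoin k₀ (Set.range x)) κ := hx.isAlgebraic
  have hxalg' : Algebra.IsAlgebraic (IntermediateField.adjoin k₀ (Set.range x)) κ :=
    hx.isAlgebraic_field
  have hzalg' : Algebra.IsAlgebraic (IntermediateField.adjoin k₀ (Set.range z)) K :=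
    hzb.isAlgebraic_field
  -- the dual derivations
  choose E hE using fun j : Unit ⊕ s =>
    exists_derivation hzb.1 (fun i => if i = j then (1 : K) else 0)
  choose e he using fun j : s =>
    exists_derivation hx.1 (fun i => if i = j then (1 : κ) else 0)
  have hE0 : ∀ u : κ, E (Sum.inl ()) (algebraMap κ K u) = 0 := by
    intro u
    have hu : IsAlgebraic (IntermediateField.adjoin k₀ (Set.range x)) u := hxalg'.isAlgebraic u
    have h1 := der_eq_zero (V := K) ((E (Sum.inl ())).compAlgebraMap κ) (Set.range x) ?_ hu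
    · exact h1
    · rintro _ ⟨i, rfl⟩
      have h2 := hE (Sum.inl ()) (Sum.inr i)
      simpa [hz] using h2
  have hEκ : ∀ j, ∀ u : κ, ∃ u' : κ, E j (algebraMap κ K u) = algebraMap κ K u' := by
    intro j u
    have hu : IsAlgebraic (IntermediateField.adjoin k₀ (Set.range x)) u := hxalg'.isAlgebraic u
    rcases j with j | j
    · exact ⟨0, by rw [map_zero]; exact hE0 u⟩
    · refine ⟨e j u, ?_⟩
      have h1 := der_eq_zero (V := K) ((E (Sum.inr j)).compAlgebraMap κ -
        (Algebra.linearMap κ K).compDer (e j)) (Set.range x) ?_ hu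
      · rw [Derivation.sub_apply] at h1
        exact sub_eq_zero.mp h1
      · rintro _ ⟨i, rfl⟩
        have h2 := hE (Sum.inr j) (Sum.inr i)
        have h3 := he j i
        rw [Derivation.sub_apply, sub_eq_zero]
        show E (Sum.inr j) (algebraMap κ K (x i)) = algebraMap κ K (e j (x i))
        rw [h3]
        have h4 : z (Sum.inr i) = algebraMap κ K (x i) := rfl
        rw [← h4, h2]
        by_cases hij : i = j
        · simp [hij]
        · simp [hij]
  have hEt : ∀ j, ∃ v : κ, E j t = algebraMap κ K v := by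
    intro j
    have h2 := hE j (Sum.inl ())
    have h4 : z (Sum.inl ()) = t := rfl
    rw [h4] at h2
    by_cases hj : Sum.inl () = j
    · exact ⟨1, by rw [h2, if_pos hj, map_one]⟩
    · exact ⟨0, by rw [h2, if_neg hj, map_zero]⟩
  have hcomm : ∀ i j y, E i (E j y) = E j (E i y) := by
    intro i j y
    have h1 := der_eq_zero (V := K) ⁅E i, E j⁆ (Set.range z) ?_ (hzalg'.isAlgebraic y)
    · rw [Derivation.commutator_apply] at h1
      exact sub_eq_zero.mp h1
    · rintro _ ⟨k, rfl⟩
      rw [Derivation.commutator_apply]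
      have h2 : ∀ i j, E i (E j (z k)) = 0 := by
        intro i j
        rw [hE]
        split_ifs
        · exact Derivation.map_one_eq_zero _
        · exact map_zero _
      rw [h2, h2, sub_zero]
  let ix : Option Θ → Unit ⊕ s := fun o =>
    o.elim (Sum.inl ()) (fun θ => Sum.inr ⟨c θ, hs1 ⟨θ, rfl⟩⟩)
  refine ⟨fun o => (E (ix o)).restrictScalars ℤ, fun i => hEκ _, fun i => hEt _, hE0, ?_, ?_, ?_,
    fun i i' y => hcomm _ _ y⟩
  · have h2 := hE (Sum.inl ()) (Sum.inl ())
    rw [if_pos rfl] at h2
    exact h2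
  · intro θ
    have h2 := hE (ix (some θ)) (Sum.inl ())
    rw [if_neg (by simp [ix])] at h2
    exact h2
  · intro θ θ'
    have h2 := hE (ix (some θ)) (Sum.inr ⟨c θ', hs1 ⟨θ', rfl⟩⟩)
    have h3 : (E (ix (some θ))) (algebraMap κ K (c θ')) =
        if (Sum.inr ⟨c θ', hs1 ⟨θ', rfl⟩⟩ : Unit ⊕ s) = ix (some θ) then 1 else 0 := h2
    show (E (ix (some θ))) (algebraMap κ K (c θ')) = _
    rw [h3]
    by_cases h : θ = θ'
    · subst h
      have h5 : (Sum.inr ⟨c θ, hs1 ⟨θ, rfl⟩⟩ : Unit ⊕ s) = ix (some θ) := rfl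
      rw [if_pos h5, if_pos rfl]
    · rw [if_neg h, if_neg]
      intro h4
      have h5 := Sum.inr_injective h4
      have h6 := congrArg Subtype.val h5
      exact h (hc.injective h6.symm)

end Pool.Agent.Lib.MP_44a246_ntH
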