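import Mathlib
import Pool.Agent.Lib.MP_44a246_ntB.CUltra
import Pool.Agent.Lib.MP_44a246_ntH.HF11

/-!
Sequences of points of a hypersurface, the borderline case with a further derivation: a local
bound or lines of zeros.
-/

set_option linter.unusedSectionVars false

namespace Pool.Agent.Lib.MP_44a246_ntH

open Pool.Agent.Lib.MP_e52354_nt Pool.Agent.Lib.MP_e52354_ntP Pool.Agent.Lib.MP_e52354_ntG
open Pool.Agent.Lib.MP_e52354_ntI Pool.Agent.Lib.MP_44a246_ntB Pool.Agent.Lib.MP_e52354_ntW

section Data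

variable {Λ : Type*} [Field Λ] [CharZero Λ] {L : ℕ → Type*} [∀ j, Field (L j)]
  (φ : ∀ j, L j →+* Λ) {ι : Type*} [DecidableEq ι]
  (DL : ∀ j, ι → Derivation ℤ (L j) (L j))
  (DΛ : ι → Derivation ℤ Λ Λ)
  (hcomp : ∀ j i y, φ j (DL j i y) = DΛ i (φ j y))

/-- the data in the ultraproduct -/
noncomputable def YU (a : ι → ∀ j, L j)
    (hD : ∀ j I J, DL j I (a J j) = if I = J then 1 else 0)
    (hcomm : ∀ j I J y, DL j I (DL j J y) = DL j J (DL j I y)) :
    DData ι Empty (MU φ) where
  a I := mkU φ (a I)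
  b g := g.elim
  D I := DMU φ DL DΛ hcomp I
  hD I J := by
    rw [DMU_mkU]
    have h1 : (fun j => DL j I (a J j)) = fun _ => if I = J then 1 else 0 := by
      funext j
      exact hD j I J
    rw [h1]
    by_cases hIJ : I = J
    · simp only [if_pos hIJ]
      exact map_one _
    · simp only [if_neg hIJ]
      exact map_zero _
  hb _ g := g.elim
  hcomm I J y := by
    obtain ⟨g, rfl⟩ := mkU_surjective φ y
    rw [DMU_mkU, DMU_mkU, DMU_mkU, DMU_mkU]
    congr 1
    funext j
    exact hcomm j I J _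

end Data

section Ultra

variable {Λ : Type*} [Field Λ] [CharZero Λ] {L : ℕ → Type*} [∀ j, Field (L j)]
  (φ : ∀ j, L j →+* Λ) {s d : ℕ}
  (DL : ∀ j, Option (MIdx s 1 fun _ => d) → Derivation ℤ (L j) (L j))
  (DΛ : Option (MIdx s 1 fun _ => d) → Derivation ℤ Λ Λ)
  (hcomp : ∀ j i y, φ j (DL j i y) = DΛ i (φ j y))

include hcomp in
theorem ultraH {k : ℕ} (hk : 1 ≤ k) (hs : s = 2 * k + 3) (hd : d = 3 * k + 3)
    (a : Option (MIdx s 1 fun _ => d) → ∀ j, L j)
    (hD : ∀ j I J, DL j I (a J j) = if I = J then 1 else 0)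
    (hcomm : ∀ j I J y, DL j I (DL j J y) = DL j J (DL j I y))
    (p : Fin s → ∀ j, L j) {l : Fin s} (hpl : ∀ j, p l j = 1)
    (hF : ∀ j f, Fval d (aj (fun I => a (some I)) f j) (fun k => p k j) = 0) :
    (∃ (c e : ℕ) (J : ∀ j, L j), 0 < e ∧ ∀ᶠ j in (Filter.hyperfilter ℕ : Filter ℕ), J j ≠ 0 ∧
      LBF (DL j) none (fun t => a t j) 0 (fun k => p k j) 1 c e (J j)) ∨
    (∀ᶠ j in (Filter.hyperfilter ℕ : Filter ℕ), ∀ k, DL j none (p k j) = 0) ∨
    (2 ≤ k ∧ ∀ᶠ j in (Filter.hyperfilter ℕ : Filter ℕ),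
      ∃ y : Fin s → L j, (∃ i k, p i j * y k - p k j * y i ≠ 0) ∧
        ∀ f, ∀ u v : L j, Fval d (aj (fun I => a (some I)) f j)
          (fun k => p k j * u + y k * v) = 0) := by
  classical
  have hcU : CharZero (UP Λ) := charZero_of_injective_ringHom (constHom (L := Λ)).injective
  have hcM : CharZero (MU φ) := inferInstance
  set Y := YU φ DL DΛ hcomp a hD hcomm with hY
  set pM : Fin s → MU φ := fun k => mkU φ (p k) with hpM
  have hmA : ∀ f, mA (base Y) f = fun I => mkU φ (fun j => aj (fun I => a (some I)) f j I) := by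
    intro f
    funext I
    unfold mA aj
    split_ifs with h1
    · rfl
    · exact (map_zero (mkU φ)).symm
  have hFv : ∀ f (x : Fin s → ∀ j, L j), Fval d (mA (base Y) f) (fun k => mkU φ (x k)) =
      mkU φ (fun j => Fval d (aj (fun I => a (some I)) f j) (fun k => x k j)) := by
    intro f x
    rw [hmA, ← map_Fval_pi (mkU φ) d (fun I j => aj (fun I => a (some I)) f j I) x]
  have hFM : ∀ f, Fval d (mA (base Y) f) pM = 0 := by
    intro f
    rw [hpM, hFv, mkU_eq_zero]
    exact Filter.Eventually.of_forall fun j => hF j f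
  have hplM : pM l = 1 := by
    have h1 : p l = 1 := funext hpl
    rw [hpM]
    simp only [h1, map_one]
  by_cases hEv : Ev Y pM = 0
  · right; left
    have h1 : ∀ k, ∀ᶠ j in (Filter.hyperfilter ℕ : Filter ℕ), DL j none (p k j) = 0 := by
      intro k
      have h2 := congrFun hEv k
      have h3 : Ev Y pM k = mkU φ (fun j => DL j none (p k j)) := by
        show DMU φ DL DΛ hcomp none (mkU φ (p k)) = _
        rw [DMU_mkU]
      rw [h3] at h2
      have h4 : mkU φ (fun j => DL j none (p k j)) = 0 := h2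
      rwa [mkU_eq_zero] at h4
    exact Filter.eventually_all.mpr h1
  by_cases hline : MOnLine (fun _ => d) (mA (base Y)) pM
  · right; right
    refine ⟨?_, ?_⟩
    · by_contra hk2
      refine not_mOnLine (X := base Y) (p := pM) (q := 1) ?_ hline
      simp only [Finset.univ_unique, Finset.sum_const, Finset.card_singleton, smul_eq_mul]
      omega
    obtain ⟨z, ⟨i, k, hik⟩, hz⟩ := hline
    choose y hy using fun k => mkU_surjective φ (z k)
    have h1 : ∀ᶠ j in (Filter.hyperfilter ℕ : Filter ℕ), p i j * y k j - p k j * y i j ≠ 0 := by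
      have h2 : mkU φ (fun j => p i j * y k j - p k j * y i j) ≠ 0 := by
        have e1 : mkU φ (fun j => p i j * y k j - p k j * y i j) = pM i * z k - pM k * z i := by
          rw [← hy k, ← hy i, hpM, ← map_mul, ← map_mul, ← map_sub]
          rfl
        rw [e1]
        exact hik
      rw [Ne, mkU_eq_zero] at h2
      exact Ultrafilter.eventually_not.mpr h2
    have h2 : ∀ᶠ j in (Filter.hyperfilter ℕ : Filter ℕ), ∀ f, ∀ u v : L j,
        Fval d (aj (fun I => a (some I)) f j) (fun k => p k j * u + y k j * v) = 0 := by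
      by_contra hcon
      have hcon' : ∀ᶠ j in (Filter.hyperfilter ℕ : Filter ℕ), ∃ f, ¬ ∀ u v : L j,
          Fval d (aj (fun I => a (some I)) f j) (fun k => p k j * u + y k j * v) = 0 := by
        filter_upwards [Ultrafilter.eventually_not.mpr hcon] with j hj
        push Not at hj ⊢
        exact hj
      obtain ⟨f, hf⟩ := ultra_exists hcon'
      have h3 : ∀ j, ∃ u v : L j, (¬ ∀ u v : L j,
          Fval d (aj (fun I => a (some I)) f j) (fun k => p k j * u + y k j * v) = 0) →
          Fval d (aj (fun I => a (some I)) f j) (fun k => p k j * u + y k j * v) ≠ 0 := by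
        intro j
        by_cases hj : ∀ u v : L j, Fval d (aj (fun I => a (some I)) f j)
            (fun k => p k j * u + y k j * v) = 0
        · exact ⟨0, 0, fun h => absurd hj h⟩
        · push Not at hj
          obtain ⟨u, v, huv⟩ := hj
          exact ⟨u, v, fun _ => huv⟩
      choose u v huv using h3
      have h4 := hz f (mkU φ u) (mkU φ v)
      have e1 : (fun k => pM k * mkU φ u + z k * mkU φ v) =
          fun k => mkU φ (fun j => p k j * u j + y k j * v j) := by
        funext k
        rw [← hy k, hpM, ← map_mul, ← map_mul, ← map_add]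
        rfl
      rw [e1, hFv f (fun k j => p k j * u j + y k j * v j), mkU_eq_zero] at h4
      obtain ⟨j, h5, h6⟩ := (h4.and hf).exists
      exact huv j h6 h5
    filter_upwards [h1, h2] with j h3 h4
    exact ⟨fun k => y k j, ⟨i, k, h3⟩, h4⟩
  · left
    have hloc : ∃ c e : ℕ, 0 < e ∧ ∃ J : MU φ, J ≠ 0 ∧ LocalBound Y pM c e J := by
      by_contra hcon
      push Not at hcon
      refine hborder_false (Y := Y) (p := pM) (l := l) hk hs hd hFM hplM hEv ?_ hline
      intro c e J he hJ0 hJ
      exact hcon c e he J hJ0 hJ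
    obtain ⟨c, e, he, J, hJ0, hJ⟩ := hloc
    obtain ⟨J', rfl⟩ := mkU_surjective φ J
    refine ⟨c, e, J', he, Filter.Eventually.and ?_ ?_⟩
    · rw [Ne, mkU_eq_zero] at hJ0
      exact Ultrafilter.eventually_not.mpr hJ0
    · refine LBF_of_ultra φ DL DΛ hcomp (a := a) (z := 1) ?_
      intro O' δ' l' hA
      exact hJ O' δ' hA.hval hA.hδ (fun I => hA.hDO I) hA.ha (fun g => g.elim) l' hA.hl hA.hp

end Ultra

end Pool.Agent.Lib.MP_44a246_ntH
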