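import Mathlib
import Pool.Agent.Lib.MP_44a246_ntB.SeqB
import Pool.Agent.Lib.MP_44a246_ntB.CMain
import Pool.Agent.Lib.MP_44a246_ntH.HG1
import Pool.Agent.Lib.MP_44a246_ntH.HG2

/-!
Algebraic points of very general hypersurfaces with constant coefficients over a function field:
the borderline case.
-/

namespace Pool.Agent.Lib.MP_44a246_ntH

open Pool.Agent.Lib.MP_e52354_nt
open Pool.Agent.Lib.MP_e52354_ntG
open Pool.Agent.Lib.MP_44a246_nt
open Pool.Agent.Lib.MP_44a246_ntL
open Pool.Agent.Lib.MP_44a246_ntB
open WithZero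

universe w u₁ u₂

section Main

variable {k₀ : Type*} {κ : Type u₁} {K : Type u₂} [Field k₀] [CharZero k₀] [Field κ]
  [IsAlgClosed κ] [CharZero κ] [Field K]
  [Algebra k₀ κ] [Algebra κ K] [Algebra k₀ K] [IsScalarTower k₀ κ K]

omit [CharZero κ] in
/-- a common bound for the poles of a finite family of elements -/
theorem exists_polesA [CharZero κ] (hK : IsFF κ K) {θ : Type*} [Fintype θ] (aK : θ → K) :
    ∃ A : Place κ K → ℕ, (Function.support A).Finite ∧ ∀ I v, v.1 (aK I) ≤ exp (A v : ℤ) := by
  classical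
  refine ⟨fun v => ∑ I, (log (v.1 (aK I))).toNat, ?_, ?_⟩
  · have h3 : (Function.support fun v : Place κ K => ∑ I, (log (v.1 (aK I))).toNat) ⊆
        ⋃ I, Function.support fun v : Place κ K => log (v.1 (aK I)) := by
      intro v hv
      rw [Set.mem_iUnion]
      by_contra hcon
      push Not at hcon
      apply hv
      refine Finset.sum_eq_zero fun I _ => ?_
      have := hcon I
      rw [Function.mem_support, not_not] at this
      rw [this]
      rfl
    refine (Set.finite_iUnion fun I => ?_).subset h3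
    by_cases h0 : aK I = 0
    · rw [h0]
      simp
    · exact hK.place_support h0
  · intro I v
    by_cases h0 : aK I = 0
    · rw [h0, map_zero]; exact zero_le
    · rw [← log_le_iff_le_exp ((v.1.ne_zero_iff).mpr h0)]
      have h4 : (log (v.1 (aK I))).toNat ≤ ∑ I, (log (v.1 (aK I))).toNat :=
        Finset.single_le_sum (f := fun I => (log (v.1 (aK I))).toNat)
          (fun _ _ => Nat.zero_le _) (Finset.mem_univ I)
      have h5 := Int.self_le_toNat (log (v.1 (aK I)))
      have h6 : (((log (v.1 (aK I))).toNat : ℕ) : ℤ) ≤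
        ((∑ I, (log (v.1 (aK I))).toNat : ℕ) : ℤ) := by exact_mod_cast h4
      exact h5.trans h6

/-- the exceptional condition: the point is on a line of zeros -/
def ExcL {s : ℕ} (d k : ℕ) (a : (Fin s →₀ ℕ) → K) (P : PtL.{w} κ K (Fin s)) : Prop :=
  2 ≤ k ∧ ∃ y : Fin s → P.L, (∃ i k, P.x i * y k - P.x k * y i ≠ 0) ∧
    ∀ u v : P.L, Fval d (fun I => algebraMap K P.L (a I)) (fun k => P.x k * u + y k * v) = 0

theorem const_border_l {t : K} (ht : Transcendental κ t)
    (hfin : FiniteDimensional (IntermediateField.adjoin κ {t}) K) {s d k : ℕ}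
    (hk : 1 ≤ k) (hs : s = 2 * k + 3) (hd : d = 3 * k + 3)
    (a : (Fin s →₀ ℕ) → κ)
    (hc : AlgebraicIndependent k₀ (fun θ : MIdx s 1 (fun _ => d) => a θ.2.1)) (l : Fin s) :
    ∃ C : ℕ, ∀ P : PtL.{w} κ K (Fin s),
      (Fval d (fun I => algebraMap K P.L (algebraMap κ K (a I))) P.x = 0) → P.x l = 1 →
      height κ P.x ≤ (C : ℤ) * ((ramDeg κ P.L K : ℤ) + (Module.finrank K P.L : ℤ)) ∨
        (∀ i, ∃ c : κ, algebraMap κ P.L c = P.x i) ∨
        ExcL d k (fun I => algebraMap κ K (a I)) P := by
  classical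
  have hcK : CharZero K := charZero_of_injective_algebraMap (algebraMap κ K).injective
  have halg : Algebra.IsAlgebraic (IntermediateField.adjoin κ {t}) K :=
    Algebra.IsAlgebraic.of_finite _ _
  have hK : IsFF κ K := ⟨t, ht, hfin⟩
  -- the derivations
  obtain ⟨DK, hDκ, hDt, hE, hEt, hDIt, hDD, hcomm⟩ := exists_const_ders ht halg hc
  let aK : Option (MIdx s 1 fun _ => d) → K := fun o =>
    o.elim t (fun θ => algebraMap κ K (a θ.2.1))
  obtain ⟨A, hA, hPA⟩ := exists_polesA hK aK
  obtain ⟨B, hB, hPB'⟩ : ∃ B : Place κ K → ℕ, (Function.support B).Finite ∧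
      ∀ i, PoleBound κ (DK i) B := by
    refine poleBound_family DK fun i => ?_
    exact exists_poleBound ht hfin (DK i) (hDκ i) (hDt i)
  choose DΛ hDΛ using fun i => exists_extension (K := K) (L := AlgebraicClosure K) (DK i)
  choose DL hDL using fun (P : PtL.{w} κ K (Fin s)) =>
    fun i => exists_extension (K := K) (L := P.L) (DK i)
  have hdual : ∀ I J, DK I (aK J) = if I = J then 1 else 0 := by
    intro I J
    rcases I with _ | I <;> rcases J with _ | J
    · rw [if_pos rfl]
      exact hEt
    · rw [if_neg (by simp)]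
      exact hE _
    · rw [if_neg (by simp)]
      exact hDIt I
    · have h1 : DK (some I) (aK (some J)) = if I = J then 1 else 0 := hDD I J
      rw [h1]
      simp only [Option.some_inj]
  have hX : ∀ P : PtL.{w} κ K (Fin s), HS (κ := κ) aK DK (DL P) none B A :=
    fun P => ⟨hDL P, hPB', fun θ v => hPA θ v, fun y hy =>
      const_of_ddt (Λ := P.L) ht halg hE hEt (hDL P none) hy⟩
  obtain ⟨C, hC⟩ := seq_bound hK hB hA DL hX (S := ∅) Set.finite_empty l 0
    (fun P => Fval d (fun I => algebraMap K P.L (algebraMap κ K (a I))) P.x = 0)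
    (fun P => (∀ k, DL P none (P.x k) = 0) ∨ ExcL d k (fun I => algebraMap κ K (a I)) P)
    (fun _ => 1) (fun _ _ => one_ne_zero) (fun P _ w => by
      rw [map_one, pow_zero, mul_one]
      have h0 : exp (0 : ℤ) ≤ exp (((ramIdx K w.1 * A (below K w) : ℕ)) : ℤ) :=
        exp_le_exp.mpr (Int.natCast_nonneg _)
      exact h0) (by
      intro P hG hl
      have hFc : ∀ j (f : Fin 1) (x : Fin s → (P j).L),
          Fval d (aj (fun (t : MIdx s 1 fun _ => d) j => algebraMap K (P j).L (aK (some t))) f j)
            x = Fval d (fun I => algebraMap K (P j).L (algebraMap κ K (a I))) x := by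
        intro j f x
        unfold Fval
        refine Finset.sum_congr rfl fun I hI => ?_
        unfold aj
        rw [dif_pos hI]
        rfl
      have hφ : ∀ j, Nonempty ((P j).L →ₐ[K] AlgebraicClosure K) := fun j =>
        ⟨IsAlgClosed.lift⟩
      rcases ultraH (φ := fun j => (((hφ j).some : (P j).L →ₐ[K] AlgebraicClosure K) :
          (P j).L →+* AlgebraicClosure K)) (DL := fun j => DL (P j)) (DΛ := DΛ)
          (fun j i y => ext_compat (hDL (P j) i) (hDΛ i) ((hφ j).some) y)
          hk hs hd (fun t j => algebraMap K (P j).L (aK t))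
          (fun j I J => by
            rw [hDL, hdual]
            split_ifs <;> simp)
          (fun j I J y => ext_comm (hcomm I J) (hDL (P j) I) (hDL (P j) J) y)
          (fun k j => (P j).x k) (l := l) hl (fun j f => by
            rw [hFc]
            exact hG j) with ⟨c, e, J, he, hJ⟩ | hcst | ⟨hk2, hexc⟩
      · exact Or.inl ⟨c, e, J, he, hJ⟩
      · right
        filter_upwards [hcst] with j hj
        exact Or.inl hj
      · right
        filter_upwards [hexc] with j hj
        obtain ⟨y, hy, hz⟩ := hj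
        refine Or.inr ⟨hk2, y, hy, fun u v => ?_⟩
        rw [← hFc j 0]
        exact hz 0 u v)
  refine ⟨C, fun P hP hl => ?_⟩
  rcases hC P hP hl with h1 | h1 | h1
  · left
    have h2 : (meetF (κ := κ) 0 P.x (1 : P.L) (∅ : Set (Place κ K))) = ∅ := by
      ext w
      unfold meetF
      rw [Set.mem_ofPred_eq, pow_zero, map_one]
      simp
    rw [h2, Set.ncard_empty] at h1
    simpa using h1
  · exact Or.inr (Or.inl fun i => const_of_ddt (Λ := P.L) ht halg hE hEt (hDL P none) (h1 i))
  · exact Or.inr (Or.inr h1)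

end Main

end Pool.Agent.Lib.MP_44a246_ntH
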