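import Mathlib
import Pool.Agent.Lib.MP_44a246_ntB.Comb
import Pool.Agent.Lib.MP_44a246_ntH.HG3

/-!
Algebraic points of very general hypersurfaces with constant coefficients over a function field:
the borderline case, for polynomials.
-/

namespace Pool.Agent.Lib.MP_44a246_ntH

open Pool.Agent.Lib.MP_e52354_nt
open Pool.Agent.Lib.MP_e52354_ntG
open Pool.Agent.Lib.MP_44a246_nt
open Pool.Agent.Lib.MP_44a246_ntL
open Pool.Agent.Lib.MP_44a246_ntB
open WithZero

universe w u₁ u₂

section Const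

variable {κ L : Type*} [Field κ] [Field L] [Algebra κ L]

/-- the height of a constant point -/
theorem height_const {σ : Type*} [Fintype σ] {x : σ → L} (hx : x ≠ 0)
    (h : ∀ i, ∃ c : κ, algebraMap κ L c = x i) : height κ x = 0 := by
  unfold height
  have h1 : ∀ v : Place κ L, vmax v.1 x = 1 := by
    intro v
    have h2 : ∀ i, x i ≠ 0 → v.1 (x i) = 1 := by
      intro i hi
      obtain ⟨c, hc⟩ := h i
      rw [← hc]
      refine v.2.2 c ?_
      rintro rfl
      rw [map_zero] at hc
      exact hi hc.symm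
    apply le_antisymm
    · refine vmax_le _ fun i => ?_
      by_cases hi : x i = 0
      · rw [hi, map_zero]
        exact zero_le
      · exact (h2 i hi).le
    · obtain ⟨i, hi⟩ : ∃ i, x i ≠ 0 := by
        by_contra hcon
        push Not at hcon
        exact hx (funext hcon)
      exact (h2 i hi).symm.le.trans (le_vmax _ x i)
  simp only [h1, log_one]
  exact finsum_zero

end Const

section Main

variable {k₀ : Type*} {κ : Type u₁} {K : Type u₂} [Field k₀] [CharZero k₀] [Field κ]
  [IsAlgClosed κ] [CharZero κ] [Field K]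
  [Algebra k₀ κ] [Algebra κ K] [Algebra k₀ K] [IsScalarTower k₀ κ K]

theorem const_border {t : K} (ht : Transcendental κ t)
    (hfin : FiniteDimensional (IntermediateField.adjoin κ {t}) K) {s d k : ℕ}
    (hk : 1 ≤ k) (hs : s = 2 * k + 3) (hd : d = 3 * k + 3)
    (a : (Fin s →₀ ℕ) → κ)
    (hc : AlgebraicIndependent k₀ (fun θ : MIdx s 1 (fun _ => d) => a θ.2.1)) :
    ∃ C : ℕ, ∀ P : PtL.{w} κ K (Fin s), P.x ≠ 0 →
      (Fval d (fun I => algebraMap K P.L (algebraMap κ K (a I))) P.x = 0) →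
      height κ P.x ≤ (C : ℤ) * ((ramDeg κ P.L K : ℤ) + (Module.finrank K P.L : ℤ)) ∨
        ExcL d k (fun I => algebraMap κ K (a I)) P := by
  classical
  have hK : IsFF κ K := ⟨t, ht, hfin⟩
  choose C hC using fun l => const_border_l.{w} ht hfin hk hs hd a hc l
  refine ⟨∑ l, C l, ?_⟩
  intro P hx hF
  obtain ⟨l, hl⟩ : ∃ l, P.x l ≠ 0 := by
    by_contra hcon
    push Not at hcon
    exact hx (funext hcon)
  let P' : PtL.{w} κ K (Fin s) := ⟨P.L, fun k => (P.x l)⁻¹ * P.x k⟩
  have hF' : Fval d (fun I => algebraMap K P'.L (algebraMap κ K (a I))) P'.x = 0 := by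
    have h1 : Fval d (fun I => algebraMap K P.L (algebraMap κ K (a I)))
        (fun k => (P.x l)⁻¹ * P.x k) = 0 := by
      rw [Fval_smul', hF, mul_zero]
    exact h1
  have hL : IsFF κ P.L := hK.of_finite
  have hh : height κ P'.x = height κ P.x := hL.height_smul (inv_ne_zero hl)
  have h2 : C l ≤ ∑ l, C l := Finset.single_le_sum (fun _ _ => Nat.zero_le _) (Finset.mem_univ l)
  rcases hC l P' hF' (inv_mul_cancel₀ hl) with h1 | h1 | ⟨h0, y, ⟨i, k, hik⟩, hz⟩
  · left
    rw [hh] at h1
    refine h1.trans (mul_le_mul_of_nonneg_right ?_ (by positivity))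
    exact_mod_cast h2
  · left
    have h3 : height κ P'.x = 0 := by
      refine height_const ?_ h1
      intro h4
      have h5 := congrFun h4 l
      have h6 : (P.x l)⁻¹ * P.x l = 0 := h5
      rw [inv_mul_cancel₀ hl] at h6
      exact one_ne_zero h6
    rw [← hh, h3]
    positivity
  · right
    have hik' : (P.x l)⁻¹ * P.x i * y k - (P.x l)⁻¹ * P.x k * y i ≠ 0 := hik
    refine ⟨h0, y, ⟨i, k, ?_⟩, fun u v => ?_⟩
    · intro h2
      apply hik'
      have h3 : (P.x l)⁻¹ * P.x i * y k - (P.x l)⁻¹ * P.x k * y i =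
          (P.x l)⁻¹ * (P.x i * y k - P.x k * y i) := by ring
      rw [h3, h2, mul_zero]
    · have h3 : Fval d (fun I => algebraMap K P.L (algebraMap κ K (a I)))
          (fun k => (P.x l)⁻¹ * P.x k * (P.x l * u) + y k * v) = 0 := hz (P.x l * u) v
      rw [← h3]
      congr 1
      funext k
      field_simp

end Main

/-- the polynomial form -/
theorem poly_const {κ K : Type*} [Field κ] [IsAlgClosed κ] [CharZero κ] [Field K] [CharZero K]
    [Algebra κ K] {t : K} (ht : Transcendental κ t)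
    [FiniteDimensional (IntermediateField.adjoin κ {t}) K] {n d k : ℕ}
    (hk : 1 ≤ k) (hn : n = 2 * k + 2) (hd : d = 3 * k + 3) (F : MvPolynomial (Fin (n + 1)) κ)
    (hF : F.IsHomogeneous d)
    (hgen : AlgebraicIndependent ℚ
      (fun I : {I : Fin (n + 1) →₀ ℕ // I.degree = d} => F.coeff I.1)) :
    ∃ C : ℕ, ∀ (L : Type w) [Field L] [Algebra K L] [FiniteDimensional K L] [Algebra κ L]
      [IsScalarTower κ K L] (x : Fin (n + 1) → L), x ≠ 0 → MvPolynomial.aeval x F = 0 →
      height κ x ≤ C * ((ramDeg κ L K : ℤ) + Module.finrank K L) ∨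
      (2 ≤ k ∧ ∃ y : Fin (n + 1) → L, LinearIndependent L ![x, y] ∧
          (∀ u v : L, MvPolynomial.aeval (fun j => u * x j + v * y j) F = 0)) := by
  classical
  have hQ : IsScalarTower ℚ κ K := inferInstance
  let a : (Fin (n + 1) →₀ ℕ) → κ := fun I => F.coeff I
  have hc : AlgebraicIndependent ℚ (fun θ : MIdx (n + 1) 1 (fun _ => d) => a θ.2.1) := by
    have h1 : (fun θ : MIdx (n + 1) 1 (fun _ => d) => a θ.2.1) =
        (fun I : {I : Fin (n + 1) →₀ ℕ // I.degree = d} => F.coeff I.1) ∘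
        (fun θ : MIdx (n + 1) 1 (fun _ => d) => ⟨θ.2.1, mem_expo.mp θ.2.2⟩) := rfl
    rw [h1]
    apply hgen.comp
    rintro ⟨i, I, h⟩ ⟨i', I', h'⟩ heq
    have hii : i = i' := Subsingleton.elim _ _
    subst hii
    have h2 := congrArg Subtype.val heq
    simp only at h2
    subst h2
    rfl
  obtain ⟨C, hC⟩ := const_border.{w} (k₀ := ℚ) ht inferInstance (s := n + 1) (d := d) (k := k)
    hk (by omega) hd a hc
  refine ⟨C, ?_⟩
  intro L _ _ _ _ _ x hx h0
  have hev : ∀ z : Fin (n + 1) → L, MvPolynomial.aeval z F =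
      Fval d (fun I => algebraMap K L (algebraMap κ K (a I))) z := by
    intro z
    rw [Pool.Agent.Lib.MP_44a246_nt.aeval_eq_Fval F hF z]
    simp only [← IsScalarTower.algebraMap_apply]
    rfl
  rcases hC ⟨L, x⟩ hx (by rw [← hev]; exact h0) with h | ⟨h2, y, ⟨i, k, hik⟩, hz⟩
  · left
    exact h
  · right
    refine ⟨h2, y, linInd_of_plu ⟨i, k, hik⟩, fun u v => ?_⟩
    rw [hev]
    have h1 := hz u v
    rw [← h1]
    congr 1
    funext j
    ring

end Pool.Agent.Lib.MP_44a246_ntH
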