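import Mathlib
import Pool.Agent.Lib.MP_44a246_ntH.HB5
import Pool.Agent.Lib.MP_e52354_ntI.KBack1

/-!
Several equations with independent coefficients, a further derivation killing the coefficients, and
a point of a bounded plane: the abstract situation.
-/

set_option linter.unusedSectionVars false

namespace Pool.Agent.Lib.MP_44a246_ntH

open Pool.Agent.Lib.MP_e52354_nt
open Pool.Agent.Lib.MP_e52354_ntP Pool.Agent.Lib.MP_e52354_ntI
open MvPolynomial

universe u

/-- several equations -/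
structure MCtx {M : Type u} [Field M] (K : Subfield M) {s q : ℕ} (d : Fin q → ℕ)
    (D : Fin q → (Fin s →₀ ℕ) → Derivation ℤ M M) (E : Derivation ℤ M M)
    (A : Fin q → (Fin s →₀ ℕ) → K) (p : Fin s → M) (G : ℕ → AddSubgroup M) : Prop where
  H : ∀ j, HCtx K (d j) (D j) E (A j) p G
  cross : ∀ j j', j ≠ j' → ∀ I ∈ expo (Fin s) (d j), ∀ J ∈ expo (Fin s) (d j'),
    D j I (A j' J : M) = 0

variable {M : Type u} [Field M] {K : Subfield M} {s q : ℕ} {d : Fin q → ℕ}
  {A : Fin q → (Fin s →₀ ℕ) → K} {al be ga : Fin s → K}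
  {D : Fin q → (Fin s →₀ ℕ) → Derivation ℤ M M} {E : Derivation ℤ M M}
  {p : Fin s → M} {G : ℕ → AddSubgroup M} {l a b : Fin s}

/-- the vector of derivatives attached to a vector of polynomials -/
noncomputable def EVq (K : Subfield M) (D : Fin q → (Fin s →₀ ℕ) → Derivation ℤ M M)
    (d : Fin q → ℕ) (l a b : Fin s) (p : Fin s → M) :
    (Fin q → MvPolynomial (Fin 2) K) →ₗ[K] (Fin s → M) :=
  ∑ j, (EE K (D j) (d j) l a b p) ∘ₗ LinearMap.proj j

/-- the vector `E(X_i Q) - x_i E(Q)` -/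
noncomputable def UVq (K : Subfield M) (D : Fin q → (Fin s →₀ ℕ) → Derivation ℤ M M)
    (d : Fin q → ℕ) (l a b : Fin s) (p : Fin s → M) (i : Fin 2) :
    (Fin q → MvPolynomial (Fin 2) K) →ₗ[K] (Fin s → M) :=
  ∑ j, (UU K (D j) (d j) l a b p i) ∘ₗ LinearMap.proj j

/-- the derivation attached to a vector of polynomials -/
noncomputable def DGq (K : Subfield M) (D : Fin q → (Fin s →₀ ℕ) → Derivation ℤ M M)
    (d : Fin q → ℕ) (l a b : Fin s) (H : Fin q → MvPolynomial (Fin 2) K) : Derivation ℤ M M :=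
  ∑ j, DG K (D j) (d j) l a b (H j)

theorem EVq_apply (H : Fin q → MvPolynomial (Fin 2) K) :
    EVq K D d l a b p H = ∑ j, EE K (D j) (d j) l a b p (H j) := by
  simp [EVq]

theorem DGq_apply (H : Fin q → MvPolynomial (Fin 2) K) (y : M) :
    DGq K D d l a b H y = ∑ j, DG K (D j) (d j) l a b (H j) y := by
  have h1 := congrFun (map_sum (Derivation.coeFnAddMonoidHom (R := ℤ) (A := M) (M := M))
    (fun j => DG K (D j) (d j) l a b (H j)) Finset.univ) y
  rw [Finset.sum_apply] at h1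
  exact h1

theorem EVq_eq (H : Fin q → MvPolynomial (Fin 2) K) (k : Fin s) :
    EVq K D d l a b p H k = DGq K D d l a b H (p k) := by
  rw [EVq_apply, Finset.sum_apply, DGq_apply]
  rfl

theorem UVq_apply (i : Fin 2) (Q : Fin q → MvPolynomial (Fin 2) K) :
    UVq K D d l a b p i Q = EVq K D d l a b p ((X i : MvPolynomial (Fin 2) K) • Q) -
      p (![a, b] i) • EVq K D d l a b p Q := by
  rw [EVq_apply, EVq_apply, Finset.smul_sum, ← Finset.sum_sub_distrib]
  simp only [UVq, LinearMap.sum_apply, LinearMap.comp_apply, LinearMap.proj_apply, UU_apply,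
    Pi.smul_apply, smul_eq_mul]

theorem UVq_sum (i : Fin 2) (Q : Fin q → MvPolynomial (Fin 2) K) :
    UVq K D d l a b p i Q = ∑ j, UU K (D j) (d j) l a b p i (Q j) := by
  simp [UVq]

theorem EVq_single (j : Fin q) (Q : MvPolynomial (Fin 2) K) :
    EVq K D d l a b p (Pi.single j Q) = EE K (D j) (d j) l a b p Q := by
  rw [EVq_apply, Finset.sum_eq_single j]
  · rw [Pi.single_eq_same]
  · intro j' _ hj'
    rw [Pi.single_eq_of_ne hj', map_zero]
  · intro h; exact absurd (Finset.mem_univ _) h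

theorem UVq_single (i : Fin 2) (j : Fin q) (Q : MvPolynomial (Fin 2) K) :
    UVq K D d l a b p i (Pi.single j Q) = UU K (D j) (d j) l a b p i Q := by
  rw [UVq_sum, Finset.sum_eq_single j]
  · rw [Pi.single_eq_same]
  · intro j' _ hj'
    rw [Pi.single_eq_of_ne hj', map_zero]
  · intro h; exact absurd (Finset.mem_univ _) h

theorem MCtx.DGq_K (h : MCtx K d D E A p G) (H : Fin q → MvPolynomial (Fin 2) K) :
    ∀ y ∈ K, DGq K D d l a b H y ∈ K := by
  intro y hy
  rw [DGq_apply]
  exact sum_mem fun j _ => (h.H j).DG_K (H j) y hy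

/-- the derivation of the subfield attached to a vector of polynomials -/
noncomputable def MCtx.dQ (h : MCtx K d D E A p G) (l a b : Fin s)
    (H : Fin q → MvPolynomial (Fin 2) K) : Derivation ℤ K K :=
  resD (DGq K D d l a b H) (h.DGq_K H)

theorem MCtx.coe_dQ (h : MCtx K d D E A p G) (H : Fin q → MvPolynomial (Fin 2) K) (y : K) :
    ((h.dQ l a b H y : K) : M) = DGq K D d l a b H y := rfl

theorem MCtx.dQ_eq (h : MCtx K d D E A p G) (H : Fin q → MvPolynomial (Fin 2) K) (y : K) :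
    h.dQ l a b H y = ∑ j, (h.H j).dH l a b (H j) y := by
  apply Subtype.ext
  rw [h.coe_dQ, DGq_apply]
  push_cast
  rfl

theorem MCtx.dQ_add (h : MCtx K d D E A p G) (H H' : Fin q → MvPolynomial (Fin 2) K) (y : K) :
    h.dQ l a b (H + H') y = h.dQ l a b H y + h.dQ l a b H' y := by
  rw [h.dQ_eq, h.dQ_eq, h.dQ_eq, ← Finset.sum_add_distrib]
  exact Finset.sum_congr rfl fun j _ => (h.H j).dH_add _ _ _

theorem MCtx.dQ_smul (h : MCtx K d D E A p G) (c : K) (H : Fin q → MvPolynomial (Fin 2) K)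
    (y : K) : h.dQ l a b (c • H) y = c * h.dQ l a b H y := by
  rw [h.dQ_eq, h.dQ_eq, Finset.mul_sum]
  exact Finset.sum_congr rfl fun j _ => (h.H j).dH_smul _ _ _

theorem MCtx.hat_dQ_add (h : MCtx K d D E A p G) (H H' : Fin q → MvPolynomial (Fin 2) K)
    (Q : MvPolynomial (Fin 2) K) :
    hat (h.dQ l a b (H + H')) Q = hat (h.dQ l a b H) Q + hat (h.dQ l a b H') Q := by
  ext m
  rw [coeff_add, coeff_hat, coeff_hat, coeff_hat, h.dQ_add]

theorem MCtx.hat_dQ_smul (h : MCtx K d D E A p G) (c : K) (H : Fin q → MvPolynomial (Fin 2) K)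
    (Q : MvPolynomial (Fin 2) K) :
    hat (h.dQ l a b (c • H)) Q = c • hat (h.dQ l a b H) Q := by
  ext m
  rw [coeff_smul, coeff_hat, coeff_hat, h.dQ_smul, smul_eq_mul]

/-- the derivations of one equation kill the coefficients of the others -/
theorem MCtx.DG_cross (h : MCtx K d D E A p G) {j j' : Fin q} (hj : j ≠ j')
    {Q : MvPolynomial (Fin 2) K} (hQ : Q ∈ WW K (d j)) {J : Fin s →₀ ℕ}
    (hJ : J ∈ expo (Fin s) (d j')) : DG K (D j) (d j) l a b Q (A j' J : M) = 0 := by
  refine WW_induction (P := fun Q => DG K (D j) (d j) l a b Q (A j' J : M) = 0) ?_ ?_ ?_ hQ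
  · intro m hm0
    rw [DG_monomial]
    exact h.cross j j' hj _ (mem_expo.mpr (degree_hm hm0)) _ hJ
  · intro Q Q' h1 h2
    rw [map_add, Derivation.add_apply, h1, h2, add_zero]
  · intro c Q h1
    rw [map_smul]
    show (c : M) * DG K (D j) (d j) l a b Q (A j' J : M) = 0
    rw [h1, mul_zero]

theorem MCtx.DGq_A (h : MCtx K d D E A p G) {H : Fin q → MvPolynomial (Fin 2) K}
    (hH : H ∈ WV K d) (j : Fin q) {J : Fin s →₀ ℕ} (hJ : J ∈ expo (Fin s) (d j)) :
    DGq K D d l a b H (A j J : M) = DG K (D j) (d j) l a b (H j) (A j J : M) := by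
  rw [DGq_apply, Finset.sum_eq_single j]
  · intro j' _ hj'
    exact h.DG_cross hj' (mem_WV.mp hH j') hJ
  · intro h; exact absurd (Finset.mem_univ _) h

theorem MCtx.sum_dQ (h : MCtx K d D E A p G) (P : ∀ j, Pln (D j) (d j) p l a b al be ga)
    {H : Fin q → MvPolynomial (Fin 2) K} (hH : H ∈ WV K d) (j : Fin q) :
    ∑ J ∈ expo (Fin s) (d j), h.dQ l a b H (A j J) • mf al be ga J = H j := by
  rw [← (h.H j).sum_dH (P j) (mem_WV.mp hH j)]
  refine Finset.sum_congr rfl fun J hJ => ?_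
  congr 1
  apply Subtype.ext
  rw [h.coe_dQ, h.DGq_A hH j hJ, (h.H j).coe_dH]

theorem MCtx.hat_fQ (h : MCtx K d D E A p G) (P : ∀ j, Pln (D j) (d j) p l a b al be ga)
    {H : Fin q → MvPolynomial (Fin 2) K} (hH : H ∈ WV K d) (j : Fin q) :
    hat (h.dQ l a b H) (fH (d j) (A j) al be ga) =
      H j + ∑ k, PH (d j) (A j) al be ga k * hat (h.dQ l a b H) (lf al be ga k) := by
  rw [hat_fH_aux, h.sum_dQ P hH]

/-- the motion of the plane -/
theorem MCtx.motion_EV (h : MCtx K d D E A p G) {j : Fin q}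
    (P : Pln (D j) (d j) p l a b al be ga) (H : Fin q → MvPolynomial (Fin 2) K) (k : Fin s) :
    EVq K D d l a b p H k = evp K (p a) (p b) (hat (h.dQ l a b H) (lf al be ga k)) +
      be k * EVq K D d l a b p H a + ga k * EVq K D d l a b p H b := by
  rw [EVq_eq, EVq_eq, EVq_eq]
  exact motion P (DGq K D d l a b H) (h.DGq_K H) k

theorem MCtx.grad_EV (h : MCtx K d D E A p G) (P : ∀ j, Pln (D j) (d j) p l a b al be ga)
    {H : Fin q → MvPolynomial (Fin 2) K} (hH : H ∈ WV K d) (j : Fin q) :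
    grad (d j) (fun J => (A j J : M)) p ⬝ᵥ EVq K D d l a b p H =
      - evp K (p a) (p b) (H j) := by
  rw [EVq_apply, dotProduct_sum, Finset.sum_eq_single j, (h.H j).grad_EE (P j) (mem_WV.mp hH j)]
  · intro j' _ hj'
    have h1 := D_Fval (d j) (fun J => (A j J : M)) (DG K (D j') (d j') l a b (H j')) p
    rw [(h.H j).F0, map_zero, Finset.sum_eq_zero (fun I hI => by
      rw [h.DG_cross hj' (mem_WV.mp hH j') hI, zero_mul]), zero_add] at h1
    exact h1.symm
  · intro h; exact absurd (Finset.mem_univ _) h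

theorem MCtx.grad_UV (h : MCtx K d D E A p G) (P : ∀ j, Pln (D j) (d j) p l a b al be ga)
    {e : Fin q → ℕ} (he : ∀ j, e j + 1 = d j) {Q : Fin q → MvPolynomial (Fin 2) K}
    (hQ : Q ∈ WV K e) (i : Fin 2) (j : Fin q) :
    grad (d j) (fun J => (A j J : M)) p ⬝ᵥ UVq K D d l a b p i Q = 0 := by
  rw [UVq_apply, dotProduct_sub, dotProduct_smul,
    h.grad_EV P (WV_mono (fun j => by have := he j; omega) hQ),
    h.grad_EV P (smul_mem_WV (X_mem_WW le_rfl i) (fun j => by have := he j; omega) hQ),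
    Pi.smul_apply, smul_eq_mul, map_mul, smul_eq_mul, evp_X_vec]
  ring

theorem EVq_l (hpl : p l = 1) (H : Fin q → MvPolynomial (Fin 2) K) :
    EVq K D d l a b p H l = 0 := by
  rw [EVq_apply, Finset.sum_apply]
  exact Finset.sum_eq_zero fun j _ => EE_l hpl _

theorem UVq_l (hpl : p l = 1) (i : Fin 2) (Q : Fin q → MvPolynomial (Fin 2) K) :
    UVq K D d l a b p i Q l = 0 := by
  rw [UVq_apply, Pi.sub_apply, Pi.smul_apply, EVq_l hpl, EVq_l hpl, smul_zero, sub_zero]

/-- the weights of the wedge products -/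
theorem MCtx.wEV (h : MCtx K d D E A p G) {H : Fin q → MvPolynomial (Fin 2) K} (hH : H ∈ WV K d)
    (i j : Fin s) :
    p i * EVq K D d l a b p H j - p j * EVq K D d l a b p H i ∈ G 2 := by
  rw [EVq_apply, Finset.sum_apply, Finset.sum_apply, Finset.mul_sum, Finset.mul_sum,
    ← Finset.sum_sub_distrib]
  exact sum_mem fun f _ => (h.H f).wEE (mem_WV.mp hH f) i j

theorem MCtx.wEEV (h : MCtx K d D E A p G) {H : Fin q → MvPolynomial (Fin 2) K}
    (hH : H ∈ WV K d) (i j : Fin s) :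
    E (p i) * EVq K D d l a b p H j - E (p j) * EVq K D d l a b p H i ∈ G 3 := by
  rw [EVq_apply, Finset.sum_apply, Finset.sum_apply, Finset.mul_sum, Finset.mul_sum,
    ← Finset.sum_sub_distrib]
  exact sum_mem fun f _ => (h.H f).wEEE (mem_WV.mp hH f) i j

/-- the motion of the plane as a linear map -/
noncomputable def MCtx.thetaQ (h : MCtx K d D E A p G) (l a b : Fin s) (al be ga : Fin s → K) :
    WV K d →ₗ[K] ((Finset.univ \ ({l, a, b} : Finset (Fin s)) : Finset (Fin s)) → WW K 1) where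
  toFun H := fun k => ⟨hat (h.dQ l a b (H : Fin q → MvPolynomial (Fin 2) K)) (lf al be ga k.1),
    hat_mem _ (lf_mem k.1)⟩
  map_add' := by
    intro H H'
    funext k
    apply Subtype.ext
    exact h.hat_dQ_add _ _ _
  map_smul' := by
    intro c H
    funext k
    apply Subtype.ext
    exact h.hat_dQ_smul _ _ _

theorem MCtx.thetaQ_ker (h : MCtx K d D E A p G) {j : Fin q}
    (P : Pln (D j) (d j) p l a b al be ga) {H : WV K d}
    (hH : H ∈ LinearMap.ker (h.thetaQ l a b al be ga)) (k : Fin s) :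
    hat (h.dQ l a b (H : Fin q → MvPolynomial (Fin 2) K)) (lf al be ga k) = 0 := by
  by_cases hk : k ∈ ({l, a, b} : Finset (Fin s))
  · exact hat_lf_zeroH P _ hk
  · have h1 := congrFun (LinearMap.mem_ker.mp hH)
      ⟨k, Finset.mem_sdiff.mpr ⟨Finset.mem_univ k, hk⟩⟩
    exact congrArg Subtype.val h1

theorem MCtx.thetaQ_rank (h : MCtx K d D E A p G) {j : Fin q}
    (P : Pln (D j) (d j) p l a b al be ga) :
    Module.finrank K (LinearMap.range (h.thetaQ l a b al be ga)) + 9 ≤ 3 * s := by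
  have h1 := Submodule.finrank_le (LinearMap.range (h.thetaQ l a b al be ga))
  rw [Module.finrank_pi_fintype, Finset.sum_congr rfl (fun _ _ => finrank_WW_one K),
    Finset.sum_const, Finset.card_univ, Fintype.card_coe, smul_eq_mul] at h1
  have h2 := card_complH P
  omega

end Pool.Agent.Lib.MP_44a246_ntH
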