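import Mathlib
import Pool.Agent.Lib.MP_44a246_ntB.Slot
import Pool.Agent.Lib.MP_44a246_ntB.Base2
import Pool.Agent.Lib.MP_e52354_ntP.BackH
import Pool.Agent.Lib.MP_e52354_ntI.KBack4

/-!
Symmetric families of linear maps on the polynomials in two variables, slots, extension of the
field: definitions.
-/

set_option linter.unusedSectionVars false

namespace Pool.Agent.Lib.MP_44a246_ntH

open Pool.Agent.Lib.MP_e52354_ntP Pool.Agent.Lib.MP_44a246_ntB Pool.Agent.Lib.MP_e52354_ntI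
open MvPolynomial

section Sym

variable {Ω : Type*} [Field Ω] [CharZero Ω] {K : Subfield Ω}

/-- the coefficients of the linear polynomial `v 0 (X - x) + v 1 (Y - y)` -/
def mu2 (x y : Ω) (v : Fin 2 → Ω) : Fin 3 → Ω := ![-(v 0 * x + v 1 * y), v 0, v 1]

/-- two linear maps with a symmetry -/
structure SymD (K : Subfield Ω) (x y : Ω) (v : Fin 2 → Fin 2 → Ω) {U : Type*} [AddCommGroup U]
    [Module K U] (A : Fin 2 → MvPolynomial (Fin 2) K →ₗ[K] U) (n : ℕ) : Prop where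
  hv : v 0 0 * v 1 1 - v 0 1 * v 1 0 ≠ 0
  hq : ∀ f ∈ WW K 2, evp K x y f = 0 → f = 0
  sym : ∀ ψ : Ω →ₗ[K] K, ∀ m, m + 1 ≤ n → ∀ R ∈ WW K m,
    A 0 (linP (fun u => ψ (mu2 x y (v 1) u)) * R) = A 1 (linP (fun u => ψ (mu2 x y (v 0) u)) * R)

/-- the polynomials of degree `m` all of whose multiples are in the kernel -/
def InAnn (K : Subfield Ω) {U : Type*} [AddCommGroup U] [Module K U]
    (A : Fin 2 → MvPolynomial (Fin 2) K →ₗ[K] U) (n m : ℕ) (F : MvPolynomial (Fin 2) K) : Prop :=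
  F ∈ WW K m ∧ ∀ G ∈ WW K (n - m), ∀ k, A k (F * G) = 0

/-- the values of a linear functional on the coefficients -/
def muK (ψ : Ω →ₗ[K] K) (x y : Ω) (v : Fin 2 → Ω) : Fin 3 → K := fun u => ψ (mu2 x y v u)

/-- the minors -/
noncomputable def minorQ (ψ ψ' : Ω →ₗ[K] K) (x y : Ω) (v : Fin 2 → Fin 2 → Ω) :
    MvPolynomial (Fin 2) K :=
  linP (muK ψ x y (v 1)) * linP (muK ψ' x y (v 0)) -
    linP (muK ψ' x y (v 1)) * linP (muK ψ x y (v 0))

/-- the value of a minor at a point given by a triple -/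
def minorV (ψ ψ' : Ω →ₗ[K] K) (x y : Ω) (v : Fin 2 → Fin 2 → Ω) (w : Fin 3 → K) : K :=
  (muK ψ x y (v 1) ⬝ᵥ w) * (muK ψ' x y (v 0) ⬝ᵥ w) -
    (muK ψ' x y (v 1) ⬝ᵥ w) * (muK ψ x y (v 0) ⬝ᵥ w)

/-- the cross product -/
def cr (a b : Fin 3 → K) : Fin 3 → K :=
  ![a 1 * b 2 - a 2 * b 1, a 2 * b 0 - a 0 * b 2, a 0 * b 1 - a 1 * b 0]

end Sym

section Slot

/-- a family of two by two matrices depending on vectors of polynomials -/
structure SlotQ {M : Type*} [Field M] (K : Subfield M) (x y : M) {q : ℕ} (n : Fin q → ℕ)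
    (N : (Fin q → MvPolynomial (Fin 2) K) →ₗ[K] Matrix (Fin 2) (Fin 2) M) : Prop where
  alg : ∀ z : M, IsAlgebraic K z → z ∈ K
  quad : ∀ f ∈ WW K 2, evp K x y f = 0 → f = 0
  det : ∀ Q ∈ WV K n, (N Q).det ∈ K
  one : ∃ Q ∈ WV K n, N Q = 1
  rad : ∀ Q ∈ WV K n, (∀ Q' ∈ WV K n, (N (Q + Q')).det = (N Q).det + (N Q').det) → N Q = 0
  comm : ∀ Q i, N ((X 1 : MvPolynomial (Fin 2) K) • Q) i 0 - y * N Q i 0 =
    N ((X 0 : MvPolynomial (Fin 2) K) • Q) i 1 - x * N Q i 1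

/-- the two alternatives of a slot -/
def AltQ {M : Type*} [Field M] (K : Subfield M) {q : ℕ} (n : Fin q → ℕ)
    (N : (Fin q → MvPolynomial (Fin 2) K) →ₗ[K] Matrix (Fin 2) (Fin 2) M) (j₀ : Fin q) : Prop :=
  (∃ ℓ ∈ WW K 1, ℓ ≠ 0 ∧ ∀ m, m + 1 ≤ n j₀ → ∀ R ∈ WW K m, N (Pi.single j₀ (ℓ * R)) = 0) ∨
  ∀ m ≤ n j₀, ∃ S : Submodule K (WW K m), Module.finrank K (WW K m) ≤ Module.finrank K S + 3 ∧
    ∀ F ∈ S, ∀ G ∈ WW K (n j₀ - m),
      N (Pi.single j₀ ((F : MvPolynomial (Fin 2) K) * G)) = 0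

end Slot

section Ext

variable {M Ω : Type*} [Field M] [CharZero M] [Field Ω] [Algebra M Ω] {K : Subfield M}
  {K' : Subfield Ω}

/-- the image of a polynomial under a linear functional on the coefficients -/
noncomputable def pushP (ψ : Ω →ₗ[K] K) (Q : MvPolynomial (Fin 2) K') :
    MvPolynomial (Fin 2) K := ∑ m ∈ Q.support, monomial m (ψ ((coeff m Q : K') : Ω))

/-- the inclusion of the small field -/
noncomputable def inclK (hKK : ∀ z : K, algebraMap M Ω z ∈ K') : K →+* K' :=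
  ((algebraMap M Ω).comp K.subtype).codRestrict K' hKK

theorem coe_inclK (hKK : ∀ z : K, algebraMap M Ω z ∈ K') (z : K) :
    (inclK hKK z : Ω) = algebraMap M Ω z := rfl

/-- the extension of a family of matrices -/
noncomputable def extN {q : ℕ} (K' : Subfield Ω)
    (N : (Fin q → MvPolynomial (Fin 2) K) →ₗ[K] Matrix (Fin 2) (Fin 2) M) :
    (Fin q → MvPolynomial (Fin 2) K') →ₗ[K'] Matrix (Fin 2) (Fin 2) Ω :=
  ∑ j, ((basisMonomials (Fin 2) K').constr K' (fun m =>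
    (N (Pi.single j (monomial m 1))).map (algebraMap M Ω))) ∘ₗ LinearMap.proj j

end Ext

end Pool.Agent.Lib.MP_44a246_ntH
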