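import Mathlib
import Pool.Agent.Lib.MP_44a246_ntH.QB1
import Pool.Agent.Lib.MP_44a246_ntH.QSD
import Pool.Agent.Lib.MP_e52354_ntP.Back1

/-!
Several equations: the second case of the dichotomy is impossible, and the slots.
-/

set_option linter.unusedSectionVars false

namespace Pool.Agent.Lib.MP_44a246_ntH

open Pool.Agent.Lib.MP_e52354_nt
open Pool.Agent.Lib.MP_e52354_ntP Pool.Agent.Lib.MP_e52354_ntI Pool.Agent.Lib.MP_44a246_ntB
open MvPolynomial

universe u

variable {M : Type u} [Field M] {K : Subfield M} {s q : ℕ} {d : Fin q → ℕ}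
  {A : Fin q → (Fin s →₀ ℕ) → K} {al be ga : Fin s → K}
  {D : Fin q → (Fin s →₀ ℕ) → Derivation ℤ M M} {E : Derivation ℤ M M}
  {p : Fin s → M} {G : ℕ → AddSubgroup M} {l a b : Fin s}

/-- the vectors xi are in the span of the point and its derivative -/
def XiV (K : Subfield M) (d : Fin q → ℕ) (D : Fin q → (Fin s →₀ ℕ) → Derivation ℤ M M)
    (E : Derivation ℤ M M) (A : Fin q → (Fin s →₀ ℕ) → K) (p : Fin s → M) (al be ga : Fin s → K)
    (l a b : Fin s) : Prop :=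
  ∀ i j : Fin s, ∃ t t' : M,
    EVq K D d l a b p (fun f => PH (d f) (A f) al be ga i * lf al be ga j) =
      t • p + t' • (fun k => E (p k)) - p j • Pi.single i 1

theorem XiV.map (hxi : XiV K d D E A p al be ga l a b)
    (Φ : (Fin s → M) →ₗ[M] M) (hΦ : Φ p = 0) (hΦE : Φ (fun k => E (p k)) = 0) (i j : Fin s) :
    Φ (EVq K D d l a b p (fun f => PH (d f) (A f) al be ga i * lf al be ga j)) =
      - (p j * Φ (Pi.single i 1)) := by
  obtain ⟨t, t', ht⟩ := hxi i j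
  rw [ht, map_sub, map_add, map_smul, map_smul, map_smul, hΦ, hΦE, smul_zero, smul_zero, add_zero,
    zero_sub, smul_eq_mul]

theorem XiV.map_one (hxi : XiV K d D E A p al be ga l a b) {f₀ : Fin q}
    (P : Pln (D f₀) (d f₀) p l a b al be ga)
    (Φ : (Fin s → M) →ₗ[M] M) (hΦ : Φ p = 0) (hΦE : Φ (fun k => E (p k)) = 0) (i : Fin s) :
    Φ (EVq K D d l a b p (fun f => PH (d f) (A f) al be ga i)) = - Φ (Pi.single i 1) := by
  have h1 := hxi.map Φ hΦ hΦE i l
  simpa only [P.lf_l, mul_one, P.hpl, one_mul] using h1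

theorem XiV.map_UV (hxi : XiV K d D E A p al be ga l a b) {f₀ : Fin q}
    (P : Pln (D f₀) (d f₀) p l a b al be ga)
    (Φ : (Fin s → M) →ₗ[M] M) (hΦ : Φ p = 0) (hΦE : Φ (fun k => E (p k)) = 0) (i : Fin s)
    (j : Fin 2) :
    Φ (UVq K D d l a b p j (fun f => PH (d f) (A f) al be ga i)) = 0 := by
  have h1 := hxi.map Φ hΦ hΦE i (![a, b] j)
  have h2 : ((X j : MvPolynomial (Fin 2) K) • fun f => PH (d f) (A f) al be ga i) =
      fun f => PH (d f) (A f) al be ga i * lf al be ga (![a, b] j) := by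
    funext f
    rw [Pi.smul_apply, smul_eq_mul, lf_vecH P, mul_comm]
  rw [UVq_apply, map_sub, LinearMap.map_smul Φ, hxi.map_one P Φ hΦ hΦE, h2, h1, smul_eq_mul]
  ring

/-- The second case of the dichotomy is impossible. -/
theorem case_twoQ (h : MCtx K d D E A p G) (P : ∀ j, Pln (D j) (d j) p l a b al be ga)
    (j₀ : Fin q) {n : Fin q → ℕ} (hn : ∀ j, n j + 2 = d j)
    (hxi : XiV K d D E A p al be ga l a b)
    (Φ : (Fin s → M) →ₗ[M] M) (hΦ : Φ p = 0) (hΦE : Φ (fun k => E (p k)) = 0)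
    (g : (Fin q → MvPolynomial (Fin 2) K) →ₗ[K] K) {n₁ n₂ : M}
    (hn₁ : n₁ ≠ 0 ∨ n₂ ≠ 0)
    (h1 : ∀ Q ∈ WV K (fun j => n j + 1), Φ (UVq K D d l a b p 0 Q) = - n₂ * (g Q : M))
    (h2 : ∀ Q ∈ WV K (fun j => n j + 1), Φ (UVq K D d l a b p 1 Q) = n₁ * (g Q : M))
    {c₀ : Fin q → MvPolynomial (Fin 2) K} (hc₀ : c₀ ∈ WV K (fun j => n j + 1))
    (hg : g c₀ ≠ 0) : False := by
  have hn' : ∀ j, n j + 1 + 1 = d j := hn
  let Ψ : (Fin q → MvPolynomial (Fin 2) K) →ₗ[K] M :=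
    (Φ.restrictScalars K) ∘ₗ EVq K D d l a b p
  have hΨ : ∀ Q, Ψ Q = Φ (EVq K D d l a b p Q) := fun _ => rfl
  have e1 : ∀ Q ∈ WV K (fun j => n j + 1),
      Ψ ((MvPolynomial.X 0 : MvPolynomial (Fin 2) K) • Q) =
        p a * Ψ Q - n₂ * (g Q : M) := by
    intro Q hQ
    have h3 := h1 Q hQ
    rw [UVq_apply, map_sub, LinearMap.map_smul Φ, smul_eq_mul] at h3
    rw [hΨ, hΨ]
    have h4 : p (![a, b] 0) = p a := rfl
    rw [h4] at h3
    linear_combination h3
  have e2 : ∀ Q ∈ WV K (fun j => n j + 1),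
      Ψ ((MvPolynomial.X 1 : MvPolynomial (Fin 2) K) • Q) =
        p b * Ψ Q + n₁ * (g Q : M) := by
    intro Q hQ
    have h3 := h2 Q hQ
    rw [UVq_apply, map_sub, LinearMap.map_smul Φ, smul_eq_mul] at h3
    rw [hΨ, hΨ]
    have h4 : p (![a, b] 1) = p b := rfl
    rw [h4] at h3
    linear_combination h3
  obtain ⟨θ, κ, hθ⟩ := almost_eval_vec (P j₀).hxy Ψ g hn₁ e1 e2
  have hPm : ∀ i, (fun f => PH (d f) (A f) al be ga i) ∈ WV K (fun j => n j + 1) := by
    intro i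
    rw [mem_WV]
    exact fun j => PH_mem (hn' j) i
  -- the values of `g` on the partial derivatives
  have hgP : ∀ i, g (fun f => PH (d f) (A f) al be ga i) = 0 := by
    intro i
    have h3 := h1 _ (hPm i)
    have h4 := h2 _ (hPm i)
    rw [hxi.map_UV (P j₀) Φ hΦ hΦE] at h3 h4
    apply Subtype.ext
    rcases hn₁ with hn₁ | hn₁
    · exact (mul_eq_zero.mp h4.symm).resolve_left hn₁
    · exact (mul_eq_zero.mp h3.symm).resolve_left (neg_ne_zero.mpr hn₁)
  have hΦe : ∀ i, Φ (Pi.single i 1) = - ∑ j, κ j * grad (d j) (fun J => (A j J : M)) p i := by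
    intro i
    have h3 := hθ _ (hPm i)
    rw [hgP, hΨ, hxi.map_one (P j₀) Φ hΦ hΦE] at h3
    rw [ZeroMemClass.coe_zero, mul_zero] at h3
    rw [Finset.sum_congr rfl fun j _ => by rw [← evp_PH (P j) i]]
    linear_combination -h3
  have hΦz : ∀ z : Fin s → M, Φ z =
      - ∑ j, κ j * (grad (d j) (fun J => (A j J : M)) p ⬝ᵥ z) := by
    intro z
    have h3 : z = ∑ i, z i • (Pi.single i (1 : M) : Fin s → M) := by
      funext k
      rw [Finset.sum_apply]
      simp [Pi.single_apply]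
    conv_lhs => rw [h3]
    rw [map_sum]
    unfold dotProduct
    simp only [map_smul, hΦe, smul_eq_mul, Finset.mul_sum, mul_neg, Finset.sum_neg_distrib]
    rw [Finset.sum_comm]
    congr 1
    refine Finset.sum_congr rfl fun i _ => Finset.sum_congr rfl fun j _ => ?_
    ring
  have h3 := h1 c₀ hc₀
  have h4 := h2 c₀ hc₀
  have h5 : ∀ i, Φ (UVq K D d l a b p i c₀) = 0 := by
    intro i
    rw [hΦz, Finset.sum_eq_zero, neg_zero]
    intro j _
    rw [h.grad_UV P hn' hc₀ i j, mul_zero]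
  rw [h5] at h3 h4
  have hg' : (g c₀ : M) ≠ 0 := fun h0 => hg (Subtype.ext h0)
  rcases hn₁ with hn₁ | hn₁
  · exact mul_ne_zero hn₁ hg' h4.symm
  · exact mul_ne_zero (neg_ne_zero.mpr hn₁) hg' h3.symm

/-- the matrix of a slot -/
noncomputable def slotN (K : Subfield M) (D : Fin q → (Fin s →₀ ℕ) → Derivation ℤ M M)
    (d : Fin q → ℕ) (l a b : Fin s) (p : Fin s → M) (L : Fin 2 → (Fin s → M) →ₗ[M] M) :
    (Fin q → MvPolynomial (Fin 2) K) →ₗ[K] Matrix (Fin 2) (Fin 2) M where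
  toFun Q := Matrix.of fun j j' => L j (UVq K D d l a b p j' Q)
  map_add' := by
    intro Q Q'
    ext j j'
    simp only [Matrix.of_apply, Matrix.add_apply, map_add]
  map_smul' := by
    intro c Q
    ext j j'
    simp only [Matrix.of_apply, Matrix.smul_apply, RingHom.id_apply]
    rw [map_smul]
    have : c • UVq K D d l a b p j' Q = (c : M) • UVq K D d l a b p j' Q := rfl
    rw [this, map_smul]
    rfl

theorem slotN_apply (L : Fin 2 → (Fin s → M) →ₗ[M] M) (Q : Fin q → MvPolynomial (Fin 2) K)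
    (j j' : Fin 2) : slotN K D d l a b p L Q j j' = L j (UVq K D d l a b p j' Q) := rfl

/-- one slot -/
theorem MCtx.slotQ [CharZero M] (h : MCtx K d D E A p G)
    (P : ∀ j, Pln (D j) (d j) p l a b al be ga) (j₀ : Fin q) {n : Fin q → ℕ}
    (hn : ∀ j, n j + 2 = d j) (hxi : XiV K d D E A p al be ga l a b)
    (hquad : ∀ f ∈ WW K 2, evp K (p a) (p b) f = 0 → f = 0)
    (L : Fin 2 → (Fin s → M) →ₗ[M] M) (hLp : ∀ j, L j p = 0)
    (hLE : ∀ j, L j (fun k => E (p k)) = 0) {c₀ : Fin q → MvPolynomial (Fin 2) K}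
    (hc₀ : c₀ ∈ WV K (fun j => n j + 1))
    (hc : ∀ j j', L j (UVq K D d l a b p j' c₀) = if j = j' then 1 else 0)
    (hK : ∀ Q ∈ WV K (fun j => n j + 1),
      L 0 (UVq K D d l a b p 0 Q) * L 1 (UVq K D d l a b p 1 Q) -
        L 1 (UVq K D d l a b p 0 Q) * L 0 (UVq K D d l a b p 1 Q) ∈ K) :
    SlotQ K (p a) (p b) (fun j => n j + 1) (slotN K D d l a b p L) := by
  classical
  have hKa := (h.H j₀).W.alg
  have hsq : ∀ y : M, y ^ 2 ∈ K → y ∈ K := by
    intro y hy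
    refine mem_of_quad hKa (a := 1) (b := 0) (c := - y ^ 2) K.one_mem K.zero_mem (K.neg_mem hy)
      one_ne_zero ?_
    ring
  let vL : Fin 2 → Fin 2 → (WV K (fun j => n j + 1) →ₗ[K] M) := fun j j' =>
    ((L j).restrictScalars K) ∘ₗ (UVq K D d l a b p j') ∘ₗ (WV K (fun j => n j + 1)).subtype
  have hvL : ∀ j j' (Q : WV K (fun j => n j + 1)), vL j j' Q =
      slotN K D d l a b p L (Q : Fin q → MvPolynomial (Fin 2) K) j j' := fun _ _ _ => rfl
  have hq : ∀ Q, vL 0 0 Q * vL 1 1 Q - vL 1 0 Q * vL 0 1 Q ∈ K := fun Q => hK Q Q.2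
  refine ⟨hKa, hquad, fun Q hQ => ?_, ⟨c₀, hc₀, ?_⟩, ?_, ?_⟩
  · rw [Matrix.det_fin_two]
    have := hq ⟨Q, hQ⟩
    rw [hvL, hvL, hvL, hvL] at this
    rwa [mul_comm (slotN K D d l a b p L Q 0 1)]
  · ext j j'
    rw [slotN_apply, Matrix.one_apply]
    exact hc j j'
  · rcases dich_rad (vL 0 0) (vL 1 0) (vL 0 1) (vL 1 1) hsq hq (c₀ := ⟨c₀, hc₀⟩)
      (hc 0 0) (by exact hc 1 0) (by exact hc 0 1) (hc 1 1) with
      hrad | ⟨n₁, n₂, φ₁, φ₂, g, hn₁, hg, hgQ⟩
    · intro Q hQ hQd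
      have h2 : (⟨Q, hQ⟩ : WV K (fun j => n j + 1)) ∈ radB (vL 0 0) (vL 1 0) (vL 0 1) (vL 1 1) := by
        rw [mem_radB]
        intro Q'
        have h3 := hQd Q'.1 Q'.2
        rw [map_add, det_add_two] at h3
        unfold polB
        unfold pol at h3
        simp only [hvL]
        linear_combination h3
      obtain ⟨h3, h4, h5, h6⟩ := hrad ⟨Q, hQ⟩ h2
      ext j j'
      fin_cases j <;> fin_cases j'
      · exact h3
      · exact h5
      · exact h4
      · exact h6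
    · exfalso
      obtain ⟨g', hg'⟩ := LinearMap.exists_extend g
      have hgg : ∀ Q (hQ : Q ∈ WV K (fun j => n j + 1)), g' Q = g ⟨Q, hQ⟩ := by
        intro Q hQ
        exact LinearMap.congr_fun hg' ⟨Q, hQ⟩
      refine case_twoQ h P j₀ hn hxi (φ₁ • L 0 + φ₂ • L 1) ?_ ?_ g' hn₁ ?_ ?_ (c₀ := c₀) hc₀ ?_
      · rw [LinearMap.add_apply, LinearMap.smul_apply, LinearMap.smul_apply, hLp, hLp,
          smul_zero, smul_zero, add_zero]
      · rw [LinearMap.add_apply, LinearMap.smul_apply, LinearMap.smul_apply, hLE, hLE,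
          smul_zero, smul_zero, add_zero]
      · intro Q hQ
        rw [hgg Q hQ, ← (hgQ ⟨Q, hQ⟩).1]
        rfl
      · intro Q hQ
        rw [hgg Q hQ, ← (hgQ ⟨Q, hQ⟩).2]
        rfl
      · rw [hgg _ hc₀]
        exact hg
  · intro Q i
    have e0 : (![a, b] : Fin 2 → Fin s) 0 = a := rfl
    have e1 : (![a, b] : Fin 2 → Fin s) 1 = b := rfl
    have h1 : UVq K D d l a b p 0 ((X 1 : MvPolynomial (Fin 2) K) • Q) -
        p b • UVq K D d l a b p 0 Q =
        UVq K D d l a b p 1 ((X 0 : MvPolynomial (Fin 2) K) • Q) -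
        p a • UVq K D d l a b p 1 Q := by
      rw [UVq_apply, UVq_apply, UVq_apply, UVq_apply, e0, e1, smul_comm (X 0) (X 1)]
      funext t
      simp only [Pi.sub_apply, Pi.smul_apply, smul_eq_mul]
      ring
    have h2 := congrArg (L i) h1
    rw [map_sub, map_sub, LinearMap.map_smul, LinearMap.map_smul, smul_eq_mul, smul_eq_mul] at h2
    exact h2

end Pool.Agent.Lib.MP_44a246_ntH
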