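import Mathlib
import Pool.Agent.Lib.MP_44a246_ntH.QB1
import Pool.Agent.Lib.MP_e52354_ntI.KBack7

/-!
Several equations: the dimension count from the motion of the plane section.
-/

set_option linter.unusedSectionVars false

namespace Pool.Agent.Lib.MP_44a246_ntH

open Pool.Agent.Lib.MP_e52354_nt
open Pool.Agent.Lib.MP_e52354_ntP Pool.Agent.Lib.MP_e52354_ntI
open MvPolynomial

universe u

section Lam

variable {M : Type u} [Field M] {K : Subfield M} {s q : ℕ} {x y : M}

/-- the vectors of values -/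
noncomputable def LamQ (K : Subfield M) (x y : M) (T : Finset (Fin s)) (e : ℕ) (c : Fin q → M)
    (P : Fin s → Fin q → M) :
    (VV2 K x y e × (T → VV2 K x y 1)) →ₗ[K] (Fin q → M) where
  toFun v j := (v.1 : M) * c j - ∑ k : T, P k j * (v.2 k : M)
  map_add' := by
    intro v v'
    funext j
    simp only [Prod.fst_add, Prod.snd_add, Pi.add_apply, Submodule.coe_add, mul_add,
      Finset.sum_add_distrib]
    ring
  map_smul' := by
    intro t v
    funext j
    simp only [Prod.smul_fst, Prod.smul_snd, Pi.smul_apply, Submodule.coe_smul,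
      RingHom.id_apply, smul_eq', mul_sub, Finset.mul_sum]
    congr 1
    · ring
    · exact Finset.sum_congr rfl fun k _ => by ring

theorem LamQ_apply (T : Finset (Fin s)) (e : ℕ) (c : Fin q → M) (P : Fin s → Fin q → M)
    (v : VV2 K x y e × (T → VV2 K x y 1)) (j : Fin q) :
    LamQ K x y T e c P v j = (v.1 : M) * c j - ∑ k : T, P k j * (v.2 k : M) := rfl

theorem finrank_LamQ (T : Finset (Fin s)) (e : ℕ) (c : Fin q → M) (P : Fin s → Fin q → M) :
    Module.finrank K (LinearMap.range (LamQ K x y T e c P)) +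
      Module.finrank K (LinearMap.ker (LamQ K x y T e c P)) ≤
      Module.finrank K (VV2 K x y e) + T.card * Module.finrank K (VV2 K x y 1) := by
  have hfin : ∀ k, FiniteDimensional K (VV2 K x y k) := fun k => by
    unfold VV2; infer_instance
  have h2 := LinearMap.finrank_range_add_finrank_ker (LamQ K x y T e c P)
  rw [Module.finrank_prod, Module.finrank_pi_fintype, Finset.sum_const, Finset.card_univ,
    Fintype.card_coe, smul_eq_mul] at h2
  exact h2.le

end Lam

variable {M : Type u} [Field M] {K : Subfield M} {s q : ℕ} {d : Fin q → ℕ}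
  {A : Fin q → (Fin s →₀ ℕ) → K} {al be ga : Fin s → K}
  {D : Fin q → (Fin s →₀ ℕ) → Derivation ℤ M M} {E : Derivation ℤ M M}
  {p : Fin s → M} {G : ℕ → AddSubgroup M} {l a b : Fin s}

/-- the vectors of values of the polynomials are in the range -/
theorem MCtx.sum_le (h : MCtx K d D E A p G) (P : ∀ j, Pln (D j) (d j) p l a b al be ga)
    (j₀ : Fin q) {e : ℕ} {g : MvPolynomial (Fin 2) K} (hg : g ∈ WW K e)
    (hgx : evp K (p a) (p b) g = 0) (c : Fin q → MvPolynomial (Fin 2) K)
    (hc : ∀ j, fH (d j) (A j) al be ga = g * c j) :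
    ∑ j, Module.finrank K (VV2 K (p a) (p b) (d j)) ≤
      Module.finrank K (LinearMap.range (LamQ K (p a) (p b)
        (Finset.univ \ ({l, a, b} : Finset (Fin s))) e (fun j => evp K (p a) (p b) (c j))
        (fun k j => evp K (p a) (p b) (PH (d j) (A j) al be ga k)))) := by
  classical
  have hfin : ∀ k, FiniteDimensional K (VV2 K (p a) (p b) k) := fun k => by
    unfold VV2; infer_instance
  refine sum_VV2_le (K := K) (x := p a) (y := p b) (k := d) fun H hH => ?_
  refine ⟨(⟨evp K (p a) (p b) (hat (h.dQ l a b H) g), ⟨hat (h.dQ l a b H) g, hat_mem _ hg, rfl⟩⟩,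
    fun k => ⟨evp K (p a) (p b) (hat (h.dQ l a b H) (lf al be ga (k : Fin s))),
      ⟨hat (h.dQ l a b H) (lf al be ga (k : Fin s)), hat_mem _ (lf_mem _), rfl⟩⟩), ?_⟩
  funext j
  rw [LamQ_apply]
  have h2 := h.hat_fQ P hH j
  rw [hc j, Derivation.leibniz, smul_eq_mul, smul_eq_mul] at h2
  have h3 := congrArg (evp K (p a) (p b)) h2
  rw [map_add, map_add, map_mul, map_mul, hgx, zero_mul, zero_add, map_sum] at h3
  have h4 := Finset.sum_coe_sort (Finset.univ \ ({l, a, b} : Finset (Fin s)))
    (fun k => evp K (p a) (p b) (PH (d j) (A j) al be ga k) *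
      evp K (p a) (p b) (hat (h.dQ l a b H) (lf al be ga k)))
  rw [h4]
  have h5 : ∑ k ∈ Finset.univ \ ({l, a, b} : Finset (Fin s)),
      evp K (p a) (p b) (PH (d j) (A j) al be ga k) *
      evp K (p a) (p b) (hat (h.dQ l a b H) (lf al be ga k)) =
      ∑ k, evp K (p a) (p b) (PH (d j) (A j) al be ga k * hat (h.dQ l a b H) (lf al be ga k)) := by
    rw [← Finset.sum_subset (Finset.subset_univ _) (s₁ := Finset.univ \ {l, a, b})]
    · exact Finset.sum_congr rfl fun k _ => (map_mul _ _ _).symm
    · intro k _ hk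
      have hk' : k ∈ ({l, a, b} : Finset (Fin s)) := by
        by_contra hcon
        exact hk (Finset.mem_sdiff.mpr ⟨Finset.mem_univ _, hcon⟩)
      rw [hat_lf_zeroH (P j₀) _ hk', mul_zero, map_zero]
  rw [h5]
  linear_combination h3

theorem finrank_VV2_one_le {x y : M} : Module.finrank K (VV2 K x y 1) ≤ 3 := by
  have h4 : Module.finrank K (VV2 K x y 1) ≤ Module.finrank K (WW K 1) :=
    Submodule.finrank_map_le _ _
  have h5 := finrank_WWk K 1
  omega

/-- the bound from the motion of the plane section -/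
theorem MCtx.countQ (h : MCtx K d D E A p G) (P : ∀ j, Pln (D j) (d j) p l a b al be ga)
    (j₀ : Fin q) {e : ℕ} {g : MvPolynomial (Fin 2) K} (hg : g ∈ WW K e) (hg0 : g ≠ 0)
    (hgx : evp K (p a) (p b) g = 0) (c : Fin q → MvPolynomial (Fin 2) K)
    (hc : ∀ j, fH (d j) (A j) al be ga = g * c j) :
    2 * ∑ j, Module.finrank K (VV2 K (p a) (p b) (d j)) + 20 ≤
      (e + 1) * (e + 2) + 6 * s := by
  classical
  have h1 := h.sum_le P j₀ hg hgx c hc
  have h2 := finrank_LamQ (K := K) (x := p a) (y := p b)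
    (Finset.univ \ ({l, a, b} : Finset (Fin s))) e (fun j => evp K (p a) (p b) (c j))
    (fun k j => evp K (p a) (p b) (PH (d j) (A j) al be ga k))
  have h3 := finrank_VV2_one_le (K := K) (x := p a) (y := p b)
  have h4 := finrank_VV2_lt hg hg0 hgx
  have h5 := finrank_WWk K e
  have h6 := card_complH (P j₀)
  have h7 : (Finset.univ \ ({l, a, b} : Finset (Fin s))).card *
      Module.finrank K (VV2 K (p a) (p b) 1) ≤
      (Finset.univ \ ({l, a, b} : Finset (Fin s))).card * 3 :=
    Nat.mul_le_mul le_rfl h3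
  omega

/-- the bound when the plane moves with respect to the further derivation -/
theorem MCtx.countA (h : MCtx K d D E A p G) (P : ∀ j, Pln (D j) (d j) p l a b al be ga)
    (j₀ : Fin q) {e : ℕ} {g : MvPolynomial (Fin 2) K} (hg : g ∈ WW K e) (hg0 : g ≠ 0)
    (hgx : evp K (p a) (p b) g = 0) (c : Fin q → MvPolynomial (Fin 2) K)
    (hc : ∀ j, fH (d j) (A j) al be ga = g * c j) {k₀ : Fin s}
    (hk₀ : hat (h.H j₀).dE (lf al be ga k₀) ≠ 0) :
    2 * ∑ j, Module.finrank K (VV2 K (p a) (p b) (d j)) + 22 ≤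
      (e + 1) * (e + 2) + 6 * s := by
  classical
  have hfin : ∀ k, FiniteDimensional K (VV2 K (p a) (p b) k) := fun k => by
    unfold VV2; infer_instance
  have h1 := h.sum_le P j₀ hg hgx c hc
  have h2 := finrank_LamQ (K := K) (x := p a) (y := p b)
    (Finset.univ \ ({l, a, b} : Finset (Fin s))) e (fun j => evp K (p a) (p b) (c j))
    (fun k j => evp K (p a) (p b) (PH (d j) (A j) al be ga k))
  have h3 := finrank_VV2_one_le (K := K) (x := p a) (y := p b)
  have h4 := finrank_VV2_lt hg hg0 hgx
  have h5 := finrank_WWk K e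
  have h6 := card_complH (P j₀)
  have h7 : (Finset.univ \ ({l, a, b} : Finset (Fin s))).card *
      Module.finrank K (VV2 K (p a) (p b) 1) ≤
      (Finset.univ \ ({l, a, b} : Finset (Fin s))).card * 3 :=
    Nat.mul_le_mul le_rfl h3
  have hk₀' : k₀ ∉ ({l, a, b} : Finset (Fin s)) := by
    intro hk
    exact hk₀ (hat_lf_zeroH (P j₀) _ hk)
  have hk₁ : k₀ ∈ Finset.univ \ ({l, a, b} : Finset (Fin s)) :=
    Finset.mem_sdiff.mpr ⟨Finset.mem_univ _, hk₀'⟩
  set Λ := LamQ K (p a) (p b)
        (Finset.univ \ ({l, a, b} : Finset (Fin s))) e (fun j => evp K (p a) (p b) (c j))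
        (fun k j => evp K (p a) (p b) (PH (d j) (A j) al be ga k)) with hΛ
  have h8 : 1 ≤ Module.finrank K (LinearMap.ker Λ) := by
    rw [Nat.one_le_iff_ne_zero]
    intro h0
    let δ := (h.H j₀).dE
    let v : VV2 K (p a) (p b) e × ((Finset.univ \ ({l, a, b} : Finset (Fin s)) :
        Finset (Fin s)) → VV2 K (p a) (p b) 1) :=
      (⟨evp K (p a) (p b) (hat δ g), ⟨hat δ g, hat_mem _ hg, rfl⟩⟩,
        fun k => ⟨evp K (p a) (p b) (hat δ (lf al be ga (k : Fin s))),
          ⟨hat δ (lf al be ga (k : Fin s)), hat_mem _ (lf_mem _), rfl⟩⟩)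
    have hv : v ∈ LinearMap.ker Λ := by
      rw [LinearMap.mem_ker]
      funext j
      rw [hΛ, LamQ_apply]
      have e1 : hat δ (fH (d j) (A j) al be ga) =
          ∑ k, PH (d j) (A j) al be ga k * hat δ (lf al be ga k) := by
        rw [hat_fH_aux, Finset.sum_eq_zero, zero_add]
        intro J _
        have : δ (A j J) = 0 := Subtype.ext ((h.H j).EA J)
        rw [this, zero_smul]
      rw [hc j, Derivation.leibniz, smul_eq_mul, smul_eq_mul] at e1
      have h3 := congrArg (evp K (p a) (p b)) e1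
      rw [map_add, map_mul, map_mul, hgx, zero_mul, zero_add, map_sum] at h3
      have h4 := Finset.sum_coe_sort (Finset.univ \ ({l, a, b} : Finset (Fin s)))
        (fun k => evp K (p a) (p b) (PH (d j) (A j) al be ga k) *
          evp K (p a) (p b) (hat δ (lf al be ga k)))
      have h5 : ∑ k ∈ Finset.univ \ ({l, a, b} : Finset (Fin s)),
          evp K (p a) (p b) (PH (d j) (A j) al be ga k) *
          evp K (p a) (p b) (hat δ (lf al be ga k)) =
          ∑ k, evp K (p a) (p b) (PH (d j) (A j) al be ga k * hat δ (lf al be ga k)) := by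
        rw [← Finset.sum_subset (Finset.subset_univ _) (s₁ := Finset.univ \ {l, a, b})]
        · exact Finset.sum_congr rfl fun k _ => (map_mul _ _ _).symm
        · intro k _ hk
          have hk' : k ∈ ({l, a, b} : Finset (Fin s)) := by
            by_contra hcon
            exact hk (Finset.mem_sdiff.mpr ⟨Finset.mem_univ _, hcon⟩)
          rw [hat_lf_zeroH (P j₀) _ hk', mul_zero, map_zero]
      show evp K (p a) (p b) (hat δ g) * evp K (p a) (p b) (c j) -
        ∑ k : (Finset.univ \ ({l, a, b} : Finset (Fin s)) : Finset (Fin s)),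
          evp K (p a) (p b) (PH (d j) (A j) al be ga k) *
            evp K (p a) (p b) (hat δ (lf al be ga (k : Fin s))) = (0 : Fin q → M) j
      rw [h4, h5, Pi.zero_apply]
      linear_combination h3
    have hv0 : v = 0 := by
      have := Submodule.finrank_eq_zero.mp h0
      rw [this, Submodule.mem_bot] at hv
      exact hv
    have h9 := congrFun (congrArg Prod.snd hv0) ⟨k₀, hk₁⟩
    have h10 : evp K (p a) (p b) (hat δ (lf al be ga k₀)) = 0 := congrArg Subtype.val h9
    apply hk₀
    have h11 : hat δ (lf al be ga k₀) = C (δ (al k₀)) + X 0 * C (δ (be k₀)) +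
        X 1 * C (δ (ga k₀)) := by
      unfold lf
      rw [map_add, map_add, Derivation.leibniz, Derivation.leibniz, hat_C, hat_C, hat_C, hat_X,
        hat_X, smul_zero, smul_zero, zero_add, zero_add, smul_eq_mul, smul_eq_mul]
    rw [evp_hat_lfH] at h10
    obtain ⟨i1, i2, i3⟩ := (P j₀).hxy _ _ _ h10
    show hat δ (lf al be ga k₀) = 0
    rw [h11, i1, i2, i3]
    simp
  omega

end Pool.Agent.Lib.MP_44a246_ntH
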