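import Mathlib

/-!
Numerical consequences of the dimension counts for several equations.
-/

namespace Pool.Agent.Lib.MP_44a246_ntH

section Num

theorem numQ_big {d V e : ℤ} {t : ℤ} (hd : d = e + t)
    (hV : (d + 1) * (d + 2) ≤ 2 * V + (t + 1) * (t + 2)) :
    (e - 2) * (e + 1) + 2 * t * (e - 2) ≤ 2 * V - 6 - 4 * (d - 1) := by
  subst hd
  nlinarith

theorem numQ_small {d V : ℤ} (hd : 2 ≤ d) (hV : (d + 1) * (d + 2) ≤ 2 * V) :
    2 * (d - 1) ≤ 2 * V - 6 - 4 * (d - 1) := by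
  nlinarith

variable {q : ℕ} {d V : Fin q → ℕ} {e k : ℕ}

theorem numQ_uj (hd2 : ∀ j, 2 ≤ d j) (he : 2 ≤ e)
    (hV : ∀ j, (d j + 1) * (d j + 2) ≤ 2 * V j + (d j + 1 - e) * (d j + 2 - e)) (j : Fin q) :
    (d j < e → 2 * ((d j : ℤ) - 1) ≤ 2 * V j - 6 - 4 * ((d j : ℤ) - 1)) ∧
    (e ≤ d j → ((e : ℤ) - 2) * (e + 1) + 2 * ((d j : ℤ) - e) * (e - 2) ≤
      2 * V j - 6 - 4 * ((d j : ℤ) - 1)) := by
  refine ⟨fun hlt => ?_, fun hle => ?_⟩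
  · refine numQ_small (by exact_mod_cast hd2 j) ?_
    have h1 := hV j
    have e1 : d j + 1 - e = 0 := by omega
    rw [e1, zero_mul, add_zero] at h1
    exact_mod_cast h1
  · obtain ⟨t, ht⟩ := Nat.exists_eq_add_of_le hle
    have h1 := hV j
    have e1 : d j + 1 - e = t + 1 := by omega
    have e2 : d j + 2 - e = t + 2 := by omega
    rw [e1, e2] at h1
    have h2 := numQ_big (d := (d j : ℤ)) (V := (V j : ℤ)) (e := e) (t := t) (by exact_mod_cast ht)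
      (by exact_mod_cast h1)
    have e3 : (d j : ℤ) - e = t := by rw [ht]; push_cast; ring
    rw [e3]
    exact h2

theorem numQ_nonneg (hd2 : ∀ j, 2 ≤ d j) (he : 2 ≤ e)
    (hV : ∀ j, (d j + 1) * (d j + 2) ≤ 2 * V j + (d j + 1 - e) * (d j + 2 - e)) (j : Fin q) :
    (0 : ℤ) ≤ 2 * V j - 6 - 4 * ((d j : ℤ) - 1) := by
  obtain ⟨h1, h2⟩ := numQ_uj hd2 he hV j
  have h3 : (2 : ℤ) ≤ d j := by exact_mod_cast hd2 j
  have h4 : (2 : ℤ) ≤ e := by exact_mod_cast he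
  rcases lt_or_ge (d j) e with h5 | h5
  · have := h1 h5
    linarith
  · have h6 := h2 h5
    have h7 : (e : ℤ) ≤ d j := by exact_mod_cast h5
    have h8 : (0 : ℤ) ≤ ((e : ℤ) - 2) * (e + 1) := mul_nonneg (by linarith) (by linarith)
    have h9 : (0 : ℤ) ≤ 2 * ((d j : ℤ) - e) * (e - 2) := mul_nonneg (by linarith) (by linarith)
    linarith

theorem numQ_sum (hd : ∑ j, d j = 3 * k + 2 + q) :
    ∑ j, (2 * (V j : ℤ) - 6 - 4 * ((d j : ℤ) - 1)) =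
      2 * ((∑ j, V j : ℕ) : ℤ) - 6 * q - 4 * (3 * k + 2) := by
  have h1 : ((∑ j, d j : ℕ) : ℤ) = 3 * k + 2 + q := by rw [hd]; push_cast; ring
  push_cast at h1 ⊢
  rw [Finset.sum_sub_distrib, Finset.sum_sub_distrib, ← Finset.mul_sum, ← Finset.mul_sum,
    Finset.sum_sub_distrib, h1]
  simp only [Finset.sum_const, Finset.card_univ, Fintype.card_fin, nsmul_eq_mul]
  ring

/-- the equation of the point has large degree: exactly one of the forms has a nonzero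
restriction to the plane -/
theorem numQ_one (hd2 : ∀ j, 2 ≤ d j) (hd : ∑ j, d j = 3 * k + 2 + q) (he : 2 ≤ e)
    (hV : ∀ j, (d j + 1) * (d j + 2) ≤ 2 * V j + (d j + 1 - e) * (d j + 2 - e))
    (hc : 2 * ∑ j, V j + 8 ≤ (e + 1) * (e + 2) + 6 * q + 12 * k) {j₀ : Fin q}
    (hj₀ : e ≤ d j₀) : 3 ≤ e ∧ d j₀ ≤ e + 1 ∧ ∀ j, j ≠ j₀ → d j < e := by
  have hs := numQ_sum (V := V) hd
  have hn := numQ_nonneg hd2 he hV
  have hc' : 2 * ((∑ j, V j : ℕ) : ℤ) + 8 ≤ ((e : ℤ) + 1) * (e + 2) + 6 * q + 12 * k := by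
    exact_mod_cast hc
  have he' : (2 : ℤ) ≤ e := by exact_mod_cast he
  have h0 := (numQ_uj hd2 he hV j₀).2 hj₀
  have hj₀' : (e : ℤ) ≤ d j₀ := by exact_mod_cast hj₀
  have h1 := Finset.single_le_sum (fun j _ => hn j) (Finset.mem_univ j₀)
  have h2 : ((e : ℤ) - 2) * (e + 1) + 2 * ((d j₀ : ℤ) - e) * (e - 2) ≤ e ^ 2 + 3 * e - 14 := by
    nlinarith
  have h3 : 2 * ((d j₀ : ℤ) - e) * (e - 2) ≤ 4 * e - 12 := by nlinarith
  have h3' : (0 : ℤ) ≤ 2 * ((d j₀ : ℤ) - e) * (e - 2) := mul_nonneg (by linarith) (by linarith)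
  have h4 : (3 : ℤ) ≤ e := by linarith
  have h5 : (d j₀ : ℤ) ≤ e + 1 := by
    by_contra hcon
    push Not at hcon
    nlinarith
  refine ⟨by exact_mod_cast h4, by exact_mod_cast h5, fun j hj => ?_⟩
  by_contra hcon
  push Not at hcon
  have h6 := (numQ_uj hd2 he hV j).2 hcon
  have hcon' : (e : ℤ) ≤ d j := by exact_mod_cast hcon
  have h7 : (2 * (V j₀ : ℤ) - 6 - 4 * ((d j₀ : ℤ) - 1)) +
      (2 * (V j : ℤ) - 6 - 4 * ((d j : ℤ) - 1)) ≤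
      ∑ j, (2 * (V j : ℤ) - 6 - 4 * ((d j : ℤ) - 1)) := by
    rw [← Finset.sum_pair (f := fun j => (2 * (V j : ℤ) - 6 - 4 * ((d j : ℤ) - 1)))
      (Ne.symm hj)]
    exact Finset.sum_le_sum_of_subset_of_nonneg (Finset.subset_univ _) fun i _ _ => hn i
  have h8 : (0 : ℤ) ≤ 2 * ((d j : ℤ) - e) * (e - 2) := mul_nonneg (by linarith) (by linarith)
  nlinarith [sq_nonneg ((2 : ℤ) * e - 5)]

/-- the sum split at the large degree -/
theorem numQ_split (hd2 : ∀ j, 2 ≤ d j) (hd : ∑ j, d j = 3 * k + 2 + q) (he : 2 ≤ e)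
    (hV : ∀ j, (d j + 1) * (d j + 2) ≤ 2 * V j + (d j + 1 - e) * (d j + 2 - e))
    {j₀ : Fin q} (hj₀ : e ≤ d j₀) (hoth : ∀ j, j ≠ j₀ → d j < e) :
    ((e : ℤ) - 2) * (e + 1) + 2 * ((d j₀ : ℤ) - e) * (e - 2) +
      2 * (3 * k + 2 - ((d j₀ : ℤ) - 1)) ≤
      2 * ((∑ j, V j : ℕ) : ℤ) - 6 * q - 4 * (3 * k + 2) := by
  have hs := numQ_sum (V := V) hd
  have h0 := (numQ_uj hd2 he hV j₀).2 hj₀
  rw [← hs, ← Finset.add_sum_erase _ _ (Finset.mem_univ j₀)]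
  have h1 : ∑ j ∈ Finset.univ.erase j₀, 2 * ((d j : ℤ) - 1) ≤
      ∑ j ∈ Finset.univ.erase j₀, (2 * (V j : ℤ) - 6 - 4 * ((d j : ℤ) - 1)) :=
    Finset.sum_le_sum fun j hj => (numQ_uj hd2 he hV j).1 (hoth j (Finset.ne_of_mem_erase hj))
  have h2 : ∑ j ∈ Finset.univ.erase j₀, 2 * ((d j : ℤ) - 1) =
      2 * (3 * k + 2 - ((d j₀ : ℤ) - 1)) := by
    have h3 : ((∑ j, d j : ℕ) : ℤ) = 3 * k + 2 + q := by rw [hd]; push_cast; ring
    push_cast at h3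
    rw [← Finset.add_sum_erase _ _ (Finset.mem_univ j₀)] at h3
    rw [← Finset.mul_sum, Finset.sum_sub_distrib]
    have h4 : ((Finset.univ.erase j₀).card : ℤ) = q - 1 := by
      rw [Finset.card_erase_of_mem (Finset.mem_univ j₀), Finset.card_univ, Fintype.card_fin]
      have := j₀.2
      rw [Nat.cast_sub (by omega)]
      push_cast
      ring
    simp only [Finset.sum_const, nsmul_eq_mul, mul_one]
    rw [h4]
    linarith
  linarith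

/-- the case of a constant plane is impossible -/
theorem numQ_B (hk : 1 ≤ k) (hd2 : ∀ j, 2 ≤ d j) (hd : ∑ j, d j = 3 * k + 2 + q) (he : 3 ≤ e)
    (hV : ∀ j, (d j + 1) * (d j + 2) ≤ 2 * V j + (d j + 1 - e) * (d j + 2 - e))
    {j₀ : Fin q} (hj₀ : e ≤ d j₀) (hoth : ∀ j, j ≠ j₀ → d j < e)
    (hc : 2 * ∑ j, V j + 4 ≤ 6 * q + 12 * k + 6 * e) : False := by
  have h1 := numQ_split hd2 hd (by omega) hV hj₀ hoth
  have hc' : 2 * ((∑ j, V j : ℕ) : ℤ) + 4 ≤ 6 * q + 12 * k + 6 * e := by exact_mod_cast hc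
  have he' : (3 : ℤ) ≤ e := by exact_mod_cast he
  have hk' : (1 : ℤ) ≤ k := by exact_mod_cast hk
  have hj₀' : (0 : ℤ) ≤ (d j₀ : ℤ) - e := by
    have : (e : ℤ) ≤ d j₀ := by exact_mod_cast hj₀
    linarith
  have h2 : (0 : ℤ) ≤ ((d j₀ : ℤ) - e) * (e - 3) := mul_nonneg hj₀' (by linarith)
  nlinarith [sq_nonneg ((2 : ℤ) * e - 9)]

/-- in the case of a moving plane the degree is large -/
theorem numQ_A (hd2 : ∀ j, 2 ≤ d j) (hd : ∑ j, d j = 3 * k + 2 + q) (he : 3 ≤ e)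
    (hV : ∀ j, (d j + 1) * (d j + 2) ≤ 2 * V j + (d j + 1 - e) * (d j + 2 - e))
    {j₀ : Fin q} (hj₀ : e ≤ d j₀) (hoth : ∀ j, j ≠ j₀ → d j < e)
    (hc : 2 * ∑ j, V j + 10 ≤ (e + 1) * (e + 2) + 6 * q + 12 * k) : k + 4 ≤ e := by
  have h1 := numQ_split hd2 hd (by omega) hV hj₀ hoth
  have hc' : 2 * ((∑ j, V j : ℕ) : ℤ) + 10 ≤ ((e : ℤ) + 1) * (e + 2) + 6 * q + 12 * k := by
    exact_mod_cast hc
  have he' : (3 : ℤ) ≤ e := by exact_mod_cast he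
  have hj₀' : (0 : ℤ) ≤ (d j₀ : ℤ) - e := by
    have : (e : ℤ) ≤ d j₀ := by exact_mod_cast hj₀
    linarith
  have h2 : (0 : ℤ) ≤ ((d j₀ : ℤ) - e) * (e - 3) := mul_nonneg hj₀' (by linarith)
  have h3 : 3 * (k : ℤ) + 10 ≤ 3 * e := by nlinarith
  have h4 : 3 * k + 10 ≤ 3 * e := by exact_mod_cast h3
  omega

end Num

end Pool.Agent.Lib.MP_44a246_ntH
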