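import Mathlib
import Pool.Agent.Lib.MP_44a246_ntH.QB3

/-!
Several equations: the case of a plane which is constant with respect to the further derivation.
-/

set_option linter.unusedSectionVars false

namespace Pool.Agent.Lib.MP_44a246_ntH

open Pool.Agent.Lib.MP_e52354_nt
open Pool.Agent.Lib.MP_e52354_ntP Pool.Agent.Lib.MP_e52354_ntI
open MvPolynomial

universe u

variable {M : Type u} [Field M] {K : Subfield M} {s q : ℕ} {d : Fin q → ℕ}
  {A : Fin q → (Fin s →₀ ℕ) → K} {al be ga : Fin s → K}
  {D : Fin q → (Fin s →₀ ℕ) → Derivation ℤ M M} {E : Derivation ℤ M M}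
  {p : Fin s → M} {G : ℕ → AddSubgroup M} {l a b : Fin s}

/-- the values of a vector of polynomials -/
noncomputable def evV (K : Subfield M) (x y : M) (d : Fin q → ℕ) :
    WV K d →ₗ[K] (Fin q → M) :=
  LinearMap.pi fun j => (evp K x y).toLinearMap ∘ₗ LinearMap.proj j ∘ₗ (WV K d).subtype

theorem evV_apply (x y : M) (H : WV K d) (j : Fin q) :
    evV K x y d H j = evp K x y ((H : Fin q → MvPolynomial (Fin 2) K) j) := rfl

/-- the case of a constant plane -/
theorem MCtx.caseBQ [CharZero M] (h : MCtx K d D E A p G)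
    (P : ∀ j, Pln (D j) (d j) p l a b al be ga) (j₀ : Fin q)
    {g c : MvPolynomial (Fin 2) K} (hg0 : g ≠ 0) (hgx : evp K (p a) (p b) g = 0)
    (hmin : ∀ f : MvPolynomial (Fin 2) K, f ≠ 0 → evp K (p a) (p b) f = 0 →
      g.totalDegree ≤ f.totalDegree)
    (hc : fH (d j₀) (A j₀) al be ga = g * c) (hc0 : c ≠ 0) (hcd : c.totalDegree < g.totalDegree)
    (hoth : ∀ j, j ≠ j₀ → fH (d j) (A j) al be ga = 0)
    (hE : ∀ j, hat (h.H j₀).dE (lf al be ga j) = 0) :
    ∑ j, Module.finrank K (VV2 K (p a) (p b) (d j)) + 9 ≤ 3 * s + 3 * g.totalDegree + 1 := by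
  classical
  have hchar : CharZero K := K.subtype.charZero
  set F := fH (d j₀) (A j₀) al be ga with hF
  -- step 1
  have hEk : ∀ j, E (p j) = be j * E (p a) + ga j * E (p b) := by
    intro j
    have h1 := (h.H j₀).motion_E (P j₀) j
    rw [hE j, map_zero, zero_add] at h1
    exact h1
  have hExy : E (p a) ≠ 0 ∨ E (p b) ≠ 0 := by
    by_contra hcon
    push Not at hcon
    obtain ⟨j, hj⟩ := (h.H j₀).Ep
    apply hj
    rw [hEk j, hcon.1, hcon.2, mul_zero, mul_zero, add_zero]
  set fx := evp K (p a) (p b) (pderiv 0 F) with hfx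
  set fy := evp K (p a) (p b) (pderiv 1 F) with hfy
  have hFp : evp K (p a) (p b) F = 0 := (h.H j₀).fp (P j₀)
  -- step 2
  have e1 : fx * E (p a) + fy * E (p b) = 0 := by
    have h1 := chainH E (h.H j₀).EK (p a) (p b) F
    have h2 : hat (resD E (h.H j₀).EK) F = 0 := by
      rw [hF, hat_fH_aux, Finset.sum_eq_zero, Finset.sum_eq_zero, add_zero]
      · intro j _
        have : hat (resD E (h.H j₀).EK) (lf al be ga j) = 0 := hE j
        rw [this, mul_zero]
      · intro J _
        have : resD E (h.H j₀).EK (A j₀ J) = 0 := Subtype.ext ((h.H j₀).EA J)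
        rw [this, zero_smul]
    rw [hFp, map_zero, h2, map_zero, zero_add] at h1
    exact h1.symm
  have hker : ∀ H : WV K d, H ∈ LinearMap.ker (h.thetaQ l a b al be ga) → ∀ j,
      hat (h.dQ l a b (H : Fin q → MvPolynomial (Fin 2) K)) (fH (d j) (A j) al be ga) =
        (H : Fin q → MvPolynomial (Fin 2) K) j := by
    intro H hH j
    rw [h.hat_fQ P H.2 j, Finset.sum_eq_zero (fun k _ => by
      rw [h.thetaQ_ker (P j₀) hH k, mul_zero]), add_zero]
  have hker0 : ∀ H : WV K d, H ∈ LinearMap.ker (h.thetaQ l a b al be ga) → ∀ j, j ≠ j₀ →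
      (H : Fin q → MvPolynomial (Fin 2) K) j = 0 := by
    intro H hH j hj
    rw [← hker H hH j, hoth j hj, map_zero]
  have e2 : ∀ H : WV K d, H ∈ LinearMap.ker (h.thetaQ l a b al be ga) →
      fx * EVq K D d l a b p (H : Fin q → MvPolynomial (Fin 2) K) a +
        fy * EVq K D d l a b p (H : Fin q → MvPolynomial (Fin 2) K) b =
      - evp K (p a) (p b) ((H : Fin q → MvPolynomial (Fin 2) K) j₀) := by
    intro H hH
    have h1 := chainH (DGq K D d l a b (H : Fin q → MvPolynomial (Fin 2) K))
      (h.DGq_K (H : Fin q → MvPolynomial (Fin 2) K)) (p a) (p b) F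
    have h2 : hat (resD (DGq K D d l a b (H : Fin q → MvPolynomial (Fin 2) K))
        (h.DGq_K (H : Fin q → MvPolynomial (Fin 2) K))) F =
        (H : Fin q → MvPolynomial (Fin 2) K) j₀ := hker H hH j₀
    rw [hFp, map_zero, h2] at h1
    rw [EVq_eq, EVq_eq]
    linear_combination -h1
  -- step 4
  have hcp : evp K (p a) (p b) c ≠ 0 := by
    intro h0
    have := hmin c hc0 h0
    omega
  have hgd : ∀ i, evp K (p a) (p b) (pderiv i g) = 0 → pderiv i g = 0 := by
    intro i h0
    by_contra hne
    have h1 := hmin _ hne h0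
    have h2 : g ∈ WW K (g.totalDegree - 1 + 1) := mem_WW.mpr (by omega)
    have h3 := mem_WW.mp (pderiv_mem_WW i h2)
    omega
  have hFi : ∀ i, evp K (p a) (p b) (pderiv i F) =
      evp K (p a) (p b) (pderiv i g) * evp K (p a) (p b) c := by
    intro i
    rw [hc, Derivation.leibniz, map_add, smul_eq_mul, smul_eq_mul, map_mul, map_mul, hgx,
      zero_mul, zero_add, mul_comm]
  have hfxy : fx ≠ 0 ∨ fy ≠ 0 := by
    by_contra hcon
    push Not at hcon
    have h0 : pderiv 0 g = 0 := by
      apply hgd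
      have := hcon.1
      rw [hfx, hFi] at this
      exact (mul_eq_zero.mp this).resolve_right hcp
    have h1 : pderiv 1 g = 0 := by
      apply hgd
      have := hcon.2
      rw [hfy, hFi] at this
      exact (mul_eq_zero.mp this).resolve_right hcp
    have h2 := eq_C_of_pderiv (g := g) (by
      intro i
      fin_cases i
      · exact h0
      · exact h1)
    rw [h2, totalDegree_C] at hcd
    omega
  -- step 5
  obtain ⟨η, hη0, hη1, hη2⟩ : ∃ η : M, η ≠ 0 ∧ E (p a) = η * fy ∧ E (p b) = -(η * fx) := by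
    by_cases hy : fy = 0
    · have hx : fx ≠ 0 := by
        rcases hfxy with h1 | h1
        · exact h1
        · exact absurd hy h1
      have h2 : E (p a) = 0 := by
        rw [hy, zero_mul, add_zero] at e1
        exact (mul_eq_zero.mp e1).resolve_left hx
      have h3 : E (p b) ≠ 0 := by
        rcases hExy with h1 | h1
        · exact absurd h2 h1
        · exact h1
      refine ⟨-(E (p b)) / fx, div_ne_zero (neg_ne_zero.mpr h3) hx, ?_, ?_⟩
      · rw [h2, hy, mul_zero]
      · field_simp
    · refine ⟨E (p a) / fy, ?_, ?_, ?_⟩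
      · refine div_ne_zero ?_ hy
        intro h0
        rw [h0, mul_zero, zero_add] at e1
        have h1 := (mul_eq_zero.mp e1).resolve_left hy
        rcases hExy with h2 | h2
        · exact h2 h0
        · exact h2 h1
      · field_simp
      · field_simp
        linear_combination e1
  have e3 : ∀ H : WV K d, H ∈ LinearMap.ker (h.thetaQ l a b al be ga) →
      η * evp K (p a) (p b) ((H : Fin q → MvPolynomial (Fin 2) K) j₀) ∈ G 3 := by
    intro H hH
    have h1 := h.wEEV (l := l) (a := a) (b := b) H.2 a b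
    have h2 : E (p a) * EVq K D d l a b p (H : Fin q → MvPolynomial (Fin 2) K) b -
        E (p b) * EVq K D d l a b p (H : Fin q → MvPolynomial (Fin 2) K) a =
        -(η * evp K (p a) (p b) ((H : Fin q → MvPolynomial (Fin 2) K) j₀)) := by
      rw [hη1, hη2]
      linear_combination η * e2 H hH
    rw [h2] at h1
    have h3 := neg_mem h1
    rwa [neg_neg] at h3
  -- step 6
  have h0 : ∑ j, Module.finrank K (VV2 K (p a) (p b) (d j)) ≤
      Module.finrank K (LinearMap.range (evV K (p a) (p b) d)) :=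
    sum_VV2_le fun H hH => ⟨⟨H, hH⟩, rfl⟩
  have h1 := finrank_range_le_add (evV K (p a) (p b) d) (h.thetaQ l a b al be ga)
  have h2 := h.thetaQ_rank (al := al) (be := be) (ga := ga) (P j₀)
  let μ : (Fin q → M) →ₗ[K] M := (LinearMap.mulLeft K η) ∘ₗ LinearMap.proj j₀
  have hμ : ∀ v : Fin q → M, μ v = η * v j₀ := fun _ => rfl
  set S := (LinearMap.ker (h.thetaQ l a b al be ga)).map (evV K (p a) (p b) d) with hS
  have hinj : Function.Injective (μ.domRestrict S) := by
    rw [← LinearMap.ker_eq_bot, LinearMap.ker_eq_bot']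
    rintro ⟨v, H, hH, rfl⟩ hv
    apply Subtype.ext
    funext j
    show evV K (p a) (p b) d H j = 0
    rw [evV_apply]
    by_cases hj : j = j₀
    · have h4 : η * evp K (p a) (p b) ((H : Fin q → MvPolynomial (Fin 2) K) j₀) = 0 := hv
      rw [hj]
      exact (mul_eq_zero.mp h4).resolve_left hη0
    · rw [hker0 H hH j hj, map_zero]
  have h3 : Module.finrank K S ≤ 3 * g.totalDegree + 1 := by
    rw [← LinearMap.finrank_range_of_inj hinj]
    refine (h.H j₀).W.dim_le (P j₀) hg0 hgx η 3 _ ?_ ?_
    · rintro _ ⟨⟨v, H, hH, rfl⟩, rfl⟩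
      exact e3 H hH
    · rintro _ ⟨⟨v, H, hH, rfl⟩, rfl⟩
      exact ⟨evp K (p a) (p b) ((H : Fin q → MvPolynomial (Fin 2) K) j₀), evp_mem_adjoin _ _ _,
        rfl⟩
  omega

end Pool.Agent.Lib.MP_44a246_ntH
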