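import Mathlib
import Pool.Agent.Lib.MP_44a246_ntH.HB8
import Pool.Agent.Lib.MP_44a246_ntH.QSD

/-!
The case of a plane which is not constant with respect to the further derivation, from the
alternatives of the slots.
-/

set_option linter.unusedSectionVars false

namespace Pool.Agent.Lib.MP_44a246_ntH

open Pool.Agent.Lib.MP_e52354_nt
open Pool.Agent.Lib.MP_e52354_ntP Pool.Agent.Lib.MP_e52354_ntI
open MvPolynomial

universe u

section Y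

variable {M : Type*} [Field M] {K : Subfield M} {q : ℕ}

theorem prod_mem_WW {τ : Type*} (T : Finset τ) (f : τ → MvPolynomial (Fin 2) K)
    (hf : ∀ i ∈ T, f i ∈ WW K 1) : ∏ i ∈ T, f i ∈ WW K T.card := by
  classical
  induction T using Finset.induction_on with
  | empty =>
    rw [Finset.prod_empty, Finset.card_empty]
    exact C_mem_WW 0 1
  | insert i T hi ih =>
    rw [Finset.prod_insert hi, Finset.card_insert_of_notMem hi]
    have := mul_mem_WW (hf i (Finset.mem_insert_self i T))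
      (ih fun j hj => hf j (Finset.mem_insert_of_mem hj))
    rwa [add_comm] at this

/-- a space of polynomials in the kernels of all slots -/
theorem exists_Y {k : ℕ} {e : Fin q → ℕ}
    (N : Fin k → (Fin q → MvPolynomial (Fin 2) K) →ₗ[K] Matrix (Fin 2) (Fin 2) M) (j₀ : Fin q)
    (hN : ∀ i, AltQ K e (N i) j₀) (hk : k + 3 ≤ e j₀) :
    ∃ (m : ℕ) (R₀ : MvPolynomial (Fin 2) K) (Y : Submodule K (WW K m)), R₀ ≠ 0 ∧
      (∀ F ∈ WW K m, R₀ * F ∈ WW K (e j₀ - 1)) ∧ 6 ≤ Module.finrank K Y ∧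
      ∀ R ∈ Y, ∀ ℓ ∈ WW K 1, ∀ i,
        N i (Pi.single j₀ (ℓ * (R₀ * (R : MvPolynomial (Fin 2) K)))) = 0 := by
  classical
  let T : Finset (Fin k) := Finset.univ.filter fun i => ∃ ℓ ∈ WW K 1, ℓ ≠ 0 ∧
    ∀ m, m + 1 ≤ e j₀ → ∀ R ∈ WW K m, N i (Pi.single j₀ (ℓ * R)) = 0
  have hT : ∀ i ∈ T, ∃ ℓ ∈ WW K 1, ℓ ≠ 0 ∧
      ∀ m, m + 1 ≤ e j₀ → ∀ R ∈ WW K m, N i (Pi.single j₀ (ℓ * R)) = 0 :=
    fun i hi => (Finset.mem_filter.mp hi).2
  choose! L hL1 hL0 hLN using hT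
  have hcard : T.card + Tᶜ.card = k := by
    rw [Finset.card_add_card_compl, Fintype.card_fin]
  obtain ⟨m, hm⟩ : ∃ m, m + T.card + 1 = e j₀ := ⟨e j₀ - 1 - T.card, by omega⟩
  have hS : ∀ i, ∃ S : Submodule K (WW K m),
      Module.finrank K (WW K m) ≤ Module.finrank K S + 3 ∧
      (i ∉ T → ∀ F ∈ S, ∀ G ∈ WW K (e j₀ - m),
        N i (Pi.single j₀ ((F : MvPolynomial (Fin 2) K) * G)) = 0) := by
    intro i
    by_cases hi : i ∈ T
    · refine ⟨⊤, ?_, fun h => absurd hi h⟩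
      rw [finrank_top]
      omega
    · rcases hN i with h1 | h1
      · exact absurd (Finset.mem_filter.mpr ⟨Finset.mem_univ i, h1⟩) hi
      · obtain ⟨S, h2, h3⟩ := h1 m (by omega)
        exact ⟨S, h2, fun _ => h3⟩
  choose S hS1 hS2 using hS
  have := HB6b_fin K m
  have h4 := finrank_inf Tᶜ S 3 hS1
  refine ⟨m, ∏ i ∈ T, L i, Tᶜ.inf S, ?_, ?_, ?_, ?_⟩
  · rw [Finset.prod_ne_zero_iff]
    exact hL0
  · intro F hF
    have h5 := mul_mem_WW (prod_mem_WW T L hL1) hF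
    exact WW_mono (by omega) h5
  · have h5 := finrank_WWk K m
    obtain ⟨r, hr⟩ : ∃ r, m = Tᶜ.card + 2 + r := ⟨m - (Tᶜ.card + 2), by omega⟩
    have h6 : (Tᶜ.card + 3) * (Tᶜ.card + 4) ≤ (m + 1) * (m + 2) :=
      Nat.mul_le_mul (by omega) (by omega)
    have h7 : (Tᶜ.card + 3) * (Tᶜ.card + 4) = Tᶜ.card * Tᶜ.card + 7 * Tᶜ.card + 12 := by ring
    have h8 : 0 ≤ Tᶜ.card * Tᶜ.card := Nat.zero_le _
    omega
  · intro R hR ℓ hℓ i
    by_cases hi : i ∈ T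
    · have h5 : ℓ * ((∏ i ∈ T, L i) * (R : MvPolynomial (Fin 2) K)) =
          L i * (ℓ * ((∏ i ∈ T.erase i, L i) * (R : MvPolynomial (Fin 2) K))) := by
        rw [← Finset.mul_prod_erase T L hi]
        ring
      rw [h5]
      refine hLN i hi (1 + ((T.erase i).card + m)) ?_ _ ?_
      · rw [Finset.card_erase_of_mem hi]
        have : 1 ≤ T.card := Finset.card_pos.mpr ⟨i, hi⟩
        omega
      · exact mul_mem_WW hℓ (mul_mem_WW (prod_mem_WW _ L fun j hj =>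
          hL1 j (Finset.mem_of_mem_erase hj)) R.2)
    · have h5 : ℓ * ((∏ i ∈ T, L i) * (R : MvPolynomial (Fin 2) K)) =
          (R : MvPolynomial (Fin 2) K) * (ℓ * ∏ i ∈ T, L i) := by ring
      rw [h5]
      refine hS2 i hi R ?_ _ ?_
      · exact (Finset.inf_le (f := S) (Finset.mem_compl.mpr hi) : _ ≤ S i) hR
      · have h6 := mul_mem_WW hℓ (prod_mem_WW T L hL1)
        exact WW_mono (by omega) h6

end Y

variable {M : Type u} [Field M] {K : Subfield M} {s d : ℕ} {A : (Fin s →₀ ℕ) → K}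
  {al be ga : Fin s → K} {D : (Fin s →₀ ℕ) → Derivation ℤ M M} {E : Derivation ℤ M M}
  {p : Fin s → M} {G : ℕ → AddSubgroup M} {l a b : Fin s}

/-- the linear part on multiples of a linear polynomial -/
theorem HCtx.linear_Y [CharZero M] (h : HCtx K d D E A p G) (P : Pln D d p l a b al be ga)
    (h3 : ∀ f ∈ WW K 3, evp K (p a) (p b) f = 0 → f = 0)
    {m : ℕ} {R₀ : MvPolynomial (Fin 2) K} (hm : ∀ F ∈ WW K m, R₀ * F ∈ WW K (d - 2))
    (hd : 2 ≤ d) (Y : Submodule K (WW K m))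
    (hRU : ∀ R ∈ Y, ∀ ℓ ∈ WW K 1, ∀ i, ∃ t : M,
      UU K D d l a b p i (ℓ * (R₀ * (R : MvPolynomial (Fin 2) K))) = t • (fun k => E (p k)))
    (Λ : (Fin s → M) →ₗ[M] M) (hΛE : Λ (fun k => E (p k)) = 1)
    (hΛ : ∀ i, ∀ Q ∈ WW K (d - 1), Λ (UU K D d l a b p i Q) ∈ G 1)
    (hΛ' : ∀ Q ∈ WW K (d - 1), p a * Λ (UU K D d l a b p 1 Q) -
      p b * Λ (UU K D d l a b p 0 Q) ∈ G 1) {k₀ : Fin s} (hk₀ : hat h.dE (lf al be ga k₀) ≠ 0)
    {ℓ : MvPolynomial (Fin 2) K} (hℓ : ℓ ∈ WW K 1) :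
    ∃ V' : Submodule K (WW K m), V' ≤ Y ∧ Module.finrank K Y ≤ Module.finrank K V' + 2 ∧
      ∀ v ∈ V', ∃ u : Fin 3 → K,
        UU K D d l a b p 0 (ℓ * (R₀ * (v : MvPolynomial (Fin 2) K))) =
          ((u 1 : M) - p a * (u 0 : M)) • (fun k => E (p k)) ∧
        UU K D d l a b p 1 (ℓ * (R₀ * (v : MvPolynomial (Fin 2) K))) =
          ((u 2 : M) - p b * (u 0 : M)) • (fun k => E (p k)) := by
  classical
  have := HB6b_fin K m
  let mu : Y →ₗ[K] MvPolynomial (Fin 2) K :=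
    (LinearMap.mulLeft K ℓ) ∘ₗ (LinearMap.mulLeft K R₀) ∘ₗ (WW K m).subtype ∘ₗ Y.subtype
  have hmu : ∀ v : Y, mu v = ℓ * (R₀ * ((v : WW K m) : MvPolynomial (Fin 2) K)) := fun _ => rfl
  have hmuW : ∀ v : Y, mu v ∈ WW K (d - 1) := by
    intro v
    rw [hmu]
    exact WW_mono (by omega) (mul_mem_WW hℓ (hm _ v.1.2))
  let SS : Fin 2 → Y →ₗ[K] M := fun i =>
    ((Λ.restrictScalars K).comp (UU K D d l a b p i)).comp mu
  have hSS : ∀ i (v : Y), SS i v = Λ (UU K D d l a b p i (mu v)) := fun i v => rfl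
  have hU : ∀ (v : Y) (i : Fin 2), UU K D d l a b p i (mu v) =
      SS i v • (fun k => E (p k)) := by
    intro v i
    obtain ⟨t, ht⟩ := hRU v.1 v.2 ℓ hℓ i
    rw [hSS, hmu, ht, map_smul, hΛE, smul_eq_mul, mul_one]
  obtain ⟨V', hV', hV'u⟩ := h.W.linear_part P h3 (V := Y) (SS 0) (SS 1)
    (fun v => hΛ 0 _ (hmuW v)) (fun v => hΛ 1 _ (hmuW v)) (fun v => hΛ' _ (hmuW v))
    (fun j : Fin s => hat h.dE (lf al be ga j)) (fun j => hat_mem _ (lf_mem j)) ⟨k₀, hk₀⟩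
    (fun j v => hat (h.dH l a b (mu v)) (lf al be ga j))
    (fun j v => hat (h.dH l a b (X 0 * mu v)) (lf al be ga j))
    (fun j v => hat (h.dH l a b (X 1 * mu v)) (lf al be ga j))
    (fun j v => hat_mem _ (lf_mem j)) (fun j v => hat_mem _ (lf_mem j))
    (fun j v => hat_mem _ (lf_mem j))
    (fun j v => h.UU_motion P _ 0 (hU v 0) j) (fun j v => h.UU_motion P _ 1 (hU v 1) j)
  refine ⟨V'.map Y.subtype, Submodule.map_subtype_le Y V', ?_, ?_⟩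
  · rw [Submodule.finrank_map_subtype_eq Y V']
    exact hV'
  rintro _ ⟨v, hv, rfl⟩
  obtain ⟨u₀, u₁, u₂, h0, h1⟩ := hV'u v hv
  refine ⟨![u₀, u₁, u₂], ?_, ?_⟩
  · have := hU v 0
    rw [h0] at this
    exact this
  · have := hU v 1
    rw [h1] at this
    exact this

/-- the plane is constant with respect to `E` -/
theorem HCtx.caseA' [CharZero M] (h : HCtx K d D E A p G) (P : Pln D d p l a b al be ga)
    (hd5 : 5 ≤ d) (hf : fH d A al be ga ≠ 0)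
    (hmin : ∀ f : MvPolynomial (Fin 2) K, f ≠ 0 → evp K (p a) (p b) f = 0 →
      d ≤ f.totalDegree + 1)
    {m : ℕ} {R₀ : MvPolynomial (Fin 2) K} (hR₀ : R₀ ≠ 0)
    (hm : ∀ F ∈ WW K m, R₀ * F ∈ WW K (d - 2)) (Y : Submodule K (WW K m))
    (hY : 6 ≤ Module.finrank K Y)
    (hRU : ∀ R ∈ Y, ∀ ℓ ∈ WW K 1, ∀ i, ∃ t : M,
      UU K D d l a b p i (ℓ * (R₀ * (R : MvPolynomial (Fin 2) K))) = t • (fun k => E (p k)))
    (Λ : (Fin s → M) →ₗ[M] M) (hΛE : Λ (fun k => E (p k)) = 1)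
    (hΛ : ∀ i, ∀ Q ∈ WW K (d - 1), Λ (UU K D d l a b p i Q) ∈ G 1)
    (hΛ' : ∀ Q ∈ WW K (d - 1), p a * Λ (UU K D d l a b p 1 Q) -
      p b * Λ (UU K D d l a b p 0 Q) ∈ G 1) :
    ∀ j, hat h.dE (lf al be ga j) = 0 := by
  classical
  by_contra hcon
  push Not at hcon
  obtain ⟨k₀, hk₀⟩ := hcon
  have h3 : ∀ f ∈ WW K 3, evp K (p a) (p b) f = 0 → f = 0 := by
    intro f hf3 hf0
    by_contra hne
    have h1 := hmin f hne hf0
    have h2 := mem_WW.mp hf3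
    omega
  obtain ⟨z, hz⟩ : ∃ z : Fin 2 → K, eval z (fH d A al be ga) ≠ 0 := by
    by_contra hcon
    push Not at hcon
    exact hf (MvPolynomial.funext fun z => by rw [hcon z, map_zero])
  have hP₁ : (MvPolynomial.X 0 - C (z 0) : MvPolynomial (Fin 2) K) ∈ WW K 1 :=
    Submodule.sub_mem _ (X_mem_WW le_rfl 0) (C_mem_WW 1 _)
  have hP₂ : (MvPolynomial.X 1 - C (z 1) : MvPolynomial (Fin 2) K) ∈ WW K 1 :=
    Submodule.sub_mem _ (X_mem_WW le_rfl 1) (C_mem_WW 1 _)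
  obtain ⟨V₁, hY₁, hV₁, hu₁⟩ := h.linear_Y P h3 hm (by omega) Y hRU Λ hΛE hΛ hΛ' hk₀ hP₁
  obtain ⟨V₂, hY₂, hV₂, hu₂⟩ := h.linear_Y P h3 hm (by omega) Y hRU Λ hΛE hΛ hΛ' hk₀ hP₂
  have := HB6b_fin K m
  have g4 := Submodule.finrank_sup_add_finrank_inf_eq V₁ V₂
  have g5 := Submodule.finrank_mono (sup_le hY₁ hY₂)
  have g7 : 2 ≤ Module.finrank K (V₁ ⊓ V₂ : Submodule K (WW K m)) := by omega
  obtain ⟨q₀, hq₀, q₁, hq₁, hind⟩ := exists_two _ g7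
  obtain ⟨m1, m2⟩ := Submodule.mem_inf.mp hq₀
  obtain ⟨m3, m4⟩ := Submodule.mem_inf.mp hq₁
  obtain ⟨u, hu0, hu1⟩ := hu₁ _ m1
  obtain ⟨v, hv0, hv1⟩ := hu₂ _ m2
  obtain ⟨u', hu0', hu1'⟩ := hu₁ _ m3
  obtain ⟨v', hv0', hv1'⟩ := hu₂ _ m4
  obtain ⟨Q₀, hQ₀⟩ := q₀
  obtain ⟨Q₁, hQ₁⟩ := q₁
  replace hu0 : UU K D d l a b p 0 ((X 0 - C (z 0)) * (R₀ * Q₀)) =
        ((u 1 : M) - p a * (u 0 : M)) • (fun k => E (p k)) := hu0
  replace hu1 : UU K D d l a b p 1 ((X 0 - C (z 0)) * (R₀ * Q₀)) =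
        ((u 2 : M) - p b * (u 0 : M)) • (fun k => E (p k)) := hu1
  replace hv0 : UU K D d l a b p 0 ((X 1 - C (z 1)) * (R₀ * Q₀)) =
        ((v 1 : M) - p a * (v 0 : M)) • (fun k => E (p k)) := hv0
  replace hv1 : UU K D d l a b p 1 ((X 1 - C (z 1)) * (R₀ * Q₀)) =
        ((v 2 : M) - p b * (v 0 : M)) • (fun k => E (p k)) := hv1
  replace hu0' : UU K D d l a b p 0 ((X 0 - C (z 0)) * (R₀ * Q₁)) =
        ((u' 1 : M) - p a * (u' 0 : M)) • (fun k => E (p k)) := hu0'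
  replace hu1' : UU K D d l a b p 1 ((X 0 - C (z 0)) * (R₀ * Q₁)) =
        ((u' 2 : M) - p b * (u' 0 : M)) • (fun k => E (p k)) := hu1'
  replace hv0' : UU K D d l a b p 0 ((X 1 - C (z 1)) * (R₀ * Q₁)) =
        ((v' 1 : M) - p a * (v' 0 : M)) • (fun k => E (p k)) := hv0'
  replace hv1' : UU K D d l a b p 1 ((X 1 - C (z 1)) * (R₀ * Q₁)) =
        ((v' 2 : M) - p b * (v' 0 : M)) • (fun k => E (p k)) := hv1'
  -- a combination with zero defect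
  obtain ⟨c, c', hc0, hcκ⟩ : ∃ c c' : K, (c ≠ 0 ∨ c' ≠ 0) ∧
      c * (u 2 - z 1 * u 0 - (v 1 - z 0 * v 0)) +
        c' * (u' 2 - z 1 * u' 0 - (v' 1 - z 0 * v' 0)) = 0 := by
    by_cases hκ : u 2 - z 1 * u 0 - (v 1 - z 0 * v 0) = 0
    · exact ⟨1, 0, Or.inl one_ne_zero, by rw [hκ]; ring⟩
    · exact ⟨u' 2 - z 1 * u' 0 - (v' 1 - z 0 * v' 0), - (u 2 - z 1 * u 0 - (v 1 - z 0 * v 0)),
        Or.inr (neg_ne_zero.mpr hκ), by ring⟩
  have hS' : c • Q₀ + c' • Q₁ ≠ 0 := by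
    intro h0
    have h1 := hind c c' (Subtype.ext h0)
    rcases hc0 with h2 | h2
    · exact h2 h1.1
    · exact h2 h1.2
  have hSe : c • (R₀ * Q₀) + c' • (R₀ * Q₁) = R₀ * (c • Q₀ + c' • Q₁) := by
    rw [mul_add, mul_smul_comm, mul_smul_comm]
  have hS : c • (R₀ * Q₀) + c' • (R₀ * Q₁) ≠ 0 := by
    rw [hSe]
    exact mul_ne_zero hR₀ hS'
  have hSW : c • (R₀ * Q₀) + c' • (R₀ * Q₁) ∈ WW K (d - 2) :=
    Submodule.add_mem _ (Submodule.smul_mem _ _ (hm _ hQ₀)) (Submodule.smul_mem _ _ (hm _ hQ₁))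
  have w0 := UU_comb c c' (X 0 - C (z 0)) (R₀ * Q₀) (R₀ * Q₁) 0 _ _ hu0 hu0'
  have w1 := UU_comb c c' (X 0 - C (z 0)) (R₀ * Q₀) (R₀ * Q₁) 1 _ _ hu1 hu1'
  have w2 := UU_comb c c' (X 1 - C (z 1)) (R₀ * Q₀) (R₀ * Q₁) 0 _ _ hv0 hv0'
  have w3 := UU_comb c c' (X 1 - C (z 1)) (R₀ * Q₀) (R₀ * Q₁) 1 _ _ hv1 hv1'
  have hfin := h.pencilH P (n := d - 2) (by omega) hz hSW
    (fun t => c * u t + c' * u' t) (fun t => c * v t + c' * v' t)
    (by rw [w0]; congr 1; push_cast; ring) (by rw [w1]; congr 1; push_cast; ring)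
    (by rw [w2]; congr 1; push_cast; ring) (by rw [w3]; congr 1; push_cast; ring)
    (by
      show (c * u 2 + c' * u' 2) - z 1 * (c * u 0 + c' * u' 0) =
        (c * v 1 + c' * v' 1) - z 0 * (c * v 0 + c' * v' 0)
      linear_combination hcκ)
  have h5 := hmin _ hS hfin
  have h6 := mem_WW.mp hSW
  omega

end Pool.Agent.Lib.MP_44a246_ntH
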