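import Mathlib
import Pool.Agent.Lib.MP_44a246_ntH.QSD

/-!
The minors annihilate.
-/

set_option linter.unusedSectionVars false

namespace Pool.Agent.Lib.MP_44a246_ntH

open Pool.Agent.Lib.MP_e52354_ntP Pool.Agent.Lib.MP_44a246_ntB Pool.Agent.Lib.MP_e52354_ntI
open MvPolynomial

variable {Ω : Type*} [Field Ω] [CharZero Ω] {K : Subfield Ω} {x y : Ω}
  {v : Fin 2 → Fin 2 → Ω} {U : Type*} [AddCommGroup U] [Module K U]
  {A : Fin 2 → MvPolynomial (Fin 2) K →ₗ[K] U} {n : ℕ}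

/-- the minors annihilate -/
theorem SymD.minor (h : SymD K x y v A n) (hn : 2 ≤ n) (ψ ψ' : Ω →ₗ[K] K) :
    InAnn K A n 2 (minorQ ψ ψ' x y v) := by
  have e1 : ∀ (φ : Ω →ₗ[K] K) (m : ℕ), m + 1 ≤ n → ∀ R ∈ WW K m,
      A 0 (linP (muK φ x y (v 1)) * R) = A 1 (linP (muK φ x y (v 0)) * R) :=
    fun φ m hm R hR => h.sym φ m hm R hR
  refine ⟨?_, ?_⟩
  · unfold minorQ
    exact Submodule.sub_mem _ (mul_mem_WW (linP_mem _) (linP_mem _))
      (mul_mem_WW (linP_mem _) (linP_mem _))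
  · intro G hG k
    have hm : (1 + (n - 2)) + 1 ≤ n := by omega
    have hmem : ∀ μ : Fin 3 → K, linP μ * G ∈ WW K (1 + (n - 2)) :=
      fun μ => mul_mem_WW (linP_mem _) hG
    fin_cases k
    · have a1 := e1 ψ _ hm _ (hmem (muK ψ' x y (v 0)))
      have a2 := e1 ψ' _ hm _ (hmem (muK ψ x y (v 0)))
      have e : minorQ ψ ψ' x y v * G =
          linP (muK ψ x y (v 1)) * (linP (muK ψ' x y (v 0)) * G) -
            linP (muK ψ' x y (v 1)) * (linP (muK ψ x y (v 0)) * G) := by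
        unfold minorQ; ring
      show A 0 (minorQ ψ ψ' x y v * G) = 0
      rw [e, map_sub, a1, a2, ← map_sub]
      have : linP (muK ψ x y (v 0)) * (linP (muK ψ' x y (v 0)) * G) -
          linP (muK ψ' x y (v 0)) * (linP (muK ψ x y (v 0)) * G) = 0 := by ring
      rw [this, map_zero]
    · have a1 := e1 ψ' _ hm _ (hmem (muK ψ x y (v 1)))
      have a2 := e1 ψ _ hm _ (hmem (muK ψ' x y (v 1)))
      have e : minorQ ψ ψ' x y v * G =
          linP (muK ψ' x y (v 0)) * (linP (muK ψ x y (v 1)) * G) -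
            linP (muK ψ x y (v 0)) * (linP (muK ψ' x y (v 1)) * G) := by
        unfold minorQ; ring
      show A 1 (minorQ ψ ψ' x y v * G) = 0
      rw [e, map_sub, ← a1, ← a2, ← map_sub]
      have : linP (muK ψ' x y (v 1)) * (linP (muK ψ x y (v 1)) * G) -
          linP (muK ψ x y (v 1)) * (linP (muK ψ' x y (v 1)) * G) = 0 := by ring
      rw [this, map_zero]

end Pool.Agent.Lib.MP_44a246_ntH
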