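import Mathlib
import Pool.Agent.Lib.MP_44a246_ntH.QSD

/-!
Specialisation of a nonvanishing polynomial.
-/

set_option linter.unusedSectionVars false

namespace Pool.Agent.Lib.MP_44a246_ntH

open Pool.Agent.Lib.MP_e52354_ntP Pool.Agent.Lib.MP_44a246_ntB Pool.Agent.Lib.MP_e52354_ntI
open MvPolynomial

/-- specialisation of a nonvanishing polynomial by a linear functional -/
theorem exists_spec {K Ω : Type*} [Field K] [Infinite K] [Field Ω] [Algebra K Ω] {ι : Type*}
    [Finite ι] (mu : ι → Ω) (G : MvPolynomial ι K) (hG : aeval mu G ≠ 0) :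
    ∃ ψ : Ω →ₗ[K] K, eval (fun i => ψ (mu i)) G ≠ 0 := by
  classical
  let V : Submodule K Ω := Submodule.span K (Set.range mu)
  have hV : FiniteDimensional K V := FiniteDimensional.span_of_finite K (Set.finite_range mu)
  let b := Module.finBasis K V
  let m : ι → V := fun i => ⟨mu i, Submodule.subset_span ⟨i, rfl⟩⟩
  let h : ι → MvPolynomial (Fin (Module.finrank K V)) K :=
    fun i => ∑ j, C (b.repr (m i) j) * X j
  let F : MvPolynomial (Fin (Module.finrank K V)) K := bind₁ h G
  have h1 : ∀ i, aeval (fun j => ((b j : V) : Ω)) (h i) = mu i := by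
    intro i
    have h2 := congrArg (Submodule.subtype V) (b.sum_repr (m i))
    rw [map_sum] at h2
    rw [map_sum]
    refine Eq.trans ?_ h2
    refine Finset.sum_congr rfl fun j _ => ?_
    rw [map_mul, aeval_C, aeval_X, map_smul, Algebra.smul_def]
    rfl
  have hF : F ≠ 0 := by
    intro h0
    apply hG
    have h3 : aeval (fun j => ((b j : V) : Ω)) F = aeval mu G := by
      change aeval (fun j => ((b j : V) : Ω)) (bind₁ h G) = _
      rw [aeval_bind₁]
      congr 1
      congr 1
      funext i
      exact h1 i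
    rw [← h3, h0, map_zero]
  obtain ⟨τ, hτ⟩ : ∃ τ : Fin (Module.finrank K V) → K, eval τ F ≠ 0 := by
    by_contra hcon
    push Not at hcon
    apply hF
    apply MvPolynomial.funext
    intro x
    rw [hcon x, map_zero]
  obtain ⟨ψ, hψ⟩ := LinearMap.exists_extend (b.constr K τ)
  refine ⟨ψ, ?_⟩
  have h4 : ∀ i, eval τ (h i) = ψ (mu i) := by
    intro i
    have h5 : ψ (mu i) = b.constr K τ (m i) := by
      rw [← hψ]
      rfl
    rw [h5, Module.Basis.constr_apply_fintype, map_sum]
    refine Finset.sum_congr rfl fun j _ => ?_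
    rw [map_mul, eval_C, eval_X, smul_eq_mul]
    rfl
  have h6 : eval τ F = eval (fun i => ψ (mu i)) G := by
    have h7 : eval τ (bind₁ h G) = eval (fun i => eval τ (h i)) G :=
      eval₂Hom_bind₁ (RingHom.id K) τ h G
    change eval τ (bind₁ h G) = _
    rw [h7]
    congr 2
    funext i
    exact h4 i
  rw [← h6]
  exact hτ

end Pool.Agent.Lib.MP_44a246_ntH
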