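import Mathlib
import Pool.Agent.Lib.MP_44a246_ntH.QSD

/-!
Two lines through a point with no rational quadratic relation.
-/

set_option linter.unusedSectionVars false

namespace Pool.Agent.Lib.MP_44a246_ntH

open Pool.Agent.Lib.MP_e52354_ntP Pool.Agent.Lib.MP_44a246_ntB Pool.Agent.Lib.MP_e52354_ntI
open MvPolynomial

variable {Ω : Type*} [Field Ω] [CharZero Ω] {K : Subfield Ω} {x y : Ω}
  {v : Fin 2 → Fin 2 → Ω}

/-- the two lines have no common rational point -/
theorem no_common (hv : v 0 0 * v 1 1 - v 0 1 * v 1 0 ≠ 0)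
    (hq : ∀ f ∈ WW K 2, evp K x y f = 0 → f = 0) (n : Fin 3 → K)
    (h : ∀ k, ∑ u, (n u : Ω) * mu2 x y (v k) u = 0) : n = 0 := by
  have e0 := h 0
  have e1 := h 1
  simp only [Fin.sum_univ_three, mu2, Matrix.cons_val_zero, Matrix.cons_val_one,
    Matrix.cons_val] at e0 e1
  have h1 : (v 0 0 * v 1 1 - v 0 1 * v 1 0) * ((n 1 : Ω) - n 0 * x) = 0 := by
    linear_combination v 1 1 * e0 - v 0 1 * e1
  have h2 : (v 0 0 * v 1 1 - v 0 1 * v 1 0) * ((n 2 : Ω) - n 0 * y) = 0 := by
    linear_combination v 0 0 * e1 - v 1 0 * e0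
  have h3 : (n 1 : Ω) - n 0 * x = 0 := (mul_eq_zero.1 h1).resolve_left hv
  have h4 : (n 2 : Ω) - n 0 * y = 0 := (mul_eq_zero.1 h2).resolve_left hv
  have h5 : (C (n 1) - C (n 0) * X 0 : MvPolynomial (Fin 2) K) = 0 := by
    refine hq _ ?_ ?_
    · refine Submodule.sub_mem _ (C_mem_WW 2 _) ?_
      have := mul_mem_WW (K := K) (C_mem_WW 1 (n 0)) (X_mem_WW le_rfl 0)
      simpa using this
    · rw [map_sub, map_mul, evp_C, evp_C, evp_X0]
      exact h3
  have h6 := congrArg (eval (fun _ => (0 : K))) h5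
  have h7 := congrArg (eval (fun _ => (1 : K))) h5
  simp only [map_sub, map_mul, eval_C, eval_X, mul_zero, sub_zero, map_zero, mul_one] at h6 h7
  have h8 : n 0 = 0 := by
    rw [h6, zero_sub, neg_eq_zero] at h7
    exact h7
  have h9 : n 2 = 0 := by
    rw [h8] at h4
    have : (n 2 : Ω) = 0 := by simpa using h4
    exact_mod_cast this
  funext u
  fin_cases u
  · exact h8
  · exact h6
  · exact h9

/-- a subspace of dimension at most two is spanned by two elements -/
private theorem qsb_span (V : Submodule K Ω) [FiniteDimensional K V] (hV : Module.finrank K V ≤ 2) :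
    ∃ t : Fin 2 → Ω, V ≤ Submodule.span K (Set.range t) := by
  classical
  set b := Module.finBasis K V with hb
  refine ⟨fun i => if h : i.val < Module.finrank K V then (b ⟨i, h⟩ : Ω) else 0, fun w hw => ?_⟩
  have h1 : w = ∑ i, b.repr ⟨w, hw⟩ i • (b i : Ω) := by
    have h2 := b.sum_repr ⟨w, hw⟩
    have h3 := congrArg (Submodule.subtype V) h2
    rw [map_sum] at h3
    simpa using h3.symm
  rw [h1]
  refine Submodule.sum_mem _ fun i _ => Submodule.smul_mem _ _ (Submodule.subset_span ?_)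
  refine ⟨⟨i, by omega⟩, ?_⟩
  simp [i.2]

/-- the coefficients of the two lines span a space of dimension at least three -/
theorem three_le (hv : v 0 0 * v 1 1 - v 0 1 * v 1 0 ≠ 0)
    (hq : ∀ f ∈ WW K 2, evp K x y f = 0 → f = 0) :
    3 ≤ Module.finrank K (Submodule.span K
      (Set.range fun t : Fin 2 × Fin 3 => mu2 x y (v t.1) t.2)) := by
  set V := Submodule.span K (Set.range fun t : Fin 2 × Fin 3 => mu2 x y (v t.1) t.2) with hV
  by_contra hcon
  have : FiniteDimensional K V := FiniteDimensional.span_of_finite K (Set.finite_range _)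
  obtain ⟨t, ht⟩ := qsb_span V (by omega)
  set T := Submodule.span K (Set.range t) with hT
  have hmu : ∀ k u, mu2 x y (v k) u ∈ T := fun k u =>
    ht (Submodule.subset_span ⟨(k, u), rfl⟩)
  set δ := v 0 0 * v 1 1 - v 0 1 * v 1 0 with hδ
  have hd : ∀ k k' u u', mu2 x y (v k) u * mu2 x y (v k') u' ∈ T * T := fun k k' u u' =>
    Submodule.mul_mem_mul (hmu k u) (hmu k' u')
  have d0 : δ ∈ T * T := by
    have h1 : δ = mu2 x y (v 0) 1 * mu2 x y (v 1) 2 - mu2 x y (v 0) 2 * mu2 x y (v 1) 1 := by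
      simp only [mu2, Matrix.cons_val_one, Matrix.cons_val, hδ]
    rw [h1]
    exact Submodule.sub_mem _ (hd _ _ _ _) (hd _ _ _ _)
  have d1 : δ * x ∈ T * T := by
    have h1 : δ * x = mu2 x y (v 0) 2 * mu2 x y (v 1) 0 - mu2 x y (v 0) 0 * mu2 x y (v 1) 2 := by
      simp only [mu2, Matrix.cons_val_zero, Matrix.cons_val, hδ]
      ring
    rw [h1]
    exact Submodule.sub_mem _ (hd _ _ _ _) (hd _ _ _ _)
  have d2 : δ * y ∈ T * T := by
    have h1 : δ * y = mu2 x y (v 0) 0 * mu2 x y (v 1) 1 - mu2 x y (v 0) 1 * mu2 x y (v 1) 0 := by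
      simp only [mu2, Matrix.cons_val_zero, Matrix.cons_val_one, hδ]
      ring
    rw [h1]
    exact Submodule.sub_mem _ (hd _ _ _ _) (hd _ _ _ _)
  have dX : ∀ i : Fin 2, δ * evp K x y (X i) ∈ T * T := by
    intro i
    fin_cases i
    · show δ * evp K x y (X 0) ∈ T * T
      rw [evp_X0]; exact d1
    · show δ * evp K x y (X 1) ∈ T * T
      rw [evp_X1]; exact d2
  have hval : ∀ f ∈ WW K 2, δ * δ * evp K x y f ∈ T * T * (T * T) := by
    intro f hf
    refine WW_induction (P := fun f => δ * δ * evp K x y f ∈ T * T * (T * T)) ?_ ?_ ?_ hf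
    · intro m hm
      have hone : ∀ m : Fin 2 →₀ ℕ, m.degree = 0 →
          (monomial m (1 : K) : MvPolynomial (Fin 2) K) = 1 := by
        intro m hm
        have : m = 0 := by
          ext i
          have := Finsupp.le_degree i m
          simp only [Finsupp.coe_zero, Pi.zero_apply]
          omega
        rw [this]
        rfl
      rcases Nat.lt_or_ge m.degree 1 with h0 | h0
      · rw [hone m (by omega), map_one, mul_one]
        exact Submodule.mul_mem_mul d0 d0
      rcases Nat.lt_or_ge m.degree 2 with h1 | h1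
      · obtain ⟨i, m', hm', he⟩ := exists_of_degree (K := K) (m := m) (k := 0) (by omega)
        rw [he, hone m' hm', mul_one, mul_assoc δ δ]
        exact Submodule.mul_mem_mul d0 (dX i)
      · obtain ⟨i, m', hm', he⟩ := exists_of_degree (K := K) (m := m) (k := 1) (by omega)
        obtain ⟨i', m'', hm'', he'⟩ := exists_of_degree (K := K) (m := m') (k := 0) (by omega)
        rw [he, he', hone m'' hm'', mul_one, map_mul]
        have h2 : δ * δ * (evp K x y (X i) * evp K x y (X i')) =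
            (δ * evp K x y (X i)) * (δ * evp K x y (X i')) := by ring
        rw [h2]
        exact Submodule.mul_mem_mul (dX i) (dX i')
    · intro Q R hQ hR
      rw [map_add, mul_add]
      exact Submodule.add_mem _ hQ hR
    · intro a Q hQ
      rw [map_smul, mul_smul_comm]
      exact Submodule.smul_mem _ _ hQ
  -- the space of quartic forms
  have hT4 : T * T * (T * T) ≤
      Submodule.span K (Set.range fun i : Fin 5 => t 0 ^ (4 - (i : ℕ)) * t 1 ^ (i : ℕ)) := by
    rw [hT, Submodule.span_mul_span, Submodule.span_mul_span, Submodule.span_le]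
    rintro _ ⟨_, ⟨_, ⟨i, rfl⟩, _, ⟨j, rfl⟩, rfl⟩, _, ⟨_, ⟨k, rfl⟩, _, ⟨l, rfl⟩, rfl⟩, rfl⟩
    refine Submodule.subset_span ?_
    have hti : ∀ i : Fin 2, t i = t 0 ^ (1 - (i : ℕ)) * t 1 ^ (i : ℕ) := by
      intro i
      fin_cases i <;> simp
    refine ⟨⟨(i : ℕ) + j + k + l, by omega⟩, ?_⟩
    simp only
    rw [hti i, hti j, hti k, hti l]
    have h4 : 4 - ((i : ℕ) + j + k + l) = (1 - (i : ℕ)) + (1 - (j : ℕ)) + (1 - (k : ℕ)) +
        (1 - (l : ℕ)) := by omega
    rw [h4]
    ring
  set L : WW K 2 →ₗ[K] Ω := (LinearMap.mulLeft K (δ * δ)) ∘ₗ (evp K x y).toLinearMap ∘ₗ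
    (WW K 2).subtype with hL
  have hLv : ∀ f : WW K 2, L f = δ * δ * evp K x y f := fun f => rfl
  have hinj : Function.Injective L := by
    rw [← LinearMap.ker_eq_bot, LinearMap.ker_eq_bot']
    intro f hf
    rw [hLv] at hf
    have h1 : evp K x y f = 0 := (mul_eq_zero.1 hf).resolve_left (mul_ne_zero hv hv)
    exact Subtype.ext (hq f f.2 h1)
  have hr : LinearMap.range L ≤
      Submodule.span K (Set.range fun i : Fin 5 => t 0 ^ (4 - (i : ℕ)) * t 1 ^ (i : ℕ)) := by
    rintro _ ⟨f, rfl⟩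
    rw [hLv]
    exact hT4 (hval f f.2)
  have : FiniteDimensional K (Submodule.span K
      (Set.range fun i : Fin 5 => t 0 ^ (4 - (i : ℕ)) * t 1 ^ (i : ℕ))) :=
    FiniteDimensional.span_of_finite K (Set.finite_range _)
  have h1 := Submodule.finrank_mono hr
  rw [LinearMap.finrank_range_of_inj hinj] at h1
  have h2 := finrank_range_le_card (R := K)
    (b := fun i : Fin 5 => t 0 ^ (4 - (i : ℕ)) * t 1 ^ (i : ℕ))
  rw [Set.finrank, Fintype.card_fin] at h2
  have h3 := finrank_WWk (K := K) 2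
  omega

end Pool.Agent.Lib.MP_44a246_ntH
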