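import Mathlib
import Pool.Agent.Lib.MP_44a246_ntH.QSa
import Pool.Agent.Lib.MP_44a246_ntH.QSb

/-!
A minor which does not vanish at a rational point of intersection.
-/

set_option linter.unusedSectionVars false

namespace Pool.Agent.Lib.MP_44a246_ntH

open Pool.Agent.Lib.MP_e52354_ntP Pool.Agent.Lib.MP_44a246_ntB Pool.Agent.Lib.MP_e52354_ntI
open MvPolynomial

variable {Ω : Type*} [Field Ω] [CharZero Ω] {K : Subfield Ω} {x y : Ω}
  {v : Fin 2 → Fin 2 → Ω}

private theorem qsd_eval_linP (c : Fin 3 → K) (z : Fin 2 → K) :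
    eval z (linP c) = c 0 + c 1 * z 0 + c 2 * z 1 := by
  unfold linP
  rw [map_sum, Fin.sum_univ_three]
  simp only [xs, Matrix.cons_val_zero, Matrix.cons_val_one, Matrix.cons_val, smul_eval,
    map_one, eval_X, mul_one]

private theorem qsd_minorQ_mem (ψ ψ' : Ω →ₗ[K] K) : minorQ ψ ψ' x y v ∈ WW K 2 := by
  unfold minorQ
  exact Submodule.sub_mem _ (mul_mem_WW (linP_mem _) (linP_mem _))
    (mul_mem_WW (linP_mem _) (linP_mem _))

private theorem qsd_dual_zero (t : Ω) (h : ∀ ψ : Ω →ₗ[K] K, ψ t = 0) : t = 0 :=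
  (Module.forall_dual_apply_eq_zero_iff K t).mp h

/-- if all minors with the first functional vanish, the functional vanishes on the family -/
private theorem qsd_zero (hv : v 0 0 * v 1 1 - v 0 1 * v 1 0 ≠ 0)
    (hq : ∀ f ∈ WW K 2, evp K x y f = 0 → f = 0) (ψ : Ω →ₗ[K] K)
    (h : ∀ ψ' : Ω →ₗ[K] K, minorQ ψ ψ' x y v = 0) (k : Fin 2) : muK ψ x y (v k) = 0 := by
  set α := muK ψ x y (v 1) with hα
  set β := muK ψ x y (v 0) with hβ
  -- the six equations
  have h6 : ∀ z : Fin 2 → K,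
      ((α 0 + α 1 * z 0 + α 2 * z 1 : K) : Ω) *
        (mu2 x y (v 0) 0 + z 0 * mu2 x y (v 0) 1 + z 1 * mu2 x y (v 0) 2) =
      ((β 0 + β 1 * z 0 + β 2 * z 1 : K) : Ω) *
        (mu2 x y (v 1) 0 + z 0 * mu2 x y (v 1) 1 + z 1 * mu2 x y (v 1) 2) := by
    intro z
    rw [← sub_eq_zero]
    apply qsd_dual_zero
    intro ψ'
    have h1 := congrArg (eval z) (h ψ')
    unfold minorQ at h1
    rw [map_sub, map_mul, map_mul, qsd_eval_linP, qsd_eval_linP, qsd_eval_linP, qsd_eval_linP,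
      map_zero, ← hα, ← hβ] at h1
    have h2 : ∀ (c : K) (w : Ω), ψ' ((c : Ω) * w) = c * ψ' w := fun c w => ψ'.map_smul c w
    rw [map_sub, h2, h2, map_add, map_add, map_add, map_add, h2, h2, h2, h2]
    unfold muK at h1
    linear_combination h1
  have e00 := h6 ![0, 0]
  have e10 := h6 ![1, 0]
  have f10 := h6 ![-1, 0]
  have e01 := h6 ![0, 1]
  have f01 := h6 ![0, -1]
  have e11 := h6 ![1, 1]
  simp only [mu2, Matrix.cons_val_zero, Matrix.cons_val_one, Matrix.cons_val, Subfield.coe_add,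
    Subfield.coe_mul, Subfield.coe_zero, Subfield.coe_one, Subfield.coe_neg] at e00 e10 f10 e01 f01 e11
  have E1 : ((α 0 : Ω) + α 1 * x + α 2 * y) * v 0 0 = ((β 0 : Ω) + β 1 * x + β 2 * y) * v 1 0 := by
    linear_combination (e10 - f10) / 2 + x * (e10 + f10 - 2 * e00) + y * (e11 - e10 - e01 + e00)
  have E2 : ((α 0 : Ω) + α 1 * x + α 2 * y) * v 0 1 = ((β 0 : Ω) + β 1 * x + β 2 * y) * v 1 1 := by
    linear_combination (e01 - f01) / 2 + y * (e01 + f01 - 2 * e00) + x * (e11 - e10 - e01 + e00)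
  have hA : evp K x y (linP α) = 0 := by
    rw [evp_linP]
    refine (mul_eq_zero.mp ?_).resolve_right hv
    linear_combination v 1 1 * E1 - v 1 0 * E2
  have hB : evp K x y (linP β) = 0 := by
    rw [evp_linP]
    refine (mul_eq_zero.mp ?_).resolve_right hv
    linear_combination v 0 1 * E1 - v 0 0 * E2
  have hfin : ∀ c : Fin 3 → K, evp K x y (linP c) = 0 → c = 0 := by
    intro c hc
    have h1 := hq _ (WW_mono (by norm_num) (linP_mem c)) hc
    have h2 : ∀ z : Fin 2 → K, c 0 + c 1 * z 0 + c 2 * z 1 = 0 := by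
      intro z
      rw [← qsd_eval_linP, h1, map_zero]
    have g0 := h2 ![0, 0]
    have g1 := h2 ![1, 0]
    have g2 := h2 ![0, 1]
    simp only [Matrix.cons_val_zero, Matrix.cons_val_one] at g0 g1 g2
    funext u
    fin_cases u
    · show c 0 = 0
      linear_combination g0
    · show c 1 = 0
      linear_combination g1 - g0
    · show c 2 = 0
      linear_combination g2 - g0
  fin_cases k
  · exact hfin _ hB
  · exact hfin _ hA

/-- there is a minor which does not vanish at a point of intersection of two rational lines of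
the family -/
theorem exists_point (hv : v 0 0 * v 1 1 - v 0 1 * v 1 0 ≠ 0)
    (hq : ∀ f ∈ WW K 2, evp K x y f = 0 → f = 0) : ∃ ψ ψ' ψ'' : Ω →ₗ[K] K,
    minorV ψ ψ' x y v (cr (muK ψ'' x y (v 0)) (muK ψ'' x y (v 1))) ≠ 0 := by
  classical
  -- a minor which does not vanish at the point
  obtain ⟨ψ, ψ', hne⟩ : ∃ ψ ψ' : Ω →ₗ[K] K, evp K x y (minorQ ψ ψ' x y v) ≠ 0 := by
    by_contra hcon
    push Not at hcon
    have h0 : ∀ ψ ψ' : Ω →ₗ[K] K, minorQ ψ ψ' x y v = 0 := fun ψ ψ' =>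
      hq _ (qsd_minorQ_mem ψ ψ') (hcon ψ ψ')
    have h1 : ∀ k u, mu2 x y (v k) u = 0 := by
      intro k u
      apply qsd_dual_zero
      intro ψ
      exact congrFun (qsd_zero hv hq ψ (h0 ψ) k) u
    apply hv
    have a1 := h1 0 1
    have a2 := h1 0 2
    simp only [mu2, Matrix.cons_val_one, Matrix.cons_val] at a1 a2
    rw [a1, a2]
    ring
  set α := muK ψ x y (v 1) with hα
  set β := muK ψ x y (v 0) with hβ
  set α' := muK ψ' x y (v 1) with hα'
  set β' := muK ψ' x y (v 0) with hβ'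
  let W : Fin 3 → MvPolynomial (Fin 2 × Fin 3) K :=
    ![X (0, 1) * X (1, 2) - X (0, 2) * X (1, 1), X (0, 2) * X (1, 0) - X (0, 0) * X (1, 2),
      X (0, 0) * X (1, 1) - X (0, 1) * X (1, 0)]
  let L : (Fin 3 → K) → MvPolynomial (Fin 2 × Fin 3) K := fun c => ∑ u, C (c u) * W u
  let G : MvPolynomial (Fin 2 × Fin 3) K := L α * L β' - L α' * L β
  have hL : ∀ c : Fin 3 → K, aeval (fun t : Fin 2 × Fin 3 => mu2 x y (v t.1) t.2) (L c) =
      (v 0 0 * v 1 1 - v 0 1 * v 1 0) * evp K x y (linP c) := by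
    intro c
    rw [evp_linP]
    simp only [L, W, Fin.sum_univ_three, Matrix.cons_val_zero, Matrix.cons_val_one,
      Matrix.cons_val, map_add, map_sub, map_mul, aeval_X, mu2, algHom_C]
    have hc : ∀ u, algebraMap K Ω (c u) = (c u : Ω) := fun u => rfl
    simp only [hc]
    ring
  have hG : aeval (fun t : Fin 2 × Fin 3 => mu2 x y (v t.1) t.2) G ≠ 0 := by
    have h1 : aeval (fun t : Fin 2 × Fin 3 => mu2 x y (v t.1) t.2) G =
        (v 0 0 * v 1 1 - v 0 1 * v 1 0) ^ 2 * evp K x y (minorQ ψ ψ' x y v) := by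
      show aeval _ (L α * L β' - L α' * L β) = _
      rw [map_sub, map_mul, map_mul, hL, hL, hL, hL]
      unfold minorQ
      rw [map_sub, map_mul, map_mul]
      ring
    rw [h1]
    exact mul_ne_zero (pow_ne_zero _ hv) hne
  obtain ⟨ψ'', hψ''⟩ := exists_spec _ G hG
  refine ⟨ψ, ψ', ψ'', ?_⟩
  intro h0
  apply hψ''
  show eval _ (L α * L β' - L α' * L β) = _
  rw [← h0]
  unfold minorV
  rw [← hα, ← hβ, ← hα', ← hβ', map_sub, map_mul, map_mul]
  have hE : ∀ c : Fin 3 → K, eval (fun t : Fin 2 × Fin 3 => ψ'' (mu2 x y (v t.1) t.2)) (L c) =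
      c ⬝ᵥ cr (muK ψ'' x y (v 0)) (muK ψ'' x y (v 1)) := by
    intro c
    simp only [L, W, Fin.sum_univ_three, Matrix.cons_val_zero, Matrix.cons_val_one,
      Matrix.cons_val, map_add, map_sub, map_mul, eval_X, eval_C, cr, muK, dotProduct]
  rw [hE, hE, hE, hE]

end Pool.Agent.Lib.MP_44a246_ntH
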