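import Mathlib
import Pool.Agent.Lib.MP_44a246_ntH.QSD

/-!
The quadratic polynomials modulo two linear polynomials.
-/

set_option linter.unusedSectionVars false

namespace Pool.Agent.Lib.MP_44a246_ntH

open Pool.Agent.Lib.MP_e52354_ntP Pool.Agent.Lib.MP_44a246_ntB Pool.Agent.Lib.MP_e52354_ntI
open MvPolynomial

variable {Ω : Type*} [Field Ω] [CharZero Ω] {K : Subfield Ω}

private theorem linP_eq_qse (c : Fin 3 → K) :
    linP c = C (c 0) + C (c 1) * X 0 + C (c 2) * X 1 := by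
  simp [linP, xs, Fin.sum_univ_three, smul_eq_C_mul]

private theorem linP_add_qse (c d : Fin 3 → K) : linP (c + d) = linP c + linP d := by
  simp only [linP_eq_qse, Pi.add_apply, C_add]; ring

private theorem linP_smul_qse (t : K) (c : Fin 3 → K) : linP (t • c) = C t * linP c := by
  simp only [linP_eq_qse, Pi.smul_apply, smul_eq_mul, C_mul]; ring

private theorem dec_qse (a b ν : Fin 3 → K) (hν : ν ⬝ᵥ cr a b = 1) (c : Fin 3 → K) :
    linP c = C (cr c b ⬝ᵥ ν) * linP a + C (cr a c ⬝ᵥ ν) * linP b + C (c ⬝ᵥ cr a b) * linP ν := by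
  rw [← linP_smul_qse, ← linP_smul_qse, ← linP_smul_qse, ← linP_add_qse, ← linP_add_qse]
  congr 1
  have h1 : ν 0 * (a 1 * b 2 - a 2 * b 1) + ν 1 * (a 2 * b 0 - a 0 * b 2) +
      ν 2 * (a 0 * b 1 - a 1 * b 0) = 1 := by
    have := hν
    simp only [dotProduct, Fin.sum_univ_three, cr, Matrix.cons_val_zero, Matrix.cons_val_one,
      Matrix.cons_val_two, Matrix.head_cons, Matrix.tail_cons] at this
    simpa using this
  ext u
  apply congrArg Subtype.val
  fin_cases u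
  · simp [cr, dotProduct, Fin.sum_univ_three]
    linear_combination (-(c 0)) * h1
  · simp [cr, dotProduct, Fin.sum_univ_three]
    linear_combination (-(c 1)) * h1
  · simp [cr, dotProduct, Fin.sum_univ_three]
    linear_combination (-(c 2)) * h1

private theorem prod_qse (a b ν α α' β β' : Fin 3 → K) (hν : ν ⬝ᵥ cr a b = 1)
    (h : (α ⬝ᵥ cr a b) * (β' ⬝ᵥ cr a b) - (α' ⬝ᵥ cr a b) * (β ⬝ᵥ cr a b) ≠ 0)
    (c c' : Fin 3 → K) : ∃ (c₁ c₂ : Fin 3 → K) (t : K),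
    linP c * linP c' = linP a * linP c₁ + linP b * linP c₂ +
      t • (linP α * linP β' - linP α' * linP β) := by
  set δ := (α ⬝ᵥ cr a b) * (β' ⬝ᵥ cr a b) - (α' ⬝ᵥ cr a b) * (β ⬝ᵥ cr a b) with hδ
  have hc := dec_qse a b ν hν c
  have hc' := dec_qse a b ν hν c'
  have hα := dec_qse a b ν hν α
  have hα' := dec_qse a b ν hν α'
  have hβ := dec_qse a b ν hν β
  have hβ' := dec_qse a b ν hν β'
  generalize cr c b ⬝ᵥ ν = Ac at hc
  generalize cr a c ⬝ᵥ ν = Bc at hc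
  generalize c ⬝ᵥ cr a b = Dc at hc
  generalize cr c' b ⬝ᵥ ν = Ac' at hc'
  generalize cr a c' ⬝ᵥ ν = Bc' at hc'
  generalize c' ⬝ᵥ cr a b = Dc' at hc'
  generalize cr α b ⬝ᵥ ν = Aα at hα
  generalize cr a α ⬝ᵥ ν = Bα at hα
  generalize cr α' b ⬝ᵥ ν = Aα' at hα'
  generalize cr a α' ⬝ᵥ ν = Bα' at hα'
  generalize cr β b ⬝ᵥ ν = Aβ at hβ
  generalize cr a β ⬝ᵥ ν = Bβ at hβ
  generalize cr β' b ⬝ᵥ ν = Aβ' at hβ'
  generalize cr a β' ⬝ᵥ ν = Bβ' at hβ'
  generalize α ⬝ᵥ cr a b = Dα at hα hδ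
  generalize α' ⬝ᵥ cr a b = Dα' at hα' hδ
  generalize β ⬝ᵥ cr a b = Dβ at hβ hδ
  generalize β' ⬝ᵥ cr a b = Dβ' at hβ' hδ
  -- the coefficient
  set t := Dc * Dc' * δ⁻¹ with ht
  have htδ : t * (Dα * Dβ' - Dα' * Dβ) = Dc * Dc' := by
    rw [← hδ, ht, mul_assoc, inv_mul_cancel₀ h, mul_one]
  have htδ' : C t * (C Dα * C Dβ' - C Dα' * C Dβ) = (C Dc * C Dc' : MvPolynomial (Fin 2) K) := by
    rw [← C_mul, ← C_mul, ← C_mul, ← C_sub, ← C_mul, htδ]
  refine ⟨Ac • c' + (Dc * Ac') • ν + (-t) • (Aα • β' + (Dα * Aβ') • ν + (-Aα') • β +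
      (-(Dα' * Aβ)) • ν),
    Bc • c' + (Dc * Bc') • ν + (-t) • (Bα • β' + (Dα * Bβ') • ν + (-Bα') • β +
      (-(Dα' * Bβ)) • ν), t, ?_⟩
  simp only [linP_add_qse, linP_smul_qse, smul_eq_C_mul, C_mul, C_neg]
  generalize linP c = pc at *
  generalize linP c' = pc' at *
  generalize linP α = pα at *
  generalize linP α' = pα' at *
  generalize linP β = pβ at *
  generalize linP β' = pβ' at *
  generalize linP a = pa at *
  generalize linP b = pb at *
  generalize linP ν = pν at *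
  rw [hc, hc', hα, hα', hβ, hβ']
  linear_combination (-(pν * pν)) * htδ'

/-- the quadratic polynomials are generated by two linear polynomials and a quadratic polynomial
not vanishing at their common zero -/
theorem quad_dec (a b α α' β β' : Fin 3 → K)
    (h : (α ⬝ᵥ cr a b) * (β' ⬝ᵥ cr a b) - (α' ⬝ᵥ cr a b) * (β ⬝ᵥ cr a b) ≠ 0)
    {f : MvPolynomial (Fin 2) K} (hf : f ∈ WW K 2) : ∃ (c₁ c₂ : Fin 3 → K) (t : K),
    f = linP a * linP c₁ + linP b * linP c₂ + t • (linP α * linP β' - linP α' * linP β) := by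
  have hw : cr a b ≠ 0 := by
    intro h0
    apply h
    rw [h0]
    simp
  obtain ⟨u, hu⟩ : ∃ u, cr a b u ≠ 0 := by
    by_contra hcon
    push Not at hcon
    exact hw (funext hcon)
  let ν : Fin 3 → K := Pi.single u (cr a b u)⁻¹
  have hν : ν ⬝ᵥ cr a b = 1 := by
    simp only [ν, single_dotProduct]
    exact inv_mul_cancel₀ hu
  have hone : linP (Pi.single 0 1 : Fin 3 → K) = 1 := by
    simp [linP_eq_qse]
  have hX : ∀ i : Fin 2, linP (Pi.single i.succ 1 : Fin 3 → K) = X i := by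
    intro i
    fin_cases i
    · simp [linP_eq_qse]
    · simp [linP_eq_qse]
  have hprod := prod_qse a b ν α α' β β' hν h
  refine WW_induction (k := 2) (P := fun f => ∃ (c₁ c₂ : Fin 3 → K) (t : K),
    f = linP a * linP c₁ + linP b * linP c₂ + t • (linP α * linP β' - linP α' * linP β))
    ?_ ?_ ?_ hf
  · intro m hm
    have hm0 : ∀ m : Fin 2 →₀ ℕ, m.degree = 0 →
        (monomial m (1 : K) : MvPolynomial (Fin 2) K) = 1 := by
      intro m hm
      rw [Finsupp.degree_eq_zero_iff] at hm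
      rw [hm]
      rfl
    have hm1 : ∀ m : Fin 2 →₀ ℕ, m.degree ≤ 1 →
        ∃ c : Fin 3 → K, (monomial m (1 : K) : MvPolynomial (Fin 2) K) = linP c := by
      intro m hm
      rcases Nat.le_one_iff_eq_zero_or_eq_one.mp hm with h0 | h0
      · exact ⟨_, (hm0 m h0).trans hone.symm⟩
      · obtain ⟨i, m', hm', he⟩ := exists_of_degree (K := K) (k := 0) h0
        exact ⟨_, (he.trans (by rw [hm0 m' hm', mul_one])).trans (hX i).symm⟩
    rcases Nat.lt_or_ge m.degree 2 with h1 | h1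
    · obtain ⟨c, hc⟩ := hm1 m (by omega)
      obtain ⟨c₁, c₂, t, hh⟩ := hprod c (Pi.single 0 1)
      exact ⟨c₁, c₂, t, by rw [hc, ← hh, hone, mul_one]⟩
    · obtain ⟨i, m', hm', he⟩ := exists_of_degree (K := K) (k := 1) (m := m) (by omega)
      obtain ⟨c, hc⟩ := hm1 m' hm'.le
      obtain ⟨c₁, c₂, t, hh⟩ := hprod (Pi.single i.succ 1) c
      exact ⟨c₁, c₂, t, by rw [he, hc, ← hh, hX]⟩
  · rintro Q R ⟨c₁, c₂, t, hQ⟩ ⟨d₁, d₂, s, hR⟩
    refine ⟨c₁ + d₁, c₂ + d₂, t + s, ?_⟩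
    rw [hQ, hR, linP_add_qse, linP_add_qse, add_smul]
    ring
  · rintro r Q ⟨c₁, c₂, t, hQ⟩
    refine ⟨r • c₁, r • c₂, r * t, ?_⟩
    rw [hQ, linP_smul_qse, linP_smul_qse]
    simp only [smul_eq_C_mul, C_mul]
    ring

end Pool.Agent.Lib.MP_44a246_ntH
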