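import Mathlib
import Pool.Agent.Lib.MP_44a246_ntH.QSc
import Pool.Agent.Lib.MP_44a246_ntH.QSd
import Pool.Agent.Lib.MP_44a246_ntH.QSe

/-!
The first case: a member of the pencil has independent coefficients.
-/

set_option linter.unusedSectionVars false

namespace Pool.Agent.Lib.MP_44a246_ntH

open Pool.Agent.Lib.MP_e52354_ntP Pool.Agent.Lib.MP_44a246_ntB Pool.Agent.Lib.MP_e52354_ntI
open MvPolynomial

variable {Ω : Type*} [Field Ω] [CharZero Ω] {K : Subfield Ω} {x y : Ω}
  {v : Fin 2 → Fin 2 → Ω} {U : Type*} [AddCommGroup U] [Module K U]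
  {A : Fin 2 → MvPolynomial (Fin 2) K →ₗ[K] U} {n : ℕ}

private theorem qsf_linP_add (a b : Fin 3 → K) : linP (a + b) = linP a + linP b := by
  unfold linP
  rw [← Finset.sum_add_distrib]
  refine Finset.sum_congr rfl fun u _ => ?_
  rw [Pi.add_apply, add_smul]

private theorem qsf_linP_smul (r : K) (a : Fin 3 → K) : linP (r • a) = r • linP a := by
  unfold linP
  rw [Finset.smul_sum]
  refine Finset.sum_congr rfl fun u _ => ?_
  rw [Pi.smul_apply, smul_eq_mul, mul_smul]

private theorem qsf_ann_add {F G : MvPolynomial (Fin 2) K} {m : ℕ} (hF : InAnn K A n m F)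
    (hG : InAnn K A n m G) : InAnn K A n m (F + G) := by
  refine ⟨Submodule.add_mem _ hF.1 hG.1, fun R hR k => ?_⟩
  rw [add_mul, map_add, hF.2 R hR k, hG.2 R hR k, add_zero]

private theorem qsf_ann_smul (r : K) {F : MvPolynomial (Fin 2) K} {m : ℕ}
    (hF : InAnn K A n m F) : InAnn K A n m (r • F) := by
  refine ⟨Submodule.smul_mem _ _ hF.1, fun R hR k => ?_⟩
  rw [smul_mul_assoc, map_smul, hF.2 R hR k, smul_zero]

/-- a functional with prescribed values on an independent family -/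
private theorem qsf_functional {ι : Type*} [Finite ι] {m : ι → Ω} (hm : LinearIndependent K m)
    (c : ι → K) : ∃ χ : Ω →ₗ[K] K, ∀ u, χ (m u) = c u := by
  let b := Module.Basis.span hm
  obtain ⟨χ, hχ⟩ := LinearMap.exists_extend (b.constr K c)
  refine ⟨χ, fun u => ?_⟩
  have h1 : ((b u : Submodule.span K (Set.range m)) : Ω) = m u :=
    congrArg Subtype.val (Module.Basis.span_apply hm u)
  have h2 := LinearMap.congr_fun hχ (b u)
  rw [Module.Basis.constr_basis, LinearMap.comp_apply, Submodule.subtype_apply, h1] at h2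
  exact h2

/-- a member of the pencil has independent coefficients -/
theorem SymD.case_one (h : SymD K x y v A n) (hn : 2 ≤ n) (s t : K)
    (hli : LinearIndependent K (fun u => (s : Ω) * mu2 x y (v 0) u + (t : Ω) * mu2 x y (v 1) u)) :
    ∃ w : Fin 3 → K, ∀ f ∈ WW K 2, ∃ (c : Fin 3 → K) (b : MvPolynomial (Fin 2) K),
      InAnn K A n 2 b ∧ f = linP w * linP c + b := by
  -- a complementary member
  obtain ⟨s', t', hst⟩ : ∃ s' t' : K, s * t' - t * s' = 1 := by
    by_cases hs : s = 0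
    · by_cases ht : t = 0
      · exfalso
        apply hli.ne_zero 0
        simp [hs, ht]
      · exact ⟨-t⁻¹, 0, by rw [mul_zero, zero_sub, mul_neg, neg_neg, mul_inv_cancel₀ ht]⟩
    · exact ⟨0, s⁻¹, by rw [mul_zero, sub_zero, mul_inv_cancel₀ hs]⟩
  obtain ⟨ψ, ψ', ψ'', hne⟩ := exists_point h.hv h.hq
  set lam := muK ψ'' x y (v 0) with hlam
  set eta := muK ψ'' x y (v 1) with heta
  have hcr : cr (s • lam + t • eta) (s' • lam + t' • eta) = cr lam eta := by
    funext i
    fin_cases i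
    · show (s * lam 1 + t * eta 1) * (s' * lam 2 + t' * eta 2) -
        (s * lam 2 + t * eta 2) * (s' * lam 1 + t' * eta 1) = lam 1 * eta 2 - lam 2 * eta 1
      linear_combination (lam 1 * eta 2 - lam 2 * eta 1) * hst
    · show (s * lam 2 + t * eta 2) * (s' * lam 0 + t' * eta 0) -
        (s * lam 0 + t * eta 0) * (s' * lam 2 + t' * eta 2) = lam 2 * eta 0 - lam 0 * eta 2
      linear_combination (lam 2 * eta 0 - lam 0 * eta 2) * hst
    · show (s * lam 0 + t * eta 0) * (s' * lam 1 + t' * eta 1) -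
        (s * lam 1 + t * eta 1) * (s' * lam 0 + t' * eta 0) = lam 0 * eta 1 - lam 1 * eta 0
      linear_combination (lam 0 * eta 1 - lam 1 * eta 0) * hst
  refine ⟨s • lam + t • eta, fun f hf => ?_⟩
  obtain ⟨c₁, c₂, r, hdec⟩ := quad_dec (s • lam + t • eta) (s' • lam + t' • eta)
    (muK ψ x y (v 1)) (muK ψ' x y (v 1)) (muK ψ x y (v 0)) (muK ψ' x y (v 0)) (by
      rw [hcr]
      exact hne) hf
  obtain ⟨χ, hχ⟩ := qsf_functional hli c₂
  have hc₂ : c₂ = s • muK χ x y (v 0) + t • muK χ x y (v 1) := by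
    funext u
    rw [← hχ u, map_add]
    have e1 : (s : Ω) * mu2 x y (v 0) u = s • mu2 x y (v 0) u := rfl
    have e2 : (t : Ω) * mu2 x y (v 1) u = t • mu2 x y (v 1) u := rfl
    rw [e1, e2, map_smul, map_smul]
    rfl
  refine ⟨c₁ + (s' • muK χ x y (v 0) + t' • muK χ x y (v 1)),
    minorQ ψ'' χ x y v + r • minorQ ψ ψ' x y v,
    qsf_ann_add (h.minor hn ψ'' χ) (qsf_ann_smul r (h.minor hn ψ ψ')), ?_⟩
  rw [hdec, hc₂]
  have hst' : (C s * C t' - C t * C s' : MvPolynomial (Fin 2) K) = 1 := by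
    rw [← C_mul, ← C_mul, ← C_sub, hst, C_1]
  unfold minorQ
  rw [← hlam, ← heta]
  simp only [qsf_linP_add, qsf_linP_smul, smul_eq_C_mul]
  linear_combination (linP eta * linP (muK χ x y (v 0)) -
    linP lam * linP (muK χ x y (v 1))) * hst'

end Pool.Agent.Lib.MP_44a246_ntH
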