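import Mathlib
import Pool.Agent.Lib.MP_44a246_ntH.QSb

/-!
The second case: all members of the pencil have dependent coefficients.
-/

set_option linter.unusedSectionVars false

namespace Pool.Agent.Lib.MP_44a246_ntH

open Pool.Agent.Lib.MP_e52354_ntP Pool.Agent.Lib.MP_44a246_ntB Pool.Agent.Lib.MP_e52354_ntI
open MvPolynomial

variable {Ω : Type*} [Field Ω] [CharZero Ω] {K : Subfield Ω} {x y : Ω}
  {v : Fin 2 → Fin 2 → Ω} {U : Type*} [AddCommGroup U] [Module K U]
  {A : Fin 2 → MvPolynomial (Fin 2) K →ₗ[K] U} {n : ℕ}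

/-- if the first family is dependent and all are three dimensional then some member of the second
family is outside -/
private theorem case_two_out (a b : Fin 3 → Ω) (hdep : ¬ LinearIndependent K a)
    (h3 : ∀ W : Submodule K Ω, Module.Finite K W → (∀ u, a u ∈ W) → (∀ u, b u ∈ W) →
      3 ≤ Module.finrank K W) :
    ∃ ψ : Ω →ₗ[K] K, (∀ u, ψ (a u) = 0) ∧ ∃ u, ψ (b u) ≠ 0 := by
  rw [linearIndependent_iff_card_le_finrank_span, Fintype.card_fin, not_le] at hdep
  have h1 : ∃ u, b u ∉ Submodule.span K (Set.range a) := by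
    by_contra hcon
    push Not at hcon
    have h2 := h3 (Submodule.span K (Set.range a))
      (Module.Finite.span_of_finite K (Set.finite_range a))
      (fun u => Submodule.subset_span ⟨u, rfl⟩) hcon
    exact absurd hdep (not_lt.2 h2)
  obtain ⟨u, hu⟩ := h1
  obtain ⟨ψ, hψ, hψ'⟩ := Submodule.exists_dual_map_eq_bot_of_notMem hu inferInstance
  refine ⟨ψ, fun i => ?_, u, hψ⟩
  have h4 : ψ (a i) ∈ (Submodule.span K (Set.range a)).map ψ :=
    Submodule.mem_map_of_mem (Submodule.subset_span ⟨i, rfl⟩)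
  rw [hψ', Submodule.mem_bot] at h4
  exact h4

/-- a vector orthogonal to two vectors is proportional to their cross product -/
private theorem case_two_prop (m m' a : Fin 3 → K) (h1 : ∑ u, a u * m u = 0)
    (h2 : ∑ u, a u * m' u = 0) (i j : Fin 3) : a i * cr m m' j = a j * cr m m' i := by
  rw [Fin.sum_univ_three] at h1 h2
  fin_cases i <;> fin_cases j <;> simp [cr]
  · linear_combination -m' 2 * h1 + m 2 * h2
  · linear_combination m' 1 * h1 - m 1 * h2
  · linear_combination m' 2 * h1 - m 2 * h2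
  · linear_combination -m' 0 * h1 + m 0 * h2
  · linear_combination -m' 1 * h1 + m 1 * h2
  · linear_combination m' 0 * h1 - m 0 * h2

/-- if the cross product is zero the vectors are proportional -/
private theorem case_two_smul (m m' : Fin 3 → K) (hm' : m' ≠ 0) (h : cr m m' = 0) :
    ∃ r : K, m = r • m' := by
  obtain ⟨i, hi⟩ := Function.ne_iff.1 hm'
  rw [Pi.zero_apply] at hi
  have e0 : m 1 * m' 2 - m 2 * m' 1 = 0 := congrFun h 0
  have e1 : m 2 * m' 0 - m 0 * m' 2 = 0 := congrFun h 1
  have e2 : m 0 * m' 1 - m 1 * m' 0 = 0 := congrFun h 2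
  refine ⟨m i / m' i, ?_⟩
  funext j
  rw [Pi.smul_apply, smul_eq_mul, div_mul_eq_mul_div, eq_div_iff hi]
  fin_cases i <;> fin_cases j <;> simp
  · linear_combination -e2
  · linear_combination e1
  · linear_combination e2
  · linear_combination -e0
  · linear_combination -e1
  · linear_combination e0

private theorem case_two_rel (a b : Fin 3 → Ω) (t : K)
    (hdep : ¬ LinearIndependent K (fun u => ((1 : K) : Ω) * a u + (t : Ω) * b u)) :
    ∃ c : Fin 3 → K, c ≠ 0 ∧ ∑ u, c u • (a u + t • b u) = 0 := by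
  rw [Fintype.not_linearIndependent_iff] at hdep
  obtain ⟨c, hc, u, hu⟩ := hdep
  refine ⟨c, fun h => hu (by rw [h]; rfl), ?_⟩
  rw [← hc]
  refine Finset.sum_congr rfl fun i _ => ?_
  rw [OneMemClass.coe_one, one_mul]
  rfl

private theorem case_two_app (a b : Fin 3 → Ω) (t : K) (c : Fin 3 → K)
    (hc : ∑ u, c u • (a u + t • b u) = 0) (ψ : Ω →ₗ[K] K) :
    ∑ u, c u * (ψ (a u) + t * ψ (b u)) = 0 := by
  have h := congrArg ψ hc
  rw [map_sum, map_zero] at h
  rw [← h]
  refine Finset.sum_congr rfl fun i _ => ?_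
  rw [map_smul, map_add, map_smul]
  rfl

/-- all members of the pencil have dependent coefficients -/
theorem SymD.case_two (h : SymD K x y v A n)
    (hdep : ∀ s t : K, (s ≠ 0 ∨ t ≠ 0) → ¬ LinearIndependent K
      (fun u => (s : Ω) * mu2 x y (v 0) u + (t : Ω) * mu2 x y (v 1) u)) :
    ∃ c : Fin 3 → K, c ≠ 0 ∧ ∀ m, m + 1 ≤ n → ∀ R ∈ WW K m, ∀ k, A k (linP c * R) = 0 := by
  obtain ⟨w0, hw0⟩ : ∃ w : Fin 3 → Ω, w = mu2 x y (v 0) := ⟨_, rfl⟩
  obtain ⟨w1, hw1⟩ : ∃ w : Fin 3 → Ω, w = mu2 x y (v 1) := ⟨_, rfl⟩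
  have h3 : ∀ W : Submodule K Ω, Module.Finite K W → (∀ u, w0 u ∈ W) → (∀ u, w1 u ∈ W) →
      3 ≤ Module.finrank K W := by
    intro W hW h0 h1
    refine (three_le h.hv h.hq).trans (Submodule.finrank_mono (Submodule.span_le.2 ?_))
    rintro _ ⟨⟨k, u⟩, rfl⟩
    fin_cases k
    · have := h0 u; rw [hw0] at this; exact this
    · have := h1 u; rw [hw1] at this; exact this
  have hd0 : ¬ LinearIndependent K w0 := by
    have := hdep 1 0 (Or.inl one_ne_zero)
    simp only [OneMemClass.coe_one, ZeroMemClass.coe_zero, one_mul, zero_mul, add_zero] at this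
    rw [hw0]
    exact this
  have hd1 : ¬ LinearIndependent K w1 := by
    have := hdep 0 1 (Or.inr one_ne_zero)
    simp only [OneMemClass.coe_one, ZeroMemClass.coe_zero, one_mul, zero_mul, zero_add] at this
    rw [hw1]
    exact this
  obtain ⟨ψ1, hψ1, u1, hu1⟩ := case_two_out w0 w1 hd0 h3
  obtain ⟨ψ2, hψ2, u2, hu2⟩ := case_two_out w1 w0 hd1 fun W hW h1 h0 => h3 W hW h0 h1
  obtain ⟨m, hm⟩ : ∃ m : Fin 3 → K, m = fun u => ψ1 (w1 u) := ⟨_, rfl⟩
  obtain ⟨m', hm'⟩ : ∃ m : Fin 3 → K, m = fun u => ψ2 (w0 u) := ⟨_, rfl⟩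
  have hm0 : m ≠ 0 := fun h0 => hu1 (by
    have := congrFun h0 u1
    rw [hm] at this
    exact this)
  have hm0' : m' ≠ 0 := fun h0 => hu2 (by
    have := congrFun h0 u2
    rw [hm'] at this
    exact this)
  have hlin0 : linP (fun _ : Fin 3 => (0 : K)) = 0 := by
    unfold linP
    simp
  -- symmetry
  have hA0 : ∀ k, k + 1 ≤ n → ∀ R ∈ WW K k, A 0 (linP m * R) = 0 := by
    intro k hk R hR
    have h1 := h.sym ψ1 k hk R hR
    have e0 : (fun u => ψ1 (mu2 x y (v 0) u)) = fun _ => 0 := by
      funext u; rw [← hw0]; exact hψ1 u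
    have e1 : (fun u => ψ1 (mu2 x y (v 1) u)) = m := by rw [hm, hw1]
    rw [e0, e1, hlin0, zero_mul, map_zero] at h1
    exact h1
  have hA1 : ∀ k, k + 1 ≤ n → ∀ R ∈ WW K k, A 1 (linP m' * R) = 0 := by
    intro k hk R hR
    have h1 := h.sym ψ2 k hk R hR
    have e0 : (fun u => ψ2 (mu2 x y (v 1) u)) = fun _ => 0 := by
      funext u; rw [← hw1]; exact hψ2 u
    have e1 : (fun u => ψ2 (mu2 x y (v 0) u)) = m' := by rw [hm', hw0]
    rw [e0, e1, hlin0, zero_mul, map_zero] at h1
    exact h1.symm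
  -- proportionality
  have hcr : cr m m' = 0 := by
    by_contra hN
    obtain ⟨i, hi⟩ := Function.ne_iff.1 hN
    rw [Pi.zero_apply] at hi
    have key : ∀ t : K, t ≠ 0 → ∑ u, cr m m' u • (w0 u + t • w1 u) = 0 := by
      intro t ht
      have hdt := hdep 1 t (Or.inl one_ne_zero)
      rw [← hw0, ← hw1] at hdt
      obtain ⟨c, hc, hsum⟩ := case_two_rel w0 w1 t hdt
      have g1 := case_two_app w0 w1 t c hsum ψ1
      have g2 := case_two_app w0 w1 t c hsum ψ2
      have g1' : ∑ u, c u * m u = 0 := by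
        have e : t * ∑ u, c u * m u = 0 := by
          rw [← g1, Finset.mul_sum]
          refine Finset.sum_congr rfl fun u _ => ?_
          rw [hψ1, hm]
          ring
        exact (mul_eq_zero.1 e).resolve_left ht
      have g2' : ∑ u, c u * m' u = 0 := by
        rw [← g2]
        refine Finset.sum_congr rfl fun u _ => ?_
        rw [hψ2, hm']
        ring
      have hp := case_two_prop m m' c g1' g2'
      have hci : c i ≠ 0 := by
        intro h0
        apply hc
        funext j
        have := hp j i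
        rw [h0, zero_mul] at this
        exact (mul_eq_zero.1 this).resolve_right hi
      have e : c i • ∑ u, cr m m' u • (w0 u + t • w1 u) = 0 := by
        have e2 : c i • ∑ u, cr m m' u • (w0 u + t • w1 u) =
            cr m m' i • ∑ u, c u • (w0 u + t • w1 u) := by
          rw [Finset.smul_sum, Finset.smul_sum]
          refine Finset.sum_congr rfl fun u _ => ?_
          rw [smul_smul, smul_smul, hp i u, mul_comm]
        rw [e2, hsum, smul_zero]
      exact (smul_eq_zero.1 e).resolve_left hci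
    have k1 := key 1 one_ne_zero
    have k2 := key 2 two_ne_zero
    have s1 : ∑ u, cr m m' u • w1 u = 0 := by
      have : ∑ u, cr m m' u • (w0 u + (2 : K) • w1 u) -
          ∑ u, cr m m' u • (w0 u + (1 : K) • w1 u) = ∑ u, cr m m' u • w1 u := by
        rw [← Finset.sum_sub_distrib]
        refine Finset.sum_congr rfl fun u _ => ?_
        rw [← smul_sub, one_smul, two_smul]
        congr 1
        abel
      rw [← this, k1, k2, sub_zero]
    have s0 : ∑ u, cr m m' u • w0 u = 0 := by
      have : ∑ u, cr m m' u • (w0 u + (1 : K) • w1 u) =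
          ∑ u, cr m m' u • w0 u + ∑ u, cr m m' u • w1 u := by
        rw [← Finset.sum_add_distrib]
        refine Finset.sum_congr rfl fun u _ => ?_
        rw [one_smul, smul_add]
      rw [k1, s1, add_zero] at this
      exact this.symm
    apply hN
    refine no_common h.hv h.hq _ fun k => ?_
    fin_cases k
    · rw [← s0, hw0]; rfl
    · rw [← s1, hw1]; rfl
  obtain ⟨r, hr⟩ := case_two_smul m m' hm0' hcr
  refine ⟨m, hm0, fun k hk R hR i => ?_⟩
  fin_cases i
  · exact hA0 k hk R hR
  · have e : linP m = r • linP m' := by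
      rw [hr]
      unfold linP
      rw [Finset.smul_sum]
      refine Finset.sum_congr rfl fun u _ => ?_
      rw [Pi.smul_apply, smul_eq_mul, smul_smul]
    show A 1 (linP m * R) = 0
    rw [e, smul_mul_assoc, map_smul, hA1 k hk R hR, smul_zero]

end Pool.Agent.Lib.MP_44a246_ntH
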