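import Mathlib
import Pool.Agent.Lib.MP_44a246_ntH.QSD

/-!
The codimension of the annihilating polynomials.
-/

set_option linter.unusedSectionVars false

namespace Pool.Agent.Lib.MP_44a246_ntH

open Pool.Agent.Lib.MP_e52354_ntP Pool.Agent.Lib.MP_44a246_ntB Pool.Agent.Lib.MP_e52354_ntI
open MvPolynomial

variable {Ω : Type*} [Field Ω] [CharZero Ω] {K : Subfield Ω} {U : Type*} [AddCommGroup U]
  [Module K U] {A : Fin 2 → MvPolynomial (Fin 2) K →ₗ[K] U} {n : ℕ}

private theorem qsh_add {m : ℕ} {F G : MvPolynomial (Fin 2) K} (hF : InAnn K A n m F)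
    (hG : InAnn K A n m G) : InAnn K A n m (F + G) := by
  refine ⟨Submodule.add_mem _ hF.1 hG.1, fun R hR k => ?_⟩
  rw [add_mul, map_add, hF.2 R hR k, hG.2 R hR k, add_zero]

private theorem qsh_zero (m : ℕ) : InAnn K A n m (0 : MvPolynomial (Fin 2) K) := by
  refine ⟨Submodule.zero_mem _, fun R _ k => ?_⟩
  rw [zero_mul, map_zero]

private theorem qsh_smul {m : ℕ} (a : K) {F : MvPolynomial (Fin 2) K} (hF : InAnn K A n m F) :
    InAnn K A n m (a • F) := by
  refine ⟨Submodule.smul_mem _ _ hF.1, fun R hR k => ?_⟩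
  rw [smul_mul_assoc, map_smul, hF.2 R hR k, smul_zero]

private theorem qsh_mul {i j m : ℕ} {P F : MvPolynomial (Fin 2) K} (hP : P ∈ WW K i)
    (hF : InAnn K A n j F) (hij : i + j ≤ m) (hm : m ≤ n) : InAnn K A n m (P * F) := by
  refine ⟨WW_mono hij (mul_mem_WW hP hF.1), fun R hR k => ?_⟩
  have h1 : P * F * R = F * (P * R) := by ring
  rw [h1]
  exact hF.2 _ (WW_mono (by omega) (mul_mem_WW hP hR)) k

private theorem qsh_lin {f : MvPolynomial (Fin 2) K} (hf : f ∈ WW K 1) :
    ∃ c : Fin 3 → K, f = linP c := by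
  refine WW_induction (P := fun f => ∃ c : Fin 3 → K, f = linP c) ?_ ?_ ?_ hf
  · intro m hm
    rcases Nat.lt_or_ge m.degree 1 with h | h
    · have : m = 0 := (Finsupp.degree_eq_zero_iff m).mp (by omega)
      subst this
      exact ⟨![1, 0, 0], by simp [linP, xs, Fin.sum_univ_three]⟩
    · obtain ⟨i, m', hm', hmm⟩ := exists_of_degree (K := K) (k := 0) (m := m) (by omega)
      have : m' = 0 := (Finsupp.degree_eq_zero_iff m').mp hm'
      subst this
      rw [hmm]
      fin_cases i
      · exact ⟨![0, 1, 0], by simp [linP, xs, Fin.sum_univ_three]⟩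
      · exact ⟨![0, 0, 1], by simp [linP, xs, Fin.sum_univ_three]⟩
  · rintro Q R ⟨a, rfl⟩ ⟨b, rfl⟩
    exact ⟨a + b, by simp only [linP, Pi.add_apply, add_smul, Finset.sum_add_distrib]⟩
  · rintro c Q ⟨a, rfl⟩
    exact ⟨c • a, by simp only [linP, Pi.smul_apply, smul_eq_mul, mul_smul, Finset.smul_sum]⟩

/-- splitting a polynomial of degree `m + 1` -/
private theorem qsh_split {m : ℕ} {F : MvPolynomial (Fin 2) K} (hF : F ∈ WW K (m + 1)) :
    ∃ G : Fin 2 → MvPolynomial (Fin 2) K, ∃ F₀ ∈ WW K m, (∀ i, G i ∈ WW K m) ∧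
      F = F₀ + X 0 * G 0 + X 1 * G 1 := by
  refine WW_induction (P := fun F => ∃ G : Fin 2 → MvPolynomial (Fin 2) K, ∃ F₀ ∈ WW K m,
    (∀ i, G i ∈ WW K m) ∧ F = F₀ + X 0 * G 0 + X 1 * G 1) ?_ ?_ ?_ hF
  · intro e he
    rcases Nat.lt_or_ge e.degree (m + 1) with h | h
    · exact ⟨0, monomial e 1, monomial_mem_WW (by omega) 1, fun i => Submodule.zero_mem _,
        by simp⟩
    · obtain ⟨i, m', hm', hmm⟩ := exists_of_degree (K := K) (k := m) (m := e) (by omega)
      refine ⟨Pi.single i (monomial m' 1), 0, Submodule.zero_mem _, ?_, ?_⟩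
      · intro j
        by_cases hj : j = i
        · subst hj
          rw [Pi.single_eq_same]
          exact monomial_mem_WW (by omega) 1
        · rw [Pi.single_eq_of_ne hj]
          exact Submodule.zero_mem _
      · rw [hmm]
        fin_cases i
        · simp
        · simp
  · rintro Q R ⟨G, Q₀, hQ₀, hG, rfl⟩ ⟨G', R₀, hR₀, hG', rfl⟩
    exact ⟨G + G', Q₀ + R₀, Submodule.add_mem _ hQ₀ hR₀,
      fun i => Submodule.add_mem _ (hG i) (hG' i), by simp only [Pi.add_apply]; ring⟩
  · rintro c Q ⟨G, Q₀, hQ₀, hG, rfl⟩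
    exact ⟨c • G, c • Q₀, Submodule.smul_mem _ _ hQ₀, fun i => Submodule.smul_mem _ _ (hG i),
      by simp only [Pi.smul_apply, smul_add, mul_smul_comm]⟩

private theorem qsh_pow (w : Fin 3 → K) (m : ℕ) : linP w ^ m ∈ WW K m := by
  induction m with
  | zero =>
    rw [pow_zero, mem_WW, totalDegree_one]
  | succ m ih =>
    rw [pow_succ]
    exact mul_mem_WW ih (linP_mem w)

private theorem qsh_main (w : Fin 3 → K)
    (hw : ∀ f ∈ WW K 2, ∃ (c : Fin 3 → K) (b : MvPolynomial (Fin 2) K),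
      InAnn K A n 2 b ∧ f = linP w * linP c + b) (m : ℕ) (hm : m + 1 ≤ n)
    (F : MvPolynomial (Fin 2) K) (hF : F ∈ WW K (m + 1)) :
    ∃ (c : Fin 3 → K) (b : MvPolynomial (Fin 2) K),
      InAnn K A n (m + 1) b ∧ F = linP w ^ m * linP c + b := by
  induction m generalizing F with
  | zero =>
    obtain ⟨c, hc⟩ := qsh_lin (K := K) (f := F) hF
    exact ⟨c, 0, qsh_zero _, by rw [pow_zero, one_mul, add_zero, hc]⟩
  | succ m ih =>
    obtain ⟨G, F₀, hF₀, hG, hFG⟩ := qsh_split hF
    have key : ∀ x ∈ WW K 1, ∀ R ∈ WW K (m + 1), ∃ (c : Fin 3 → K) (b : MvPolynomial (Fin 2) K),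
        InAnn K A n (m + 1 + 1) b ∧ x * R = linP w ^ (m + 1) * linP c + b := by
      intro x hx R hR
      obtain ⟨c, b, hb, hc⟩ := ih (by omega) R hR
      obtain ⟨c', b', hb', hc'⟩ := hw (x * linP c) (mul_mem_WW hx (linP_mem c))
      refine ⟨c', linP w ^ m * b' + x * b,
        qsh_add (qsh_mul (qsh_pow w m) hb' (by omega) hm) (qsh_mul hx hb (by omega) hm), ?_⟩
      rw [hc, mul_add]
      have h1 : x * (linP w ^ m * linP c) = linP w ^ m * (x * linP c) := by ring
      rw [h1, hc']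
      ring
    obtain ⟨c0, b0, hb0, h0⟩ := key 1 (by rw [mem_WW, totalDegree_one]; omega) F₀ hF₀
    obtain ⟨c1, b1, hb1, h1⟩ := key (X 0) (X_mem_WW le_rfl 0) (G 0) (hG 0)
    obtain ⟨c2, b2, hb2, h2⟩ := key (X 1) (X_mem_WW le_rfl 1) (G 1) (hG 1)
    refine ⟨c0 + c1 + c2, b0 + b1 + b2, qsh_add (qsh_add hb0 hb1) hb2, ?_⟩
    have h3 : linP (c0 + c1 + c2) = linP c0 + linP c1 + linP c2 := by
      simp only [linP, Pi.add_apply, add_smul, Finset.sum_add_distrib]
    rw [one_mul] at h0
    rw [hFG, h0, h1, h2, h3]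
    ring

/-- the codimension of the annihilating polynomials -/
theorem codim_of_step (w : Fin 3 → K)
    (hw : ∀ f ∈ WW K 2, ∃ (c : Fin 3 → K) (b : MvPolynomial (Fin 2) K),
      InAnn K A n 2 b ∧ f = linP w * linP c + b) {m : ℕ} (hm : m ≤ n) :
    ∃ S : Submodule K (WW K m), Module.finrank K (WW K m) ≤ Module.finrank K S + 3 ∧
      ∀ F ∈ S, InAnn K A n m (F : MvPolynomial (Fin 2) K) := by
  rcases m with _ | m
  · refine ⟨⊥, ?_, ?_⟩
    · have := finrank_WWk (K := K) 0
      omega
    · intro F hF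
      rw [(Submodule.mem_bot K).mp hF]
      exact qsh_zero _
  · let S : Submodule K (WW K (m + 1)) :=
      { carrier := {F | InAnn K A n (m + 1) (F : MvPolynomial (Fin 2) K)}
        add_mem' := fun {a b} ha hb => qsh_add ha hb
        zero_mem' := qsh_zero _
        smul_mem' := fun c {x} hx => qsh_smul c hx }
    refine ⟨S, ?_, fun F hF => hF⟩
    have hmem : ∀ c : Fin 3 → K, linP w ^ m * linP c ∈ WW K (m + 1) := fun c =>
      mul_mem_WW (qsh_pow w m) (linP_mem c)
    let T : (Fin 3 → K) →ₗ[K] WW K (m + 1) :=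
      { toFun := fun c => ⟨linP w ^ m * linP c, hmem c⟩
        map_add' := by
          intro c c'
          apply Subtype.ext
          show linP w ^ m * linP (c + c') = linP w ^ m * linP c + linP w ^ m * linP c'
          simp only [linP, Pi.add_apply, add_smul, Finset.sum_add_distrib, mul_add]
        map_smul' := by
          intro a c
          apply Subtype.ext
          show linP w ^ m * linP (a • c) = a • (linP w ^ m * linP c)
          simp only [linP, Pi.smul_apply, smul_eq_mul, mul_smul, ← Finset.smul_sum,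
            mul_smul_comm] }
    have hsur : Function.Surjective (S.mkQ ∘ₗ T) := by
      intro y
      obtain ⟨F, rfl⟩ := S.mkQ_surjective y
      obtain ⟨c, b, hb, hF⟩ := qsh_main w hw m hm F.1 F.2
      refine ⟨c, ?_⟩
      rw [LinearMap.comp_apply, Submodule.mkQ_apply, Submodule.mkQ_apply,
        eq_comm, Submodule.Quotient.eq]
      show InAnn K A n (m + 1) ((F - T c : WW K (m + 1)) : MvPolynomial (Fin 2) K)
      have h1 : ((F - T c : WW K (m + 1)) : MvPolynomial (Fin 2) K) = b := by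
        show (F : MvPolynomial (Fin 2) K) - linP w ^ m * linP c = b
        rw [hF]
        ring
      rw [h1]
      exact hb
    have h1 := LinearMap.finrank_le_finrank_of_surjective hsur
    have h2 := Submodule.finrank_quotient_add_finrank S
    rw [Module.finrank_fin_fun] at h1
    omega

end Pool.Agent.Lib.MP_44a246_ntH
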