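import Mathlib
import Pool.Agent.Lib.MP_44a246_ntH.QSf
import Pool.Agent.Lib.MP_44a246_ntH.QSg
import Pool.Agent.Lib.MP_44a246_ntH.QSh

/-!
The two alternatives over an algebraically closed field.
-/

set_option linter.unusedSectionVars false

namespace Pool.Agent.Lib.MP_44a246_ntH

open Pool.Agent.Lib.MP_e52354_ntP Pool.Agent.Lib.MP_44a246_ntB Pool.Agent.Lib.MP_e52354_ntI
open MvPolynomial

variable {Ω : Type*} [Field Ω] [CharZero Ω] {K : Subfield Ω} {x y : Ω}
  {v : Fin 2 → Fin 2 → Ω} {U : Type*} [AddCommGroup U] [Module K U]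
  {A : Fin 2 → MvPolynomial (Fin 2) K →ₗ[K] U} {n : ℕ}

/-- The two alternatives. -/
theorem SymD.alt (h : SymD K x y v A n) (hn : 2 ≤ n) :
    (∃ c : Fin 3 → K, c ≠ 0 ∧ ∀ m, m + 1 ≤ n → ∀ R ∈ WW K m, ∀ k, A k (linP c * R) = 0) ∨
    ∀ m ≤ n, ∃ S : Submodule K (WW K m), Module.finrank K (WW K m) ≤ Module.finrank K S + 3 ∧
      ∀ F ∈ S, InAnn K A n m (F : MvPolynomial (Fin 2) K) := by
  by_cases h1 : ∀ s t : K, (s ≠ 0 ∨ t ≠ 0) → ¬ LinearIndependent K
      (fun u => (s : Ω) * mu2 x y (v 0) u + (t : Ω) * mu2 x y (v 1) u)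
  · exact Or.inl (h.case_two h1)
  · push Not at h1
    obtain ⟨s, t, -, hli⟩ := h1
    obtain ⟨w, hw⟩ := h.case_one hn s t hli
    exact Or.inr fun m hm => codim_of_step w hw hm

theorem qsi_linP_mul (c : Fin 3 → K) (R : MvPolynomial (Fin 2) K) :
    linP c * R = ∑ u, c u • (xs K u * R) := by
  unfold linP
  rw [Finset.sum_mul]
  exact Finset.sum_congr rfl fun u _ => smul_mul_assoc _ _ _

theorem qsi_linP_ne {c : Fin 3 → K} (hc : c ≠ 0) : linP c ≠ 0 := by
  intro h0
  have key : ∀ w : Fin 2 → K, c 0 + c 1 * w 0 + c 2 * w 1 = 0 := by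
    intro w
    have h1 := congrArg (aeval (R := K) w) h0
    unfold linP at h1
    rw [map_sum, map_zero, Fin.sum_univ_three] at h1
    simp only [xs, Matrix.cons_val_zero, Matrix.cons_val_one, Matrix.cons_val, map_smul, map_one,
      aeval_X, smul_eq_mul, mul_one] at h1
    exact h1
  have e0 := key ![0, 0]
  have e1 := key ![1, 0]
  have e2 := key ![0, 1]
  simp only [Matrix.cons_val_zero, Matrix.cons_val_one, mul_zero, mul_one, add_zero] at e0 e1 e2
  rw [e0, zero_add] at e1 e2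
  apply hc
  funext u
  fin_cases u
  · exact e0
  · exact e1
  · exact e2

theorem qsi_xs_mem (u : Fin 3) {Q : MvPolynomial (Fin 2) K} {k e : ℕ} (hQ : Q ∈ WW K k)
    (hk : k + 1 ≤ e) : xs K u * Q ∈ WW K e := by
  fin_cases u
  · show (1 : MvPolynomial (Fin 2) K) * Q ∈ WW K e
    rw [one_mul]
    exact WW_mono (by omega) hQ
  · exact WW_mono hk (X_mul_mem 0 hQ)
  · exact WW_mono hk (X_mul_mem 1 hQ)

/-- The two alternatives of a slot over an algebraically closed field. -/
theorem SlotQ.alt_closed [IsAlgClosed Ω] {q : ℕ} {n : Fin q → ℕ}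
    {N : (Fin q → MvPolynomial (Fin 2) K) →ₗ[K] Matrix (Fin 2) (Fin 2) Ω}
    (h : SlotQ K x y n N) (j₀ : Fin q) (hn : 2 ≤ n j₀) : AltQ K n N j₀ := by
  classical
  obtain ⟨Q1, hQ1, hone⟩ := h.one
  let Φ : WV K n →ₗ[K] Matrix (Fin 2) (Fin 2) Ω := N ∘ₗ (WV K n).subtype
  have hfam : KFam Φ ⟨Q1, hQ1⟩ := ⟨fun Q => h.det _ Q.2, hone,
    fun Q hQ => h.rad _ Q.2 fun Q' hQ' => hQ ⟨Q', hQ'⟩⟩
  obtain ⟨G, H, hHG, hmem⟩ := hfam.exists_basis h.alg
  have hGH : G * H = 1 := mul_eq_one_comm.mp hHG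
  have hmem' : ∀ Q ∈ WV K n, ∀ i j, (H * N Q * G) i j ∈ K := fun Q hQ i j => hmem ⟨Q, hQ⟩ i j
  have hdet : G.det ≠ 0 := by
    intro h0
    have h1 : G.det * H.det = 1 := by rw [← Matrix.det_mul, hGH, Matrix.det_one]
    rw [h0, zero_mul] at h1
    exact zero_ne_one h1
  have hsingle : ∀ Q Q' : MvPolynomial (Fin 2) K,
      (Pi.single j₀ (Q + Q') : Fin q → MvPolynomial (Fin 2) K) = Pi.single j₀ Q + Pi.single j₀ Q' :=
    fun Q Q' => Pi.single_add _ _ _
  have hsmul : ∀ (c : K) (Q : MvPolynomial (Fin 2) K),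
      (Pi.single j₀ (c • Q) : Fin q → MvPolynomial (Fin 2) K) = c • Pi.single j₀ Q :=
    fun c Q => Pi.single_smul _ _ _
  let v : Fin 2 → Fin 2 → Ω := fun k j => G j k
  let A0 : Fin 2 → (WW K (n j₀) →ₗ[K] (Fin 2 → K)) := fun k =>
    { toFun := fun Q i => ⟨(H * N (Pi.single j₀ (Q : MvPolynomial (Fin 2) K)) * G) i k,
        hmem' _ (single_mem_WV j₀ Q.2) i k⟩
      map_add' := by
        intro Q Q'
        funext i
        apply Subtype.ext
        show (H * N (Pi.single j₀ ((Q : MvPolynomial (Fin 2) K) + Q')) * G) i k = _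
        rw [hsingle, map_add, Matrix.mul_add, Matrix.add_mul]
        rfl
      map_smul' := by
        intro c Q
        funext i
        apply Subtype.ext
        show (H * N (Pi.single j₀ (c • (Q : MvPolynomial (Fin 2) K))) * G) i k = _
        rw [hsmul, map_smul, Matrix.mul_smul, Matrix.smul_mul]
        rfl }
  have hex : ∀ k, ∃ g : MvPolynomial (Fin 2) K →ₗ[K] (Fin 2 → K),
      g ∘ₗ (WW K (n j₀)).subtype = A0 k := fun k => LinearMap.exists_extend (A0 k)
  choose A hA using hex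
  have hAv : ∀ (k : Fin 2) (Q : MvPolynomial (Fin 2) K) (_ : Q ∈ WW K (n j₀)) (i : Fin 2),
      ((A k Q i : K) : Ω) = (H * N (Pi.single j₀ Q) * G) i k := by
    intro k Q hQ i
    have h1 : A k Q = A0 k ⟨Q, hQ⟩ := LinearMap.congr_fun (hA k) ⟨Q, hQ⟩
    rw [h1]
    rfl
  have hker : ∀ (Q : MvPolynomial (Fin 2) K) (_ : Q ∈ WW K (n j₀)), (∀ k, A k Q = 0) →
      N (Pi.single j₀ Q) = 0 := by
    intro Q hQ h0
    have h1 : H * N (Pi.single j₀ Q) * G = 0 := by
      ext i k
      rw [← hAv k Q hQ i, h0 k]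
      rfl
    calc N (Pi.single j₀ Q) = (G * H) * N (Pi.single j₀ Q) * (G * H) := by
          rw [hGH, Matrix.one_mul, Matrix.mul_one]
      _ = G * (H * N (Pi.single j₀ Q) * G) * H := by simp only [Matrix.mul_assoc]
      _ = 0 := by rw [h1, Matrix.mul_zero, Matrix.zero_mul]
  -- the symmetry
  have hS : SymD K x y v A (n j₀) := by
    refine ⟨?_, h.quad, ?_⟩
    · have h1 := hdet
      rw [Matrix.det_fin_two] at h1
      intro h2
      apply h1
      have h3 : G 0 0 * G 1 1 - G 1 0 * G 0 1 = 0 := h2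
      linear_combination h3
    · intro ψ m hm R hR
      funext i
      have hxm : ∀ u, xs K u * R ∈ WW K (n j₀) := fun u => qsi_xs_mem u hR hm
      have hsym : ∑ u, mu2 x y (v 1) u * ((A 0 (xs K u * R) i : K) : Ω) =
          ∑ u, mu2 x y (v 0) u * ((A 1 (xs K u * R) i : K) : Ω) := by
        have hB : ∀ (u : Fin 3) (k : Fin 2), ((A k (xs K u * R) i : K) : Ω) =
            (H * N (Pi.single j₀ (xs K u * R))) i 0 * v k 0 +
              (H * N (Pi.single j₀ (xs K u * R))) i 1 * v k 1 := by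
          intro u k
          rw [hAv k _ (hxm u) i, Matrix.mul_apply, Fin.sum_univ_two]
        have hc : ∀ i', N (Pi.single j₀ (X 1 * R)) i' 0 - y * N (Pi.single j₀ R) i' 0 =
            N (Pi.single j₀ (X 0 * R)) i' 1 - x * N (Pi.single j₀ R) i' 1 := by
          intro i'
          have h1 := h.comm (Pi.single j₀ R) i'
          rw [smul_single, smul_single] at h1
          exact h1
        have hc' : (H * N (Pi.single j₀ (X 1 * R))) i 0 - y * (H * N (Pi.single j₀ R)) i 0 =
            (H * N (Pi.single j₀ (X 0 * R))) i 1 - x * (H * N (Pi.single j₀ R)) i 1 := by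
          rw [Matrix.mul_apply, Matrix.mul_apply, Matrix.mul_apply, Matrix.mul_apply,
            Fin.sum_univ_two, Fin.sum_univ_two, Fin.sum_univ_two, Fin.sum_univ_two]
          linear_combination H i 0 * hc 0 + H i 1 * hc 1
        rw [Fin.sum_univ_three, Fin.sum_univ_three, hB, hB, hB, hB, hB, hB]
        have x0 : xs K 0 * R = R := by
          show (1 : MvPolynomial (Fin 2) K) * R = R
          rw [one_mul]
        have x1 : xs K 1 * R = X 0 * R := rfl
        have x2 : xs K 2 * R = X 1 * R := rfl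
        rw [x0, x1, x2]
        simp only [mu2, Matrix.cons_val_zero, Matrix.cons_val_one, Matrix.cons_val]
        linear_combination (v 0 0 * v 1 1 - v 0 1 * v 1 0) * hc'
      have h2 := congrArg ψ hsym
      rw [map_sum, map_sum] at h2
      have h3 : ∀ (z : Ω) (c : K), ψ (z * (c : Ω)) = ψ z * c := by
        intro z c
        have : z * (c : Ω) = c • z := by rw [mul_comm]; rfl
        rw [this, map_smul, smul_eq_mul, mul_comm]
      simp only [h3] at h2
      have h4 : ∀ (c : Fin 3 → K) (k : Fin 2), A k (linP c * R) i =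
          ∑ u, c u * A k (xs K u * R) i := by
        intro c k
        rw [qsi_linP_mul, map_sum, Finset.sum_apply]
        refine Finset.sum_congr rfl fun u _ => ?_
        rw [map_smul, Pi.smul_apply, smul_eq_mul]
      rw [h4, h4]
      exact h2
  rcases hS.alt hn with ⟨c, hc, h1⟩ | h1
  · refine Or.inl ⟨linP c, linP_mem c, qsi_linP_ne hc, fun m hm R hR => ?_⟩
    refine hker _ ?_ (h1 m hm R hR)
    exact WW_mono (by omega) (mul_mem_WW (linP_mem c) hR)
  · refine Or.inr fun m hm => ?_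
    obtain ⟨S, hS1, hS2⟩ := h1 m hm
    refine ⟨S, hS1, fun F hF G hG => ?_⟩
    refine hker _ ?_ ((hS2 F hF).2 G hG)
    exact WW_mono (by omega) (mul_mem_WW F.2 hG)

end Pool.Agent.Lib.MP_44a246_ntH
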