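import Mathlib
import Pool.Agent.Lib.MP_44a246_ntH.QSD

/-!
Relations with algebraic coefficients.
-/

set_option linter.unusedSectionVars false

namespace Pool.Agent.Lib.MP_44a246_ntH

open Pool.Agent.Lib.MP_e52354_ntP Pool.Agent.Lib.MP_44a246_ntB Pool.Agent.Lib.MP_e52354_ntI
open MvPolynomial

variable {M Ω : Type*} [Field M] [CharZero M] [Field Ω] [Algebra M Ω] {K : Subfield M}
  {K' : Subfield Ω}

/-- coordinates of a finite family -/
private theorem ld_coord {ι : Type*} (S : Finset ι) (c : ι → Ω) :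
    ∃ (n : ℕ) (b : Fin n → Ω) (κ : ι → Fin n → K), LinearIndependent K b ∧
      (∀ j, b j ∈ Submodule.span K (c '' (S : Set ι))) ∧
      ∀ i ∈ S, c i = ∑ j, κ i j • b j := by
  classical
  set C : Submodule K Ω := Submodule.span K (c '' (S : Set ι)) with hC
  have hfin : FiniteDimensional K C := by
    rw [hC]
    exact FiniteDimensional.span_of_finite K ((Finset.finite_toSet S).image c)
  have hmem : ∀ i ∈ S, c i ∈ C := fun i hi => Submodule.subset_span ⟨i, hi, rfl⟩
  let b := Module.finBasis K C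
  refine ⟨_, fun j => (b j : Ω), fun i j => if hi : i ∈ S then b.repr ⟨c i, hmem i hi⟩ j else 0,
    b.linearIndependent.map' C.subtype C.ker_subtype, fun j => (b j).2, fun i hi => ?_⟩
  have h1 := b.sum_repr ⟨c i, hmem i hi⟩
  have h2 := congrArg C.subtype h1
  rw [map_sum] at h2
  simp only [dif_pos hi]
  refine Eq.trans (Eq.symm h2) ?_
  refine Finset.sum_congr rfl fun j _ => ?_
  rw [map_smul]
  rfl

private theorem ld_sum {ι : Type*} (S : Finset ι) (c : ι → Ω) {n : ℕ} (b : Fin n → Ω)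
    (κ : ι → Fin n → K) (hκ : ∀ i ∈ S, c i = ∑ j, κ i j • b j) (v : ι → M) :
    ∑ i ∈ S, c i * algebraMap M Ω (v i) = ∑ j, (∑ i ∈ S, (κ i j : M) * v i) • b j := by
  have h1 : ∀ i ∈ S, c i * algebraMap M Ω (v i) = ∑ j, ((κ i j : M) * v i) • b j := by
    intro i hi
    rw [hκ i hi, Finset.sum_mul]
    refine Finset.sum_congr rfl fun j _ => ?_
    rw [Algebra.smul_def, Algebra.smul_def, map_mul]
    rw [show algebraMap K Ω (κ i j) = algebraMap M Ω (κ i j : M) from rfl]
    ring
  rw [Finset.sum_congr rfl h1, Finset.sum_comm]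
  refine Finset.sum_congr rfl fun j _ => ?_
  rw [Finset.sum_smul]

/-- a relation with algebraic coefficients can be pushed down -/
theorem ld_one (hK : ∀ z : M, IsAlgebraic K z → z ∈ K) {ι : Type*} (S : Finset ι) (c : ι → Ω)
    (hc : ∀ i ∈ S, IsAlgebraic K (c i)) (v : ι → M)
    (h0 : ∑ i ∈ S, c i * algebraMap M Ω (v i) = 0) (ψ : Ω →ₗ[K] K) :
    ∑ i ∈ S, (ψ (c i) : M) * v i = 0 := by
  obtain ⟨n, b, κ, hb, hbC, hκ⟩ := ld_coord (K := K) S c
  have hle : Submodule.span K (c '' (S : Set ι)) ≤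
      Subalgebra.toSubmodule (algebraicClosure K Ω).toSubalgebra := by
    rw [Submodule.span_le]
    rintro _ ⟨i, hi, rfl⟩
    exact mem_algebraicClosure_iff.mpr (hc i hi)
  have hbalg : ∀ j, IsAlgebraic K (b j) := fun j =>
    mem_algebraicClosure_iff.mp (hle (hbC j))
  have hbM : LinearIndependent M b :=
    linDisj (k := K) (fun y hy => ⟨⟨y, hK y hy⟩, rfl⟩) hbalg hb
  rw [ld_sum S c b κ hκ v] at h0
  have h1 := Fintype.linearIndependent_iff.mp hbM _ h0
  have h2 : ∀ i ∈ S, (ψ (c i) : M) * v i = ∑ j, ((ψ (b j) : K) : M) * ((κ i j : M) * v i) := by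
    intro i hi
    rw [hκ i hi, map_sum]
    simp only [map_smul, smul_eq_mul]
    rw [AddSubmonoidClass.coe_finsetSum, Finset.sum_mul]
    refine Finset.sum_congr rfl fun j _ => ?_
    rw [show ((κ i j * ψ (b j) : K) : M) = (κ i j : M) * (ψ (b j) : M) from rfl]
    ring
  rw [Finset.sum_congr rfl h2, Finset.sum_comm]
  refine Finset.sum_eq_zero fun j _ => ?_
  rw [← Finset.mul_sum, h1 j, mul_zero]

/-- a relation follows from all its images -/
theorem ld_two {ι : Type*} (S : Finset ι) (c : ι → Ω) (v : ι → M)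
    (h0 : ∀ ψ : Ω →ₗ[K] K, ∑ i ∈ S, (ψ (c i) : M) * v i = 0) :
    ∑ i ∈ S, c i * algebraMap M Ω (v i) = 0 := by
  classical
  obtain ⟨n, b, κ, hb, hbC, hκ⟩ := ld_coord (K := K) S c
  rw [ld_sum S c b κ hκ v]
  refine Finset.sum_eq_zero fun j _ => ?_
  have hex : ∃ ψ : Ω →ₗ[K] K, ∀ l, ψ (b l) = if l = j then 1 else 0 := by
    have hinj : LinearMap.ker (Fintype.linearCombination K b) = ⊥ :=
      LinearMap.ker_eq_bot.mpr hb.fintypeLinearCombination_injective
    obtain ⟨g, hg⟩ := LinearMap.exists_leftInverse_of_injective _ hinj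
    refine ⟨LinearMap.proj j ∘ₗ g, fun l => ?_⟩
    have h1 : Fintype.linearCombination K b (Pi.single l 1) = b l := by
      rw [Fintype.linearCombination_apply_single, one_smul]
    have h2 := LinearMap.congr_fun hg (Pi.single l 1)
    rw [LinearMap.comp_apply, h1, LinearMap.id_apply] at h2
    rw [LinearMap.comp_apply, h2, LinearMap.proj_apply, Pi.single_apply]
    by_cases h : j = l
    · rw [if_pos h, if_pos h.symm]
    · rw [if_neg h, if_neg (Ne.symm h)]
  obtain ⟨ψ, hψ⟩ := hex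
  have h3 : ∀ i ∈ S, ψ (c i) = κ i j := by
    intro i hi
    rw [hκ i hi, map_sum]
    simp only [map_smul, smul_eq_mul, hψ]
    simp
  have h4 := h0 ψ
  rw [Finset.sum_congr rfl (fun i hi => by rw [h3 i hi])] at h4
  rw [h4, zero_smul]

end Pool.Agent.Lib.MP_44a246_ntH
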