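import Mathlib
import Pool.Agent.Lib.MP_44a246_ntH.QSD

/-!
Pushing polynomials down.
-/

set_option linter.unusedSectionVars false

namespace Pool.Agent.Lib.MP_44a246_ntH

open Pool.Agent.Lib.MP_e52354_ntP Pool.Agent.Lib.MP_44a246_ntB Pool.Agent.Lib.MP_e52354_ntI
open MvPolynomial

variable {M Ω : Type*} [Field M] [CharZero M] [Field Ω] [Algebra M Ω] {K : Subfield M}
  {K' : Subfield Ω}

theorem coeff_pushP (ψ : Ω →ₗ[K] K) (Q : MvPolynomial (Fin 2) K') (m : Fin 2 →₀ ℕ) :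
    coeff m (pushP ψ Q) = ψ ((coeff m Q : K') : Ω) := by
  classical
  unfold pushP
  rw [coeff_sum]
  simp only [coeff_monomial]
  rw [Finset.sum_ite_eq' Q.support m]
  split_ifs with h
  · rfl
  · rw [notMem_support_iff] at h
    rw [h]
    simp

theorem pushP_mem (ψ : Ω →ₗ[K] K) {k : ℕ} {Q : MvPolynomial (Fin 2) K'} (hQ : Q ∈ WW K' k) :
    pushP ψ Q ∈ WW K k := by
  unfold pushP
  refine Submodule.sum_mem _ fun m hm => ?_
  refine monomial_mem_WW ?_ _
  exact degree_le_of_mem hQ hm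

theorem pushP_add (ψ : Ω →ₗ[K] K) (Q Q' : MvPolynomial (Fin 2) K') :
    pushP ψ (Q + Q') = pushP ψ Q + pushP ψ Q' := by
  ext m
  rw [coeff_add, coeff_pushP, coeff_pushP, coeff_pushP, coeff_add]
  push_cast
  rw [map_add]
  push_cast
  rfl

theorem push_smul_aux (ψ : Ω →ₗ[K] K) (a : Ω) (c : K) :
    ψ (a * algebraMap M Ω (c : M)) = ψ a * c := by
  have : a * algebraMap M Ω (c : M) = c • a := by
    rw [mul_comm, ← Algebra.smul_def]
    rfl
  rw [this, map_smul, smul_eq_mul, mul_comm]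

theorem pushP_mul_map (hKK : ∀ z : K, algebraMap M Ω z ∈ K') (ψ : Ω →ₗ[K] K)
    (Q : MvPolynomial (Fin 2) K') (R : MvPolynomial (Fin 2) K) :
    pushP ψ (Q * map (inclK hKK) R) = pushP ψ Q * R := by
  ext m
  rw [coeff_pushP, coeff_mul, coeff_mul]
  push_cast
  rw [map_sum]
  push_cast
  refine Finset.sum_congr rfl fun a _ => ?_
  rw [coeff_pushP, coeff_map, coe_inclK, push_smul_aux]
  push_cast
  rfl

theorem pushP_smul_map (hKK : ∀ z : K, algebraMap M Ω z ∈ K') (ψ : Ω →ₗ[K] K)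
    (c : K') (R : MvPolynomial (Fin 2) K) :
    pushP ψ (c • map (inclK hKK) R) = ψ (c : Ω) • R := by
  ext m
  rw [coeff_pushP, coeff_smul, coeff_smul, coeff_map, smul_eq_mul, smul_eq_mul]
  push_cast
  rw [coe_inclK, push_smul_aux]
  push_cast
  rfl

theorem exists_pushP_ne {Q : MvPolynomial (Fin 2) K'} (hQ : Q ≠ 0) :
    ∃ ψ : Ω →ₗ[K] K, pushP ψ Q ≠ 0 := by
  obtain ⟨m, hm⟩ := MvPolynomial.ne_zero_iff.mp hQ
  have hm' : ((coeff m Q : K') : Ω) ≠ 0 := by
    intro h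
    exact hm (Subtype.ext h)
  have h2 := Module.forall_dual_apply_eq_zero_iff K ((coeff m Q : K') : Ω)
  by_contra hcon
  push Not at hcon
  apply hm'
  rw [← h2]
  intro φ
  have := hcon φ
  have h3 := coeff_pushP φ Q m
  rw [this, coeff_zero] at h3
  exact h3.symm

end Pool.Agent.Lib.MP_44a246_ntH
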