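import Mathlib
import Pool.Agent.Lib.MP_44a246_ntH.QSj
import Pool.Agent.Lib.MP_44a246_ntH.QSk

/-!
The extended family of matrices.
-/

set_option linter.unusedSectionVars false

namespace Pool.Agent.Lib.MP_44a246_ntH

open Pool.Agent.Lib.MP_e52354_ntP Pool.Agent.Lib.MP_44a246_ntB Pool.Agent.Lib.MP_e52354_ntI
open MvPolynomial

variable {M Ω : Type*} [Field M] [CharZero M] [Field Ω] [Algebra M Ω] {K : Subfield M}
  {K' : Subfield Ω}

variable {q : ℕ} {N : (Fin q → MvPolynomial (Fin 2) K) →ₗ[K] Matrix (Fin 2) (Fin 2) M}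

theorem extN_apply (Q : Fin q → MvPolynomial (Fin 2) K') (i k : Fin 2) :
    extN K' N Q i k = ∑ j, ∑ m ∈ (Q j).support, ((coeff m (Q j) : K') : Ω) *
      algebraMap M Ω (N (Pi.single j (monomial m 1)) i k) := by
  unfold extN
  rw [LinearMap.sum_apply, Matrix.sum_apply]
  refine Finset.sum_congr rfl fun j _ => ?_
  rw [LinearMap.comp_apply, LinearMap.proj_apply, Module.Basis.constr_apply, Finsupp.sum,
    Matrix.sum_apply]
  rfl

private theorem single_monomial (j : Fin q) (m : Fin 2 →₀ ℕ) (c : K) :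
    (Pi.single j (monomial m c) : Fin q → MvPolynomial (Fin 2) K) =
      c • Pi.single j (monomial m 1) := by
  rw [← Pi.single_smul, smul_monomial, smul_eq_mul, mul_one]

private theorem lin_expand (R : Fin q → MvPolynomial (Fin 2) K) (i k : Fin 2) :
    N R i k = ∑ j, ∑ m ∈ (R j).support, ((coeff m (R j) : K) : M) *
      N (Pi.single j (monomial m 1)) i k := by
  have h1 : R = ∑ j, Pi.single j (∑ m ∈ (R j).support, monomial m (coeff m (R j))) := by
    conv_lhs => rw [← Finset.univ_sum_single R]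
    refine Finset.sum_congr rfl fun j _ => ?_
    rw [← MvPolynomial.as_sum]
  conv_lhs => rw [h1]
  rw [map_sum, Matrix.sum_apply]
  refine Finset.sum_congr rfl fun j _ => ?_
  have h2 : (Pi.single j (∑ m ∈ (R j).support, monomial m (coeff m (R j))) :
      Fin q → MvPolynomial (Fin 2) K) =
      ∑ m ∈ (R j).support, Pi.single j (monomial m (coeff m (R j))) := by
    rw [← LinearMap.coe_single K (fun _ : Fin q => MvPolynomial (Fin 2) K) j, map_sum]
  rw [h2, map_sum, Matrix.sum_apply]
  refine Finset.sum_congr rfl fun m _ => ?_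
  rw [single_monomial, map_smul]
  rfl

theorem push_apply (ψ : Ω →ₗ[K] K) (Q : Fin q → MvPolynomial (Fin 2) K') (i k : Fin 2) :
    N (fun j => pushP ψ (Q j)) i k = ∑ j, ∑ m ∈ (Q j).support, (ψ ((coeff m (Q j) : K') : Ω) : M) *
      N (Pi.single j (monomial m 1)) i k := by
  have h1 : (fun j => pushP ψ (Q j)) =
      ∑ j, ∑ m ∈ (Q j).support, ψ ((coeff m (Q j) : K') : Ω) • Pi.single j (monomial m 1) := by
    conv_lhs => rw [← Finset.univ_sum_single (fun j => pushP ψ (Q j))]
    refine Finset.sum_congr rfl fun j _ => ?_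
    unfold pushP
    rw [← LinearMap.coe_single K (fun _ : Fin q => MvPolynomial (Fin 2) K) j, map_sum]
    refine Finset.sum_congr rfl fun m _ => ?_
    rw [LinearMap.coe_single]
    exact single_monomial j m _
  rw [h1, map_sum, Matrix.sum_apply]
  refine Finset.sum_congr rfl fun j _ => ?_
  rw [map_sum, Matrix.sum_apply]
  refine Finset.sum_congr rfl fun m _ => ?_
  rw [map_smul]
  rfl

theorem extN_map (hKK : ∀ z : K, algebraMap M Ω z ∈ K') (Q : Fin q → MvPolynomial (Fin 2) K) :
    extN K' N (fun j => map (inclK hKK) (Q j)) = (N Q).map (algebraMap M Ω) := by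
  ext i k
  rw [extN_apply, Matrix.map_apply, lin_expand, map_sum]
  refine Finset.sum_congr rfl fun j _ => ?_
  rw [support_map_of_injective _ (inclK hKK).injective, map_sum]
  refine Finset.sum_congr rfl fun m _ => ?_
  rw [coeff_map, coe_inclK, map_mul]

theorem extN_eq_zero_iff (hK : ∀ z : M, IsAlgebraic K z → z ∈ K)
    (hK' : ∀ z : Ω, z ∈ K' ↔ IsAlgebraic K z) (Q : Fin q → MvPolynomial (Fin 2) K') :
    extN K' N Q = 0 ↔ ∀ ψ : Ω →ₗ[K] K, N (fun j => pushP ψ (Q j)) = 0 := by
  constructor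
  · intro h ψ
    ext i k
    rw [push_apply]
    have h1 : extN K' N Q i k = 0 := by rw [h]; rfl
    rw [extN_apply, Finset.sum_sigma'] at h1
    have h2 := ld_one (K := K) hK _ (fun p : (_ : Fin q) × (Fin 2 →₀ ℕ) =>
      ((coeff p.2 (Q p.1) : K') : Ω)) (fun p _ => (hK' _).mp (coeff p.2 (Q p.1)).2)
      (fun p => N (Pi.single p.1 (monomial p.2 1)) i k) h1 ψ
    rw [Finset.sum_sigma] at h2
    exact h2
  · intro h
    ext i k
    rw [extN_apply, Finset.sum_sigma']
    refine ld_two (K := K) _ (fun p : (_ : Fin q) × (Fin 2 →₀ ℕ) =>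
      ((coeff p.2 (Q p.1) : K') : Ω)) (fun p => N (Pi.single p.1 (monomial p.2 1)) i k) ?_
    intro ψ
    have h1 : N (fun j => pushP ψ (Q j)) i k = 0 := by rw [h ψ]; rfl
    rw [push_apply] at h1
    rw [Finset.sum_sigma]
    exact h1

end Pool.Agent.Lib.MP_44a246_ntH
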