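import Mathlib
import Pool.Agent.Lib.MP_44a246_ntH.QSl

/-!
Properties of the extended family of matrices.
-/

set_option linter.unusedSectionVars false

namespace Pool.Agent.Lib.MP_44a246_ntH

open Pool.Agent.Lib.MP_e52354_ntP Pool.Agent.Lib.MP_44a246_ntB Pool.Agent.Lib.MP_e52354_ntI
open MvPolynomial

variable {M Ω : Type*} [Field M] [CharZero M] [Field Ω] [Algebra M Ω] {K : Subfield M}
  {K' : Subfield Ω} {q : ℕ} {n : Fin q → ℕ} {x y : M}
  {N : (Fin q → MvPolynomial (Fin 2) K) →ₗ[K] Matrix (Fin 2) (Fin 2) M}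

private theorem qsm_monomial {L : Type*} [Field L] {F : Subfield L} (x y : L) (m : Fin 2 →₀ ℕ)
    (c : F) : evp F x y (monomial m c) = (c : L) * (x ^ m 0 * y ^ m 1) := by
  unfold evp
  rw [aeval_monomial, Finsupp.prod_fintype _ _ (fun i => pow_zero _), Fin.prod_univ_two]
  rfl

private theorem qsm_evp {L : Type*} [Field L] {F : Subfield L} (x y : L)
    (f : MvPolynomial (Fin 2) F) : evp F x y f =
      ∑ m ∈ f.support, ((coeff m f : F) : L) * (x ^ m 0 * y ^ m 1) := by
  conv_lhs => rw [f.as_sum]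
  rw [map_sum]
  exact Finset.sum_congr rfl fun m _ => qsm_monomial x y m _

theorem SlotQ.ext_quad (h : SlotQ K x y n N) (hK' : ∀ z : Ω, z ∈ K' ↔ IsAlgebraic K z)
    {f : MvPolynomial (Fin 2) K'} (hf : f ∈ WW K' 2)
    (h0 : evp K' (algebraMap M Ω x) (algebraMap M Ω y) f = 0) : f = 0 := by
  by_contra hne
  obtain ⟨ψ, hψ⟩ := exists_pushP_ne (K := K) hne
  apply hψ
  refine h.quad _ (pushP_mem ψ hf) ?_
  have h1 : ∑ m ∈ f.support, ((coeff m f : K') : Ω) * algebraMap M Ω (x ^ m 0 * y ^ m 1) = 0 := by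
    rw [← h0, qsm_evp]
    refine Finset.sum_congr rfl fun m _ => ?_
    rw [map_mul, map_pow, map_pow]
  have h2 := ld_one h.alg f.support (fun m => ((coeff m f : K') : Ω))
    (fun m _ => (hK' _).1 (Subtype.property _)) (fun m => x ^ m 0 * y ^ m 1) h1 ψ
  unfold pushP
  rw [map_sum, ← h2]
  exact Finset.sum_congr rfl fun m _ => qsm_monomial x y m _

private theorem qsm_single (j : Fin q) (m : Fin 2 →₀ ℕ) :
    extN K' N (Pi.single j (monomial m 1)) =
      (N (Pi.single j (monomial m 1))).map (algebraMap M Ω) := by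
  classical
  unfold extN
  rw [LinearMap.sum_apply, Finset.sum_eq_single j]
  · rw [LinearMap.comp_apply, LinearMap.proj_apply, Pi.single_eq_same]
    have h1 : (monomial m (1 : K') : MvPolynomial (Fin 2) K') = basisMonomials (Fin 2) K' m := by
      rw [coe_basisMonomials]
    rw [h1, Module.Basis.constr_basis]
  · intro j' _ hj
    rw [LinearMap.comp_apply, LinearMap.proj_apply, Pi.single_eq_of_ne hj, map_zero]
  · intro h0
    exact absurd (Finset.mem_univ j) h0

private theorem qsm_X_mul {F : Type*} [Field F] (k : Fin 2) (m : Fin 2 →₀ ℕ) :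
    (X k : MvPolynomial (Fin 2) F) * monomial m 1 = monomial (Finsupp.single k 1 + m) 1 := by
  rw [X, monomial_mul, one_mul]

/-- the difference of the two sides of the commutation relation, as a linear map -/
private noncomputable def qsmT (K' : Subfield Ω) (x y : M)
    (N : (Fin q → MvPolynomial (Fin 2) K) →ₗ[K] Matrix (Fin 2) (Fin 2) M) (i : Fin 2) :
    (Fin q → MvPolynomial (Fin 2) K') →ₗ[K'] Ω where
  toFun Q := extN K' N ((X 1 : MvPolynomial (Fin 2) K') • Q) i 0 -
        algebraMap M Ω y * extN K' N Q i 0 -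
      (extN K' N ((X 0 : MvPolynomial (Fin 2) K') • Q) i 1 -
        algebraMap M Ω x * extN K' N Q i 1)
  map_add' := by
    intro Q Q'
    rw [smul_add, smul_add, map_add, map_add, map_add]
    simp only [Matrix.add_apply]
    ring
  map_smul' := by
    intro c Q
    have h1 : ∀ k : Fin 2, (X k : MvPolynomial (Fin 2) K') • c • Q =
        c • ((X k : MvPolynomial (Fin 2) K') • Q) := fun k => smul_comm _ _ _
    rw [h1, h1, (extN K' N).map_smul c ((X 1 : MvPolynomial (Fin 2) K') • Q),
      (extN K' N).map_smul c ((X 0 : MvPolynomial (Fin 2) K') • Q), (extN K' N).map_smul c Q]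
    simp only [Matrix.smul_apply, RingHom.id_apply]
    have h2 : ∀ z : Ω, c • z = (c : Ω) * z := fun z => rfl
    simp only [h2]
    ring

theorem ext_comm (hc : ∀ Q i, N ((X 1 : MvPolynomial (Fin 2) K) • Q) i 0 - y * N Q i 0 =
      N ((X 0 : MvPolynomial (Fin 2) K) • Q) i 1 - x * N Q i 1)
    (Q : Fin q → MvPolynomial (Fin 2) K') (i : Fin 2) :
    extN K' N ((X 1 : MvPolynomial (Fin 2) K') • Q) i 0 -
        algebraMap M Ω y * extN K' N Q i 0 =
      extN K' N ((X 0 : MvPolynomial (Fin 2) K') • Q) i 1 -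
        algebraMap M Ω x * extN K' N Q i 1 := by
  classical
  have hT : qsmT K' x y N i = 0 := by
    refine LinearMap.pi_ext' fun j => ?_
    refine MvPolynomial.linearMap_ext fun m => ?_
    refine LinearMap.ext_ring ?_
    rw [LinearMap.comp_apply, LinearMap.comp_apply, LinearMap.zero_comp, LinearMap.zero_comp,
      LinearMap.zero_apply]
    show qsmT K' x y N i (Pi.single j (monomial m 1)) = 0
    show extN K' N ((X 1 : MvPolynomial (Fin 2) K') • Pi.single j (monomial m 1)) i 0 -
        algebraMap M Ω y * extN K' N (Pi.single j (monomial m 1)) i 0 -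
      (extN K' N ((X 0 : MvPolynomial (Fin 2) K') • Pi.single j (monomial m 1)) i 1 -
        algebraMap M Ω x * extN K' N (Pi.single j (monomial m 1)) i 1) = 0
    rw [smul_single, smul_single, qsm_X_mul, qsm_X_mul, qsm_single, qsm_single, qsm_single]
    simp only [Matrix.map_apply]
    have h2 := hc (Pi.single j (monomial m 1)) i
    rw [smul_single, smul_single, qsm_X_mul, qsm_X_mul] at h2
    rw [← map_mul, ← map_mul, ← map_sub, ← map_sub, h2, sub_self]
  have h3 := LinearMap.congr_fun hT Q
  exact sub_eq_zero.mp h3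

end Pool.Agent.Lib.MP_44a246_ntH
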