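import Mathlib
import Pool.Agent.Lib.MP_44a246_ntH.QSl

/-!
Determinants and the radical of the extended family of matrices.
-/

set_option linter.unusedSectionVars false

namespace Pool.Agent.Lib.MP_44a246_ntH

open Pool.Agent.Lib.MP_e52354_ntP Pool.Agent.Lib.MP_44a246_ntB Pool.Agent.Lib.MP_e52354_ntI
open MvPolynomial

section Pol

variable {L : Type*} [Field L]

private theorem qsn_pol_sum {ι : Type*} (S : Finset ι) (c : ι → L)
    (X : ι → Matrix (Fin 2) (Fin 2) L) (Y : Matrix (Fin 2) (Fin 2) L) :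
    pol (∑ s ∈ S, c s • X s) Y = ∑ s ∈ S, c s * pol (X s) Y := by
  classical
  induction S using Finset.induction_on with
  | empty => simp [pol]
  | insert a S ha ih =>
    rw [Finset.sum_insert ha, Finset.sum_insert ha, ← ih]
    unfold pol
    simp only [Matrix.add_apply, Matrix.smul_apply, smul_eq_mul]
    ring

private theorem qsn_pol_comm (X Y : Matrix (Fin 2) (Fin 2) L) : pol X Y = pol Y X := by
  unfold pol
  ring

private theorem qsn_pol_self (X : Matrix (Fin 2) (Fin 2) L) : pol X X = 2 * X.det := by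
  rw [Matrix.det_fin_two]
  unfold pol
  ring

private theorem qsn_pol_map {L' : Type*} [Field L'] (f : L →+* L')
    (X Y : Matrix (Fin 2) (Fin 2) L) : pol (X.map f) (Y.map f) = f (pol X Y) := by
  unfold pol
  simp only [Matrix.map_apply, map_sub, map_add, map_mul]

end Pol

variable {M Ω : Type*} [Field M] [CharZero M] [Field Ω] [Algebra M Ω] {K : Subfield M}
  {K' : Subfield Ω} {q : ℕ} {n : Fin q → ℕ} {x y : M}
  {N : (Fin q → MvPolynomial (Fin 2) K) →ₗ[K] Matrix (Fin 2) (Fin 2) M}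

private theorem qsn_deg {R S : Type*} [CommSemiring R] [CommSemiring S] (f : R →+* S)
    (p : MvPolynomial (Fin 2) R) : (map f p).totalDegree ≤ p.totalDegree := by
  unfold totalDegree
  exact Finset.sup_mono (support_map_subset f p)

/-- the index set of the coefficients -/
private noncomputable def qsnS (Q : Fin q → MvPolynomial (Fin 2) K') :
    Finset (Σ _ : Fin q, (Fin 2 →₀ ℕ)) :=
  Finset.univ.sigma fun j => (Q j).support

private theorem qsn_mem {Q : Fin q → MvPolynomial (Fin 2) K'} (hQ : Q ∈ WV K' n)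
    {s : Σ _ : Fin q, (Fin 2 →₀ ℕ)} (hs : s ∈ qsnS Q) :
    (Pi.single s.1 (monomial s.2 (1 : K)) : Fin q → MvPolynomial (Fin 2) K) ∈ WV K n := by
  unfold qsnS at hs
  rw [Finset.mem_sigma] at hs
  refine single_mem_WV s.1 (monomial_mem_WW ?_ 1)
  exact degree_le_of_mem ((mem_WV.mp hQ) s.1) hs.2

private theorem qsn_ext (Q : Fin q → MvPolynomial (Fin 2) K') :
    extN K' N Q = ∑ s ∈ qsnS Q, ((coeff s.2 (Q s.1) : K') : Ω) •
      (N (Pi.single s.1 (monomial s.2 1))).map (algebraMap M Ω) := by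
  ext i k
  rw [extN_apply, Matrix.sum_apply, qsnS, Finset.sum_sigma]
  rfl

private theorem qsn_push (ψ : Ω →ₗ[K] K) (Q : Fin q → MvPolynomial (Fin 2) K') :
    N (fun j => pushP ψ (Q j)) = ∑ s ∈ qsnS Q, ((ψ ((coeff s.2 (Q s.1) : K') : Ω) : K) : M) •
      N (Pi.single s.1 (monomial s.2 1)) := by
  ext i k
  rw [push_apply, Matrix.sum_apply, qsnS, Finset.sum_sigma]
  rfl

private theorem qsn_pol_mem (h : SlotQ K x y n N) {Q Q' : Fin q → MvPolynomial (Fin 2) K}
    (hQ : Q ∈ WV K n) (hQ' : Q' ∈ WV K n) : pol (N Q) (N Q') ∈ K := by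
  have h1 := h.det _ (Submodule.add_mem _ hQ hQ')
  rw [map_add, det_add_two] at h1
  have h2 : pol (N Q) (N Q') = ((N Q).det + (N Q').det + pol (N Q) (N Q')) - (N Q).det -
      (N Q').det := by ring
  rw [h2]
  exact K.sub_mem (K.sub_mem h1 (h.det _ hQ)) (h.det _ hQ')

private theorem qsn_incl (hK' : ∀ z : Ω, z ∈ K' ↔ IsAlgebraic K z) {z : M} (hz : z ∈ K) :
    algebraMap M Ω z ∈ K' := by
  rw [hK']
  exact isAlgebraic_algebraMap (⟨z, hz⟩ : K)

theorem SlotQ.ext_det (h : SlotQ K x y n N) (hK' : ∀ z : Ω, z ∈ K' ↔ IsAlgebraic K z)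
    {Q : Fin q → MvPolynomial (Fin 2) K'} (hQ : Q ∈ WV K' n) : (extN K' N Q).det ∈ K' := by
  have h2 : (2 : Ω) ≠ 0 := by
    have h3 : algebraMap M Ω 2 ≠ 0 := by
      rw [Ne, map_eq_zero]
      exact two_ne_zero
    rwa [map_ofNat] at h3
  have h1 : pol (extN K' N Q) (extN K' N Q) ∈ K' := by
    rw [qsn_ext Q, qsn_pol_sum]
    refine sum_mem fun s hs => K'.mul_mem (Subtype.property _) ?_
    rw [qsn_pol_comm, qsn_pol_sum]
    refine sum_mem fun t ht => K'.mul_mem (Subtype.property _) ?_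
    rw [qsn_pol_map]
    exact qsn_incl hK' (qsn_pol_mem h (qsn_mem hQ ht) (qsn_mem hQ hs))
  rw [qsn_pol_self] at h1
  have h3 : (extN K' N Q).det = 2⁻¹ * (2 * (extN K' N Q).det) := by
    rw [← mul_assoc, inv_mul_cancel₀ h2, one_mul]
  rw [h3]
  refine K'.mul_mem (K'.inv_mem ?_) h1
  have h4 : (2 : Ω) = ((2 : K') : Ω) := rfl
  rw [h4]
  exact Subtype.property _

theorem SlotQ.ext_rad (h : SlotQ K x y n N) (hK' : ∀ z : Ω, z ∈ K' ↔ IsAlgebraic K z)
    {Q : Fin q → MvPolynomial (Fin 2) K'} (hQ : Q ∈ WV K' n)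
    (h0 : ∀ Q' ∈ WV K' n, (extN K' N (Q + Q')).det = (extN K' N Q).det + (extN K' N Q').det) :
    extN K' N Q = 0 := by
  have hKK : ∀ z : K, algebraMap M Ω z ∈ K' := fun z => qsn_incl hK' z.2
  rw [extN_eq_zero_iff h.alg hK']
  intro ψ
  refine h.rad _ (mem_WV.mpr fun j => pushP_mem ψ (mem_WV.mp hQ j)) fun R hR => ?_
  -- the polar form with a member of the family over the small field
  have hR' : (fun j => map (inclK hKK) (R j)) ∈ WV K' n := by
    rw [mem_WV]
    intro j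
    rw [mem_WW]
    exact (qsn_deg _ _).trans (mem_WW.mp (mem_WV.mp hR j))
  have h1 := h0 _ hR'
  rw [map_add, det_add_two, extN_map hKK, qsn_ext Q] at h1
  have h2 : pol (∑ s ∈ qsnS Q, ((coeff s.2 (Q s.1) : K') : Ω) •
      (N (Pi.single s.1 (monomial s.2 1))).map (algebraMap M Ω))
      ((N R).map (algebraMap M Ω)) = 0 := by
    linear_combination h1
  rw [qsn_pol_sum] at h2
  simp only [qsn_pol_map] at h2
  have h3 := ld_one h.alg (qsnS Q) (fun s => ((coeff s.2 (Q s.1) : K') : Ω))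
    (fun s _ => (hK' _).1 (Subtype.property _))
    (fun s => pol (N (Pi.single s.1 (monomial s.2 1))) (N R)) h2 ψ
  rw [map_add, det_add_two, qsn_push ψ Q, qsn_pol_sum, h3, add_zero]

end Pool.Agent.Lib.MP_44a246_ntH
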