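import Mathlib
import Pool.Agent.Lib.MP_44a246_ntH.QSl

/-!
Descent of the alternatives.
-/

set_option linter.unusedSectionVars false

namespace Pool.Agent.Lib.MP_44a246_ntH

open Pool.Agent.Lib.MP_e52354_ntP Pool.Agent.Lib.MP_44a246_ntB Pool.Agent.Lib.MP_e52354_ntI
open MvPolynomial

variable {M Ω : Type*} [Field M] [CharZero M] [Field Ω] [Algebra M Ω] {K : Subfield M}
  {K' : Subfield Ω} {q : ℕ} {n : Fin q → ℕ} {x y : M}
  {N : (Fin q → MvPolynomial (Fin 2) K) →ₗ[K] Matrix (Fin 2) (Fin 2) M}

private theorem qso_deg {R S : Type*} [CommSemiring R] [CommSemiring S] (f : R →+* S)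
    (p : MvPolynomial (Fin 2) R) : (map f p).totalDegree ≤ p.totalDegree := by
  unfold totalDegree
  exact Finset.sup_mono (support_map_subset f p)

private theorem qso_push_zero (ψ : Ω →ₗ[K] K) :
    pushP ψ (0 : MvPolynomial (Fin 2) K') = 0 := by
  unfold pushP
  rw [support_zero, Finset.sum_empty]

private theorem qso_push_sum (ψ : Ω →ₗ[K] K) {ι : Type*} (S : Finset ι)
    (F : ι → MvPolynomial (Fin 2) K') :
    pushP ψ (∑ i ∈ S, F i) = ∑ i ∈ S, pushP ψ (F i) := by
  classical
  induction S using Finset.induction_on with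
  | empty => rw [Finset.sum_empty, Finset.sum_empty, qso_push_zero]
  | insert a S ha ih => rw [Finset.sum_insert ha, Finset.sum_insert ha, pushP_add, ih]

private theorem qso_push_single (ψ : Ω →ₗ[K] K) (j₀ : Fin q) (F : MvPolynomial (Fin 2) K') :
    (fun j => pushP ψ ((Pi.single j₀ F : Fin q → MvPolynomial (Fin 2) K') j)) =
      Pi.single j₀ (pushP ψ F) := by
  funext j
  by_cases h : j = j₀
  · subst h
    rw [Pi.single_eq_same, Pi.single_eq_same]
  · rw [Pi.single_eq_of_ne h, Pi.single_eq_of_ne h, qso_push_zero]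

private theorem qso_map_mem (hKK : ∀ z : K, algebraMap M Ω z ∈ K') {m : ℕ}
    {R : MvPolynomial (Fin 2) K} (hR : R ∈ WW K m) : map (inclK hKK) R ∈ WW K' m := by
  rw [mem_WW]
  exact (qso_deg _ _).trans (mem_WW.mp hR)

private theorem qso_fin (F : Type*) [Field F] (k : ℕ) : FiniteDimensional F (WW F k) := by
  apply Module.finite_of_finrank_pos
  have := finrank_WWk F k
  by_contra hcon
  have h0 : Module.finrank F (WW F k) = 0 := by omega
  rw [h0] at this
  have h1 : 0 < (k + 1) * (k + 2) := by positivity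
  omega

/-- pushing down an equation -/
private theorem qso_down (hK : ∀ z : M, IsAlgebraic K z → z ∈ K)
    (hK' : ∀ z : Ω, z ∈ K' ↔ IsAlgebraic K z) (hKK : ∀ z : K, algebraMap M Ω z ∈ K')
    {j₀ : Fin q} {F : MvPolynomial (Fin 2) K'} {R : MvPolynomial (Fin 2) K}
    (h0 : extN K' N (Pi.single j₀ (F * map (inclK hKK) R)) = 0) (ψ : Ω →ₗ[K] K) :
    N (Pi.single j₀ (pushP ψ F * R)) = 0 := by
  have h1 := (extN_eq_zero_iff hK hK' _).1 h0 ψ
  rw [qso_push_single, pushP_mul_map] at h1
  exact h1

/-- descent of the alternatives -/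
theorem AltQ.descend (hK : ∀ z : M, IsAlgebraic K z → z ∈ K)
    (hK' : ∀ z : Ω, z ∈ K' ↔ IsAlgebraic K z) {j₀ : Fin q} (h : AltQ K' n (extN K' N) j₀) :
    AltQ K n N j₀ := by
  classical
  have hKK : ∀ z : K, algebraMap M Ω z ∈ K' := fun z => (hK' _).2 (isAlgebraic_algebraMap z)
  rcases h with ⟨ℓ, hℓ, hne, h1⟩ | h1
  · obtain ⟨ψ, hψ⟩ := exists_pushP_ne (K := K) hne
    refine Or.inl ⟨pushP ψ ℓ, pushP_mem ψ hℓ, hψ, fun m hm R hR => ?_⟩
    exact qso_down hK hK' hKK (h1 m hm _ (qso_map_mem hKK hR)) ψ
  · refine Or.inr fun m hm => ?_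
    obtain ⟨S', hS', hS'0⟩ := h1 m hm
    let S : Submodule K (WW K m) :=
      { carrier := {F | ∀ G ∈ WW K (n j₀ - m),
          N (Pi.single j₀ ((F : MvPolynomial (Fin 2) K) * G)) = 0}
        add_mem' := by
          intro F F' hF hF' G hG
          have e : (((F + F' : WW K m) : MvPolynomial (Fin 2) K) * G) =
              (F : MvPolynomial (Fin 2) K) * G + (F' : MvPolynomial (Fin 2) K) * G := by
            rw [Submodule.coe_add, add_mul]
          rw [e, Pi.single_add, map_add, hF G hG, hF' G hG, add_zero]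
        zero_mem' := by
          intro G _
          rw [Submodule.coe_zero, zero_mul, Pi.single_zero, map_zero]
        smul_mem' := by
          intro c F hF G hG
          have e : (((c • F : WW K m) : MvPolynomial (Fin 2) K) * G) =
              c • ((F : MvPolynomial (Fin 2) K) * G) := by
            rw [Submodule.coe_smul, smul_mul_assoc]
          rw [e, Pi.single_smul, map_smul, hF G hG, smul_zero] }
    have hSmem : ∀ F : WW K m, F ∈ S ↔ ∀ G ∈ WW K (n j₀ - m),
      N (Pi.single j₀ ((F : MvPolynomial (Fin 2) K) * G)) = 0 := fun F => Iff.rfl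
    refine ⟨S, ?_, fun F hF => (hSmem F).1 hF⟩
    have hfin : FiniteDimensional K (WW K m) := qso_fin K m
    have hfin' : FiniteDimensional K' (WW K' m) := qso_fin K' m
    have hq' : Module.finrank K' (WW K' m ⧸ S') ≤ 3 := by
      have := S'.finrank_quotient_add_finrank
      omega
    have hq : Module.finrank K (WW K m ⧸ S) ≤ 3 := by
      by_contra hcon
      push Not at hcon
      obtain ⟨g, hg⟩ := exists_linearIndependent_of_le_finrank
        (R := K) (M := WW K m ⧸ S) (n := 4) (by omega)
      choose F hF using fun i => Submodule.mkQ_surjective S (g i)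
      -- the images over the large field are dependent modulo `S'`
      let F' : Fin 4 → WW K' m := fun i => ⟨map (inclK hKK) (F i), qso_map_mem hKK (F i).2⟩
      have hdep : ¬ LinearIndependent K' (fun i => S'.mkQ (F' i)) := by
        intro hli
        have := hli.fintype_card_le_finrank
        rw [Fintype.card_fin] at this
        omega
      obtain ⟨κ, hκ, i₀, hi₀⟩ := Fintype.not_linearIndependent_iff.1 hdep
      have hmem : ∑ i, κ i • F' i ∈ S' := by
        rw [← Submodule.Quotient.mk_eq_zero, ← Submodule.mkQ_apply, map_sum, ← hκ]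
        exact Finset.sum_congr rfl fun i _ => map_smul _ _ _
      have hi₀' : ((κ i₀ : K') : Ω) ≠ 0 := fun h0 => hi₀ (Subtype.ext h0)
      obtain ⟨ψ, hψ⟩ : ∃ ψ : Ω →ₗ[K] K, ψ ((κ i₀ : K') : Ω) ≠ 0 := by
        by_contra hcon2
        push Not at hcon2
        exact hi₀' ((Module.forall_dual_apply_eq_zero_iff K _).1 hcon2)
      -- the relation over the small field
      have hpush : pushP ψ ((∑ i, κ i • F' i : WW K' m) : MvPolynomial (Fin 2) K') =
          ((∑ i, ψ ((κ i : K') : Ω) • F i : WW K m) : MvPolynomial (Fin 2) K) := by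
        rw [AddSubmonoidClass.coe_finsetSum, AddSubmonoidClass.coe_finsetSum, qso_push_sum]
        refine Finset.sum_congr rfl fun i _ => ?_
        rw [Submodule.coe_smul, Submodule.coe_smul]
        exact pushP_smul_map hKK ψ (κ i) (F i)
      have hS : ∑ i, ψ ((κ i : K') : Ω) • F i ∈ S := by
        rw [hSmem]
        intro G hG
        rw [← hpush]
        exact qso_down hK hK' hKK (hS'0 _ hmem _ (qso_map_mem hKK hG)) ψ
      have h0 : ∑ i, ψ ((κ i : K') : Ω) • g i = 0 := by
        rw [← (Submodule.Quotient.mk_eq_zero S).2 hS, ← Submodule.mkQ_apply, map_sum]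
        exact Finset.sum_congr rfl fun i _ => by rw [map_smul, hF]
      exact hψ (Fintype.linearIndependent_iff.1 hg _ h0 i₀)
    have := S.finrank_quotient_add_finrank
    omega

end Pool.Agent.Lib.MP_44a246_ntH
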