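import Mathlib
import Pool.Agent.Lib.MP_44a246_ntH.QSi
import Pool.Agent.Lib.MP_44a246_ntH.QSm
import Pool.Agent.Lib.MP_44a246_ntH.QSn
import Pool.Agent.Lib.MP_44a246_ntH.QSo

/-!
The two alternatives of a slot.
-/

set_option linter.unusedSectionVars false

namespace Pool.Agent.Lib.MP_44a246_ntH

open Pool.Agent.Lib.MP_e52354_ntP Pool.Agent.Lib.MP_44a246_ntB Pool.Agent.Lib.MP_e52354_ntI
open MvPolynomial

variable {M Ω : Type*} [Field M] [CharZero M] [Field Ω] [Algebra M Ω] {K : Subfield M}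
  {K' : Subfield Ω} {q : ℕ} {n : Fin q → ℕ} {x y : M}
  {N : (Fin q → MvPolynomial (Fin 2) K) →ₗ[K] Matrix (Fin 2) (Fin 2) M}

private theorem qsp_deg {R S : Type*} [CommSemiring R] [CommSemiring S] (f : R →+* S)
    (p : MvPolynomial (Fin 2) R) : (map f p).totalDegree ≤ p.totalDegree := by
  unfold totalDegree
  exact Finset.sup_mono (support_map_subset f p)

private theorem qsp_trans (hK' : ∀ z : Ω, z ∈ K' ↔ IsAlgebraic K z) {z : Ω}
    (hz : IsAlgebraic K' z) : IsAlgebraic K z := by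
  have hKK : ∀ z : K, algebraMap M Ω z ∈ K' := fun z => (hK' _).2 (isAlgebraic_algebraMap z)
  letI : Algebra K K' := (inclK hKK).toAlgebra
  have hst : IsScalarTower K K' Ω := by
    refine IsScalarTower.of_algebraMap_eq fun c => ?_
    rfl
  have halg : Algebra.IsAlgebraic K K' := by
    refine ⟨fun w => ?_⟩
    have h1 : IsAlgebraic K (algebraMap K' Ω w) := (hK' _).1 w.2
    exact (isAlgebraic_algebraMap_iff (algebraMap K' Ω).injective).1 h1
  exact hz.restrictScalars K

/-- the extended slot -/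
theorem SlotQ.ext (h : SlotQ K x y n N) (hK' : ∀ z : Ω, z ∈ K' ↔ IsAlgebraic K z) :
    SlotQ K' (algebraMap M Ω x) (algebraMap M Ω y) n (extN K' N) where
  alg := by
    intro z hz
    rw [hK']
    exact qsp_trans hK' hz
  quad := fun f hf h0 => h.ext_quad hK' hf h0
  det := fun Q hQ => h.ext_det hK' hQ
  one := by
    obtain ⟨Q, hQ, hQ1⟩ := h.one
    have hKK : ∀ z : K, algebraMap M Ω z ∈ K' := fun z => (hK' _).2 (isAlgebraic_algebraMap z)
    refine ⟨fun j => map (inclK hKK) (Q j), mem_WV.mpr fun j => ?_, ?_⟩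
    · rw [mem_WW]
      exact (qsp_deg _ _).trans (mem_WW.mp (mem_WV.mp hQ j))
    · rw [extN_map, hQ1, Matrix.map_one _ (map_zero _) (map_one _)]
  rad := fun Q hQ h0 => h.ext_rad hK' hQ h0
  comm := ext_comm h.comm

/-- The two alternatives of a slot. -/
theorem SlotQ.alt (h : SlotQ K x y n N) (j₀ : Fin q) (hn : 2 ≤ n j₀) : AltQ K n N j₀ := by
  have hc : CharZero (AlgebraicClosure M) :=
    charZero_of_injective_algebraMap (algebraMap M (AlgebraicClosure M)).injective
  let K' : Subfield (AlgebraicClosure M) := (algebraicClosure K (AlgebraicClosure M)).toSubfield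
  have hK' : ∀ z : AlgebraicClosure M, z ∈ K' ↔ IsAlgebraic K z := fun z =>
    mem_algebraicClosure_iff
  exact AltQ.descend h.alg hK' ((h.ext hK').alt_closed j₀ hn)

end Pool.Agent.Lib.MP_44a246_ntH
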