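import Mathlib
import Pool.Agent.Lib.MP_44a246_ntH.QB2
import Pool.Agent.Lib.MP_44a246_ntH.QB4
import Pool.Agent.Lib.MP_44a246_ntH.QB5
import Pool.Agent.Lib.MP_44a246_ntH.QB6
import Pool.Agent.Lib.MP_44a246_ntH.QSp

/-!
Several equations: the case of a plane is impossible.
-/

set_option linter.unusedSectionVars false

namespace Pool.Agent.Lib.MP_44a246_ntH

open Pool.Agent.Lib.MP_e52354_nt
open Pool.Agent.Lib.MP_e52354_ntP Pool.Agent.Lib.MP_e52354_ntI
open MvPolynomial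

universe u

variable {M : Type u} [Field M] {K : Subfield M} {s q : ℕ} {d : Fin q → ℕ}
  {A : Fin q → (Fin s →₀ ℕ) → K} {al be ga : Fin s → K}
  {D : Fin q → (Fin s →₀ ℕ) → Derivation ℤ M M} {E : Derivation ℤ M M}
  {p : Fin s → M} {G : ℕ → AddSubgroup M} {l a b : Fin s}

/-- The plane case is impossible. -/
theorem MCtx.plane_falseQ [CharZero M] (h : MCtx K d D E A p G)
    (P : ∀ j, Pln (D j) (d j) p l a b al be ga) {k : ℕ} (hk : 1 ≤ k) (hs : s = q + 2 * k + 2)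
    {n : Fin q → ℕ} (hn : ∀ j, n j + 2 = d j) (hd : ∑ j, d j = 3 * k + 2 + q)
    (hf : ∃ j, fH (d j) (A j) al be ga ≠ 0) (hxi : XiV K d D E A p al be ga l a b)
    (L : Fin k → Fin 2 → (Fin s → M) →ₗ[M] M) (hLp : ∀ i j, L i j p = 0)
    (hLE : ∀ i j, L i j (fun k => E (p k)) = 0)
    (hL0 : ∀ z : Fin s → M, (∀ j, grad (d j) (fun J => (A j J : M)) p ⬝ᵥ z = 0) →
      (∀ i j, L i j z = 0) → ∃ t t' : M, z = t • p + t' • (fun k => E (p k)))
    (c₀ : Fin k → Fin q → MvPolynomial (Fin 2) K)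
    (hc₀ : ∀ i, c₀ i ∈ WV K (fun j => n j + 1))
    (hc : ∀ i j j', L i j (UVq K D d l a b p j' (c₀ i)) = if j = j' then 1 else 0)
    (hK : ∀ i, ∀ Q ∈ WV K (fun j => n j + 1),
      L i 0 (UVq K D d l a b p 0 Q) * L i 1 (UVq K D d l a b p 1 Q) -
      L i 1 (UVq K D d l a b p 0 Q) * L i 0 (UVq K D d l a b p 1 Q) ∈ K)
    (Λ : (Fin s → M) →ₗ[M] M) (hΛE : Λ (fun k => E (p k)) = 1)
    (hΛ : ∀ j₀ i, ∀ Q ∈ WW K (n j₀ + 1), Λ (UU K (D j₀) (d j₀) l a b p i Q) ∈ G 1)
    (hΛ' : ∀ j₀, ∀ Q ∈ WW K (n j₀ + 1), p a * Λ (UU K (D j₀) (d j₀) l a b p 1 Q) -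
      p b * Λ (UU K (D j₀) (d j₀) l a b p 0 Q) ∈ G 1) : False := by
  classical
  obtain ⟨j₁, hf₁⟩ := hf
  have hW := (h.H j₁).W
  -- the equation of the curve
  have hyK : p b ∉ K := fun hb => HCtx.notMem_b (P j₁) ⟨p b, hb⟩ (sub_self _)
  obtain ⟨g, hg0, hgx, -, hgd⟩ := exists_gen (K := K) (x := p a) (y := p b)
    hW.alg hyK hf₁ ((h.H j₁).fp (P j₁))
  choose c hcf using fun j => hgd _ ((h.H j).fp (P j))
  have hmin : ∀ f : MvPolynomial (Fin 2) K, f ≠ 0 → evp K (p a) (p b) f = 0 →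
      g.totalDegree ≤ f.totalDegree := by
    intro f hf0 hfx
    obtain ⟨t, rfl⟩ := hgd f hfx
    have ht : t ≠ 0 := by
      rintro rfl
      exact hf0 (mul_zero g)
    rw [totalDegree_mul_of_isDomain hg0 ht]
    exact Nat.le_add_right _ _
  have hg2 := two_le_degree (P j₁).hxy hg0 hgx
  have hc0 : c j₁ ≠ 0 := by
    intro h0
    exact hf₁ (by rw [hcf j₁, h0, mul_zero])
  have hfd := mem_WW.mp (fH_mem (d := d j₁) (A := A j₁) (al := al) (be := be) (ga := ga))
  rw [hcf j₁, totalDegree_mul_of_isDomain hg0 hc0] at hfd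
  -- the counts
  have htr : Transcendental K (p b) := by
    intro halg
    have h4 := hW.alg _ halg
    exact HCtx.notMem_b (P j₁) ⟨p b, h4⟩ (sub_self _)
  have hV : ∀ j, (d j + 1) * (d j + 2) ≤ 2 * Module.finrank K (VV2 K (p a) (p b) (d j)) +
      (d j + 1 - g.totalDegree) * (d j + 2 - g.totalDegree) := fun j =>
    finrank_VV2 (x := p a) htr (n := g.totalDegree) (fun f hf0 hf => hmin f hf0 hf) (d j)
  have hd2 : ∀ j, 2 ≤ d j := fun j => by have := hn j; omega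
  have hgW : g ∈ WW K g.totalDegree := mem_WW.mpr le_rfl
  have hcount := h.countQ P j₁ hgW hg0 hgx c hcf
  obtain ⟨he3, hd1, hoth⟩ := numQ_one (V := fun j => Module.finrank K (VV2 K (p a) (p b) (d j)))
    hd2 hd hg2 hV (by omega) (j₀ := j₁) (by omega)
  have hoth0 : ∀ j, j ≠ j₁ → fH (d j) (A j) al be ga = 0 := by
    intro j hj
    by_contra hne
    have h1 := hmin _ hne ((h.H j).fp (P j))
    have h2 := mem_WW.mp (fH_mem (d := d j) (A := A j) (al := al) (be := be) (ga := ga))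
    have h3 := hoth j hj
    omega
  by_cases hE : ∀ j, hat (h.H j₁).dE (lf al be ga j) = 0
  · have h1 := h.caseBQ P j₁ hg0 hgx hmin (hcf j₁) hc0 (by omega) hoth0 hE
    exact numQ_B (V := fun j => Module.finrank K (VV2 K (p a) (p b) (d j))) hk hd2 hd he3 hV
      (j₀ := j₁) (by omega) hoth (by omega)
  · have hE' := hE
    push Not at hE'
    obtain ⟨k₀, hk₀⟩ := hE'
    have h1 := h.countA P j₁ hgW hg0 hgx c hcf hk₀
    have h2 := numQ_A (V := fun j => Module.finrank K (VV2 K (p a) (p b) (d j))) hd2 hd he3 hV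
      (j₀ := j₁) (by omega) hoth (by omega)
    have hn1 := hn j₁
    have hquad : ∀ f ∈ WW K 2, evp K (p a) (p b) f = 0 → f = 0 := by
      intro f hf2 hf0
      by_contra hne
      have h3 := hmin f hne hf0
      have h4 := mem_WW.mp hf2
      omega
    have hSQ := fun i => h.slotQ P j₁ hn hxi hquad (L i) (hLp i) (hLE i) (hc₀ i) (hc i) (hK i)
    have hAlt := fun i => (hSQ i).alt j₁ (by show 2 ≤ n j₁ + 1; omega)
    obtain ⟨m, R₀, Y, hR₀, hm, hY, hRN⟩ := exists_Y (fun i => slotN K D d l a b p (L i)) j₁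
      hAlt (by show k + 3 ≤ n j₁ + 1; omega)
    apply hE
    refine (h.H j₁).caseA' (P j₁) (by omega) hf₁
      (fun f hf0 hfx => by have := hmin f hf0 hfx; omega) hR₀
      (fun F hF => by
        have h3 := hm F hF
        have h4 : n j₁ + 1 - 1 = d j₁ - 2 := by omega
        have h5 : WW K (n j₁ + 1 - 1) = WW K (d j₁ - 2) := by rw [h4]
        exact h5 ▸ h3) Y hY ?_ Λ hΛE ?_ ?_
    · intro R hR ℓ hℓ i'
      set Q : MvPolynomial (Fin 2) K := ℓ * (R₀ * (R : MvPolynomial (Fin 2) K)) with hQ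
      have hQW : Q ∈ WW K (n j₁ + 1) := by
        have h3 := mul_mem_WW hℓ (hm _ R.2)
        exact WW_mono (by omega) h3
      have hQV : (Pi.single j₁ Q : Fin q → MvPolynomial (Fin 2) K) ∈
          WV K (fun j => n j + 1) := single_mem_WV j₁ hQW
      obtain ⟨t, t', ht⟩ := hL0 (UVq K D d l a b p i' (Pi.single j₁ Q))
        (fun j => h.grad_UV P (e := fun j => n j + 1) hn hQV i' j) (fun i j => by
          have h3 := hRN R hR ℓ hℓ i
          have h4 := congrFun (congrFun h3 j) i'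
          rw [slotN_apply] at h4
          exact h4)
      rw [UVq_single] at ht
      have h5 := congrFun ht l
      rw [UU_l (P j₁).hpl, Pi.add_apply, Pi.smul_apply, Pi.smul_apply, (P j₁).hpl,
        Derivation.map_one_eq_zero, smul_zero, add_zero, smul_eq_mul, mul_one] at h5
      refine ⟨t', ?_⟩
      rw [ht, ← h5, zero_smul, zero_add]
    · intro i Q hQ
      exact hΛ j₁ i Q (WW_mono (by omega) hQ)
    · intro Q hQ
      exact hΛ' j₁ Q (WW_mono (by omega) hQ)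

end Pool.Agent.Lib.MP_44a246_ntH
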