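import Mathlib
import Pool.Agent.Lib.MP_e52354_ntP.Back11
import Pool.Agent.Lib.MP_e52354_ntI.KBack4
import Pool.Agent.Lib.MP_44a246_ntH.HF8
import Pool.Agent.Lib.MP_44a246_ntH.HF9
import Pool.Agent.Lib.MP_44a246_ntH.HF10
import Pool.Agent.Lib.MP_44a246_ntH.QB2

/-!
Several forms, the borderline case with a further derivation: the abstract situation.
-/

set_option linter.unusedSectionVars false

namespace Pool.Agent.Lib.MP_44a246_ntH

open Pool.Agent.Lib.MP_e52354_nt Pool.Agent.Lib.MP_e52354_ntG Pool.Agent.Lib.MP_e52354_ntC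
open Pool.Agent.Lib.MP_e52354_ntW Pool.Agent.Lib.MP_e52354_ntP Pool.Agent.Lib.MP_e52354_ntI
open MvPolynomial

universe u w w'

variable {s q : ℕ} {d : Fin q → ℕ} {γ : Type w'} {M : Type u} [Field M] [CharZero M]
  {Y : DData (Option (MIdx s q d)) γ M} {p : Fin s → M} {l a b : Fin s} {k : ℕ}

theorem mA_KKq (j : Fin q) (J : Fin s →₀ ℕ) : mA (base Y) j J ∈ KK Y := by
  unfold mA
  split_ifs with hJ
  · exact KK_a (X := Y) (some _)
  · exact zero_mem _

/-- the coefficients as elements of the subfield -/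
noncomputable def AKq (Y : DData (Option (MIdx s q d)) γ M) (j : Fin q) (J : Fin s →₀ ℕ) :
    KK Y := ⟨mA (base Y) j J, mA_KKq j J⟩

theorem coe_AKq (j : Fin q) (J : Fin s →₀ ℕ) : ((AKq Y j J : KK Y) : M) = mA (base Y) j J := rfl

theorem mD_KKq (j : Fin q) (J : Fin s →₀ ℕ) {y : M} (hy : y ∈ KK Y) :
    mD (base Y) j J y ∈ KK Y := by
  unfold mD
  split_ifs with hJ
  · exact KK_D (X := Y) (some _) hy
  · exact zero_mem _

variable {al be ga : Fin s → KK Y} {lam : Fin q → (Fin s →₀ ℕ) → KK Y}

/-- the corrected derivations -/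
noncomputable abbrev Dtq (Y : DData (Option (MIdx s q d)) γ M)
    (lam : Fin q → (Fin s →₀ ℕ) → KK Y) (j : Fin q) (J : Fin s →₀ ℕ) : Derivation ℤ M M :=
  mD (base Y) j J - (lam j J : M) • Y.D none

theorem Dtq_apply (j : Fin q) (J : Fin s →₀ ℕ) (y : M) :
    Dtq Y lam j J y = mD (base Y) j J y - lam j J * Y.D none y := by
  rw [Dtq, Derivation.sub_apply, Derivation.smul_apply, smul_eq_mul]

/-- the abstract situation -/
theorem hctxq (hF : ∀ j, Fval (d j) (mA (base Y) j) p = 0) (hpl : p l = 1) (hEp : Ev Y p ≠ 0)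
    (hNB : NB Y p) : MCtx (KK Y) d (Dtq Y lam) (Y.D none) (AKq Y) p (Gam Y p) where
  H := fun j =>
    { W := by
        refine Wts_Gam ?_ hNB
        rintro rfl
        exact zero_ne_one hpl
      DK := by
        intro J y hy
        rw [Dtq_apply]
        exact sub_mem (mD_KKq j J hy) (mul_mem (lam j J).2 (KK_D (X := Y) none hy))
      EK := fun y hy => KK_D (X := Y) none hy
      DA := by
        intro I hI J hJ
        rw [Dtq_apply, coe_AKq, E_mA, mul_zero, sub_zero]
        exact m_hD_self (base Y) j I hI J hJ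
      EA := fun J => E_mA j J
      F0 := hF j
      Ep := by
        by_contra hcon
        push Not at hcon
        exact hEp (funext hcon)
      wD := by
        intro J _ i i'
        rw [Dtq_apply, Dtq_apply]
        have h1 := gam_wedge (wt_up (wt_dp2 (X := base Y) (p := p) j J)) i i'
        have h2 := gam_wedge (wt_Ev (Y := Y) (p := p)) i i'
        have h3 := Gam_smul (p := p) (lam j J).2 h2
        have h4 := sub_mem h1 h3
        convert h4 using 1
        simp only [dp, Ev]
        ring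
      wE := fun i i' => gam_wedge (wt_Ev (Y := Y) (p := p)) i i'
      wDE := by
        intro J _ i i'
        rw [Dtq_apply, Dtq_apply]
        have h1 := gam_wedge3 hpl (wt_Ev (Y := Y) (p := p))
          (wt_up (wt_dp2 (X := base Y) (p := p) j J)) (Ev_one hpl) (by
            show mD (base Y) j J (p l) = 0
            rw [hpl]
            exact Derivation.map_one_eq_zero _) i i'
        convert h1 using 1
        simp only [dp, Ev]
        ring }
  cross := by
    intro j j' hj I hI J hJ
    rw [Dtq_apply, coe_AKq, E_mA, mul_zero, sub_zero, m_hD (base Y) j j' I hI J hJ,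
      if_neg (fun h => hj h.1)]

/-- the vectors xi -/
theorem hxiV (P : ∀ j, Pln (Dtq Y lam j) (d j) p l a b al be ga)
    (hxi : ∀ z ∈ mSxi (base Y) p, z ∈ W2 Y p) :
    XiV (KK Y) d (Dtq Y lam) (Y.D none) (AKq Y) p al be ga l a b := by
  classical
  intro i j
  obtain ⟨t, t', ht⟩ := mem_W2.mp (hxi _ ⟨i, j, rfl⟩)
  have hJ : ∀ f, ∀ J : Fin s →₀ ℕ, J.degree = d f → ∀ k, mD (base Y) f J (p k) =
      EE (KK Y) (Dtq Y lam f) (d f) l a b p (mf al be ga J) k + lam f J * Y.D none (p k) := by
    intro f J hJ k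
    have h1 := (P f).D_eq hJ k
    rw [Dtq_apply] at h1
    rw [← h1]
    ring
  set μ : M := ∑ f, ∑ I ∈ expo (Fin s) (d f), mA (base Y) f I * (I i : M) *
    lam f (I - Finsupp.single i 1 + Finsupp.single j 1) with hμ
  refine ⟨t, t' - μ, ?_⟩
  have hE : ∀ f, PH (d f) (AKq Y f) al be ga i * lf al be ga j = ∑ I ∈ expo (Fin s) (d f),
      (AKq Y f I * (I i : KK Y)) • mf al be ga (I - Finsupp.single i 1 + Finsupp.single j 1) := by
    intro f
    unfold PH
    rw [Finset.sum_mul]
    refine Finset.sum_congr rfl fun I _ => ?_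
    rw [mf_add, mf_single, pow_one, smul_mul_assoc]
  rw [EVq_apply]
  funext k
  rw [Finset.sum_apply]
  have h1 := congrFun ht k
  simp only [mxi, Pi.add_apply, Pi.smul_apply, smul_eq_mul] at h1
  have h2 : ∑ f, ∑ I ∈ expo (Fin s) (d f), mA (base Y) f I * (I i : M) *
      mD (base Y) f (I - Finsupp.single i 1 + Finsupp.single j 1) (p k) =
      ∑ f, EE (KK Y) (Dtq Y lam f) (d f) l a b p
        (PH (d f) (AKq Y f) al be ga i * lf al be ga j) k + μ * Y.D none (p k) := by
    rw [hμ, Finset.sum_mul, ← Finset.sum_add_distrib]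
    refine Finset.sum_congr rfl fun f _ => ?_
    rw [hE, map_sum, Finset.sum_apply, Finset.sum_mul, ← Finset.sum_add_distrib]
    refine Finset.sum_congr rfl fun I hI => ?_
    rw [map_smul, Pi.smul_apply, smul_eq']
    by_cases hi : I i = 0
    · simp [hi]
    · rw [hJ f _ (mem_expo.mp (shift_mem hI hi j))]
      push_cast
      rw [coe_AKq]
      ring
  rw [h2] at h1
  simp only [Pi.sub_apply, Pi.add_apply, Pi.smul_apply, smul_eq_mul]
  have h3 : (Pi.single i (1 : M) : Fin s → M) k = if i = k then 1 else 0 := by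
    rw [Pi.single_apply]
    simp only [eq_comm]
  rw [h3]
  have h4 : p j * (if i = k then (1 : M) else 0) = if i = k then p j else 0 := by
    split_ifs <;> simp
  rw [h4]
  have h5 : Ev Y p k = Y.D none (p k) := rfl
  rw [h5] at h1
  linear_combination h1

/-- the restriction of some equation to the plane is not zero -/
theorem fH_ne_zeroQ {j₀ : Fin q} (P : Pln (Dtq Y lam j₀) (d j₀) p l a b al be ga)
    (hOff : ¬ MOnLine d (mA (base Y)) p) : ∃ j, fH (d j) (AKq Y j) al be ga ≠ 0 := by
  by_contra hcon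
  push Not at hcon
  apply hOff
  refine lineP_zero_onLine (θ := fun k => (be k : M)) (b := a) (l := l) P.hpl ?_ ?_ fun j => ?_
  · show ((be l : KK Y) : M) = 0
    rw [P.coef_l.2.1]; rfl
  · show ((be a : KK Y) : M) = 1
    rw [P.coef_a.2.1]; rfl
  · apply Polynomial.funext
    intro t
    have h1 : evp (KK Y) (p a + t) (p b) (fH (d j) (AKq Y j) al be ga) =
        Fval (d j) (mA (base Y) j) (fun k => p k + be k * t) := by
      unfold fH Fval
      rw [map_sum]
      refine Finset.sum_congr rfl fun J _ => ?_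
      rw [map_smul, evp_mf (p := fun k => p k + be k * t) (fun k => by
        show p k + be k * t = _
        rw [P.hp k]
        ring)]
      rfl
    rw [eval_lineP, Polynomial.eval_zero, ← h1, hcon j, map_zero]

/-- the vectors of integral combinations -/
noncomputable def mfQ (d : Fin q → ℕ) (al be ga : Fin s → KK Y) (c : CC s q) :
    Fin q → MvPolynomial (Fin 2) (KK Y) := fun j => mfC al be ga (d j - 1) (c j)

theorem mfQ_mem {n : Fin q → ℕ} (hn : ∀ j, n j + 2 = d j) (c : CC s q) :
    mfQ d al be ga c ∈ WV (KK Y) (fun j => n j + 1) := by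
  rw [mem_WV]
  intro j
  have h1 : n j + 1 = d j - 1 := by have := hn j; omega
  rw [h1]
  exact mfC_mem _ _

/-- comparison of the vectors zeta of the corrected derivations -/
theorem zetaC_Dtq {n : Fin q → ℕ} (hn : ∀ j, n j + 2 = d j)
    (P : ∀ j, Pln (Dtq Y lam j) (d j) p l a b al be ga) (c : CC s q) (i : Fin 2) :
    ∃ μ : M, UVq (KK Y) (Dtq Y lam) d l a b p i (mfQ d al be ga c) =
      mzetaC (base Y) p c l (![a, b] i) - μ • Ev Y p := by
  have h1 : ∀ j v, dC (d j - 1) (Dtq Y lam j) p (c j) v = (fun k =>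
      ∑ m ∈ expo (Fin s) (d j - 1), (c j m : M) *
        mD (base Y) j (m + Finsupp.single v 1) (p k)) -
      (∑ m ∈ expo (Fin s) (d j - 1), (c j m : M) * lam j (m + Finsupp.single v 1)) • Ev Y p := by
    intro j v
    funext k
    simp only [dC, Pi.sub_apply, Pi.smul_apply, smul_eq_mul, Finset.sum_mul]
    rw [← Finset.sum_sub_distrib]
    refine Finset.sum_congr rfl fun m _ => ?_
    rw [Dtq_apply]
    simp only [Ev]
    ring
  have h2 : ∀ v, ∑ j, dC (d j - 1) (Dtq Y lam j) p (c j) v = mdC (base Y) p c v -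
      (∑ j, ∑ m ∈ expo (Fin s) (d j - 1), (c j m : M) * lam j (m + Finsupp.single v 1)) •
        Ev Y p := by
    intro v
    rw [Finset.sum_congr rfl fun j _ => h1 j v, Finset.sum_sub_distrib, ← Finset.sum_smul]
    congr 1
    funext k
    rw [Finset.sum_apply]
    rfl
  refine ⟨p l * (∑ j, ∑ m ∈ expo (Fin s) (d j - 1), (c j m : M) *
      lam j (m + Finsupp.single (![a, b] i) 1)) -
    p (![a, b] i) * (∑ j, ∑ m ∈ expo (Fin s) (d j - 1), (c j m : M) *
      lam j (m + Finsupp.single l 1)), ?_⟩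
  have h3 : UVq (KK Y) (Dtq Y lam) d l a b p i (mfQ d al be ga c) =
      ∑ j, zetaC (d j - 1) (Dtq Y lam j) p (c j) l (![a, b] i) := by
    rw [UVq_sum]
    refine Finset.sum_congr rfl fun j _ => ?_
    rw [zetaC_UU (P j) (by have := hn j; omega)]
    rfl
  rw [h3]
  unfold zetaC mzetaC
  rw [Finset.sum_sub_distrib, ← Finset.smul_sum, ← Finset.smul_sum, h2, h2]
  module

end Pool.Agent.Lib.MP_44a246_ntH
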