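import Mathlib
import Pool.Agent.Lib.MP_44a246_ntH.QF1
import Pool.Agent.Lib.MP_44a246_ntH.QB7
import Pool.Agent.Lib.MP_44a246_ntH.HF11

/-!
Several forms, the borderline case with a further derivation: the local theorem.
-/

set_option linter.unusedSectionVars false

namespace Pool.Agent.Lib.MP_44a246_ntH

open Pool.Agent.Lib.MP_e52354_nt Pool.Agent.Lib.MP_e52354_ntG Pool.Agent.Lib.MP_e52354_ntC
open Pool.Agent.Lib.MP_e52354_ntW Pool.Agent.Lib.MP_e52354_ntP Pool.Agent.Lib.MP_e52354_ntI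
open MvPolynomial

universe u w w'

section Det

variable {M : Type u} [Field M] [CharZero M] {K : Subfield M} {s q : ℕ} {d : Fin q → ℕ}
  {D : Fin q → (Fin s →₀ ℕ) → Derivation ℤ M M} {p : Fin s → M} {l a b : Fin s}
  {al be ga : Fin s → K}

/-- the vector of restrictions of integral forms -/
noncomputable def mfG (d : Fin q → ℕ) (al be ga : Fin s → K) (c : CC s q) :
    Fin q → MvPolynomial (Fin 2) K := fun j => mfC al be ga (d j - 1) (c j)

theorem mfG_add (c c' : CC s q) :
    mfG d al be ga (c + c') = mfG d al be ga c + mfG d al be ga c' := by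
  funext j
  simp only [mfG, mfC, Pi.add_apply, Int.cast_add, add_smul, Finset.sum_add_distrib]

theorem mfG_ind {j₀ : Fin q} (P : Pln (D j₀) (d j₀) p l a b al be ga) {n : Fin q → ℕ}
    (hn : ∀ j, n j + 2 = d j)
    (t : Sigma fun j : Fin q => {m : Fin 2 →₀ ℕ // m.degree ≤ n j + 1}) :
    mfG d al be ga (Pi.single t.1 (fun J => if hm l a b (d t.1 - 1) t.2.1 = J then 1 else 0)) =
      ((monV (K := K) n t : WV K (fun f => n f + 1)) : Fin q → MvPolynomial (Fin 2) K) := by
  classical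
  obtain ⟨f, m, hm0⟩ := t
  funext j
  by_cases hj : j = f
  · subst hj
    show mfC al be ga (d j - 1) ((Pi.single j _ : CC s q) j) =
      (Pi.single j (monomial m 1) : Fin q → MvPolynomial (Fin 2) K) j
    rw [Pi.single_eq_same, Pi.single_eq_same]
    have hd : n j + 1 = d j - 1 := by have := hn j; omega
    have hm1 : m.degree ≤ d j - 1 := by rw [← hd]; exact hm0
    unfold mfC
    rw [Finset.sum_eq_single (hm l a b (d j - 1) m)]
    · simp only [if_true, Int.cast_one, one_smul, P.mf_hm]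
    · intro J _ hJ
      simp only [if_neg (Ne.symm hJ), Int.cast_zero, zero_smul]
    · intro hnot
      exact absurd (mem_expo.mpr (degree_hm hm1)) hnot
  · show mfC al be ga (d j - 1) ((Pi.single f _ : CC s q) j) =
      (Pi.single f (monomial m 1) : Fin q → MvPolynomial (Fin 2) K) j
    rw [Pi.single_eq_of_ne hj, Pi.single_eq_of_ne hj]
    unfold mfC
    simp

/-- the determinant is in the subfield for all vectors of polynomials -/
theorem det_memQ {j₀ : Fin q} (P : Pln (D j₀) (d j₀) p l a b al be ga) {n : Fin q → ℕ}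
    (hn : ∀ j, n j + 2 = d j) (L : Fin 2 → (Fin s → M) →ₗ[M] M)
    (hK : ∀ c : CC s q,
      L 0 (UVq K D d l a b p 0 (mfG d al be ga c)) * L 1 (UVq K D d l a b p 1 (mfG d al be ga c)) -
      L 1 (UVq K D d l a b p 0 (mfG d al be ga c)) * L 0 (UVq K D d l a b p 1 (mfG d al be ga c))
        ∈ K) {Q : Fin q → MvPolynomial (Fin 2) K} (hQ : Q ∈ WV K (fun j => n j + 1)) :
    L 0 (UVq K D d l a b p 0 Q) * L 1 (UVq K D d l a b p 1 Q) -
      L 1 (UVq K D d l a b p 0 Q) * L 0 (UVq K D d l a b p 1 Q) ∈ K := by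
  classical
  let vL : Fin 2 → Fin 2 → (WV K (fun j => n j + 1) →ₗ[K] M) := fun j j' =>
    ((L j).restrictScalars K) ∘ₗ (UVq K D d l a b p j') ∘ₗ (WV K (fun j => n j + 1)).subtype
  have hKc : ∀ c : CC s q, ∀ Q : WV K (fun j => n j + 1),
      (Q : Fin q → MvPolynomial (Fin 2) K) = mfG d al be ga c →
      vL 0 0 Q * vL 1 1 Q - vL 1 0 Q * vL 0 1 Q ∈ K := by
    intro c Q hQ
    show L 0 (UVq K D d l a b p 0 (Q : Fin q → MvPolynomial (Fin 2) K)) *
      L 1 (UVq K D d l a b p 1 (Q : Fin q → MvPolynomial (Fin 2) K)) -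
      L 1 (UVq K D d l a b p 0 (Q : Fin q → MvPolynomial (Fin 2) K)) *
      L 0 (UVq K D d l a b p 1 (Q : Fin q → MvPolynomial (Fin 2) K)) ∈ K
    rw [hQ]
    exact hK c
  refine quad_mem (vL 0 0) (vL 1 0) (vL 0 1) (vL 1 1) (monV (K := K) n) (span_monV n) ?_ ?_
    ⟨Q, hQ⟩
  · intro t
    exact hKc _ _ (mfG_ind P hn t).symm
  · intro t t'
    refine hKc (Pi.single t.1 (fun J => if hm l a b (d t.1 - 1) t.2.1 = J then 1 else 0) +
      Pi.single t'.1 (fun J => if hm l a b (d t'.1 - 1) t'.2.1 = J then 1 else 0)) _ ?_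
    rw [mfG_add, mfG_ind P hn t, mfG_ind P hn t']
    rfl

end Det

variable {s q : ℕ} {d : Fin q → ℕ} {γ : Type w'} {M : Type u} [Field M] [CharZero M]
  {Y : DData (Option (MIdx s q d)) γ M} {p : Fin s → M} {l : Fin s} {k : ℕ}

/-- The borderline case with a further derivation, several forms. -/
theorem hborder_falseQ (hk : 1 ≤ k) (hs : s = q + 2 * k + 2) (hd2 : ∀ j, 2 ≤ d j)
    (hd : ∑ j, d j = 3 * k + 2 + q) (hF : ∀ j, Fval (d j) (mA (base Y) j) p = 0)
    (hpl : p l = 1) (hEp : Ev Y p ≠ 0) (hNB : NB Y p) (hOff : ¬ MOnLine d (mA (base Y)) p) :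
    False := by
  classical
  obtain ⟨n, hn⟩ : ∃ n : Fin q → ℕ, ∀ j, n j + 2 = d j :=
    ⟨fun j => d j - 2, fun j => by have := hd2 j; show d j - 2 + 2 = d j; omega⟩
  have hd1 : ∀ j, 1 ≤ d j := fun j => by have := hd2 j; omega
  obtain ⟨hxi, a, b, al, be, ga, hal, hbe, hga, hp, hD, L, Λ, c, hLp, hLE, hL0, hLc, hLK, hΛE,
    hΛ⟩ := hfront (Y := Y) (q := q) (r := 2 * k + 1) (n := k) (by omega) hk rfl hd1
      (by omega) hF hpl hEp hNB hOff
  let al' : Fin s → KK Y := fun k => ⟨al k, hal k⟩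
  let be' : Fin s → KK Y := fun k => ⟨be k, hbe k⟩
  let ga' : Fin s → KK Y := fun k => ⟨ga k, hga k⟩
  have P0 : ∀ j, Pln (fun _ => (0 : Derivation ℤ M M)) (d j) p l a b al' be' ga' := fun j =>
    { hpl := hpl
      hp := hp
      hD := fun _ _ _ _ => by simp
      hline := by
        intro w hw
        choose u hu v hv huv using hw
        exact hno_line (Y := Y) (A := u) (B := v) (x := w) hF hNB hOff hu hv
          (fun i => by rw [huv i, mul_comm]) }
  have hE0 : ∃ t, Y.D none (p t) ≠ 0 := by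
    by_contra hcon
    push Not at hcon
    exact hEp (funext hcon)
  choose lam P hEE using fun j => exists_corr (D := mD (base Y) j) (E := Y.D none) (P0 j) hE0 (by
    intro m hm' k
    obtain ⟨x, hx, hx'⟩ := hD j m hm' k
    exact ⟨⟨x, hx⟩, fun t => hx' t⟩)
  have P' : ∀ j, Pln (Dtq Y lam j) (d j) p l a b al' be' ga' := P
  have H : MCtx (KK Y) d (Dtq Y lam) (Y.D none) (AKq Y) p (Gam Y p) := hctxq hF hpl hEp hNB
  have hq : ∃ j₀ : Fin q, True := by
    by_contra hcon
    push Not at hcon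
    have h1 : ∑ j, d j = 0 := Finset.sum_eq_zero fun j _ => (hcon j).elim
    omega
  obtain ⟨j₀, -⟩ := hq
  -- the functionals on the vectors
  have hLz : ∀ i j (c' : CC s q) i', L i j (UVq (KK Y) (Dtq Y lam) d l a b p i'
      (mfG d al' be' ga' c')) = L i j (mzetaC (base Y) p c' l (![a, b] i')) := by
    intro i j c' i'
    obtain ⟨μ, hμ⟩ := zetaC_Dtq (Y := Y) (lam := lam) (p := p) hn P' c' i'
    have h1 : mfG d al' be' ga' c' = mfQ d al' be' ga' c' := rfl
    rw [h1, hμ, map_sub, map_smul, hLE, smul_zero, sub_zero]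
  have hUU : ∀ (j : Fin q) {m : Fin 2 →₀ ℕ} (_ : m.degree ≤ n j + 1) (i : Fin 2),
      UU (KK Y) (Dtq Y lam j) (d j) l a b p i (monomial m 1) =
        zeta (mD (base Y) j) p (hm l a b (n j + 1) m) l (![a, b] i) := by
    intro j m hm0 i
    have h1 : UU (KK Y) (Dtq Y lam j) (d j) l a b p i (monomial m 1) =
        UU (KK Y) (mD (base Y) j) (d j) l a b p i (monomial m 1) := by
      rw [UU_apply, UU_apply, hEE, hEE]
    rw [h1]
    have h2 := UU_monomial (K := KK Y) (D := mD (base Y) j) (p := p) (l := l) (a := a) (b := b)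
      hm0 i
    have h3 : n j + 1 + 1 = d j := hn j
    rw [h3] at h2
    rw [h2]
    funext t
    simp only [zeta, hpl, one_mul]
  have hzeta : ∀ (j : Fin q) {m : Fin 2 →₀ ℕ} (_ : m.degree ≤ n j + 1) (u v : Fin s),
      zeta (mD (base Y) j) p (hm l a b (n j + 1) m) u v =
        mzetaC (base Y) p (mind j (hm l a b (n j + 1) m)) u v := by
    intro j m hm0 u v
    rw [mzetaC_ind]
    rw [degree_hm hm0]
    exact hn j
  refine H.plane_falseQ P' hk hs hn hd (fH_ne_zeroQ (P' j₀) hOff) (hxiV P' hxi) L hLp hLE ?_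
    (fun i => mfG d al' be' ga' (c i)) (fun i => mfQ_mem hn (c i)) ?_ ?_ Λ hΛE ?_ ?_
  · intro z hz h0
    exact mem_W2.mp (hL0 z (mem_mTT.mpr fun j => hz j) h0)
  · intro i j j'
    have h1 := hLc i i j j'
    rw [hLz, h1]
    simp
  · intro i Q hQ
    refine det_memQ (P' j₀) hn (L i) ?_ hQ
    intro c'
    rw [hLz, hLz, hLz, hLz]
    exact hLK i c'
  · intro j i Q hQ
    refine WW_induction (P := fun Q => Λ (UU (KK Y) (Dtq Y lam j) (d j) l a b p i Q) ∈ Gam Y p 1)
      ?_ ?_ ?_ hQ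
    · intro m hm0
      rw [hUU j hm0, hzeta j hm0]
      exact hΛ _ _ _
    · intro Q Q' h1 h2
      rw [map_add, map_add]
      exact add_mem h1 h2
    · intro t Q h1
      have h2 : Λ (UU (KK Y) (Dtq Y lam j) (d j) l a b p i (t • Q)) =
          (t : M) * Λ (UU (KK Y) (Dtq Y lam j) (d j) l a b p i Q) := by
        rw [map_smul]
        have : t • (UU (KK Y) (Dtq Y lam j) (d j) l a b p i) Q =
            (t : M) • (UU (KK Y) (Dtq Y lam j) (d j) l a b p i) Q := rfl
        rw [this, map_smul, smul_eq_mul]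
      rw [h2]
      exact Gam_smul t.2 h1
  · intro j Q hQ
    refine WW_induction (P := fun Q => p a * Λ (UU (KK Y) (Dtq Y lam j) (d j) l a b p 1 Q) -
      p b * Λ (UU (KK Y) (Dtq Y lam j) (d j) l a b p 0 Q) ∈ Gam Y p 1) ?_ ?_ ?_ hQ
    · intro m hm0
      rw [hUU j hm0, hUU j hm0, hzeta j hm0, hzeta j hm0]
      have h1 := hΛ (mind j (hm l a b (n j + 1) m)) a b
      rw [mzetaC_base hpl, map_sub, map_smul, map_smul, smul_eq_mul, smul_eq_mul] at h1
      exact h1
    · intro Q Q' h1 h2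
      have h3 := add_mem h1 h2
      rw [map_add, map_add, map_add, map_add]
      convert h3 using 1
      ring
    · intro t Q h1
      have h2 : ∀ i, Λ (UU (KK Y) (Dtq Y lam j) (d j) l a b p i (t • Q)) =
          (t : M) * Λ (UU (KK Y) (Dtq Y lam j) (d j) l a b p i Q) := by
        intro i
        rw [map_smul]
        have : t • (UU (KK Y) (Dtq Y lam j) (d j) l a b p i) Q =
            (t : M) • (UU (KK Y) (Dtq Y lam j) (d j) l a b p i) Q := rfl
        rw [this, map_smul, smul_eq_mul]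
      rw [h2, h2]
      have h3 := Gam_smul (p := p) t.2 h1
      convert h3 using 1
      ring

end Pool.Agent.Lib.MP_44a246_ntH
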